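import Pool.Agent.Lib.MP_ef0d6f_pr.Defs

/-! Task 1 (Calc1): indicators, positions, words, expectations for independent steps. -/

namespace Pool.Agent.MP_ef0d6f_pr

variable {d : ℕ}

theorem ind_of {P : Prop} (h : P) : ind P = 1 := by
  classical
  unfold ind; rw [if_pos h]
theorem ind_of_not {P : Prop} (h : ¬ P) : ind P = 0 := by
  classical
  unfold ind; rw [if_neg h]
theorem ind_nonneg (P : Prop) : 0 ≤ ind P := by
  by_cases h : P
  · rw [ind_of h]; norm_num
  · rw [ind_of_not h]
theorem ind_le_one (P : Prop) : ind P ≤ 1 := by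
  by_cases h : P
  · rw [ind_of h]
  · rw [ind_of_not h]; norm_num
theorem ind_mono {P Q : Prop} (h : P → Q) : ind P ≤ ind Q := by
  by_cases hP : P
  · rw [ind_of hP, ind_of (h hP)]
  · rw [ind_of_not hP]; exact ind_nonneg Q
theorem ind_congr {P Q : Prop} (h : P ↔ Q) : ind P = ind Q :=
  le_antisymm (ind_mono h.1) (ind_mono h.2)
theorem ind_and (P Q : Prop) : ind (P ∧ Q) = ind P * ind Q := by
  by_cases hP : P
  · by_cases hQ : Q
    · rw [ind_of hP, ind_of hQ, ind_of ⟨hP, hQ⟩]; norm_num
    · rw [ind_of hP, ind_of_not hQ, ind_of_not (fun h => hQ h.2)]; norm_num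
  · rw [ind_of_not hP, ind_of_not (fun h : P ∧ Q => hP h.1)]; norm_num
theorem ind_not (P : Prop) : ind (¬ P) = 1 - ind P := by
  by_cases hP : P
  · rw [ind_of hP, ind_of_not (not_not.mpr hP)]; norm_num
  · rw [ind_of_not hP, ind_of hP]; norm_num
/-- union bound in the form used everywhere -/
theorem ind_and_ge (P Q : Prop) : ind P - (1 - ind Q) ≤ ind (P ∧ Q) := by
  rw [ind_and]
  have h1 := ind_nonneg P
  have h2 := ind_le_one P
  have h3 := ind_nonneg Q
  have h4 := ind_le_one Q
  nlinarith

theorem pos_nil : pos ([] : List (S d)) = 0 := by simp [pos]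
theorem pos_cons (s : S d) (w : List (S d)) : pos (s :: w) = step s + pos w := by simp [pos]
theorem pos_append (u w : List (S d)) : pos (u ++ w) = pos u + pos w := by simp [pos]
theorem step_neg (s : S d) : step (neg s) = -step s := by
  obtain ⟨j, b⟩ := s
  unfold step neg
  rw [← Pi.single_neg]
  cases b <;> simp
theorem neg_neg' (s : S d) : neg (neg s) = s := by
  obtain ⟨j, b⟩ := s
  simp [neg]
theorem step_injective : Function.Injective (step : S d → V d) := by
  rintro ⟨j, b⟩ ⟨j', b'⟩ h
  have h1 := congrFun h j
  have h2 := congrFun h j'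
  unfold step at h1 h2
  simp only at h1 h2
  by_cases hj : j = j'
  · subst hj
    simp only [Pi.single_eq_same] at h1
    cases b <;> cases b' <;> simp_all
  · rw [Pi.single_eq_same, Pi.single_eq_of_ne hj] at h1
    cases b <;> simp at h1
theorem step_ne_zero (s : S d) : step s ≠ 0 := by
  obtain ⟨j, b⟩ := s
  intro h
  have h1 := congrFun h j
  unfold step at h1
  simp only [Pi.single_eq_same, Pi.zero_apply] at h1
  cases b <;> simp at h1
theorem length_rev (w : List (S d)) : (rev w).length = w.length := by simp [rev]
theorem rev_rev (w : List (S d)) : rev (rev w) = w := by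
  unfold rev
  rw [List.map_reverse, List.reverse_reverse, List.map_map]
  have : (neg ∘ neg : S d → S d) = id := by
    funext s; exact neg_neg' s
  rw [this, List.map_id]
theorem rev_append (u w : List (S d)) : rev (u ++ w) = rev w ++ rev u := by simp [rev]
theorem Calc1.rev_cons' (s : S d) (w : List (S d)) : rev (s :: w) = rev w ++ [neg s] := by simp [rev]
theorem pos_rev (w : List (S d)) : pos (rev w) = -pos w := by
  induction w with
  | nil => simp [rev, pos]
  | cons s w ih =>
    rw [Calc1.rev_cons', pos_append, ih, pos_cons, pos_cons, pos_nil, step_neg]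
    abel
/-- positions along a reversed word -/
theorem pos_take_rev (w : List (S d)) (t : ℕ) (ht : t ≤ w.length) :
    pos ((rev w).take t) = pos (w.take (w.length - t)) - pos w := by
  have h1 : (rev w).take t = rev (w.drop (w.length - t)) := by
    unfold rev
    rw [List.take_reverse, List.length_map, ← List.map_drop]
  rw [h1, pos_rev]
  have h2 : pos w = pos (w.take (w.length - t)) + pos (w.drop (w.length - t)) := by
    rw [← pos_append, List.take_append_drop]
  rw [h2]; abel

theorem zat_zero (w : List (S d)) : zat w 0 = 0 := by simp [zat, pos]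
theorem zat_length (w : List (S d)) : zat w w.length = pos w := by simp [zat]
theorem zat_append_left (u w : List (S d)) (n : ℕ) (h : n ≤ u.length) :
    zat (u ++ w) n = zat u n := by
  unfold zat
  rw [List.take_append_of_le_length h]
theorem zat_append_right (u w : List (S d)) (n : ℕ) :
    zat (u ++ w) (u.length + n) = pos u + zat w n := by
  unfold zat
  rw [List.take_length_add_append, pos_append]
theorem Calc1.zat_cons_succ (s : S d) (w : List (S d)) (n : ℕ) :
    zat (s :: w) (n + 1) = step s + zat w n := by
  unfold zat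
  rw [List.take_succ_cons, pos_cons]
theorem zat_succ (w : List (S d)) (n : ℕ) (h : n < w.length) :
    ∃ s : S d, zat w (n + 1) = zat w n + step s := by
  refine ⟨w[n], ?_⟩
  unfold zat
  rw [List.take_succ_eq_append_getElem h, pos_append, pos_cons, pos_nil, add_zero]
theorem follows_append (x : ℕ → V d) (u w : List (S d)) :
    Follows x (u ++ w) ↔ Follows x u ∧ Follows (fun n => x (n + u.length)) w := by
  induction u generalizing x with
  | nil => simp [Follows]
  | cons s u ih =>
    rw [List.cons_append]
    change (x 1 = x 0 + step s ∧ Follows (fun n => x (n + 1)) (u ++ w)) ↔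
      (x 1 = x 0 + step s ∧ Follows (fun n => x (n + 1)) u) ∧
        Follows (fun n => x (n + (s :: u).length)) w
    rw [ih]
    simp only [List.length_cons]
    have : (fun n => x (n + u.length + 1)) = (fun n => x (n + (u.length + 1))) := by
      funext n; rfl
    rw [this]
    tauto
theorem follows_zat (x : ℕ → V d) (w : List (S d)) (h : Follows x w) (n : ℕ)
    (hn : n ≤ w.length) : x n = x 0 + zat w n := by
  induction w generalizing x n with
  | nil =>
    have : n = 0 := by simpa using hn
    subst this
    rw [zat_zero, add_zero]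
  | cons s w ih =>
    unfold Follows at h
    cases n with
    | zero => rw [zat_zero, add_zero]
    | succ n =>
      have h1 := ih (fun n => x (n + 1)) h.2 n (by simpa using hn)
      simp only [zero_add] at h1
      rw [h1, h.1, Calc1.zat_cons_succ, add_assoc]
theorem follows_iff (x : ℕ → V d) (w : List (S d)) :
    Follows x w ↔ ∀ n ≤ w.length, x n = x 0 + zat w n := by
  constructor
  · intro h n hn
    exact follows_zat x w h n hn
  · intro h
    induction w generalizing x with
    | nil => trivial
    | cons s w ih =>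
      unfold Follows
      have h1 : x 1 = x 0 + step s := by
        have := h 1 (by simp)
        rw [this, Calc1.zat_cons_succ, zat_zero, add_zero]
      refine ⟨h1, ih _ ?_⟩
      intro n hn
      have := h (n + 1) (by simpa using hn)
      simp only [zero_add]
      rw [this, Calc1.zat_cons_succ, h1, add_assoc]
theorem follows_unique (x : ℕ → V d) (u w : List (S d)) (hu : Follows x u)
    (hw : Follows x w) (h : u.length ≤ w.length) : u <+: w := by
  induction u generalizing x w with
  | nil => exact List.nil_prefix
  | cons s u ih =>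
    cases w with
    | nil => simp at h
    | cons t w =>
      unfold Follows at hu hw
      have hst : s = t := by
        apply step_injective
        have := hu.1.symm.trans hw.1
        exact add_left_cancel this
      subst hst
      rw [List.cons_prefix_cons]
      exact ⟨rfl, ih _ w hu.2 hw.2 (by simpa using h)⟩

theorem mem_words (T : ℕ) (w : List (S d)) : w ∈ words d T ↔ w.length = T := by
  induction T generalizing w with
  | zero => simp [words]
  | succ T ih =>
    unfold words
    simp only [Finset.mem_biUnion, Finset.mem_univ, true_and, Finset.mem_image]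
    constructor
    · rintro ⟨s, v, hv, rfl⟩
      rw [List.length_cons, (ih v).1 hv]
    · intro h
      cases w with
      | nil => simp at h
      | cons s v =>
        exact ⟨s, v, (ih v).2 (by simpa using h), rfl⟩
theorem mem_wordsLe (T : ℕ) (w : List (S d)) : w ∈ wordsLe d T ↔ w.length ≤ T := by
  unfold wordsLe
  simp only [Finset.mem_biUnion, Finset.mem_range, mem_words]
  constructor
  · rintro ⟨n, hn, rfl⟩; omega
  · intro h; exact ⟨w.length, by omega, rfl⟩

theorem pw_nil (p : S d → ℝ) : pw p [] = 1 := by simp [pw]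
theorem pw_cons (p : S d → ℝ) (s : S d) (w : List (S d)) : pw p (s :: w) = p s * pw p w := by
  simp [pw]
theorem pw_append (p : S d → ℝ) (u w : List (S d)) : pw p (u ++ w) = pw p u * pw p w := by
  simp [pw]
theorem pw_nonneg (p : S d → ℝ) (hp : ∀ s, 0 ≤ p s) (w : List (S d)) : 0 ≤ pw p w := by
  induction w with
  | nil => rw [pw_nil]; norm_num
  | cons s w ih => rw [pw_cons]; exact mul_nonneg (hp s) ih
theorem pw_pos (p : S d → ℝ) (hp : ∀ s, 0 < p s) (w : List (S d)) : 0 < pw p w := by
  induction w with
  | nil => rw [pw_nil]; norm_num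
  | cons s w ih => rw [pw_cons]; exact mul_pos (hp s) ih
theorem pw_rev (p : S d → ℝ) (w : List (S d)) : pw p (rev w) = pw (prev p) w := by
  induction w with
  | nil => simp [rev, pw]
  | cons s w ih =>
    rw [Calc1.rev_cons', pw_append, ih, pw_cons, pw_cons, pw_nil]
    unfold prev
    ring
theorem pw_tilt (p0 : S d → ℝ) (H : V d →+ ℝ) (w : List (S d)) :
    pw (tilt p0 H) w = pw (prev p0) w * Real.exp (H (pos w)) := by
  induction w with
  | nil => simp [pw_nil, pos_nil]
  | cons s w ih =>
    rw [pw_cons, ih, pw_cons, pos_cons, map_add, Real.exp_add]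
    unfold tilt prev
    ring
theorem wt_const (p : S d → ℝ) (x : V d) (w : List (S d)) :
    wt (fun _ s => p s) x w = pw p w := by
  induction w generalizing x with
  | nil => rw [pw_nil]; rfl
  | cons s w ih =>
    rw [pw_cons]
    change p s * wt (fun _ s => p s) (x + step s) w = _
    rw [ih]
/-- the involution `neg` as an equivalence -/
def Calc1.negEquiv (d : ℕ) : S d ≃ S d where
  toFun := neg
  invFun := neg
  left_inv := neg_neg'
  right_inv := neg_neg'
theorem Calc1.sum_neg (f : S d → ℝ) : ∑ s, f (neg s) = ∑ s, f s :=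
  Equiv.sum_comp (Calc1.negEquiv d) f
theorem sum_prev (p : S d → ℝ) : ∑ s, prev p s = ∑ s, p s := Calc1.sum_neg p
theorem mean_prev (p : S d → ℝ) (L : V d →+ ℝ) : mean (prev p) L = -mean p L := by
  unfold mean prev
  rw [← Calc1.sum_neg (fun s => p s * L (step s)), ← Finset.sum_neg_distrib]
  apply Finset.sum_congr rfl
  intro s _
  rw [step_neg, map_neg]
  ring

section EQ
variable (κ : V d → S d → ℝ)

theorem Calc1.sum_words_succ (T : ℕ) (f : List (S d) → ℝ) :
    ∑ w ∈ words d (T + 1), f w = ∑ s : S d, ∑ w ∈ words d T, f (s :: w) := by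
  classical
  have hw : words d (T + 1) = (Finset.univ : Finset (S d)).biUnion
      (fun s => (words d T).image (fun w => s :: w)) := by
    ext w
    rw [mem_words]
    simp only [Finset.mem_biUnion, Finset.mem_univ, true_and, Finset.mem_image, mem_words]
    constructor
    · intro h
      cases w with
      | nil => simp at h
      | cons s v => exact ⟨s, v, by simpa using h, rfl⟩
    · rintro ⟨s, v, hv, rfl⟩
      rw [List.length_cons, hv]
  rw [hw, Finset.sum_biUnion]
  · apply Finset.sum_congr rfl
    intro s _
    rw [Finset.sum_image]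
    intro a _ b _ hab
    simpa using hab
  · intro s _ t _ hst
    rw [Function.onFun, Finset.disjoint_left]
    intro w hw hw'
    rw [Finset.mem_image] at hw hw'
    obtain ⟨a, _, rfl⟩ := hw
    obtain ⟨b, _, hb⟩ := hw'
    simp only [List.cons.injEq] at hb
    exact hst hb.1.symm

theorem EQ_words (T : ℕ) (x : V d) (F : List (S d) → ℝ) :
    EQ κ T x F = ∑ w ∈ words d T, wt κ x w * F w := by
  induction T generalizing x F with
  | zero => simp [EQ, words, wt]
  | succ T ih =>
    rw [Calc1.sum_words_succ]
    unfold EQ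
    apply Finset.sum_congr rfl
    intro s _
    rw [ih, Finset.mul_sum]
    apply Finset.sum_congr rfl
    intro w _
    change _ = (κ x s * wt κ (x + step s) w) * F (s :: w)
    ring
theorem EQ_mono (hκ : ∀ x s, 0 ≤ κ x s) (T : ℕ) (x : V d) {F G : List (S d) → ℝ}
    (h : ∀ w, w.length = T → F w ≤ G w) : EQ κ T x F ≤ EQ κ T x G := by
  induction T generalizing x F G with
  | zero => exact h [] rfl
  | succ T ih =>
    unfold EQ
    apply Finset.sum_le_sum
    intro s _
    apply mul_le_mul_of_nonneg_left _ (hκ x s)
    apply ih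
    intro w hw
    exact h (s :: w) (by rw [List.length_cons, hw])
theorem EQ_congr (T : ℕ) (x : V d) {F G : List (S d) → ℝ}
    (h : ∀ w, w.length = T → F w = G w) : EQ κ T x F = EQ κ T x G := by
  induction T generalizing x F G with
  | zero => exact h [] rfl
  | succ T ih =>
    unfold EQ
    apply Finset.sum_congr rfl
    intro s _
    rw [ih (x + step s) (F := fun w => F (s :: w)) (G := fun w => G (s :: w))]
    intro w hw
    exact h (s :: w) (by rw [List.length_cons, hw])
theorem EQ_append (a b : ℕ) (x : V d) (F : List (S d) → ℝ) :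
    EQ κ (a + b) x F =
      EQ κ a x (fun u => EQ κ b (x + pos u) (fun v => F (u ++ v))) := by
  induction a generalizing x F with
  | zero =>
    change _ = EQ κ b (x + pos []) (fun v => F ([] ++ v))
    rw [zero_add, pos_nil, add_zero]
    rfl
  | succ a ih =>
    have h1 : a + 1 + b = (a + b) + 1 := by ring
    rw [h1]
    unfold EQ
    apply Finset.sum_congr rfl
    intro s _
    rw [ih]
    congr 1
    apply EQ_congr
    intro w _
    change EQ κ b (x + step s + pos w) (fun v => F (s :: (w ++ v))) =
      EQ κ b (x + pos (s :: w)) (fun v => F (s :: (w ++ v)))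
    rw [pos_cons, add_assoc]
theorem EP_eq_EQ (p : S d → ℝ) (T : ℕ) (x : V d) (F : List (S d) → ℝ) :
    EP p T F = EQ (fun _ s => p s) T x F := by
  induction T generalizing x F with
  | zero => rfl
  | succ T ih =>
    unfold EP EQ
    apply Finset.sum_congr rfl
    intro s _
    rw [ih (x + step s)]

end EQ

section EP
variable (p : S d → ℝ)

theorem EP_words (T : ℕ) (F : List (S d) → ℝ) :
    EP p T F = ∑ w ∈ words d T, pw p w * F w := by
  rw [EP_eq_EQ p T 0, EQ_words]
  apply Finset.sum_congr rfl
  intro w _
  rw [wt_const]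
theorem EP_mono (hp : ∀ s, 0 ≤ p s) (T : ℕ) {F G : List (S d) → ℝ}
    (h : ∀ w, w.length = T → F w ≤ G w) : EP p T F ≤ EP p T G := by
  rw [EP_eq_EQ p T 0, EP_eq_EQ p T 0]
  exact EQ_mono _ (fun _ s => hp s) T 0 h
theorem EP_congr (T : ℕ) {F G : List (S d) → ℝ}
    (h : ∀ w, w.length = T → F w = G w) : EP p T F = EP p T G := by
  rw [EP_eq_EQ p T 0, EP_eq_EQ p T 0]
  exact EQ_congr _ T 0 h
theorem Calc1.EP_zero_fun (T : ℕ) : EP p T (fun _ => 0) = 0 := by
  rw [EP_words]
  simp
theorem EP_nonneg (hp : ∀ s, 0 ≤ p s) (T : ℕ) {F : List (S d) → ℝ}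
    (h : ∀ w, w.length = T → 0 ≤ F w) : 0 ≤ EP p T F := by
  have := EP_mono p hp T (F := fun _ => 0) (G := F) h
  rwa [Calc1.EP_zero_fun] at this
theorem EP_const (hs : ∑ s, p s = 1) (T : ℕ) (c : ℝ) : EP p T (fun _ => c) = c := by
  induction T with
  | zero => rfl
  | succ T ih =>
    unfold EP
    simp only [ih]
    rw [← Finset.sum_mul, hs, one_mul]
theorem EP_add (T : ℕ) (F G : List (S d) → ℝ) :
    EP p T (fun w => F w + G w) = EP p T F + EP p T G := by
  rw [EP_words, EP_words, EP_words, ← Finset.sum_add_distrib]
  apply Finset.sum_congr rfl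
  intro w _
  ring
theorem EP_sub (T : ℕ) (F G : List (S d) → ℝ) :
    EP p T (fun w => F w - G w) = EP p T F - EP p T G := by
  rw [EP_words, EP_words, EP_words, ← Finset.sum_sub_distrib]
  apply Finset.sum_congr rfl
  intro w _
  ring
theorem EP_mul_left (T : ℕ) (c : ℝ) (F : List (S d) → ℝ) :
    EP p T (fun w => c * F w) = c * EP p T F := by
  rw [EP_words, EP_words, Finset.mul_sum]
  apply Finset.sum_congr rfl
  intro w _
  ring
theorem EP_sum {ι : Type*} (I : Finset ι) (T : ℕ) (F : ι → List (S d) → ℝ) :
    EP p T (fun w => ∑ j ∈ I, F j w) = ∑ j ∈ I, EP p T (F j) := by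
  simp only [EP_words, Finset.mul_sum]
  rw [Finset.sum_comm]
theorem EP_append (a b : ℕ) (F : List (S d) → ℝ) :
    EP p (a + b) F = EP p a (fun u => EP p b (fun v => F (u ++ v))) := by
  rw [EP_eq_EQ p (a + b) 0, EQ_append, EP_eq_EQ p a 0]
  apply EQ_congr
  intro u _
  rw [EP_eq_EQ p b (0 + pos u)]
/-- a function of the first `a` steps -/
theorem EP_take (hs : ∑ s, p s = 1) (a T : ℕ) (h : a ≤ T) (F : List (S d) → ℝ) :
    EP p T (fun w => F (w.take a)) = EP p a F := by
  obtain ⟨b, rfl⟩ := Nat.exists_eq_add_of_le h
  rw [EP_append]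
  apply EP_congr
  intro u hu
  have : (fun v : List (S d) => F ((u ++ v).take a)) = fun _ => F u := by
    funext v
    rw [← hu, List.take_left]
  rw [this, EP_const p hs]
theorem Calc1.EP_drop (hs : ∑ s, p s = 1) (a b : ℕ) (F : List (S d) → ℝ) :
    EP p (a + b) (fun w => F (w.drop a)) = EP p b F := by
  rw [EP_append]
  have : EP p a (fun u => EP p b (fun v => F ((u ++ v).drop a)))
      = EP p a (fun _ => EP p b F) := by
    apply EP_congr
    intro u hu
    have : (fun v : List (S d) => F ((u ++ v).drop a)) = F := by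
      funext v
      rw [← hu, List.drop_left]
    rw [this]
  rw [this, EP_const p hs]
/-- a function of the steps number `a + 1, ..., a + b` -/
theorem EP_drop_take (hs : ∑ s, p s = 1) (a b T : ℕ) (h : a + b ≤ T)
    (F : List (S d) → ℝ) : EP p T (fun w => F ((w.drop a).take b)) = EP p b F := by
  obtain ⟨c, rfl⟩ := Nat.exists_eq_add_of_le h
  rw [add_assoc, Calc1.EP_drop p hs a (b + c) (fun w => F (w.take b)), EP_take p hs b (b + c) (by omega)]
/-- a function of the last step taken first -/
theorem Calc1.EP_last (T : ℕ) (F : List (S d) → ℝ) :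
    EP p (T + 1) F = ∑ s : S d, p s * EP p T (fun w => F (w ++ [s])) := by
  rw [EP_append]
  have h1 : (fun u => EP p 1 (fun v => F (u ++ v))) =
      fun u => ∑ s ∈ (Finset.univ : Finset (S d)), p s * F (u ++ [s]) := by
    funext u
    rfl
  rw [h1, EP_sum]
  apply Finset.sum_congr rfl
  intro s _
  rw [EP_mul_left]
/-- reversal -/
theorem EP_rev (T : ℕ) (F : List (S d) → ℝ) :
    EP p T F = EP (prev p) T (fun w => F (rev w)) := by
  induction T generalizing F with
  | zero => rfl
  | succ T ih =>
    rw [Calc1.EP_last]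
    change _ = ∑ s : S d, prev p s * EP (prev p) T (fun w => F (rev (s :: w)))
    rw [← Calc1.sum_neg (fun s => p s * EP p T (fun w => F (w ++ [s])))]
    apply Finset.sum_congr rfl
    intro s _
    rw [ih (fun w => F (w ++ [neg s]))]
    simp only [Calc1.rev_cons']
    rfl
theorem EP_exp (T : ℕ) (L : V d →+ ℝ) (c : ℝ) :
    EP p T (fun w => Real.exp (c * L (pos w))) =
      (∑ s, p s * Real.exp (c * L (step s))) ^ T := by
  induction T with
  | zero => simp [EP, pos_nil]
  | succ T ih =>
    unfold EP
    rw [pow_succ', Finset.sum_mul]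
    apply Finset.sum_congr rfl
    intro s _
    have : (fun w : List (S d) => Real.exp (c * L (pos (s :: w)))) =
        fun w => Real.exp (c * L (step s)) * Real.exp (c * L (pos w)) := by
      funext w
      rw [pos_cons, map_add, mul_add, Real.exp_add]
    rw [this, EP_mul_left, ih]
    ring
/-- union bound -/
theorem EP_ind_and_ge (hp : ∀ s, 0 ≤ p s) (hs : ∑ s, p s = 1) (T : ℕ)
    (P Q : List (S d) → Prop) :
    EP p T (fun w => ind (P w)) - (1 - EP p T (fun w => ind (Q w))) ≤
      EP p T (fun w => ind (P w ∧ Q w)) := by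
  have h1 : EP p T (fun w => ind (P w)) - (1 - EP p T (fun w => ind (Q w))) =
      EP p T (fun w => ind (P w) - (1 - ind (Q w))) := by
    rw [EP_sub, EP_sub, EP_const p hs]
  rw [h1]
  apply EP_mono p hp
  intro w _
  exact ind_and_ge _ _

end EP

end Pool.Agent.MP_ef0d6f_pr
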