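import Pool.Agent.Lib.MP_ef0d6f_pr.Calc1

/-! Task 2 (Calc2): stopping at a free set of words. -/

namespace Pool.Agent.MP_ef0d6f_pr

variable {d : ℕ}

theorem hitW_free (G D : V d → Prop) (x : V d) : Free (HitW G D x) := by
  have key : ∀ b b' w : List (S d), HitW G D x b → HitW G D x b' → b <+: w → b' <+: w →
      b.length ≤ b'.length → b = b' := by
    intro b b' w hb hb' h h' hl
    have hp : b <+: b' := List.prefix_of_prefix_length_le h h' hl
    rcases Nat.lt_or_ge b.length b'.length with hlt | hge
    · exfalso
      have h1 := (hb'.2 b.length hlt).1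
      rw [List.prefix_iff_eq_take] at hp
      rw [← hp] at h1
      exact h1 hb.1
    · exact hp.eq_of_length_le hge
  intro b b' w hb hb' h h'
  rcases le_total b.length b'.length with hl | hl
  · exact key b b' w hb hb' h h' hl
  · exact (key b' b w hb' hb h' h hl).symm

theorem free_mono {B B' : List (S d) → Prop} (h : ∀ b, B' b → B b) (hB : Free B) :
    Free B' := fun b b' w h1 h2 h3 h4 => hB b b' w (h b h1) (h b' h2) h3 h4

namespace Calc2

theorem wordsLe_succ (T : ℕ) : wordsLe d (T + 1) =
    insert [] ((Finset.univ : Finset (S d)).biUnion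
      fun s => (wordsLe d T).image fun w => s :: w) := by
  ext w
  rw [mem_wordsLe, Finset.mem_insert, Finset.mem_biUnion]
  constructor
  · intro h
    cases w with
    | nil => exact Or.inl rfl
    | cons s w =>
      refine Or.inr ⟨s, Finset.mem_univ _, ?_⟩
      rw [Finset.mem_image]
      refine ⟨w, ?_, rfl⟩
      rw [mem_wordsLe]
      simpa using h
  · rintro (h | ⟨s, -, h⟩)
    · subst h; simp
    · rw [Finset.mem_image] at h
      obtain ⟨v, hv, rfl⟩ := h
      rw [mem_wordsLe] at hv
      simpa using hv

theorem sum_wordsLe_succ (T : ℕ) (f : List (S d) → ℝ) :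
    ∑ b ∈ wordsLe d (T + 1), f b = f [] + ∑ s : S d, ∑ b ∈ wordsLe d T, f (s :: b) := by
  rw [wordsLe_succ, Finset.sum_insert, Finset.sum_biUnion]
  · congr 1
    refine Finset.sum_congr rfl fun s _ => ?_
    rw [Finset.sum_image]
    intro a _ b _ h
    simpa using h
  · intro s _ t _ hst
    rw [Function.onFun, Finset.disjoint_left]
    intro w hw hw'
    rw [Finset.mem_image] at hw hw'
    obtain ⟨u, -, rfl⟩ := hw
    obtain ⟨v, -, hv⟩ := hw'
    simp only [List.cons.injEq] at hv
    exact hst hv.1.symm
  · rw [Finset.mem_biUnion]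
    rintro ⟨s, -, h⟩
    rw [Finset.mem_image] at h
    obtain ⟨v, -, hv⟩ := h
    simp at hv

theorem sum_wordsLe_zero (f : List (S d) → ℝ) : ∑ b ∈ wordsLe d 0, f b = f [] := by
  have : wordsLe d 0 = {[]} := by
    ext w
    rw [mem_wordsLe, Finset.mem_singleton]
    simp
  rw [this, Finset.sum_singleton]

theorem ex_pre_cons (B : List (S d) → Prop) (h0 : ¬ B []) (s : S d) (w : List (S d)) :
    (∃ b, B b ∧ b <+: s :: w) ↔ ∃ b, B (s :: b) ∧ b <+: w := by
  constructor
  · rintro ⟨b, hb, hpre⟩
    cases b with
    | nil => exact absurd hb h0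
    | cons t b =>
      rw [List.cons_prefix_cons] at hpre
      obtain ⟨rfl, hpre⟩ := hpre
      exact ⟨b, hb, hpre⟩
  · rintro ⟨b, hb, hpre⟩
    exact ⟨s :: b, hb, by rw [List.cons_prefix_cons]; exact ⟨rfl, hpre⟩⟩

theorem free_cons {B : List (S d) → Prop} (hB : Free B) (s : S d) :
    Free fun b => B (s :: b) := by
  intro b b' w h h' hp hp'
  have := hB (s :: b) (s :: b') (s :: w) h h' (by rw [List.cons_prefix_cons]; exact ⟨rfl, hp⟩)
    (by rw [List.cons_prefix_cons]; exact ⟨rfl, hp'⟩)
  simpa using this

end Calc2

open Calc2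

open Classical in
/-- the total weight of a free set of words is a probability -/
theorem sum_free (p : S d → ℝ) (hs : ∑ s, p s = 1) (B : List (S d) → Prop) (hB : Free B)
    (T : ℕ) :
    ∑ b ∈ (wordsLe d T).filter (fun b => B b), pw p b =
      EP p T (fun w => ind (∃ b, B b ∧ b <+: w)) := by
  induction T generalizing B with
  | zero =>
    rw [Finset.sum_filter, sum_wordsLe_zero]
    change _ = ind (∃ b, B b ∧ b <+: [])
    by_cases h : B []
    · rw [if_pos h, pw_nil, ind_of ⟨[], h, List.nil_prefix⟩]
    · rw [if_neg h, ind_of_not]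
      rintro ⟨b, hb, hpre⟩
      rw [List.prefix_nil] at hpre
      subst hpre
      exact h hb
  | succ T ih =>
    rw [Finset.sum_filter, sum_wordsLe_succ]
    by_cases h : B []
    · have h1 : ∀ b, B b → b = [] := fun b hb =>
        (hB [] b b h hb List.nil_prefix (List.prefix_refl b)).symm
      have h2 : ∑ s : S d, ∑ b ∈ wordsLe d T, (if B (s :: b) then pw p (s :: b) else 0) = 0 := by
        refine Finset.sum_eq_zero fun s _ => Finset.sum_eq_zero fun b _ => ?_
        rw [if_neg]
        intro hb
        have := h1 _ hb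
        simp at this
      rw [h2, if_pos h, pw_nil, add_zero]
      have h3 : (fun w : List (S d) => ind (∃ b, B b ∧ b <+: w)) = fun _ => (1 : ℝ) := by
        funext w
        exact ind_of ⟨[], h, List.nil_prefix⟩
      rw [h3, EP_const p hs]
    · rw [if_neg h, zero_add]
      change _ = ∑ s : S d, p s * EP p T (fun w => ind (∃ b, B b ∧ b <+: s :: w))
      refine Finset.sum_congr rfl fun s _ => ?_
      have h3 : (fun w : List (S d) => ind (∃ b, B b ∧ b <+: s :: w)) =
          fun w => ind (∃ b, B (s :: b) ∧ b <+: w) := by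
        funext w
        exact ind_congr (ex_pre_cons B h s w)
      rw [h3, ← ih (fun b => B (s :: b)) (free_cons hB s), Finset.sum_filter, Finset.mul_sum]
      refine Finset.sum_congr rfl fun b _ => ?_
      by_cases hb : B (s :: b)
      · rw [if_pos hb, if_pos hb, pw_cons]
      · rw [if_neg hb, if_neg hb, mul_zero]

/-- stop at a free set of words, then continue with an event of probability at least `c` -/
theorem EP_stop_cont (p : S d → ℝ) (hp : ∀ s, 0 ≤ p s) (hs : ∑ s, p s = 1)
    (B : List (S d) → Prop) (hB : Free B) (E : List (S d) → List (S d) → Prop)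
    (T0 T : ℕ) (hT : T0 ≤ T) (c : ℝ) (hc : 0 ≤ c)
    (hE : ∀ b r, B b → b.length ≤ T0 → r ≤ T → c ≤ EP p r (fun w => ind (E b w))) :
    EP p T0 (fun w => ind (∃ b, B b ∧ b <+: w)) * c ≤
      EP p T (fun w => ind (∃ b v, B b ∧ b.length ≤ T0 ∧ w = b ++ v ∧ E b v)) := by
  induction T0 generalizing T B E with
  | zero =>
    by_cases h : B []
    · change ind (∃ b, B b ∧ b <+: []) * c ≤ _
      rw [ind_of ⟨[], h, List.nil_prefix⟩, one_mul]
      refine (hE [] T h (by simp) le_rfl).trans (EP_mono p hp T fun w _ => ind_mono ?_)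
      intro hw
      exact ⟨[], w, h, by simp, by simp, hw⟩
    · change ind (∃ b, B b ∧ b <+: []) * c ≤ _
      rw [ind_of_not, zero_mul]
      · exact EP_nonneg p hp T fun w _ => ind_nonneg _
      · rintro ⟨b, hb, hpre⟩
        rw [List.prefix_nil] at hpre
        subst hpre
        exact h hb
  | succ T0 ih =>
    by_cases h : B []
    · have h3 : (fun w : List (S d) => ind (∃ b, B b ∧ b <+: w)) = fun _ => (1 : ℝ) := by
        funext w
        exact ind_of ⟨[], h, List.nil_prefix⟩
      rw [h3, EP_const p hs, one_mul]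
      refine (hE [] T h (by simp) le_rfl).trans (EP_mono p hp T fun w _ => ind_mono ?_)
      intro hw
      exact ⟨[], w, h, by simp, by simp, hw⟩
    · obtain ⟨T', rfl⟩ : ∃ T', T = T' + 1 := ⟨T - 1, by omega⟩
      change (∑ s : S d, p s * EP p T0 (fun w => ind (∃ b, B b ∧ b <+: s :: w))) * c ≤
        ∑ s : S d, p s * EP p T'
          (fun w => ind (∃ b v, B b ∧ b.length ≤ T0 + 1 ∧ s :: w = b ++ v ∧ E b v))
      rw [Finset.sum_mul]
      refine Finset.sum_le_sum fun s _ => ?_
      have h3 : (fun w : List (S d) => ind (∃ b, B b ∧ b <+: s :: w)) =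
          fun w => ind (∃ b, B (s :: b) ∧ b <+: w) := by
        funext w
        exact ind_congr (ex_pre_cons B h s w)
      rw [h3, mul_assoc]
      refine mul_le_mul_of_nonneg_left ?_ (hp s)
      refine (ih (fun b => B (s :: b)) (free_cons hB s) (fun b v => E (s :: b) v) T'
        (by omega) ?_).trans ?_
      · intro b r hb hl hr
        exact hE (s :: b) r hb (by simpa using hl) (by omega)
      · refine EP_mono p hp T' fun w _ => ind_mono ?_
        rintro ⟨b, v, hb, hl, hw, he⟩
        exact ⟨s :: b, v, hb, by simpa using hl, by rw [hw]; rfl, he⟩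

/-- `hit` as an expectation -/
theorem hit_eq (p : S d → ℝ) (hs : ∑ s, p s = 1) (G D : V d → Prop) (T : ℕ) (x : V d) :
    hit p G D T x = EP p T (fun w => ind (∃ b, HitW G D x b ∧ b <+: w)) := by
  classical
  have hnil : ∀ x, HitW G D x [] ↔ G x := by
    intro x
    unfold HitW
    simp [pos_nil]
  have hcons : ∀ x s b, HitW G D x (s :: b) ↔
      (¬ G x ∧ ¬ D x) ∧ HitW G D (x + step s) b := by
    intro x s b
    unfold HitW
    constructor
    · rintro ⟨h1, h2⟩
      refine ⟨?_, ?_, ?_⟩
      · have := h2 0 (by simp)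
        simpa [pos_nil] using this
      · rw [pos_cons, ← add_assoc] at h1
        exact h1
      · intro j hj
        have := h2 (j + 1) (by simpa using hj)
        rw [List.take_succ_cons, pos_cons, ← add_assoc] at this
        exact this
    · rintro ⟨h0, h1, h2⟩
      refine ⟨?_, ?_⟩
      · rw [pos_cons, ← add_assoc]
        exact h1
      · intro j hj
        cases j with
        | zero => simpa [pos_nil] using h0
        | succ j =>
          rw [List.take_succ_cons, pos_cons, ← add_assoc]
          exact h2 j (by simpa using hj)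
  induction T generalizing x with
  | zero =>
    change (if G x then (1 : ℝ) else 0) = ind (∃ b, HitW G D x b ∧ b <+: [])
    by_cases h : G x
    · rw [if_pos h, ind_of ⟨[], (hnil x).2 h, List.nil_prefix⟩]
    · rw [if_neg h, ind_of_not]
      rintro ⟨b, hb, hpre⟩
      rw [List.prefix_nil] at hpre
      subst hpre
      exact h ((hnil x).1 hb)
  | succ T ih =>
    change (if G x then (1 : ℝ) else if D x then 0 else
      ∑ s : S d, p s * hit p G D T (x + step s)) = _
    by_cases h : G x
    · have h3 : (fun w : List (S d) => ind (∃ b, HitW G D x b ∧ b <+: w)) =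
          fun _ => (1 : ℝ) := by
        funext w
        exact ind_of ⟨[], (hnil x).2 h, List.nil_prefix⟩
      rw [if_pos h, h3, EP_const p hs]
    · rw [if_neg h]
      by_cases hD : D x
      · have h3 : (fun w : List (S d) => ind (∃ b, HitW G D x b ∧ b <+: w)) =
            fun _ => (0 : ℝ) := by
          funext w
          apply ind_of_not
          rintro ⟨b, hb, -⟩
          cases b with
          | nil => exact h ((hnil x).1 hb)
          | cons s b => exact ((hcons x s b).1 hb).1.2 hD
        rw [if_pos hD, h3, EP_const p hs]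
      · rw [if_neg hD]
        change _ = ∑ s : S d, p s * EP p T (fun w => ind (∃ b, HitW G D x b ∧ b <+: s :: w))
        refine Finset.sum_congr rfl fun s _ => ?_
        rw [ih]
        congr 2
        funext w
        refine ind_congr ?_
        rw [ex_pre_cons (HitW G D x) (fun h' => h ((hnil x).1 h')) s w]
        constructor
        · rintro ⟨b, hb, hpre⟩
          exact ⟨b, (hcons x s b).2 ⟨⟨h, hD⟩, hb⟩, hpre⟩
        · rintro ⟨b, hb, hpre⟩
          exact ⟨b, ((hcons x s b).1 hb).2, hpre⟩

theorem hit_nonneg (p : S d → ℝ) (hp : ∀ s, 0 ≤ p s) (G D : V d → Prop) (T : ℕ) (x : V d) :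
    0 ≤ hit p G D T x := by
  classical
  induction T generalizing x with
  | zero =>
    change (0 : ℝ) ≤ if G x then (1 : ℝ) else 0
    split_ifs <;> norm_num
  | succ T ih =>
    change (0 : ℝ) ≤ if G x then (1 : ℝ) else if D x then 0 else
      ∑ s : S d, p s * hit p G D T (x + step s)
    split_ifs
    · norm_num
    · exact le_rfl
    · exact Finset.sum_nonneg fun s _ => mul_nonneg (hp s) (ih _)

theorem hit_le_one (p : S d → ℝ) (hp : ∀ s, 0 ≤ p s) (hs : ∑ s, p s = 1)
    (G D : V d → Prop) (T : ℕ) (x : V d) : hit p G D T x ≤ 1 := by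
  classical
  induction T generalizing x with
  | zero =>
    change (if G x then (1 : ℝ) else 0) ≤ 1
    split_ifs <;> norm_num
  | succ T ih =>
    change (if G x then (1 : ℝ) else if D x then 0 else
      ∑ s : S d, p s * hit p G D T (x + step s)) ≤ 1
    split_ifs
    · exact le_rfl
    · norm_num
    · calc ∑ s : S d, p s * hit p G D T (x + step s) ≤ ∑ s : S d, p s :=
          Finset.sum_le_sum fun s _ => mul_le_of_le_one_right (hp s) (ih _)
        _ = 1 := hs

theorem hit_succ_le (p : S d → ℝ) (hp : ∀ s, 0 ≤ p s) (hs : ∑ s, p s = 1)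
    (G D : V d → Prop) (T T' : ℕ) (h : T ≤ T') (x : V d) :
    hit p G D T x ≤ hit p G D T' x := by
  classical
  have key : ∀ T x, hit p G D T x ≤ hit p G D (T + 1) x := by
    intro T
    induction T with
    | zero =>
      intro x
      change (if G x then (1 : ℝ) else 0) ≤ if G x then (1 : ℝ) else if D x then 0 else
        ∑ s : S d, p s * hit p G D 0 (x + step s)
      split_ifs
      · exact le_rfl
      · exact le_rfl
      · exact Finset.sum_nonneg fun s _ => mul_nonneg (hp s) (hit_nonneg p hp G D 0 _)
    | succ T ih =>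
      intro x
      change (if G x then (1 : ℝ) else if D x then 0 else
        ∑ s : S d, p s * hit p G D T (x + step s)) ≤ if G x then (1 : ℝ) else
          if D x then 0 else ∑ s : S d, p s * hit p G D (T + 1) (x + step s)
      split_ifs
      · exact le_rfl
      · exact le_rfl
      · exact Finset.sum_le_sum fun s _ => mul_le_mul_of_nonneg_left (ih _) (hp s)
  exact monotone_nat_of_le_succ (f := fun T => hit p G D T x) (fun T => key T x) h

/-- more targets, less dangers -/
theorem hit_mono (p : S d → ℝ) (hp : ∀ s, 0 ≤ p s) {G G' D D' : V d → Prop}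
    (hG : ∀ y, G y → G' y) (hD : ∀ y, D' y → D y ∨ G' y) (hs : ∑ s, p s = 1)
    (T : ℕ) (x : V d) : hit p G D T x ≤ hit p G' D' T x := by
  classical
  induction T generalizing x with
  | zero =>
    change (if G x then (1 : ℝ) else 0) ≤ if G' x then (1 : ℝ) else 0
    by_cases h' : G' x
    · rw [if_pos h']
      split_ifs <;> norm_num
    · rw [if_neg h', if_neg fun h => h' (hG x h)]
  | succ T ih =>
    by_cases h' : G' x
    · refine (hit_le_one p hp hs G D (T + 1) x).trans ?_
      change (1 : ℝ) ≤ if G' x then (1 : ℝ) else if D' x then 0 else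
        ∑ s : S d, p s * hit p G' D' T (x + step s)
      rw [if_pos h']
    · change (if G x then (1 : ℝ) else if D x then 0 else
        ∑ s : S d, p s * hit p G D T (x + step s)) ≤ if G' x then (1 : ℝ) else
          if D' x then 0 else ∑ s : S d, p s * hit p G' D' T (x + step s)
      rw [if_neg h', if_neg fun h => h' (hG x h)]
      by_cases hd' : D' x
      · have hd : D x := (hD x hd').resolve_right h'
        rw [if_pos hd, if_pos hd']
      · rw [if_neg hd']
        by_cases hd : D x
        · rw [if_pos hd]
          exact Finset.sum_nonneg fun s _ => mul_nonneg (hp s) (hit_nonneg p hp G' D' T _)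
        · rw [if_neg hd]
          exact Finset.sum_le_sum fun s _ => mul_le_mul_of_nonneg_left (ih _) (hp s)

end Pool.Agent.MP_ef0d6f_pr
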