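import Pool.Agent.Lib.MP_ef0d6f_pr.Defs

/-! Task 17 (Count): the number of traps with a given tip (deterministic). -/

namespace Pool.Agent.MP_ef0d6f_pr

variable {d : ℕ}

namespace Count

/-- A finite set of naturals with differences at most `D` has at most `D + 1` elements. -/
theorem card_le_of_diff (s : Finset ℕ) (D : ℕ) (h : ∀ a ∈ s, ∀ b ∈ s, b ≤ a + D) :
    s.card ≤ D + 1 := by
  rcases s.eq_empty_or_nonempty with hs | hs
  · simp [hs]
  · have hsub : s ⊆ Finset.Icc (s.min' hs) (s.min' hs + D) := by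
      intro b hb
      rw [Finset.mem_Icc]
      exact ⟨Finset.min'_le s b hb, h _ (Finset.min'_mem s hs) b hb⟩
    calc s.card ≤ (Finset.Icc (s.min' hs) (s.min' hs + D)).card := Finset.card_le_card hsub
      _ = D + 1 := by rw [Nat.card_Icc]; omega

end Count

theorem count_le (x : ℕ → V d) (H Λ : V d →+ ℝ) (l0 Lm : ℝ) (G : ℕ)
    (Q : Finset (ℕ × ℕ)) (τ : ℕ × ℕ → ℕ) (y : V d)
    (h : ∀ q ∈ Q, τ q ≤ q.1 ∧ x (τ q) = y ∧
      (∀ r, q.1 + G ≤ r → H (x q.1) + l0 < H (x r)) ∧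
      (∀ r, τ q ≤ r → r ≤ q.1 → H (x q.1) - l0 < H (x r)) ∧
      (∀ r, q.1 ≤ r → x r ≠ y) ∧
      (q.2 : ℝ) ≤ Λ (y - x q.1) ∧ Λ (y - x q.1) < q.2 + Lm) :
    Q.card ≤ (G + 1) * (⌈Lm⌉₊ + 1) := by
  classical
  have hkey : ∀ q ∈ Q, ∀ q' ∈ Q, q'.1 ≤ q.1 + G := by
    intro q hq q' hq'
    by_contra hlt
    push Not at hlt
    obtain ⟨_, _, h3, _, h5, _⟩ := h q hq
    obtain ⟨_, h2', _, h4', _, _⟩ := h q' hq'
    have ht : τ q' ≤ q.1 := by
      by_contra hc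
      push Not at hc
      exact h5 _ hc.le h2'
    have e1 := h3 q'.1 hlt.le
    have e2 := h4' q.1 ht (by omega)
    linarith
  have hfib : ∀ a ∈ Q.image Prod.fst, (Q.filter fun q => q.1 = a).card ≤ ⌈Lm⌉₊ + 1 := by
    intro a _
    have hinj : ((Q.filter fun q => q.1 = a).image Prod.snd).card =
        (Q.filter fun q => q.1 = a).card := by
      apply Finset.card_image_of_injOn
      intro q hq q' hq' hqq
      simp only [Finset.coe_filter, Set.mem_ofPred_eq] at hq hq'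
      exact Prod.ext (hq.2.trans hq'.2.symm) hqq
    rw [← hinj]
    apply Count.card_le_of_diff
    intro N hN N' hN'
    simp only [Finset.mem_image, Finset.mem_filter] at hN hN'
    obtain ⟨q, ⟨hq, hqa⟩, rfl⟩ := hN
    obtain ⟨q', ⟨hq', hqa'⟩, rfl⟩ := hN'
    obtain ⟨_, _, _, _, _, _, h7⟩ := h q hq
    obtain ⟨_, _, _, _, _, h6', _⟩ := h q' hq'
    rw [hqa'] at h6'
    rw [hqa] at h7
    have h8 : (q'.2 : ℝ) < q.2 + Lm := lt_of_le_of_lt h6' h7
    have h9 : Lm ≤ (⌈Lm⌉₊ : ℝ) := Nat.le_ceil Lm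
    have h10 : (q'.2 : ℝ) < ((q.2 + ⌈Lm⌉₊ : ℕ) : ℝ) := by push_cast; linarith
    exact (Nat.cast_lt.mp h10).le
  have himg : (Q.image Prod.fst).card ≤ G + 1 := by
    apply Count.card_le_of_diff
    intro a ha b hb
    simp only [Finset.mem_image] at ha hb
    obtain ⟨q, hq, rfl⟩ := ha
    obtain ⟨q', hq', rfl⟩ := hb
    exact hkey q hq q' hq'
  calc Q.card ≤ (⌈Lm⌉₊ + 1) * (Q.image Prod.fst).card :=
        Finset.card_le_mul_card_image Q (⌈Lm⌉₊ + 1) hfib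
    _ ≤ (⌈Lm⌉₊ + 1) * (G + 1) := Nat.mul_le_mul_left _ himg
    _ = (G + 1) * (⌈Lm⌉₊ + 1) := Nat.mul_comm _ _

end Pool.Agent.MP_ef0d6f_pr
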