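import Pool.Agent.Lib.MP_ef0d6f_pr.Defs

/-! Task 4 (Tilt): the tilted law, the dichotomy parallel / non-parallel, connectors. -/

namespace Pool.Agent.MP_ef0d6f_pr

variable {d : ℕ}

namespace TiltAux

theorem neg_neg (s : S d) : neg (neg s) = s := by
  simp [neg]

/-- negation of steps as an equivalence -/
def negEquiv : S d ≃ S d where
  toFun := neg
  invFun := neg
  left_inv := neg_neg
  right_inv := neg_neg

theorem step_neg (s : S d) : step (neg s) = -step s := by
  obtain ⟨j, b⟩ := s
  cases b <;> simp [step, neg, ← Pi.single_neg]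

theorem sum_neg (f : S d → ℝ) : ∑ s, f (neg s) = ∑ s, f s :=
  Equiv.sum_comp negEquiv f

theorem step_false (j : Fin d) : step (j, false) = -step (j, true) := by
  simp [step, ← Pi.single_neg]

theorem mean_eq (p : S d → ℝ) (L : V d →+ ℝ) :
    mean p L = ∑ j, drift p j * L (step (j, true)) := by
  unfold mean
  rw [Fintype.sum_prod_type]
  refine Finset.sum_congr rfl (fun j _ => ?_)
  rw [Fintype.sum_bool, step_false, map_neg]
  unfold drift
  ring

theorem lin_step_eq (p : S d → ℝ) (s : S d) :
    lin p (step s) = lhat p s.1 * (if s.2 then 1 else -1) := by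
  unfold lin step
  simp only [AddMonoidHom.coe_mk, ZeroHom.coe_mk]
  rw [Finset.sum_eq_single s.1]
  · simp
  · intro b _ hb
    rw [Pi.single_eq_of_ne hb]
    simp
  · intro h
    exact absurd (Finset.mem_univ _) h

/-- the coordinate functional -/
noncomputable def coord (c : Fin d → ℝ) : V d →+ ℝ where
  toFun x := ∑ j, c j * (x j : ℝ)
  map_zero' := by simp
  map_add' x y := by
    simp only [Pi.add_apply, Int.cast_add, mul_add, Finset.sum_add_distrib]

theorem coord_step (c : Fin d → ℝ) (j : Fin d) : coord c (step (j, true)) = c j := by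
  unfold coord step
  simp only [AddMonoidHom.coe_mk, ZeroHom.coe_mk]
  rw [Finset.sum_eq_single j]
  · simp
  · intro b _ hb
    rw [Pi.single_eq_of_ne hb]
    simp
  · intro h
    exact absurd (Finset.mem_univ _) h

/-- real multiples of functionals -/
noncomputable def smulL (c : ℝ) (L : V d →+ ℝ) : V d →+ ℝ where
  toFun x := c * L x
  map_zero' := by simp
  map_add' x y := by
    rw [map_add, mul_add]

theorem mean_add (p : S d → ℝ) (L M : V d →+ ℝ) : mean p (L + M) = mean p L + mean p M := by
  unfold mean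
  rw [← Finset.sum_add_distrib]
  refine Finset.sum_congr rfl (fun s _ => ?_)
  rw [AddMonoidHom.add_apply]
  ring

theorem mean_smul (p : S d → ℝ) (c : ℝ) (L : V d →+ ℝ) : mean p (smulL c L) = c * mean p L := by
  unfold mean
  rw [Finset.mul_sum]
  refine Finset.sum_congr rfl (fun s _ => ?_)
  change p s * (c * L (step s)) = _
  ring

theorem pos_append (u w : List (S d)) : pos (u ++ w) = pos u + pos w := by
  simp [pos]

theorem pos_replicate (n : ℕ) (s : S d) : pos (List.replicate n s) = n • step s := by
  simp [pos]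

theorem pos_flatMap (l : List (S d)) (f : S d → List (S d)) :
    pos (l.flatMap f) = (l.map (fun s => pos (f s))).sum := by
  induction l with
  | nil => simp [pos]
  | cons a l ih => rw [List.flatMap_cons, pos_append, ih, List.map_cons, List.sum_cons]

end TiltAux

open TiltAux

/-- criticality in terms of the additive functional `lin p` -/
theorem crit_sum (p0 p : S d → ℝ) (hp : ∀ s, 0 < p s) (t : ℝ) (ht : 0 < t)
    (h1 : phi p0 (ell p) t = 1) (h2 : Real.exp t = Real.exp (nrm p)) :
    ∑ s, p0 s * Real.exp (-(lin p (step s))) = 1 := by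
  have _ := hp
  have h3 : t = nrm p := Real.exp_injective h2
  rw [← h1]
  unfold phi
  refine Finset.sum_congr rfl (fun s _ => ?_)
  congr 2
  unfold lin ell
  simp only [AddMonoidHom.coe_mk, ZeroHom.coe_mk]
  rw [← h3, neg_mul, Finset.mul_sum]
  congr 1
  refine Finset.sum_congr rfl (fun j _ => ?_)
  field_simp

/-- `δ · ℓ > 0` in terms of `lin p` -/
theorem mean_lin_pos (p0 p : S d → ℝ) (h : 0 < ∑ j, drift p0 j * ell p j) :
    0 < mean p0 (lin p) := by
  have h1 : ∑ j, drift p0 j * ell p j = mean p0 (lin p) / nrm p := by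
    rw [mean_eq, Finset.sum_div]
    refine Finset.sum_congr rfl (fun j _ => ?_)
    rw [lin_step_eq]
    unfold ell
    simp
    ring
  rw [h1] at h
  have h2 : 0 ≤ nrm p := Real.sqrt_nonneg _
  rcases h2.lt_or_eq with h3 | h3
  · exact (div_pos_iff_of_pos_right h3).mp h
  · rw [← h3] at h
    simp at h

/-- symmetric conductances -/
theorem lin_step (p : S d → ℝ) (hp : ∀ s, 0 < p s) (s : S d) :
    Real.exp (lin p (step s)) * p (neg s) = p s := by
  rw [lin_step_eq]
  obtain ⟨j, b⟩ := s
  have h1 := hp (j, true)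
  have h2 := hp (j, false)
  cases b
  · simp only [Bool.false_eq_true, if_false, mul_neg, mul_one, Real.exp_neg]
    unfold lhat neg
    rw [Real.exp_log (div_pos h1 h2)]
    simp only [Bool.not_false]
    field_simp
  · simp only [if_true, mul_one]
    unfold lhat neg
    rw [Real.exp_log (div_pos h1 h2)]
    simp only [Bool.not_true]
    field_simp

theorem tilt_pos (p0 : S d → ℝ) (hp : ∀ s, 0 < p0 s) (H : V d →+ ℝ) (s : S d) :
    0 < tilt p0 H s := mul_pos (hp _) (Real.exp_pos _)

theorem tilt_sum (p0 : S d → ℝ) (H : V d →+ ℝ)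
    (h : ∑ s, p0 s * Real.exp (-(H (step s))) = 1) : ∑ s, tilt p0 H s = 1 := by
  rw [← h, ← sum_neg (fun s => p0 s * Real.exp (-(H (step s))))]
  refine Finset.sum_congr rfl (fun s _ => ?_)
  unfold tilt
  rw [step_neg, map_neg, _root_.neg_neg]

/-- the tilted law has positive `H`-drift (convexity) -/
theorem tilt_mean_pos (p0 : S d → ℝ) (hp : ∀ s, 0 < p0 s) (hs : ∑ s, p0 s = 1)
    (H : V d →+ ℝ) (h : ∑ s, p0 s * Real.exp (-(H (step s))) = 1)
    (hm : 0 < mean p0 H) : 0 < mean (tilt p0 H) H := by
  have h1 : mean (tilt p0 H) H = -∑ s, p0 s * Real.exp (-(H (step s))) * H (step s) := by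
    rw [← Finset.sum_neg_distrib, ← sum_neg (fun s => -(p0 s * Real.exp (-(H (step s))) * H (step s)))]
    unfold mean tilt
    refine Finset.sum_congr rfl (fun s _ => ?_)
    rw [step_neg, map_neg, _root_.neg_neg]
    ring
  have h2 : ∑ s, (p0 s * Real.exp (-(H (step s))) * (1 + H (step s))) < ∑ s, p0 s := by
    refine Finset.sum_lt_sum (fun s _ => ?_) ?_
    · have h3 : 1 + H (step s) ≤ Real.exp (H (step s)) := by
        have := Real.add_one_le_exp (H (step s))
        linarith
      calc p0 s * Real.exp (-(H (step s))) * (1 + H (step s))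
          ≤ p0 s * Real.exp (-(H (step s))) * Real.exp (H (step s)) :=
            mul_le_mul_of_nonneg_left h3 (mul_pos (hp s) (Real.exp_pos _)).le
        _ = p0 s := by rw [mul_assoc, ← Real.exp_add]; simp
    · have h4 : ∃ s, H (step s) ≠ 0 := by
        by_contra hcon
        push Not at hcon
        unfold mean at hm
        simp only [hcon, mul_zero, Finset.sum_const_zero, lt_self_iff_false] at hm
      obtain ⟨s, h5⟩ := h4
      refine ⟨s, Finset.mem_univ _, ?_⟩
      have h3 : 1 + H (step s) < Real.exp (H (step s)) := by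
        have := Real.add_one_lt_exp h5
        linarith
      calc p0 s * Real.exp (-(H (step s))) * (1 + H (step s))
          < p0 s * Real.exp (-(H (step s))) * Real.exp (H (step s)) :=
            mul_lt_mul_of_pos_left h3 (mul_pos (hp s) (Real.exp_pos _))
        _ = p0 s := by rw [mul_assoc, ← Real.exp_add]; simp
  have h6 : ∑ s, (p0 s * Real.exp (-(H (step s))) * (1 + H (step s)))
      = ∑ s, p0 s * Real.exp (-(H (step s))) + ∑ s, p0 s * Real.exp (-(H (step s))) * H (step s) := by
    rw [← Finset.sum_add_distrib]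
    refine Finset.sum_congr rfl (fun s _ => ?_)
    ring
  rw [h6, h, hs] at h2
  rw [h1]
  linarith

/-- either the two drifts are positively proportional, or some functional separates them -/
theorem dichotomy (p q : S d → ℝ) (H : V d →+ ℝ) (hp : 0 < mean p H) (hq : 0 < mean q H) :
    (∃ l : ℝ, 0 < l ∧ ∀ L : V d →+ ℝ, mean q L = l * mean p L) ∨
    (∃ L : V d →+ ℝ, 0 < mean q L ∧ mean p L < 0) := by
  by_cases hcase : ∀ L : V d →+ ℝ, mean q L = (mean q H / mean p H) * mean p L
  · exact Or.inl ⟨mean q H / mean p H, div_pos hq hp, hcase⟩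
  · right
    push Not at hcase
    obtain ⟨L, hL⟩ := hcase
    -- a functional with p-mean zero and q-mean nonzero
    have h1 : ∃ M : V d →+ ℝ, mean p M = 0 ∧ 0 < mean q M := by
      have h2 : mean p (L + smulL (-(mean p L / mean p H)) H) = 0 := by
        rw [mean_add, mean_smul]
        field_simp
        ring
      have h3 : mean q (L + smulL (-(mean p L / mean p H)) H) ≠ 0 := by
        rw [mean_add, mean_smul]
        intro h
        apply hL
        have : mean q L = mean p L / mean p H * mean q H := by linarith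
        rw [this]
        ring
      rcases lt_or_gt_of_ne h3 with h4 | h4
      · refine ⟨smulL (-1) (L + smulL (-(mean p L / mean p H)) H), ?_, ?_⟩
        · rw [mean_smul, h2]; simp
        · rw [mean_smul]; linarith
      · exact ⟨_, h2, h4⟩
    obtain ⟨M, hM1, hM2⟩ := h1
    refine ⟨M + smulL (-(mean q M / (2 * mean q H))) H, ?_, ?_⟩
    · rw [mean_add, mean_smul]
      have : mean q M + -(mean q M / (2 * mean q H)) * mean q H = mean q M / 2 := by
        field_simp
        ring
      rw [this]
      linarith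
    · rw [mean_add, mean_smul, hM1, zero_add, neg_mul]
      have : 0 < mean q M / (2 * mean q H) * mean p H :=
        mul_pos (div_pos hM2 (by linarith)) hp
      linarith

/-- a nonzero functional with mean zero -/
theorem exists_transverse (hd : 2 ≤ d) (p : S d → ℝ) :
    ∃ U : V d →+ ℝ, mean p U = 0 ∧ ∃ s, U (step s) ≠ 0 := by
  have h0 : 0 < d := by omega
  have h1 : 1 < d := by omega
  by_cases hz : drift p ⟨0, h0⟩ = 0
  · refine ⟨coord (fun j => if j = ⟨0, h0⟩ then 1 else 0), ?_, (⟨0, h0⟩, true), ?_⟩
    · rw [mean_eq]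
      refine Finset.sum_eq_zero (fun j _ => ?_)
      rw [coord_step]
      by_cases hj : j = ⟨0, h0⟩
      · rw [hj, hz]; simp
      · simp [hj]
    · rw [coord_step]; simp
  · refine ⟨coord (fun j => if j = ⟨0, h0⟩ then drift p ⟨1, h1⟩ else
      if j = ⟨1, h1⟩ then -drift p ⟨0, h0⟩ else 0), ?_, (⟨1, h1⟩, true), ?_⟩
    · rw [mean_eq]
      rw [← Finset.add_sum_erase _ _ (Finset.mem_univ (⟨0, h0⟩ : Fin d)),
        ← Finset.add_sum_erase _ _ (Finset.mem_erase.mpr ⟨?_, Finset.mem_univ (⟨1, h1⟩ : Fin d)⟩),
        Finset.sum_eq_zero]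
      · rw [coord_step, coord_step]
        simp
        ring
      · intro j hj
        rw [Finset.mem_erase, Finset.mem_erase] at hj
        rw [coord_step, if_neg hj.2.1, if_neg hj.1, mul_zero]
      · simp
    · rw [coord_step]
      simp [hz]

/-- a word along which two functionals increase, if they have positive means -/
theorem exists_word (q : S d → ℝ) (hq : ∀ s, 0 ≤ q s) (L1 L2 : V d →+ ℝ)
    (h1 : 0 < mean q L1) (h2 : 0 < mean q L2) (C : ℝ) :
    ∃ g : List (S d), C ≤ L1 (pos g) ∧ C ≤ L2 (pos g) := by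
  -- lower bound for one functional
  have key : ∀ (L : V d →+ ℝ) (K : ℝ), 0 ≤ K →
      K * mean q L - ∑ s, |L (step s)| ≤
        L (pos ((Finset.univ : Finset (S d)).toList.flatMap
          (fun s => List.replicate ⌊K * q s⌋₊ s))) := by
    intro L K hK
    rw [pos_flatMap]
    rw [show (fun s : S d => pos (List.replicate ⌊K * q s⌋₊ s)) =
      (fun s => ⌊K * q s⌋₊ • step s) from funext (fun s => pos_replicate _ _)]
    rw [Finset.sum_map_toList, map_sum]
    unfold mean
    rw [Finset.mul_sum, ← Finset.sum_sub_distrib]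
    refine Finset.sum_le_sum (fun s _ => ?_)
    rw [map_nsmul, nsmul_eq_mul]
    have h3 : (⌊K * q s⌋₊ : ℝ) ≤ K * q s := Nat.floor_le (mul_nonneg hK (hq s))
    have h4 : K * q s < ⌊K * q s⌋₊ + 1 := Nat.lt_floor_add_one _
    have h5 : (K * q s - ⌊K * q s⌋₊) * L (step s) ≤ |L (step s)| := by
      calc (K * q s - ⌊K * q s⌋₊) * L (step s)
          ≤ (K * q s - ⌊K * q s⌋₊) * |L (step s)| :=
            mul_le_mul_of_nonneg_left (le_abs_self _) (by linarith)
        _ ≤ 1 * |L (step s)| := mul_le_mul_of_nonneg_right (by linarith) (abs_nonneg _)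
        _ = |L (step s)| := one_mul _
    nlinarith [h5]
  set S1 := ∑ s : S d, |L1 (step s)|
  set S2 := ∑ s : S d, |L2 (step s)|
  have hS1 : 0 ≤ S1 := Finset.sum_nonneg (fun s _ => abs_nonneg _)
  have hS2 : 0 ≤ S2 := Finset.sum_nonneg (fun s _ => abs_nonneg _)
  set K := max ((|C| + S1) / mean q L1) ((|C| + S2) / mean q L2)
  have hK : 0 ≤ K := le_max_of_le_left (div_nonneg (by positivity) h1.le)
  refine ⟨_, le_trans ?_ (key L1 K hK), le_trans ?_ (key L2 K hK)⟩
  · have h3 : (|C| + S1) / mean q L1 * mean q L1 ≤ K * mean q L1 :=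
      mul_le_mul_of_nonneg_right (le_max_left _ _) h1.le
    rw [div_mul_cancel₀ _ h1.ne'] at h3
    have := le_abs_self C
    change C ≤ K * mean q L1 - S1
    linarith
  · have h3 : (|C| + S2) / mean q L2 * mean q L2 ≤ K * mean q L2 :=
      mul_le_mul_of_nonneg_right (le_max_right _ _) h2.le
    rw [div_mul_cancel₀ _ h2.ne'] at h3
    have := le_abs_self C
    change C ≤ K * mean q L2 - S2
    linarith

/-- the connector in the parallel case -/
theorem exists_connector (p : S d → ℝ) (hp : ∀ s, 0 < p s) (H U : V d →+ ℝ)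
    (hH : 0 < mean p H) (hU : mean p U = 0) (hU0 : ∃ s, U (step s) ≠ 0) (C : ℝ) :
    ∃ g : List (S d), C ≤ U (pos g) ∧ C ≤ H (pos g) := by
  classical
  have h1 : ∃ s : S d, 0 < U (step s) := by
    obtain ⟨s, hs⟩ := hU0
    rcases lt_or_gt_of_ne hs with h | h
    · refine ⟨neg s, ?_⟩
      rw [step_neg, map_neg]
      linarith
    · exact ⟨s, h⟩
  obtain ⟨s0, hs0⟩ := h1
  set η := mean p H / (2 * (|H (step s0)| + 1)) with hη
  have hη0 : 0 < η := div_pos hH (by positivity)
  have hmean : ∀ L : V d →+ ℝ, mean (fun s => p s + if s = s0 then η else 0) L =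
      mean p L + η * L (step s0) := by
    intro L
    unfold mean
    simp only [add_mul, Finset.sum_add_distrib, ite_mul, zero_mul, Finset.sum_ite_eq',
      Finset.mem_univ, if_true]
  refine exists_word (fun s => p s + if s = s0 then η else 0) (fun s => ?_) U H ?_ ?_ C
  · have := (hp s).le
    split_ifs
    · linarith
    · linarith
  · rw [hmean, hU, zero_add]
    exact mul_pos hη0 hs0
  · rw [hmean]
    have h2 : η * (|H (step s0)| + 1) = mean p H / 2 := by
      rw [hη]
      field_simp
    have h3 : -(η * |H (step s0)|) ≤ η * H (step s0) := by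
      rw [← mul_neg]
      exact mul_le_mul_of_nonneg_left (neg_abs_le _) hη0.le
    nlinarith

end Pool.Agent.MP_ef0d6f_pr
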