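import Pool.Agent.Lib.MP_ef0d6f_pr.Stage
import Pool.Agent.Lib.MP_ef0d6f_pr.Tilt

/-! Task 7 (Cycle): from `a` the walk crosses the directed edge from its neighbour `b` to `a`
before it leaves the finite set `D` (through `Γ`), except with probability at most the total
conductance out of `Γ` divided by the conductance of the edge. -/

namespace Pool.Agent.MP_ef0d6f_pr

open Filter Topology

variable {d : ℕ}

namespace Cycle

open Classical in
theorem exists_lim (κ : V d → S d → ℝ) (Γ : V d → Prop) (hκ : ∀ x s, 0 ≤ κ x s)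
    (hs : ∀ x, ∑ s, κ x s ≤ 1) (P : V d → V d → Prop) :
    ∃ A : V d → ℝ, (∀ x, Tendsto (fun T => cp κ Γ T [P] x) atTop (𝓝 (A x))) ∧
      (∀ x, 0 ≤ A x) ∧ (∀ x, A x ≤ 1) ∧
      ∀ x, A x = ∑ s : S d, κ x s * (if Γ (x + step s) then 0
        else if P x (x + step s) then 1 else A (x + step s)) := by
  have hb : ∀ x, BddAbove (Set.range (fun T => cp κ Γ T [P] x)) := by
    intro x
    refine ⟨1, ?_⟩
    rintro _ ⟨T, rfl⟩
    exact cp_le_one κ Γ hκ hs T _ x
  have hm : ∀ x, Monotone (fun T => cp κ Γ T [P] x) := fun x T T' h =>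
    cp_mono κ Γ hκ hs T T' h _ x
  have ht : ∀ x, Tendsto (fun T => cp κ Γ T [P] x) atTop (𝓝 (⨆ T, cp κ Γ T [P] x)) := fun x =>
    tendsto_atTop_ciSup (hm x) (hb x)
  refine ⟨fun x => ⨆ T, cp κ Γ T [P] x, ht, ?_, ?_, ?_⟩
  · intro x
    exact ge_of_tendsto' (ht x) (fun T => cp_nonneg κ Γ hκ T _ x)
  · intro x
    exact le_of_tendsto' (ht x) (fun T => cp_le_one κ Γ hκ hs T _ x)
  · intro x
    have h1 := (tendsto_add_atTop_iff_nat 1).2 (ht x)
    refine tendsto_nhds_unique h1 ?_
    have h2 : (fun T => cp κ Γ (T + 1) [P] x) = fun T => ∑ s : S d, κ x s *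
        (if Γ (x + step s) then 0 else if P x (x + step s) then 1
          else cp κ Γ T [P] (x + step s)) := by
      funext T
      rw [Stage.cp_succ]
      refine Finset.sum_congr rfl fun s _ => ?_
      rw [cp_nil]
    rw [h2]
    refine tendsto_finsetSum _ fun s _ => ?_
    refine Tendsto.const_mul _ ?_
    split_ifs
    · exact tendsto_const_nhds
    · exact tendsto_const_nhds
    · exact ht _

open Classical in
/-- the conductances -/
noncomputable def cc (p : S d → ℝ) (Z : V d → V d → Prop) (x : V d) (s : S d) : ℝ :=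
  if Z x (x + step s) then Real.exp (lin p x) * p s else 0

open Classical in
/-- the conductances as a matrix -/
noncomputable def W (p : S d → ℝ) (Z : V d → V d → Prop) (x y : V d) : ℝ :=
  ∑ s : S d, if y = x + step s then cc p Z x s else 0

theorem cc_nonneg (p : S d → ℝ) (hp : ∀ s, 0 < p s) (Z : V d → V d → Prop) (x : V d)
    (s : S d) : 0 ≤ cc p Z x s := by
  unfold cc
  split_ifs
  · exact mul_nonneg (Real.exp_pos _).le (hp s).le
  · exact le_rfl

theorem W_nonneg (p : S d → ℝ) (hp : ∀ s, 0 < p s) (Z : V d → V d → Prop) (x y : V d) :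
    0 ≤ W p Z x y := by
  unfold W
  refine Finset.sum_nonneg fun s _ => ?_
  split_ifs
  · exact cc_nonneg p hp Z x s
  · exact le_rfl

theorem neg_invol : Function.Involutive (neg : S d → S d) := neg_neg'

theorem W_symm (p : S d → ℝ) (hp : ∀ s, 0 < p s) (Z : V d → V d → Prop)
    (hsymm : ∀ x y, Z x y → Z y x) (x y : V d) : W p Z x y = W p Z y x := by
  unfold W
  have e := Equiv.sum_comp (neg_invol (d := d)).toPerm
    (fun s => if x = y + step s then cc p Z y s else 0)
  rw [← e]
  refine Finset.sum_congr rfl fun s _ => ?_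
  show (if y = x + step s then cc p Z x s else 0) =
    (if x = y + step (neg s) then cc p Z y (neg s) else 0)
  by_cases h : y = x + step s
  · have h' : x = y + step (neg s) := by rw [step_neg, h]; abel
    rw [if_pos h, if_pos h']
    unfold cc
    rw [← h, ← h']
    by_cases hz : Z x y
    · rw [if_pos hz, if_pos (hsymm _ _ hz), h, map_add, Real.exp_add, mul_assoc,
        lin_step p hp s]
    · rw [if_neg hz, if_neg (fun hz' => hz (hsymm _ _ hz'))]
  · have h' : ¬ x = y + step (neg s) := by
      intro h'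
      apply h
      rw [h', step_neg]
      abel
    rw [if_neg h, if_neg h']

theorem sum_W (p : S d → ℝ) (Z : V d → V d → Prop) (E : Finset (V d)) (x : V d)
    (hE : ∀ y, Z x y → y ∈ E) (F : V d → ℝ) :
    ∑ s : S d, cc p Z x s * F (x + step s) = ∑ y ∈ E, W p Z x y * F y := by
  unfold W
  simp_rw [Finset.sum_mul]
  rw [Finset.sum_comm]
  refine Finset.sum_congr rfl fun s _ => ?_
  by_cases h : x + step s ∈ E
  · rw [Finset.sum_eq_single (x + step s)]
    · simp
    · intro y _ hy
      rw [if_neg hy, zero_mul]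
    · intro h'
      exact absurd h h'
  · have hz : ¬ Z x (x + step s) := fun hz => h (hE _ hz)
    rw [Finset.sum_eq_zero]
    · unfold cc
      rw [if_neg hz, zero_mul]
    · intro y hy
      rw [if_neg, zero_mul]
      rintro rfl
      exact h hy

theorem sum_W_le (p : S d → ℝ) (hp : ∀ s, 0 < p s) (hs : ∑ s, p s = 1)
    (Z : V d → V d → Prop) (E : Finset (V d)) (x : V d) :
    ∑ y ∈ E, W p Z x y ≤ Real.exp (lin p x) := by
  unfold W
  rw [Finset.sum_comm]
  have h1 : ∀ s : S d, ∑ y ∈ E, (if y = x + step s then cc p Z x s else 0) ≤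
      Real.exp (lin p x) * p s := by
    intro s
    have hc : cc p Z x s ≤ Real.exp (lin p x) * p s := by
      unfold cc
      split_ifs
      · exact le_rfl
      · exact mul_nonneg (Real.exp_pos _).le (hp s).le
    rw [Finset.sum_ite_eq' E (x + step s) (fun _ => cc p Z x s)]
    split_ifs
    · exact hc
    · exact mul_nonneg (Real.exp_pos _).le (hp s).le
  refine (Finset.sum_le_sum fun s _ => h1 s).trans (le_of_eq ?_)
  rw [← Finset.mul_sum, hs, mul_one]

/-- the conductance times the transition probability -/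
theorem cc_eq (p : S d → ℝ) (hp : ∀ s, 0 < p s) (Z : V d → V d → Prop) (x : V d) (s : S d) :
    (∑ s', cc p Z x s') * trans p Z x s = cc p Z x s := by
  classical
  by_cases h : Z x (x + step s)
  · have hpos := Stage.sum_pos p hp (fun s' => Z x (x + step s')) s h
    have h1 : ∑ s', cc p Z x s' =
        Real.exp (lin p x) * ∑ s', (if Z x (x + step s') then p s' else 0) := by
      unfold cc
      rw [Finset.mul_sum]
      refine Finset.sum_congr rfl fun s' _ => ?_
      split_ifs <;> simp
    rw [h1]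
    unfold cc trans
    rw [if_pos h, if_pos h, mul_assoc]
    congr 1
    rw [mul_div_cancel₀]
    exact hpos.ne'
  · unfold trans cc
    rw [if_neg h, if_neg h, mul_zero]

end Cycle

open Pool.Agent.MP_ef0d6f_pr.Cycle

/-- The cycle lemma. `D` is a finite set, the graph `Z` is symmetric, and all neighbours of
the points of `D` are in `D` or in `Γ`. -/
theorem cycle (p : S d → ℝ) (hp : ∀ s, 0 < p s) (hs : ∑ s, p s = 1)
    (Z : V d → V d → Prop) (hsymm : ∀ x y, Z x y → Z y x)
    (D Γ : Finset (V d)) (hdis : ∀ x ∈ D, x ∉ Γ)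
    (hD : ∀ x ∈ D, ∀ y, Z x y → y ∈ D ∨ y ∈ Γ)
    (a b : V d) (ha : a ∈ D) (hb : b ∈ D) (hab : Z a b) (s0 : S d) (hs0 : b = a + step s0)
    (ε : ℝ) (hε : 0 < ε) :
    ∃ T : ℕ, 1 - (∑ y ∈ Γ, Real.exp (lin p y)) / (p s0 * Real.exp (lin p a)) - ε ≤
      cp (trans p Z) (fun y => y ∈ Γ) T [fun x y => x = b ∧ y = a] a := by
  classical
  obtain ⟨A, hA, hA0, hA1, hAeq⟩ := exists_lim (trans p Z) (fun y => y ∈ Γ)
    (trans_nonneg p hp Z) (trans_sum_le p hp Z) (fun x y => x = b ∧ y = a)
  have key : 1 - (∑ y ∈ Γ, Real.exp (lin p y)) / (p s0 * Real.exp (lin p a)) ≤ A a := by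
    -- the function g
    set g : V d → V d → ℝ := fun x y => if y ∈ Γ then 1 else if x = b ∧ y = a then 0 else 1 - A y
      with hg
    have hE : ∀ x ∈ D, ∀ y, Z x y → y ∈ D ∪ Γ := fun x hx y hz =>
      Finset.mem_union.2 (hD x hx y hz)
    have hdisj : Disjoint D Γ := Finset.disjoint_left.2 hdis
    have e1 : ∀ x ∈ D, ∑ y ∈ D ∪ Γ, W p Z x y * (1 - A x) = ∑ y ∈ D ∪ Γ, W p Z x y * g x y := by
      intro x hx
      rw [← sum_W p Z (D ∪ Γ) x (hE x hx) (fun _ => 1 - A x),
        ← sum_W p Z (D ∪ Γ) x (hE x hx) (g x)]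
      have e2 : ∑ s, cc p Z x s * A x = ∑ s, cc p Z x s * (1 - g x (x + step s)) := by
        rw [← Finset.sum_mul, hAeq x, Finset.mul_sum]
        refine Finset.sum_congr rfl fun s _ => ?_
        rw [← mul_assoc, cc_eq p hp Z x s]
        congr 1
        simp only [hg]
        split_ifs <;> ring
      have e3 : ∑ s, cc p Z x s * (1 - A x) = ∑ s, cc p Z x s - ∑ s, cc p Z x s * A x := by
        rw [← Finset.sum_sub_distrib]
        exact Finset.sum_congr rfl fun s _ => by ring
      have e4 : ∑ s, cc p Z x s * g x (x + step s) =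
          ∑ s, cc p Z x s - ∑ s, cc p Z x s * (1 - g x (x + step s)) := by
        rw [← Finset.sum_sub_distrib]
        exact Finset.sum_congr rfl fun s _ => by ring
      rw [e3, e4, e2]
    -- sum over D
    have e5 : ∑ x ∈ D, (∑ y ∈ D, W p Z x y * (1 - A x) + ∑ y ∈ Γ, W p Z x y * (1 - A x)) =
        ∑ x ∈ D, (∑ y ∈ D, W p Z x y * g x y + ∑ y ∈ Γ, W p Z x y * g x y) := by
      refine Finset.sum_congr rfl fun x hx => ?_
      rw [← Finset.sum_union hdisj, ← Finset.sum_union hdisj]
      exact e1 x hx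
    have e6 : ∀ x ∈ D, ∑ y ∈ Γ, W p Z x y * g x y = ∑ y ∈ Γ, W p Z x y := by
      intro x _
      refine Finset.sum_congr rfl fun y hy => ?_
      simp only [hg]
      rw [if_pos hy, mul_one]
    have e7 : ∀ x ∈ D, ∑ y ∈ D, W p Z x y * g x y =
        ∑ y ∈ D, W p Z x y * (1 - A y) -
          (if x = b then W p Z b a * (1 - A a) else 0) := by
      intro x _
      have : ∀ y ∈ D, W p Z x y * g x y = W p Z x y * (1 - A y) -
          (if y = a then (if x = b then W p Z b a * (1 - A a) else 0) else 0) := by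
        intro y hy
        simp only [hg]
        rw [if_neg (hdis y hy)]
        by_cases h1 : y = a
        · by_cases h2 : x = b
          · rw [if_pos ⟨h2, h1⟩, if_pos h1, if_pos h2, h1, h2]
            ring
          · rw [if_neg (fun h => h2 h.1), if_pos h1, if_neg h2]
            ring
        · rw [if_neg (fun h => h1 h.2), if_neg h1]
          ring
      rw [Finset.sum_congr rfl this, Finset.sum_sub_distrib, Finset.sum_ite_eq' D a, if_pos ha]
    have e8 : ∑ x ∈ D, ∑ y ∈ D, W p Z x y * (1 - A y) =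
        ∑ x ∈ D, ∑ y ∈ D, W p Z x y * (1 - A x) := by
      rw [Finset.sum_comm]
      refine Finset.sum_congr rfl fun x _ => Finset.sum_congr rfl fun y _ => ?_
      rw [W_symm p hp Z hsymm]
    have e9 : W p Z b a * (1 - A a) = ∑ x ∈ D, ∑ y ∈ Γ, W p Z x y * A x := by
      have h1 : ∑ x ∈ D, (∑ y ∈ D, W p Z x y * g x y + ∑ y ∈ Γ, W p Z x y * g x y) =
          ∑ x ∈ D, ∑ y ∈ D, W p Z x y * (1 - A x) - W p Z b a * (1 - A a) +
            ∑ x ∈ D, ∑ y ∈ Γ, W p Z x y := by
        rw [Finset.sum_add_distrib, Finset.sum_congr rfl e6, Finset.sum_congr rfl e7,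
          Finset.sum_sub_distrib, e8, Finset.sum_ite_eq' D b, if_pos hb]
      have h2 : ∑ x ∈ D, ∑ y ∈ Γ, W p Z x y * A x =
          ∑ x ∈ D, ∑ y ∈ Γ, W p Z x y - ∑ x ∈ D, ∑ y ∈ Γ, W p Z x y * (1 - A x) := by
        rw [← Finset.sum_sub_distrib]
        refine Finset.sum_congr rfl fun x _ => ?_
        rw [← Finset.sum_sub_distrib]
        exact Finset.sum_congr rfl fun y _ => by ring
      rw [h1, Finset.sum_add_distrib] at e5
      rw [h2]
      linarith
    have e10 : W p Z b a * (1 - A a) ≤ ∑ y ∈ Γ, Real.exp (lin p y) := by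
      rw [e9]
      calc ∑ x ∈ D, ∑ y ∈ Γ, W p Z x y * A x ≤ ∑ x ∈ D, ∑ y ∈ Γ, W p Z x y :=
            Finset.sum_le_sum fun x _ => Finset.sum_le_sum fun y _ =>
              mul_le_of_le_one_right (W_nonneg p hp Z x y) (hA1 x)
        _ = ∑ y ∈ Γ, ∑ x ∈ D, W p Z y x := by
            rw [Finset.sum_comm]
            exact Finset.sum_congr rfl fun y _ => Finset.sum_congr rfl fun x _ =>
              W_symm p hp Z hsymm x y
        _ ≤ ∑ y ∈ Γ, Real.exp (lin p y) :=
            Finset.sum_le_sum fun y _ => sum_W_le p hp hs Z D y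
    have e11 : p s0 * Real.exp (lin p a) ≤ W p Z b a := by
      rw [W_symm p hp Z hsymm]
      unfold W
      refine le_trans (le_of_eq ?_) (Finset.single_le_sum
        (f := fun s => if b = a + step s then cc p Z a s else 0) (fun s _ => ?_)
        (Finset.mem_univ s0))
      · show _ = if b = a + step s0 then cc p Z a s0 else 0
        rw [if_pos hs0]
        unfold cc
        rw [← hs0, if_pos hab, mul_comm]
      · show 0 ≤ if b = a + step s then cc p Z a s else 0
        split_ifs
        · exact cc_nonneg p hp Z a s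
        · exact le_rfl
    have hpos : 0 < p s0 * Real.exp (lin p a) := mul_pos (hp s0) (Real.exp_pos _)
    have e12 : 1 - A a ≤ (∑ y ∈ Γ, Real.exp (lin p y)) / (p s0 * Real.exp (lin p a)) := by
      rw [le_div_iff₀ hpos]
      calc (1 - A a) * (p s0 * Real.exp (lin p a)) ≤ (1 - A a) * W p Z b a :=
            mul_le_mul_of_nonneg_left e11 (by linarith [hA1 a])
        _ = W p Z b a * (1 - A a) := mul_comm _ _
        _ ≤ _ := e10
    linarith
  have hev : ∀ᶠ T in atTop, A a - ε < cp (trans p Z) (fun y => y ∈ Γ) T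
      [fun x y => x = b ∧ y = a] a :=
    (hA a).eventually (lt_mem_nhds (by linarith))
  obtain ⟨T, hT⟩ := hev.exists
  exact ⟨T, by linarith⟩

/-- The exit lemma: if all neighbours of the points of `E` outside `C` are in `E`, and `C`
can be reached from `0` along edges of `Z`, then from `0` the walk
visits `C` almost surely, and it does not visit `Γ` before if `Γ` is disjoint from `E`. -/
theorem exit (p : S d → ℝ) (hp : ∀ s, 0 < p s) (hs : ∑ s, p s = 1)
    (Z : V d → V d → Prop) (hsymm : ∀ x y, Z x y → Z y x)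
    (hnn : ∀ x y, Z x y → ∃ s : S d, y = x + step s)
    (E : Finset (V d)) (C Γ : V d → Prop) (hΓ : ∀ x ∈ E, ¬ Γ x)
    (hE : ∀ x ∈ E, ¬ C x → ∀ y, Z x y → y ∈ E) (h0 : (0 : V d) ∈ E) (hC0 : ¬ C 0)
    (c : V d) (hc : C c) (hconn : Relation.ReflTransGen Z 0 c) (ε : ℝ) (hε : 0 < ε) :
    ∃ T : ℕ, 1 - ε ≤ cp (trans p Z) Γ T [fun _ y => C y ∧ y ∈ E] 0 := by
  classical
  obtain ⟨A, hA, hA0, hA1, hAeq⟩ := exists_lim (trans p Z) Γ
    (trans_nonneg p hp Z) (trans_sum_le p hp Z) (fun _ y => C y ∧ y ∈ E)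
  have key : 1 ≤ A 0 := by
    set R : V d → V d → Prop := fun u v => Z u v ∧ v ∈ E ∧ ¬ C v with hR
    set E1 : Finset (V d) := E.filter (fun x => ¬ C x ∧ Relation.ReflTransGen R 0 x) with hE1
    have h01 : (0 : V d) ∈ E1 := Finset.mem_filter.2 ⟨h0, hC0, Relation.ReflTransGen.refl⟩
    -- neighbours
    have hnb : ∀ x ∈ E1, ∃ s : S d, Z x (x + step s) := by
      intro x hx
      have hx' := (Finset.mem_filter.1 hx).2.2
      rcases Relation.ReflTransGen.cases_tail hx' with h | ⟨u, _, hu⟩
      · subst h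
        rcases Relation.ReflTransGen.cases_head hconn with h | ⟨v, hv, _⟩
        · exact absurd (h ▸ hc) hC0
        · obtain ⟨s, hs'⟩ := hnn _ _ hv
          exact ⟨s, hs' ▸ hv⟩
      · have hz := hsymm _ _ hu.1
        obtain ⟨s, hs'⟩ := hnn _ _ hz
        exact ⟨s, hs' ▸ hz⟩
    have hnext : ∀ x ∈ E1, ∀ y, Z x y → y ∈ E ∧ (¬ C y → y ∈ E1) := by
      intro x hx y hz
      have hx' := Finset.mem_filter.1 hx
      have hy := hE x hx'.1 hx'.2.1 y hz
      exact ⟨hy, fun hcy => Finset.mem_filter.2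
        ⟨hy, hcy, hx'.2.2.tail ⟨hz, hy, hcy⟩⟩⟩
    obtain ⟨x0, hx0, hmin⟩ := Finset.exists_min_image E1 A ⟨0, h01⟩
    -- the set of minimisers is closed
    by_contra hlt
    push Not at hlt
    have hm1 : A x0 < 1 := lt_of_le_of_lt (hmin 0 h01) hlt
    have hclosed : ∀ x ∈ E1, A x = A x0 → ∀ y, Z x y → y ∈ E1 ∧ A y = A x0 := by
      intro x hx hxA y hz
      obtain ⟨s, hsy⟩ := hnn _ _ hz
      have hsum := trans_sum p hp Z x (hnb x hx)
      have heq := hAeq x
      have hle : ∀ s' : S d, trans p Z x s' * A x0 ≤ trans p Z x s' *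
          (if Γ (x + step s') then 0 else if C (x + step s') ∧ x + step s' ∈ E then 1
            else A (x + step s')) := by
        intro s'
        by_cases hz' : Z x (x + step s')
        · obtain ⟨h1, h2⟩ := hnext x hx _ hz'
          refine mul_le_mul_of_nonneg_left ?_ (trans_nonneg p hp Z x s')
          rw [if_neg (hΓ _ h1)]
          by_cases hcy : C (x + step s')
          · rw [if_pos ⟨hcy, h1⟩]
            exact hm1.le
          · rw [if_neg (fun h => hcy h.1)]
            exact hmin _ (h2 hcy)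
        · have : trans p Z x s' = 0 := by
            by_contra h
            exact hz' ((trans_ne_zero p hp Z x s').1 h)
          rw [this, zero_mul, zero_mul]
      have htot : ∑ s', trans p Z x s' * A x0 = A x0 := by
        rw [← Finset.sum_mul, hsum, one_mul]
      have hall : ∀ s' ∈ (Finset.univ : Finset (S d)), trans p Z x s' * A x0 =
          trans p Z x s' * (if Γ (x + step s') then 0
            else if C (x + step s') ∧ x + step s' ∈ E then 1 else A (x + step s')) := by
        refine (Finset.sum_eq_sum_iff_of_le (fun s' _ => hle s')).1 ?_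
        rw [htot, ← hxA]
        convert heq
      have hs1 := hall s (Finset.mem_univ s)
      rw [hsy] at hz ⊢
      obtain ⟨h1, h2⟩ := hnext x hx _ hz
      have hne := (trans_ne_zero p hp Z x s).2 hz
      have hs2 := mul_left_cancel₀ hne hs1
      rw [if_neg (hΓ _ h1)] at hs2
      by_cases hcy : C (x + step s)
      · rw [if_pos ⟨hcy, h1⟩] at hs2
        exact absurd hs2 hm1.ne
      · rw [if_neg (fun h => hcy h.1)] at hs2
        exact ⟨h2 hcy, hs2.symm⟩
    -- back to 0
    have hback : ∀ x, Relation.ReflTransGen R 0 x → x ∈ E1 → A x = A x0 → A 0 = A x0 := by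
      intro x hx
      induction hx with
      | refl => intro _ h; exact h
      | tail hu huv ih =>
        rename_i u v
        intro hv hvA
        obtain ⟨h1, h2⟩ := hclosed v hv hvA u (hsymm _ _ huv.1)
        exact ih h1 h2
    have hA00 : A 0 = A x0 := hback x0 (Finset.mem_filter.1 hx0).2.2 hx0 rfl
    -- along the path to c
    have hfwd : ∀ x, Relation.ReflTransGen Z 0 x → x ∈ E1 ∧ A x = A x0 := by
      intro x hx
      induction hx with
      | refl => exact ⟨h01, hA00⟩
      | tail hu huv ih => exact hclosed _ ih.1 ih.2 _ huv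
    exact (Finset.mem_filter.1 (hfwd c hconn).1).2.1 hc
  have hev : ∀ᶠ T in atTop, A 0 - ε < cp (trans p Z) Γ T [fun _ y => C y ∧ y ∈ E] 0 :=
    (hA 0).eventually (lt_mem_nhds (by linarith))
  obtain ⟨T, hT⟩ := hev.exists
  exact ⟨T, by linarith⟩

end Pool.Agent.MP_ef0d6f_pr
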