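import Mathlib

/-!
Iterated biased walks on traces (MP_ef0d6f_pr): basic definitions.
-/

namespace Pool.Agent.MP_ef0d6f_pr

open MeasureTheory Filter Topology

/-- The vertices of the lattice. -/
abbrev V (d : ℕ) : Type := Fin d → ℤ

/-- The names of the unit steps: `(j, true)` is `+e_j` and `(j, false)` is `-e_j`. -/
abbrev S (d : ℕ) : Type := Fin d × Bool

variable {d : ℕ}

/-- The unit vector named by `s`. -/
def step (s : S d) : V d := Pi.single s.1 (if s.2 then 1 else -1)

/-- The nearest neighbour graph of the lattice, as a relation. -/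
def lattice : V d → V d → Prop := fun x y => ∃ s : S d, y = x + step s

/-- The trace of a path: its edges, as a relation. -/
def trace (x : ℕ → V d) : V d → V d → Prop :=
  fun a b => ∃ n : ℕ, (x n = a ∧ x (n + 1) = b) ∨ (x n = b ∧ x (n + 1) = a)

open Classical in
/-- The transition probabilities of the `p`-walk on the graph `Z`. -/
noncomputable def trans (p : S d → ℝ) (Z : V d → V d → Prop) (x : V d) (s : S d) : ℝ :=
  if Z x (x + step s) then
    p s / ∑ s' : S d, (if Z x (x + step s') then p s' else 0)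
  else 0

/-- The product of the transition probabilities along the path which starts at `x`
and whose steps are the entries of the word. -/
noncomputable def wt (κ : V d → S d → ℝ) : V d → List (S d) → ℝ
  | _, [] => 1
  | x, s :: w => κ x s * wt κ (x + step s) w

/-- The first steps of the path `x` are the entries of the word `w`, in order. -/
def Follows : (ℕ → V d) → List (S d) → Prop
  | _, [] => True
  | x, s :: w => x 1 = x 0 + step s ∧ Follows (fun n => x (n + 1)) w

/-- The graph on which the `i`-th walk moves: the lattice for `i = 0`, and the trace of the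
walk number `i` for `i + 1`. -/
def graph {Ω : Type*} (X : ℕ → ℕ → Ω → V d) : ℕ → Ω → V d → V d → Prop
  | 0, _ => lattice
  | i + 1, ω => trace (fun n => X i n ω)

/-- The sigma-algebra generated by the walks of index less than `i`. -/
abbrev history {Ω : Type*} (X : ℕ → ℕ → Ω → V d) (i : ℕ) : MeasurableSpace Ω :=
  ⨆ j : Fin i, ⨆ n : ℕ, MeasurableSpace.comap (X j n) inferInstance

/-- `X` is a sequence of iterated walks: given the walks of index less than `i`, the walk
number `i` is the `p i`-walk started at `0` on the trace of the walk number `i - 1`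
(on the lattice if `i = 0`). -/
structure IteratedWalk {Ω : Type*} [MeasurableSpace Ω] (p : ℕ → S d → ℝ) (μ : Measure Ω)
    (X : ℕ → ℕ → Ω → V d) : Prop where
  meas : ∀ i n, Measurable (X i n)
  law : ∀ (i : ℕ) (w : List (S d)) (A : Set Ω), MeasurableSet[history X i] A →
    μ (A ∩ {ω | X i 0 ω = 0 ∧ Follows (fun n => X i n ω) w}) =
      ∫⁻ ω in A, ENNReal.ofReal (wt (trans (p i) (graph X i ω)) 0 w) ∂μ

/-- The drift `δ` of a step distribution. -/
def drift (p : S d → ℝ) (j : Fin d) : ℝ := p (j, true) - p (j, false)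

/-- The vector of the logarithms of `p (e_j) / p (-e_j)`. -/
noncomputable def lhat (p : S d → ℝ) (j : Fin d) : ℝ := Real.log (p (j, true) / p (j, false))

/-- The Euclidean norm of `lhat`. -/
noncomputable def nrm (p : S d → ℝ) : ℝ := Real.sqrt (∑ j, lhat p j ^ 2)

/-- The unit vector in the direction of `lhat`. -/
noncomputable def ell (p : S d → ℝ) (j : Fin d) : ℝ := lhat p j / nrm p

/-- The function `φ` of the direction `l`: the expectation of `exp (-t * (ξ · l))`, where the
step `ξ` has distribution `p0`. -/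
noncomputable def phi (p0 : S d → ℝ) (l : Fin d → ℝ) (t : ℝ) : ℝ :=
  ∑ s : S d, p0 s * Real.exp (-t * ∑ j, (step s j : ℝ) * l j)

/-! ### Auxiliary definitions used in the proof -/

/-- The opposite step. -/
def neg (s : S d) : S d := (s.1, !s.2)

/-- The displacement of a word. -/
def pos (w : List (S d)) : V d := (w.map step).sum

/-- The reversed word: the steps in the opposite order, each replaced by its opposite. -/
def rev (w : List (S d)) : List (S d) := (w.map neg).reverse

open Classical in
/-- The indicator of a proposition. -/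
noncomputable def ind (P : Prop) : ℝ := if P then 1 else 0

/-- The expectation of `F` of the first `T` steps of the chain with transition
probabilities `κ` started at `x`. -/
noncomputable def EQ (κ : V d → S d → ℝ) : ℕ → V d → (List (S d) → ℝ) → ℝ
  | 0, _, F => F []
  | T + 1, x, F => ∑ s : S d, κ x s * EQ κ T (x + step s) (fun w => F (s :: w))

/-- The expectation of `F` of the first `T` steps of a walk with independent steps. -/
noncomputable def EP (p : S d → ℝ) : ℕ → (List (S d) → ℝ) → ℝ
  | 0, F => F []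
  | T + 1, F => ∑ s : S d, p s * EP p T (fun w => F (s :: w))

/-- The product of the probabilities of the entries of a word. -/
noncomputable def pw (p : S d → ℝ) (w : List (S d)) : ℝ := (w.map p).prod

/-- The finite set of the words of length `T`. -/
def words (d : ℕ) : ℕ → Finset (List (S d))
  | 0 => {[]}
  | T + 1 => (Finset.univ : Finset (S d)).biUnion
      (fun s => (words d T).image (fun w => s :: w))

/-- The mean of an additive functional under a step distribution. -/
noncomputable def mean (p : S d → ℝ) (L : V d →+ ℝ) : ℝ := ∑ s : S d, p s * L (step s)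

/-- The distribution of the opposite of a step. -/
def prev (p : S d → ℝ) : S d → ℝ := fun s => p (neg s)

/-- The additive functional `x ↦ x · lhat p`. -/
noncomputable def lin (p : S d → ℝ) : V d →+ ℝ where
  toFun x := ∑ j, lhat p j * (x j : ℝ)
  map_zero' := by simp
  map_add' x y := by
    simp only [Pi.add_apply, Int.cast_add, mul_add, Finset.sum_add_distrib]

/-- The tilted law of the reversed walk. -/
noncomputable def tilt (p0 : S d → ℝ) (H : V d →+ ℝ) : S d → ℝ :=
  fun s => p0 (neg s) * Real.exp (H (step s))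

open Classical in
/-- The probability that the walk with independent steps started at `x` reaches `G`
within `T` steps, before it visits `D`. -/
noncomputable def hit (p : S d → ℝ) (G D : V d → Prop) : ℕ → V d → ℝ
  | 0, x => if G x then 1 else 0
  | T + 1, x => if G x then 1 else if D x then 0 else
      ∑ s : S d, p s * hit p G D T (x + step s)

/-! ### Words and positions -/

/-- The position at time `n` on the path from the origin with steps `w`. -/
def zat (w : List (S d)) (n : ℕ) : V d := pos (w.take n)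

/-- The words of length at most `T`. -/
def wordsLe (d : ℕ) (T : ℕ) : Finset (List (S d)) :=
  (Finset.range (T + 1)).biUnion (fun n => words d n)

/-- No two different members of `B` are initial segments of the same word. -/
def Free (B : List (S d) → Prop) : Prop :=
  ∀ b b' w, B b → B b' → b <+: w → b' <+: w → b = b'

/-- The path from `x` with steps `b` is in `G` at its end, and not in `G` nor in `D`
before. -/
def HitW (G D : V d → Prop) (x : V d) (b : List (S d)) : Prop :=
  G (x + pos b) ∧ ∀ j < b.length, ¬ G (x + pos (b.take j)) ∧ ¬ D (x + pos (b.take j))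

/-! ### Stages -/

open Classical in
/-- The probability that the chain started at `x` completes the list of stages within `T`
steps, before it visits `Γ`; a stage is a set of directed steps, and it is completed when
a step in it is made. -/
noncomputable def cp (κ : V d → S d → ℝ) (Γ : V d → Prop) :
    ℕ → List (V d → V d → Prop) → V d → ℝ
  | _, [], _ => 1
  | 0, _ :: _, _ => 0
  | T + 1, P :: L, x => ∑ s : S d, κ x s *
      (if Γ (x + step s) then 0
        else if P x (x + step s) then cp κ Γ T L (x + step s)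
        else cp κ Γ T (P :: L) (x + step s))

/-- The path from `x` with steps `w` completes the list of stages before it visits `Γ`. -/
def Comp (Γ : V d → Prop) : List (S d) → List (V d → V d → Prop) → V d → Prop
  | _, [], _ => True
  | [], _ :: _, _ => False
  | s :: w, P :: L, x => ¬ Γ (x + step s) ∧
      ((P x (x + step s) ∧ Comp Γ w L (x + step s)) ∨
        (¬ P x (x + step s) ∧ Comp Γ w (P :: L) (x + step s)))

/-! ### Traps -/

/-- The finite part of a trap: the path with steps `w` visits the tip `zat w k0`, the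
bottom `zat w k`, and the connector `zat w n`, `k ≤ n ≤ w.length`. The core path is
`zat w b`, `a ≤ b ≤ k0`. -/
structure TrapW (w : List (S d)) (Hs : ℕ → V d →+ ℝ) (i : ℕ) (A : ℝ) (k0 k a : ℕ) :
    Prop where
  a_le : a ≤ k0
  k0_lt : k0 < k
  k_le : k ≤ w.length
  avoid : ∀ m n, m ≤ k0 → k ≤ n → n ≤ w.length → zat w m ≠ zat w n
  nbr : ∀ n, k ≤ n → n ≤ w.length → ∀ s, zat w k0 + step s ≠ zat w n
  core : ∀ m n, m ≤ k0 → k0 ≤ n → n ≤ k → zat w m = zat w n →
    ∃ b, a ≤ b ∧ b ≤ k0 ∧ zat w m = zat w b
  high : a < k0 → ∀ b, a ≤ b → b ≤ k0 → ∀ j, 1 ≤ j → j ≤ i →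
    Hs j (zat w k) + A ≤ Hs j (zat w b)

/-- The properties of the graphs on which the walks of positive index move. -/
structure LocalGraph (w : List (S d)) (k0 k a : ℕ) (Z : V d → V d → Prop) : Prop where
  symm : ∀ x y, Z x y → Z y x
  nn : ∀ x y, Z x y → ∃ s : S d, y = x + step s
  loc : ∀ x y, Z x y →
    (∃ n < w.length, (x = zat w n ∧ y = zat w (n + 1)) ∨
      (x = zat w (n + 1) ∧ y = zat w n)) ∨ (∀ m ≤ k, x ≠ zat w m ∧ y ≠ zat w m)
  coreE : ∀ n, a ≤ n → n < k0 → Z (zat w n) (zat w (n + 1))
  conn : Relation.ReflTransGen Z 0 (zat w k0)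
  zero : ∃ y, Z 0 y

/-- The path from the origin with steps `v` has crossed all the edges of the core path and
it has visited the tip at least `n` times. -/
def DoneW (w : List (S d)) (k0 a n : ℕ) (v : List (S d)) : Prop :=
  (∀ r, a ≤ r → r < k0 → ∃ t < v.length,
    (zat v t = zat w r ∧ zat v (t + 1) = zat w (r + 1)) ∨
    (zat v t = zat w (r + 1) ∧ zat v (t + 1) = zat w r)) ∧
  n ≤ ((Finset.range (v.length + 1)).filter (fun t => zat v t = zat w k0)).card

/-- The weight of the connector. -/
noncomputable def piG (w : List (S d)) (k : ℕ) (H : V d →+ ℝ) : ℝ :=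
  ∑ n ∈ Finset.Icc k w.length, Real.exp (H (zat w n))

/-- The path `x` starts at the origin, follows `w`, and then all its initial segments are
in `F`. -/
def TrapEv (x : ℕ → V d) (w : List (S d)) (F : List (S d) → Prop) : Prop :=
  x 0 = 0 ∧ ∀ T : ℕ, ∃ v : List (S d), v.length = T ∧ F v ∧ Follows x (w ++ v)

/-- The number of visits of the path `x` to `y` before time `T`. -/
def NV (x : ℕ → V d) (T : ℕ) (y : V d) : ℕ :=
  ((Finset.range T).filter (fun t => x t = y)).card

open Classical in
/-- A family of traps for the critical walk. `B N` is the set of the reversed words from the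
bottom to the tip, `J N` is the set of the reversed past words from the tip, `F N` is the set
of the words after the connector `g`. -/
structure TrapFamily (p0 : S d → ℝ) (Hs : ℕ → V d →+ ℝ) (i : ℕ) where
  g : List (S d)
  Λ : V d →+ ℝ
  l0 : ℝ
  Lm : ℝ
  N0 : ℕ
  N0_pos : 1 ≤ N0
  T : ℕ → ℕ
  A : ℕ → ℝ
  B : ℕ → List (S d) → Prop
  J : ℕ → List (S d) → Prop
  F : ℕ → List (S d) → Prop
  c : ℝ
  c_pos : 0 < c
  cB : ℕ → ℝ
  cJ : ℕ → ℝ
  cF : ℕ → ℝ
  cB_nonneg : ∀ N, 0 ≤ cB N
  cJ_nonneg : ∀ N, 0 ≤ cJ N
  cF_nonneg : ∀ N, 0 ≤ cF N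
  prod_le : ∀ N, N0 ≤ N → c / N ≤ cB N * cJ N * cF N
  B_len : ∀ N, N0 ≤ N → ∀ b, B N b → 1 ≤ b.length ∧ b.length ≤ T N
  B_free : ∀ N, N0 ≤ N → Free (B N)
  F_closed : ∀ N v v', F N (v ++ v') → F N v
  B_sum : ∀ N, N0 ≤ N → cB N ≤ ∑ b ∈ (wordsLe d (T N)).filter (fun b => B N b),
    pw (tilt p0 (Hs i)) b
  J_prob : ∀ N, N0 ≤ N → ∀ r, T N ≤ r → cJ N ≤ EP (prev p0) r (fun w => ind (J N w))
  F_prob : ∀ N, N0 ≤ N → ∀ r, cF N ≤ EP p0 r (fun w => ind (F N w))
  geom : ∀ N, N0 ≤ N → ∀ u b, T N ≤ u.length → J N (rev u) → B N b →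
    ∃ a, TrapW (u ++ rev b ++ g) Hs i (A N) u.length (u.length + b.length) a ∧
      u.length - a ≤ T N
  sep : ∀ N, N0 ≤ N → ∀ u b v, T N ≤ u.length → J N (rev u) → B N b → F N v →
    ∀ m ≤ u.length + b.length,
      pos (u ++ rev b ++ g) + pos v ≠ zat (u ++ rev b ++ g) m
  m1 : ∀ N, N0 ≤ N → ∀ v, F N v → l0 < Hs i (pos g) + Hs i (pos v)
  m2 : ∀ N, N0 ≤ N → ∀ b, B N b → ∀ n ≤ b.length, -l0 < Hs i (pos (b.take n))
  m3 : ∀ N, N0 ≤ N → ∀ b, B N b → (N : ℝ) ≤ Λ (pos b) ∧ Λ (pos b) < N + Lm
  small : ∀ η : ℝ, 0 < η → ∃ N1 : ℕ, ∀ N, N1 ≤ N → (T N : ℝ) * Real.exp (-(A N)) ≤ η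

/-! ### The sets of words in the parallel case -/

/-- Reversed words from the bottom to the tip, parallel case. -/
def BP (H U : V d →+ ℝ) (Hs : ℕ → V d →+ ℝ) (i N : ℕ) (m0 l0 r A : ℝ) (t0 T : ℕ)
    (b : List (S d)) : Prop :=
  b.length ≤ T ∧ (N : ℝ) ≤ H (pos b) ∧ U (pos b) ≤ -r ∧
  (∀ t < b.length, H (pos (b.take t)) < N) ∧
  (∀ t ≤ b.length, U (pos (b.take t)) < m0 ∧ -l0 < H (pos (b.take t))) ∧
  (∀ t ≤ b.length, t0 ≤ t → ∀ j, 1 ≤ j → j ≤ i → 2 * A ≤ Hs j (pos (b.take t)))

/-- Reversed past words from the tip, parallel case. -/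
def JP (H U : V d →+ ℝ) (Hs : ℕ → V d →+ ℝ) (i N : ℕ) (r l1 D2 A : ℝ) (T : ℕ)
    (w : List (S d)) : Prop :=
  ∃ σ, σ ≤ T ∧ σ ≤ w.length ∧
    (∀ t ≤ σ, U (pos (w.take t)) < r ∧ H (pos (w.take t)) < l1) ∧
    (∀ t, σ < t → t ≤ w.length → H (pos (w.take t)) < -(N + D2)) ∧
    (∀ t t', t ≤ t' → t' ≤ σ → ∀ j, 1 ≤ j → j ≤ i →
      Hs j (pos (w.take t')) - Hs j (pos (w.take t)) ≤ A)

/-- Words after the connector, parallel case. -/
def FP (H U : V d →+ ℝ) (N : ℕ) (m0 l0 D3 : ℝ) (w : List (S d)) : Prop :=
  ∀ t ≤ w.length, -l0 < H (pos (w.take t)) ∧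
    (-m0 < U (pos (w.take t)) ∨ N + D3 < H (pos (w.take t)))

/-! ### The sets of words in the non-parallel case -/

/-- Reversed words from the bottom to the tip, non-parallel case. -/
def BN (H Λ : V d →+ ℝ) (N : ℕ) (m0 l0 : ℝ) (T : ℕ) (b : List (S d)) : Prop :=
  b.length ≤ T ∧ (N : ℝ) ≤ Λ (pos b) ∧ (∀ t < b.length, Λ (pos (b.take t)) < N) ∧
  (∀ t ≤ b.length, -m0 < Λ (pos (b.take t)) ∧ -l0 < H (pos (b.take t)))

/-- Reversed past words from the tip, non-parallel case. -/
def JN (Λ : V d →+ ℝ) (w : List (S d)) : Prop :=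
  ∀ t ≤ w.length, 0 ≤ Λ (pos (w.take t))

/-- Words after the connector, non-parallel case. -/
def FN (H Λ : V d →+ ℝ) (m0 l0 : ℝ) (w : List (S d)) : Prop :=
  ∀ t ≤ w.length, Λ (pos (w.take t)) < m0 ∧ -l0 < H (pos (w.take t))

end Pool.Agent.MP_ef0d6f_pr
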