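import Pool.Agent.Lib.MP_ef0d6f_pr.Planar

/-! Task 11 (EstB): the weight of the set `BP`. -/

namespace Pool.Agent.MP_ef0d6f_pr

open Filter Topology

variable {d : ℕ}

namespace EstB

theorem free_aux {B : List (S d) → Prop} (L : V d →+ ℝ) (y : ℝ)
    (h1 : ∀ b, B b → y ≤ L (pos b)) (h2 : ∀ b, B b → ∀ t < b.length, L (pos (b.take t)) < y) :
    Free B := by
  have key : ∀ b b' w, B b → B b' → b <+: w → b' <+: w → b.length ≤ b'.length → b = b' := by
    intro b b' w hb hb' hw hw' hl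
    have h3 : b <+: b' := List.prefix_of_prefix_length_le hw hw' hl
    rcases hl.lt_or_eq with h4 | h4
    · exfalso
      have h5 : b = b'.take b.length := List.prefix_iff_eq_take.1 h3
      have h6 := h2 b' hb' b.length h4
      rw [← h5] at h6
      exact absurd (h1 b hb) (not_le.2 h6)
    · exact h3.eq_of_length h4
  intro b b' w hb hb' hw hw'
  rcases le_total b.length b'.length with h | h
  · exact key b b' w hb hb' hw hw' h
  · exact (key b' b w hb' hb hw' hw h).symm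

theorem union (q : S d → ℝ) (hq : ∀ s, 0 ≤ q s) (hs : ∑ s, q s = 1) (T : ℕ)
    (Q : ℕ → List (S d) → Prop) (η : ℝ) (i : ℕ)
    (h : ∀ j, 1 ≤ j → j ≤ i → 1 - η ≤ EP q T (fun w => ind (Q j w))) :
    1 - i * η ≤ EP q T (fun w => ind (∀ j, 1 ≤ j → j ≤ i → Q j w)) := by
  induction i with
  | zero =>
    have h1 : EP q T (fun w => ind (∀ j, 1 ≤ j → j ≤ 0 → Q j w)) = 1 := by
      rw [EP_congr q T (G := fun _ => 1) (fun w _ => ind_of (fun j h1 h2 => by omega)),
        EP_const q hs]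
    rw [h1]
    simp
  | succ i ih =>
    have h1 := ih (fun j hj hji => h j hj (by omega))
    have h2 := h (i + 1) (by omega) le_rfl
    have h3 := EP_ind_and_ge q hq hs T (fun w => ∀ j, 1 ≤ j → j ≤ i → Q j w) (Q (i + 1))
    have h4 : EP q T (fun w => ind ((∀ j, 1 ≤ j → j ≤ i → Q j w) ∧ Q (i + 1) w)) ≤
        EP q T (fun w => ind (∀ j, 1 ≤ j → j ≤ i + 1 → Q j w)) := by
      refine EP_mono q hq T (fun w _ => ind_mono ?_)
      rintro ⟨h5, h6⟩ j hj hji
      rcases Nat.lt_or_ge i j with h7 | h7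
      · have : j = i + 1 := by omega
        rw [this]
        exact h6
      · exact h5 j hj h7
    push_cast
    linarith

theorem small (lam K c : ℝ) (hlam : 0 < lam) (hc : 0 < c) :
    ∃ N0 : ℕ, ∀ N : ℕ, N0 ≤ N → K * Real.exp (-lam * Real.sqrt N) ≤ c / Real.sqrt N := by
  have h1 : Tendsto (fun N : ℕ => lam * Real.sqrt N) atTop atTop :=
    Tendsto.const_mul_atTop hlam (Real.tendsto_sqrt_atTop.comp tendsto_natCast_atTop_atTop)
  have h2 := (Real.tendsto_pow_mul_exp_neg_atTop_nhds_zero 1).comp h1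
  have h3 := h2.const_mul (K / lam)
  rw [mul_zero] at h3
  have h4 := h3.eventually_lt_const hc
  obtain ⟨N0, hN0⟩ := eventually_atTop.1 h4
  refine ⟨max N0 1, fun N hN => ?_⟩
  have h5 := hN0 N (le_trans (le_max_left _ _) hN)
  have hN1 : 1 ≤ N := le_trans (le_max_right _ _) hN
  have h6 : 0 < Real.sqrt N := Real.sqrt_pos.2 (by exact_mod_cast hN1)
  rw [le_div_iff₀ h6]
  simp only [Function.comp_apply, pow_one] at h5
  have h7 : K / lam * (lam * Real.sqrt N * Real.exp (-(lam * Real.sqrt N))) =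
      K * Real.exp (-lam * Real.sqrt N) * Real.sqrt N := by
    rw [neg_mul]
    field_simp
  rw [h7] at h5
  exact h5.le

end EstB

theorem BP_free (H U : V d →+ ℝ) (Hs : ℕ → V d →+ ℝ) (i N : ℕ) (m0 l0 r A : ℝ)
    (t0 T : ℕ) : Free (BP H U Hs i N m0 l0 r A t0 T) :=
  EstB.free_aux H N (fun _ hb => hb.2.1) (fun _ hb => hb.2.2.2.1)

open Classical in
theorem estB (q : S d → ℝ) (hq : ∀ s, 0 < q s) (hs : ∑ s, q s = 1) (H U : V d →+ ℝ)
    (hH : 0 < mean q H) (hU : mean q U = 0) (hU0 : ∃ s, U (step s) ≠ 0)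
    (Hs : ℕ → V d →+ ℝ) (i : ℕ) (hHs : ∀ j, 1 ≤ j → j ≤ i → 0 < mean q (Hs j)) :
    ∃ m0 l0 ε c C0 : ℝ, 0 < m0 ∧ 0 < l0 ∧ 0 < ε ∧ 0 < c ∧ 0 < C0 ∧
      ∀ C : ℝ, C0 ≤ C → ∀ τ : ℝ, 0 < τ → ∃ α0 : ℝ, 0 < α0 ∧ ∀ α : ℝ, 0 < α → α ≤ α0 →
        ∃ N0 : ℕ, ∀ N : ℕ, N0 ≤ N →
          c / Real.sqrt N ≤ ∑ b ∈ (wordsLe d ⌈C * N⌉₊).filter
            (fun b => BP H U Hs i N m0 l0 (ε * Real.sqrt N) (α * Real.sqrt N)
              ⌊τ * Real.sqrt N⌋₊ ⌈C * N⌉₊ b), pw q b := by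
  have hM : mean q (-U) = 0 := by
    have : mean q (-U) = -mean q U := by
      unfold mean
      rw [← Finset.sum_neg_distrib]
      refine Finset.sum_congr rfl fun s _ => ?_
      rw [AddMonoidHom.neg_apply]
      ring
    rw [this, hU, neg_zero]
  have hM0 : ∃ s, (-U) (step s) ≠ 0 := by
    obtain ⟨s, h⟩ := hU0
    exact ⟨s, by rw [AddMonoidHom.neg_apply]; exact neg_ne_zero.2 h⟩
  obtain ⟨m0, l0, ε, c', C', ν0, hm0, hl0, hε, hε1, hc', hC', hν0, hplan⟩ :=
    planar q hq hs (-U) H hM hH hM0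
  obtain ⟨κ, ρ, hκ, hρ0, hρ1, hρ⟩ := exp_rate_fin q hq hs Hs i hHs
  refine ⟨m0, l0, ε, c' * m0 / 2, C', hm0, hl0, hε, by positivity, hC', ?_⟩
  intro C hC τ hτ
  have hlogρ : 0 < -Real.log ρ := neg_pos.2 (Real.log_neg hρ0 hρ1)
  refine ⟨τ * (-Real.log ρ) / (4 * κ), by positivity, ?_⟩
  intro α hα hα0
  have hα1 : 2 * κ * α ≤ τ * (-Real.log ρ) / 2 := by
    have := mul_le_mul_of_nonneg_left hα0 (by positivity : (0 : ℝ) ≤ 2 * κ)
    refine this.trans (le_of_eq ?_)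
    field_simp
    ring
  set lam := τ * (-Real.log ρ) / 2 with hlam
  have hlam0 : 0 < lam := by positivity
  obtain ⟨N1, hN1⟩ := EstB.small lam (i * (1 / (ρ * (1 - ρ)))) (c' * m0 / 2) hlam0 (by positivity)
  -- large N
  have hsq : Tendsto (fun N : ℕ => ε * Real.sqrt N) atTop atTop :=
    Tendsto.const_mul_atTop hε (Real.tendsto_sqrt_atTop.comp tendsto_natCast_atTop_atTop)
  obtain ⟨N2, hN2⟩ := eventually_atTop.1 (hsq.eventually_ge_atTop m0)
  obtain ⟨N3, hN3⟩ := eventually_atTop.1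
    ((tendsto_natCast_atTop_atTop (R := ℝ)).eventually_ge_atTop ν0)
  refine ⟨max N1 (max N2 N3), fun N hN => ?_⟩
  have hNN1 := hN1 N ((le_max_left _ _).trans hN)
  have hNN2 := hN2 N ((le_max_left _ _).trans ((le_max_right _ _).trans hN))
  have hNN3 := hN3 N ((le_max_right _ _).trans ((le_max_right _ _).trans hN))
  have hNpos : (0 : ℝ) < N := by linarith
  have hsqN : 0 < Real.sqrt N := Real.sqrt_pos.2 hNpos
  set T := ⌈C * N⌉₊ with hT
  set t0 := ⌊τ * Real.sqrt N⌋₊ with ht0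
  have hTC : C' * N ≤ T := by
    have h1 : C * N ≤ T := Nat.le_ceil _
    have h2 : C' * N ≤ C * N := mul_le_mul_of_nonneg_right hC hNpos.le
    linarith
  have h1 := hplan N hNN3 m0 le_rfl hNN2 T hTC
  rw [hit_eq q hs] at h1
  -- the late times
  set η := Real.exp (κ * (2 * (α * Real.sqrt N))) * ρ ^ t0 / (1 - ρ) with hη
  have hlate : ∀ j, 1 ≤ j → j ≤ i → 1 - η ≤
      EP q T (fun w => ind (∀ t ≤ T, t0 ≤ t → 2 * (α * Real.sqrt N) ≤ Hs j (pos (w.take t)))) :=
    fun j hj hji => late q hq hs (Hs j) κ ρ hκ (hρ j hj hji) hρ1 _ t0 T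
  have h2 := EstB.union q (fun s => (hq s).le) hs T
    (fun j w => ∀ t ≤ T, t0 ≤ t → 2 * (α * Real.sqrt N) ≤ Hs j (pos (w.take t))) η i hlate
  have h3 := EP_ind_and_ge q (fun s => (hq s).le) hs T
    (fun w => ∃ b, HitW (fun y => (N : ℝ) ≤ H y ∧ ε * Real.sqrt N ≤ (-U) y)
      (fun y => (-U) y ≤ -m0 ∨ H y ≤ -l0 ∨ (N : ℝ) ≤ H y) 0 b ∧ b <+: w)
    (fun w => ∀ j, 1 ≤ j → j ≤ i → ∀ t ≤ T, t0 ≤ t →
      2 * (α * Real.sqrt N) ≤ Hs j (pos (w.take t)))
  have h4 : EP q T (fun w => ind ((∃ b, HitW (fun y => (N : ℝ) ≤ H y ∧ ε * Real.sqrt N ≤ (-U) y)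
      (fun y => (-U) y ≤ -m0 ∨ H y ≤ -l0 ∨ (N : ℝ) ≤ H y) 0 b ∧ b <+: w) ∧
      ∀ j, 1 ≤ j → j ≤ i → ∀ t ≤ T, t0 ≤ t → 2 * (α * Real.sqrt N) ≤ Hs j (pos (w.take t)))) ≤
      EP q T (fun w => ind (∃ b, BP H U Hs i N m0 l0 (ε * Real.sqrt N) (α * Real.sqrt N)
        t0 T b ∧ b <+: w)) := by
    refine EP_mono q (fun s => (hq s).le) T (fun w hw => ind_mono ?_)
    rintro ⟨⟨b, ⟨hbG, hbD⟩, hbw⟩, hlt⟩
    have hbl : b.length ≤ T := hw ▸ hbw.length_le
    have htake : ∀ t ≤ b.length, b.take t = w.take t := by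
      intro t ht
      obtain ⟨v, rfl⟩ := hbw
      rw [List.take_append_of_le_length ht]
    refine ⟨b, ⟨hbl, ?_, ?_, ?_, ?_, ?_⟩, hbw⟩
    · simpa using hbG.1
    · have := hbG.2
      rw [zero_add, AddMonoidHom.neg_apply] at this
      linarith
    · intro t ht
      have h5 := (hbD t ht).2
      rw [zero_add] at h5
      push Not at h5
      exact h5.2.2
    · intro t ht
      rcases ht.lt_or_eq with ht1 | ht1
      · have h5 := (hbD t ht1).2
        rw [zero_add] at h5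
        beta_reduce at h5
        rw [AddMonoidHom.neg_apply] at h5
        push Not at h5
        exact ⟨by linarith [h5.1], h5.2.1⟩
      · have h5 := hbG
        rw [zero_add, AddMonoidHom.neg_apply] at h5
        rw [ht1, List.take_length]
        have h6 : 0 < ε * Real.sqrt N := by positivity
        exact ⟨by linarith [h5.2], by linarith [h5.1]⟩
    · intro t ht ht0' j hj hji
      rw [htake t ht]
      exact hlt j hj hji t (ht.trans hbl) ht0'
  rw [sum_free q hs _ (BP_free H U Hs i N m0 l0 _ _ t0 T) T]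
  -- the error term
  have h5 : (i : ℝ) * η ≤ c' * m0 / 2 / Real.sqrt N := by
    refine le_trans ?_ hNN1
    have h6 : ρ ^ t0 ≤ Real.exp (Real.log ρ * (τ * Real.sqrt N)) / ρ := by
      have h7 : τ * Real.sqrt N - 1 ≤ t0 := (Nat.sub_one_lt_floor _).le
      rw [le_div_iff₀ hρ0, ← pow_succ, ← Real.rpow_natCast, Real.rpow_def_of_pos hρ0]
      apply Real.exp_le_exp.2
      push_cast
      have h8 : τ * Real.sqrt N ≤ (t0 : ℝ) + 1 := by linarith
      nlinarith [hlogρ]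
    have h7 : η ≤ (1 / (ρ * (1 - ρ))) * Real.exp (-lam * Real.sqrt N) := by
      have h9 : Real.exp (κ * (2 * (α * Real.sqrt N))) * ρ ^ t0 ≤
          Real.exp (-lam * Real.sqrt N) / ρ := by
        calc Real.exp (κ * (2 * (α * Real.sqrt N))) * ρ ^ t0 ≤
              Real.exp (κ * (2 * (α * Real.sqrt N))) *
                (Real.exp (Real.log ρ * (τ * Real.sqrt N)) / ρ) :=
              mul_le_mul_of_nonneg_left h6 (Real.exp_pos _).le
          _ = Real.exp (κ * (2 * (α * Real.sqrt N)) + Real.log ρ * (τ * Real.sqrt N)) / ρ := by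
              rw [Real.exp_add]; ring
          _ ≤ Real.exp (-lam * Real.sqrt N) / ρ := by
              apply div_le_div_of_nonneg_right _ hρ0.le
              apply Real.exp_le_exp.2
              have h10 : 2 * κ * α * Real.sqrt N ≤ lam * Real.sqrt N :=
                mul_le_mul_of_nonneg_right hα1 hsqN.le
              have h11 : lam * Real.sqrt N = τ * (-Real.log ρ) / 2 * Real.sqrt N := rfl
              nlinarith
      have h12 : 0 < 1 - ρ := by linarith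
      rw [hη, div_le_iff₀ h12]
      refine h9.trans (le_of_eq ?_)
      field_simp
    calc (i : ℝ) * η ≤ i * ((1 / (ρ * (1 - ρ))) * Real.exp (-lam * Real.sqrt N)) :=
          mul_le_mul_of_nonneg_left h7 (Nat.cast_nonneg i)
      _ = i * (1 / (ρ * (1 - ρ))) * Real.exp (-lam * Real.sqrt N) := by ring
  have h6 : c' * m0 / 2 / Real.sqrt N = c' * m0 / Real.sqrt N - c' * m0 / 2 / Real.sqrt N := by
    ring
  rw [h6]
  linarith

end Pool.Agent.MP_ef0d6f_pr
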