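import Pool.Agent.Lib.MP_ef0d6f_pr.Planar

/-! Task 13 (EstF): the probability of `FP`. -/

namespace Pool.Agent.MP_ef0d6f_pr

variable {d : ℕ}

theorem FP_closed (H U : V d →+ ℝ) (N : ℕ) (m0 l0 D3 : ℝ) (v v' : List (S d))
    (h : FP H U N m0 l0 D3 (v ++ v')) : FP H U N m0 l0 D3 v := by
  intro t ht
  have h1 := h t (by rw [List.length_append]; omega)
  rw [List.take_append_of_le_length ht] at h1
  exact h1

theorem estF (p0 : S d → ℝ) (hp : ∀ s, 0 < p0 s) (hs : ∑ s, p0 s = 1) (H U : V d →+ ℝ)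
    (hH : 0 < mean p0 H) (hU : mean p0 U = 0) (hU0 : ∃ s, U (step s) ≠ 0) :
    ∃ m0 l0 c : ℝ, 0 < m0 ∧ 0 < l0 ∧ 0 < c ∧
      ∀ D3 : ℝ, 0 < D3 → ∃ N0 : ℕ, ∀ N : ℕ, N0 ≤ N → ∀ r : ℕ,
        c / Real.sqrt N ≤ EP p0 r (fun w => ind (FP H U N m0 l0 D3 w)) := by
  obtain ⟨m0, l0, ε, c, C, ν0, hm0, hl0, hε, hε1, hc, hC, hν0, hplan⟩ :=
    planar p0 hp hs U H hU hH hU0
  obtain ⟨κ, hκ, hκ1⟩ := exp_rate p0 hp hs H hH
  have hp' : ∀ s, 0 ≤ p0 s := fun s => (hp s).le
  refine ⟨m0, l0, c * m0 / (2 * Real.sqrt 2), hm0, hl0, by positivity, fun D3 hD3 => ?_⟩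
  obtain ⟨N1, hN1⟩ := exists_nat_ge (ν0 + (m0 / ε) ^ 2 + D3 + Real.log 2 / κ + 1)
  refine ⟨N1, fun N hN r => ?_⟩
  have hNr : ν0 + (m0 / ε) ^ 2 + D3 + Real.log 2 / κ + 1 ≤ N :=
    hN1.trans (by exact_mod_cast hN)
  have hlog : 0 ≤ Real.log 2 / κ := by positivity
  have hsq : 0 ≤ (m0 / ε) ^ 2 := by positivity
  have hNpos : (0 : ℝ) < N := by linarith
  set ν : ℝ := 2 * N with hν
  set T0 : ℕ := ⌈C * ν⌉₊ with hT0
  have hm0ν : m0 ≤ ε * Real.sqrt ν := by
    have h1 : m0 / ε ≤ Real.sqrt ν := by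
      apply Real.le_sqrt_of_sq_le
      linarith
    rw [div_le_iff₀ hε] at h1
    linarith
  have hhit := hplan ν (by linarith) m0 le_rfl hm0ν T0 (Nat.le_ceil _)
  rw [hit_eq p0 hs] at hhit
  set G : V d → Prop := fun y => ν ≤ H y ∧ ε * Real.sqrt ν ≤ U y with hG
  set D : V d → Prop := fun y => U y ≤ -m0 ∨ H y ≤ -l0 ∨ ν ≤ H y with hD
  -- the event at the time `max T0 r`
  have hmain : c * m0 / (2 * Real.sqrt 2) / Real.sqrt N ≤
      EP p0 (max T0 r) (fun w => ind (FP H U N m0 l0 D3 w)) := by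
    have hstop := EP_stop_cont p0 hp' hs (HitW G D 0) (hitW_free G D 0)
      (fun _ v => ∀ t ≤ v.length, -(N - D3) < H (pos (v.take t))) T0 (max T0 r)
      (le_max_left _ _) (1 / 2) (by norm_num) (by
        intro b q _ _ _
        have h1 := never p0 hp hs H κ hκ hκ1.le (N - D3) q
        have h2 : Real.exp (-κ * (N - D3)) ≤ 1 / 2 := by
          rw [show (1 / 2 : ℝ) = Real.exp (-Real.log 2) by
            rw [Real.exp_neg, Real.exp_log (by norm_num)]; norm_num]
          apply Real.exp_le_exp.2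
          have h3 : Real.log 2 / κ ≤ N - D3 := by linarith
          rw [div_le_iff₀ hκ] at h3
          linarith
        have h4 : EP p0 q (fun w => ind (∀ t ≤ q, -(N - D3) < H (pos (w.take t)))) =
            EP p0 q (fun w => ind (∀ t ≤ w.length, -(N - D3) < H (pos (w.take t)))) := by
          apply EP_congr
          intro w hw
          rw [hw]
        rw [h4] at h1
        linarith)
    have hle : EP p0 (max T0 r) (fun w => ind (∃ b v, HitW G D 0 b ∧ b.length ≤ T0 ∧
        w = b ++ v ∧ ∀ t ≤ v.length, -(N - D3) < H (pos (v.take t)))) ≤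
        EP p0 (max T0 r) (fun w => ind (FP H U N m0 l0 D3 w)) := by
      apply EP_mono p0 hp'
      intro w _
      apply ind_mono
      rintro ⟨b, v, ⟨hb1, hb2⟩, _, rfl, hv⟩
      rw [zero_add] at hb1
      intro t ht
      rcases Nat.lt_or_ge t b.length with h | h
      · rw [List.take_append_of_le_length h.le]
        have h1 := (hb2 t h).2
        rw [zero_add] at h1
        simp only [hD, not_or, not_le] at h1
        exact ⟨h1.2.1, Or.inl h1.1⟩
      · have h1 : t - b.length ≤ v.length := by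
          rw [List.length_append] at ht; omega
        have h2 := hv _ h1
        have h3 : (b ++ v).take t = b ++ v.take (t - b.length) := by
          rw [List.take_append, List.take_of_length_le h]
        rw [h3, pos_append, map_add]
        have h4 : ν ≤ H (pos b) := hb1.1
        have h5 : (N : ℝ) + D3 < H (pos b) + H (pos (v.take (t - b.length))) := by
          rw [hν] at h4; linarith
        exact ⟨by linarith, Or.inr h5⟩
    refine le_trans ?_ (hstop.trans hle)
    have h6 : c * m0 / (2 * Real.sqrt 2) / Real.sqrt N = c * m0 / Real.sqrt ν * (1 / 2) := by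
      rw [hν, Real.sqrt_mul (by norm_num)]
      field_simp
    rw [h6]
    exact mul_le_mul_of_nonneg_right hhit (by norm_num)
  refine hmain.trans ?_
  rw [← EP_take p0 hs r (max T0 r) (le_max_right _ _)]
  apply EP_mono p0 hp'
  intro w _
  apply ind_mono
  intro h
  apply FP_closed H U N m0 l0 D3 (w.take r) (w.drop r)
  rwa [List.take_append_drop]

end Pool.Agent.MP_ef0d6f_pr
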