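import Pool.Agent.Lib.MP_ef0d6f_pr.EstB

/-! Task 12 (EstJ): the probability of `JP`. -/

namespace Pool.Agent.MP_ef0d6f_pr

open Filter Topology

variable {d : ℕ}

namespace EstJ

theorem mean_neg (q : S d → ℝ) (L : V d →+ ℝ) : mean q (-L) = -mean q L := by
  unfold mean
  rw [← Finset.sum_neg_distrib]
  refine Finset.sum_congr rfl fun s _ => ?_
  rw [AddMonoidHom.neg_apply]
  ring

/-- `N² e^{-λ√N}` is small -/
theorem small2 (lam K c : ℝ) (hlam : 0 < lam) (hc : 0 < c) :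
    ∃ N0 : ℕ, ∀ N : ℕ, N0 ≤ N → K * ((N : ℝ) ^ 2 * Real.exp (-lam * Real.sqrt N)) ≤ c := by
  have h1 : Tendsto (fun N : ℕ => lam * Real.sqrt N) atTop atTop :=
    Tendsto.const_mul_atTop hlam (Real.tendsto_sqrt_atTop.comp tendsto_natCast_atTop_atTop)
  have h2 := (Real.tendsto_pow_mul_exp_neg_atTop_nhds_zero 4).comp h1
  have h3 := h2.const_mul (K / lam ^ 4)
  rw [mul_zero] at h3
  have h4 := h3.eventually_lt_const hc
  obtain ⟨N0, hN0⟩ := eventually_atTop.1 h4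
  refine ⟨N0, fun N hN => ?_⟩
  have h5 := hN0 N hN
  simp only [Function.comp_apply] at h5
  have h6 : Real.sqrt N ^ 4 = (N : ℝ) ^ 2 := by
    rw [show (4 : ℕ) = 2 * 2 by norm_num, pow_mul, Real.sq_sqrt (Nat.cast_nonneg N)]
  have h7 : K / lam ^ 4 * ((lam * Real.sqrt N) ^ 4 * Real.exp (-(lam * Real.sqrt N))) =
      K * ((N : ℝ) ^ 2 * Real.exp (-lam * Real.sqrt N)) := by
    rw [mul_pow, h6, neg_mul]
    field_simp
  rw [h7] at h5
  exact h5.le

end EstJ

theorem estJ (p0 : S d → ℝ) (hp : ∀ s, 0 < p0 s) (hs : ∑ s, p0 s = 1) (H U : V d →+ ℝ)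
    (hH : 0 < mean p0 H) (hU : mean p0 U = 0) (hU0 : ∃ s, U (step s) ≠ 0)
    (Hs : ℕ → V d →+ ℝ) (i : ℕ) (hHs : ∀ j, 1 ≤ j → j ≤ i → 0 < mean p0 (Hs j)) :
    ∃ l1 ε C0 : ℝ, 0 < l1 ∧ 0 < ε ∧ 0 < C0 ∧
      ∀ C : ℝ, C0 ≤ C → ∀ r0 : ℝ, 0 < r0 → r0 ≤ ε → ∃ c : ℝ, 0 < c ∧
        ∀ D2 : ℝ, 0 < D2 → ∀ α : ℝ, 0 < α → ∃ N0 : ℕ, ∀ N : ℕ, N0 ≤ N →
          ∀ r : ℕ, ⌈C * N⌉₊ ≤ r →
            c ≤ EP (prev p0) r (fun w => ind (JP H U Hs i N (r0 * Real.sqrt N) l1 D2
              (α * Real.sqrt N) ⌈C * N⌉₊ w)) := by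
  set p := prev p0 with hpdef
  have hpp : ∀ s, 0 < p s := fun s => hp _
  have hps : ∑ s, p s = 1 := by rw [hpdef, sum_prev, hs]
  have hmH : 0 < mean p (-H) := by rw [EstJ.mean_neg, hpdef, mean_prev, neg_neg]; exact hH
  have hmU : mean p (-U) = 0 := by rw [EstJ.mean_neg, hpdef, mean_prev, hU]; simp
  have hM0 : ∃ s, (-U) (step s) ≠ 0 := by
    obtain ⟨s, h⟩ := hU0
    exact ⟨s, by rw [AddMonoidHom.neg_apply]; exact neg_ne_zero.2 h⟩
  obtain ⟨m0, l0, ε, c', C', ν0, hm0, hl0, hε, hε1, hc', hC', hν0, hplan⟩ :=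
    planar p hpp hps (-U) (-H) hmU hmH hM0
  obtain ⟨κ1, hκ1, hκ1'⟩ := exp_rate p hpp hps (-H) hmH
  obtain ⟨κ, ρ, hκ, hρ0, hρ1, hρ⟩ := exp_rate_fin p hpp hps (fun j => -(Hs j)) i
    (fun j hj hji => by
      rw [EstJ.mean_neg, hpdef, mean_prev, neg_neg]
      exact hHs j hj hji)
  -- the constant of `never`
  set D' := Real.log 2 / κ1 with hD'
  have hD'0 : 0 < D' := div_pos (Real.log_pos (by norm_num)) hκ1
  have hhalf : Real.exp (-κ1 * D') = 1 / 2 := by
    rw [hD', neg_mul, mul_div_cancel₀ _ hκ1.ne', Real.exp_neg, Real.exp_log (by norm_num)]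
    norm_num
  refine ⟨l0, ε, 2 * C', hl0, hε, by positivity, ?_⟩
  intro C hC r0 hr0 hr0ε
  refine ⟨c' * r0 / 8, by positivity, ?_⟩
  intro D2 hD2 α hα
  set D1 := D2 + D' with hD1
  have hD1pos : 0 < D1 := by positivity
  have hCpos : 0 < C := by linarith
  -- large N
  obtain ⟨N1, hN1⟩ := EstJ.small2 (κ * α) (i * (C + 2) ^ 2) (c' * r0 / 8) (by positivity)
    (by positivity)
  have hsq : Tendsto (fun N : ℕ => r0 * Real.sqrt N) atTop atTop :=
    Tendsto.const_mul_atTop hr0 (Real.tendsto_sqrt_atTop.comp tendsto_natCast_atTop_atTop)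
  obtain ⟨N2, hN2⟩ := eventually_atTop.1 (hsq.eventually_ge_atTop m0)
  obtain ⟨N3, hN3⟩ := eventually_atTop.1
    ((tendsto_natCast_atTop_atTop (R := ℝ)).eventually_ge_atTop (max ν0 D1))
  refine ⟨max N1 (max N2 N3), fun N hN r hr => ?_⟩
  have hNN1 := hN1 N ((le_max_left _ _).trans hN)
  have hNN2 := hN2 N ((le_max_left _ _).trans ((le_max_right _ _).trans hN))
  have hNN3 := hN3 N ((le_max_right _ _).trans ((le_max_right _ _).trans hN))
  have hNν : ν0 ≤ N := (le_max_left _ _).trans hNN3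
  have hND : D1 ≤ N := (le_max_right _ _).trans hNN3
  have hN1' : (1 : ℝ) ≤ N := hν0.trans hNν
  have hNpos : (0 : ℝ) < N := by linarith
  have hsqN : 0 < Real.sqrt N := Real.sqrt_pos.2 hNpos
  set T := ⌈C * N⌉₊ with hT
  have hTle : (T : ℝ) ≤ C * N + 1 := (Nat.ceil_lt_add_one (by positivity)).le
  set ν := (N : ℝ) + D1 with hν
  have hNν' : (N : ℝ) ≤ ν := by linarith
  have hsqν : Real.sqrt N ≤ Real.sqrt ν := Real.sqrt_le_sqrt hNν'
  have hsqν2 : Real.sqrt ν ≤ 2 * Real.sqrt N := by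
    rw [Real.sqrt_le_left (by positivity), mul_pow, Real.sq_sqrt hNpos.le]
    linarith
  have hsqνpos : 0 < Real.sqrt ν := lt_of_lt_of_le hsqN hsqν
  have h1 := hplan ν (by linarith) (r0 * Real.sqrt N) hNN2
    (mul_le_mul hr0ε hsqν hsqN.le hε.le) T (by
      have h2 : C * N ≤ T := Nat.le_ceil _
      have h3 : C' * ν ≤ C' * (2 * N) := mul_le_mul_of_nonneg_left (by linarith) hC'.le
      have h4 : C' * (2 * N) = 2 * C' * N := by ring
      have h5 : 2 * C' * N ≤ C * N := mul_le_mul_of_nonneg_right hC hNpos.le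
      linarith)
  rw [hit_eq p hps] at h1
  set G : V d → Prop := fun y => ν ≤ (-H) y ∧ ε * Real.sqrt ν ≤ (-U) y with hG
  set Dn : V d → Prop := fun y => (-U) y ≤ -(r0 * Real.sqrt N) ∨ (-H) y ≤ -l0 ∨ ν ≤ (-H) y
    with hDn
  -- stop and continue
  have h2 := EP_stop_cont p (fun s => (hpp s).le) hps (HitW G Dn 0) (hitW_free G Dn 0)
    (fun _ v => ∀ t ≤ v.length, -D' < (-H) (pos (v.take t))) T r hr (1 / 2) (by norm_num) (by
      intro b r' _ _ _
      have h3 := never p hpp hps (-H) κ1 hκ1 hκ1'.le D' r'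
      rw [hhalf] at h3
      have h4 : EP p r' (fun w => ind (∀ t ≤ r', -D' < (-H) (pos (w.take t)))) =
          EP p r' (fun w => ind (∀ t ≤ w.length, -D' < (-H) (pos (w.take t)))) :=
        EP_congr p r' (fun w hw => by rw [hw])
      rw [h4] at h3
      linarith)
  -- no large ascent in the first steps
  set η := ((T : ℝ) + 1) ^ 2 * Real.exp (-κ * (α * Real.sqrt N)) with hη
  have hasc : ∀ j, 1 ≤ j → j ≤ i → 1 - η ≤ EP p r (fun w => ind (∀ t t', t ≤ t' → t' ≤ T →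
      Hs j (pos (w.take t')) - Hs j (pos (w.take t)) ≤ α * Real.sqrt N)) := by
    intro j hj hji
    have h3 := ascent p hpp hps (Hs j) κ hκ (by
      have h4 := hρ j hj hji
      refine le_trans (le_of_eq ?_) (h4.trans hρ1.le)
      refine Finset.sum_congr rfl fun s _ => ?_
      rw [AddMonoidHom.neg_apply]
      congr 2
      ring) (α * Real.sqrt N) T
    rw [← EP_take p hps T r hr] at h3
    refine h3.trans (le_of_eq (EP_congr p r (fun w hw => ?_)))
    apply ind_congr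
    have htt : ∀ t ≤ T, (w.take T).take t = w.take t := fun t ht => by
      rw [List.take_take, min_eq_left ht]
    constructor
    · intro h t t' h5 h6
      have := h t t' h5 h6
      rwa [htt t' h6, htt t (h5.trans h6)] at this
    · intro h t t' h5 h6
      rw [htt t' h6, htt t (h5.trans h6)]
      exact h t t' h5 h6
  have h3 := EstB.union p (fun s => (hpp s).le) hps r
    (fun j w => ∀ t t', t ≤ t' → t' ≤ T →
      Hs j (pos (w.take t')) - Hs j (pos (w.take t)) ≤ α * Real.sqrt N) η i hasc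
  have h4 := EP_ind_and_ge p (fun s => (hpp s).le) hps r
    (fun w => ∃ b v, HitW G Dn 0 b ∧ b.length ≤ T ∧ w = b ++ v ∧
      ∀ t ≤ v.length, -D' < (-H) (pos (v.take t)))
    (fun w => ∀ j, 1 ≤ j → j ≤ i → ∀ t t', t ≤ t' → t' ≤ T →
      Hs j (pos (w.take t')) - Hs j (pos (w.take t)) ≤ α * Real.sqrt N)
  have h5 : EP p r (fun w => ind ((∃ b v, HitW G Dn 0 b ∧ b.length ≤ T ∧ w = b ++ v ∧
      ∀ t ≤ v.length, -D' < (-H) (pos (v.take t))) ∧
      ∀ j, 1 ≤ j → j ≤ i → ∀ t t', t ≤ t' → t' ≤ T →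
        Hs j (pos (w.take t')) - Hs j (pos (w.take t)) ≤ α * Real.sqrt N)) ≤
      EP p r (fun w => ind (JP H U Hs i N (r0 * Real.sqrt N) l0 D2 (α * Real.sqrt N) T w)) := by
    refine EP_mono p (fun s => (hpp s).le) r (fun w _ => ind_mono ?_)
    rintro ⟨⟨b, v, ⟨hbG, hbD⟩, hbT, rfl, hv⟩, hall⟩
    rw [zero_add] at hbG
    simp only [hG, hDn, zero_add, AddMonoidHom.neg_apply] at hbG hbD
    refine ⟨b.length, hbT, ?_, ?_, ?_, ?_⟩
    · rw [List.length_append]
      omega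
    · intro t ht
      rw [List.take_append_of_le_length ht]
      rcases ht.lt_or_eq with ht1 | ht1
      · have h6 := (hbD t ht1).2
        push Not at h6
        exact ⟨by linarith [h6.1], by linarith [h6.2.1]⟩
      · rw [ht1, List.take_length]
        have h7 : 0 < ε * Real.sqrt ν := by positivity
        have h8 : 0 < r0 * Real.sqrt N := by positivity
        exact ⟨by linarith [hbG.2], by linarith [hbG.1]⟩
    · intro t ht ht'
      obtain ⟨k, rfl⟩ := Nat.exists_eq_add_of_lt ht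
      rw [List.length_append] at ht'
      have h6 := hv (k + 1) (by omega)
      rw [AddMonoidHom.neg_apply] at h6
      rw [add_assoc, List.take_length_add_append, pos_append, map_add]
      linarith [hbG.1]
    · intro t t' htt' ht' j hj hji
      exact hall j hj hji t t' htt' (ht'.trans hbT)
  -- numbers
  have h6 : c' * r0 / 2 ≤ c' * (r0 * Real.sqrt N) / Real.sqrt ν := by
    rw [le_div_iff₀ hsqνpos]
    have h7 : c' * r0 / 2 * Real.sqrt ν ≤ c' * r0 / 2 * (2 * Real.sqrt N) :=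
      mul_le_mul_of_nonneg_left hsqν2 (by positivity)
    refine h7.trans (le_of_eq ?_)
    ring
  have h7 : (i : ℝ) * η ≤ c' * r0 / 8 := by
    refine le_trans ?_ hNN1
    have h8 : (T : ℝ) + 1 ≤ (C + 2) * N := by
      have : (C + 2) * N = C * N + 2 * N := by ring
      linarith
    have h9 : ((T : ℝ) + 1) ^ 2 ≤ ((C + 2) * N) ^ 2 :=
      pow_le_pow_left₀ (by positivity) h8 2
    have h10 : -κ * (α * Real.sqrt N) = -(κ * α) * Real.sqrt N := by ring
    rw [hη, h10]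
    calc (i : ℝ) * (((T : ℝ) + 1) ^ 2 * Real.exp (-(κ * α) * Real.sqrt N)) ≤
          i * (((C + 2) * N) ^ 2 * Real.exp (-(κ * α) * Real.sqrt N)) :=
          mul_le_mul_of_nonneg_left
            (mul_le_mul_of_nonneg_right h9 (Real.exp_pos _).le) (Nat.cast_nonneg i)
      _ = i * (C + 2) ^ 2 * ((N : ℝ) ^ 2 * Real.exp (-(κ * α) * Real.sqrt N)) := by ring
  have h8 : c' * r0 / 2 * (1 / 2) ≤
      EP p T (fun w => ind (∃ b, HitW G Dn 0 b ∧ b <+: w)) * (1 / 2) :=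
    mul_le_mul_of_nonneg_right (h6.trans h1) (by norm_num)
  linarith

end Pool.Agent.MP_ef0d6f_pr
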