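import Pool.Agent.Lib.MP_ef0d6f_pr.Calc1

/-! Task 3 (Rates): exponential bounds for walks with independent steps. -/

namespace Pool.Agent.MP_ef0d6f_pr

variable {d : ℕ}

namespace RatesAux

/-- all small rates work -/
theorem small_rate (p : S d → ℝ) (hp : ∀ s, 0 < p s) (hs : ∑ s, p s = 1) (L : V d →+ ℝ)
    (hL : 0 < mean p L) :
    ∃ κ0 : ℝ, 0 < κ0 ∧ ∀ κ : ℝ, 0 < κ → κ ≤ κ0 →
      ∑ s, p s * Real.exp (-κ * L (step s)) < 1 := by
  set D : ℝ := ∑ s : S d, |L (step s)| + 1 with hD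
  have hD1 : ∀ s : S d, |L (step s)| ≤ D := by
    intro s
    have := Finset.single_le_sum (f := fun s : S d => |L (step s)|)
      (fun s _ => abs_nonneg _) (Finset.mem_univ s)
    rw [hD]
    linarith
  have hD0 : 0 < D := by
    rw [hD]
    have : 0 ≤ ∑ s : S d, |L (step s)| := Finset.sum_nonneg (fun s _ => abs_nonneg _)
    linarith
  refine ⟨min (1 / D) (mean p L / (2 * D ^ 2)), lt_min (by positivity) (by positivity), ?_⟩
  intro κ hκ0 hκ
  have hκ1 : κ * D ≤ 1 := by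
    have := le_trans hκ (min_le_left _ _)
    rwa [le_div_iff₀ hD0] at this
  have hκ2 : κ * (2 * D ^ 2) ≤ mean p L := by
    have := le_trans hκ (min_le_right _ _)
    rwa [le_div_iff₀ (by positivity)] at this
  have hpt : ∀ s : S d, p s * Real.exp (-κ * L (step s)) ≤
      p s * (1 + (-κ * L (step s)) + κ ^ 2 * D ^ 2) := by
    intro s
    refine mul_le_mul_of_nonneg_left ?_ (hp s).le
    have h1 : |(-κ * L (step s))| ≤ κ * D := by
      rw [abs_mul, abs_neg, abs_of_pos hκ0]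
      exact mul_le_mul_of_nonneg_left (hD1 s) hκ0.le
    have h2 := Real.abs_exp_sub_one_sub_id_le (h1.trans hκ1)
    have h3 := (abs_le.mp h2).2
    have h4 : (-κ * L (step s)) ^ 2 ≤ κ ^ 2 * D ^ 2 := by
      rw [← mul_pow, ← sq_abs]
      exact pow_le_pow_left₀ (abs_nonneg _) h1 2
    linarith
  have hsum : ∑ s, p s * (1 + (-κ * L (step s)) + κ ^ 2 * D ^ 2) =
      1 - κ * mean p L + κ ^ 2 * D ^ 2 := by
    have h1 : ∀ s : S d, p s * (1 + (-κ * L (step s)) + κ ^ 2 * D ^ 2) =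
        p s * (1 + κ ^ 2 * D ^ 2) - κ * (p s * L (step s)) := fun s => by ring
    rw [Finset.sum_congr rfl (fun s _ => h1 s), Finset.sum_sub_distrib, ← Finset.sum_mul, hs,
      ← Finset.mul_sum]
    unfold mean
    ring
  calc ∑ s, p s * Real.exp (-κ * L (step s))
      ≤ ∑ s, p s * (1 + (-κ * L (step s)) + κ ^ 2 * D ^ 2) :=
        Finset.sum_le_sum (fun s _ => hpt s)
    _ = 1 - κ * mean p L + κ ^ 2 * D ^ 2 := hsum
    _ < 1 := by
      have h5 : κ * (κ * (2 * D ^ 2)) ≤ κ * mean p L := mul_le_mul_of_nonneg_left hκ2 hκ0.le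
      have h6 : 0 < κ * mean p L := mul_pos hκ0 hL
      nlinarith

theorem bound_fin (f : ℕ → ℝ) (i : ℕ) (h : ∀ j, 1 ≤ j → j ≤ i → f j < 1) :
    ∃ ρ : ℝ, 0 < ρ ∧ ρ < 1 ∧ ∀ j, 1 ≤ j → j ≤ i → f j ≤ ρ := by
  induction i with
  | zero => exact ⟨1 / 2, by norm_num, by norm_num, fun j h1 h2 => by omega⟩
  | succ i ih =>
    obtain ⟨ρ, h1, h2, h3⟩ := ih (fun j hj1 hj2 => h j hj1 (by omega))
    refine ⟨max ρ (f (i + 1)), lt_max_of_lt_left h1, max_lt h2 (h (i + 1) (by omega) le_rfl), ?_⟩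
    intro j hj1 hj2
    rcases Nat.lt_or_ge i j with h4 | h4
    · have : j = i + 1 := by omega
      rw [this]
      exact le_max_right _ _
    · exact le_max_of_le_left (h3 j hj1 h4)

theorem small_rate_fin (p : S d → ℝ) (hp : ∀ s, 0 < p s) (hs : ∑ s, p s = 1)
    (Ls : ℕ → V d →+ ℝ) (i : ℕ) (hL : ∀ j, 1 ≤ j → j ≤ i → 0 < mean p (Ls j)) :
    ∃ κ0 : ℝ, 0 < κ0 ∧ ∀ κ : ℝ, 0 < κ → κ ≤ κ0 → ∀ j, 1 ≤ j → j ≤ i →
      ∑ s, p s * Real.exp (-κ * Ls j (step s)) < 1 := by
  induction i with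
  | zero => exact ⟨1, by norm_num, fun κ _ _ j h1 h2 => by omega⟩
  | succ i ih =>
    obtain ⟨κ1, h1, h2⟩ := ih (fun j hj1 hj2 => hL j hj1 (by omega))
    obtain ⟨κ2, h3, h4⟩ := small_rate p hp hs (Ls (i + 1)) (hL (i + 1) (by omega) le_rfl)
    refine ⟨min κ1 κ2, lt_min h1 h3, ?_⟩
    intro κ hκ hκ1 j hj1 hj2
    rcases Nat.lt_or_ge i j with h5 | h5
    · have : j = i + 1 := by omega
      rw [this]
      exact h4 κ hκ (hκ1.trans (min_le_right _ _))
    · exact h2 κ hκ (hκ1.trans (min_le_left _ _)) j hj1 h5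

theorem exp_drop_take (p : S d → ℝ) (hs : ∑ s, p s = 1) (L : V d →+ ℝ) (c : ℝ) (T t t' : ℕ)
    (h1 : t ≤ t') (h2 : t' ≤ T) :
    EP p T (fun w => Real.exp (c * (L (pos (w.take t')) - L (pos (w.take t))))) =
      (∑ s, p s * Real.exp (c * L (step s))) ^ (t' - t) := by
  rw [← EP_exp p (t' - t) L c, ← EP_drop_take p hs t (t' - t) T (by omega)
    (fun w => Real.exp (c * L (pos w)))]
  refine EP_congr p T (fun w hw => ?_)
  have h3 : w.take t' = w.take t ++ (w.drop t).take (t' - t) := by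
    have : t' = t + (t' - t) := by omega
    conv_lhs => rw [this]
    exact List.take_add
  rw [h3, pos_append, map_add]
  congr 2
  ring

end RatesAux

open RatesAux

/-- positive mean implies exponential decay -/
theorem exp_rate (p : S d → ℝ) (hp : ∀ s, 0 < p s) (hs : ∑ s, p s = 1) (L : V d →+ ℝ)
    (hL : 0 < mean p L) :
    ∃ κ : ℝ, 0 < κ ∧ ∑ s, p s * Real.exp (-κ * L (step s)) < 1 := by
  obtain ⟨κ0, h1, h2⟩ := small_rate p hp hs L hL
  exact ⟨κ0, h1, h2 κ0 h1 le_rfl⟩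

/-- the walk never goes below `-a` -/
theorem never (p : S d → ℝ) (hp : ∀ s, 0 < p s) (hs : ∑ s, p s = 1) (L : V d →+ ℝ)
    (κ : ℝ) (hκ : 0 < κ) (h : ∑ s, p s * Real.exp (-κ * L (step s)) ≤ 1) (a : ℝ) (T : ℕ) :
    1 - Real.exp (-κ * a) ≤
      EP p T (fun w => ind (∀ t ≤ T, -a < L (pos (w.take t)))) := by
  induction T generalizing a with
  | zero =>
    rcases le_or_gt a 0 with ha | ha
    · have h1 : 1 ≤ Real.exp (-κ * a) := Real.one_le_exp (by nlinarith)
      have h2 : 0 ≤ EP p 0 (fun w => ind (∀ t ≤ 0, -a < L (pos (w.take t)))) :=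
        EP_nonneg p (fun s => (hp s).le) 0 (fun w _ => ind_nonneg _)
      linarith
    · change _ ≤ ind (∀ t ≤ 0, -a < L (pos (([] : List (S d)).take t)))
      rw [ind_of]
      · have := Real.exp_pos (-κ * a)
        linarith
      · intro t _
        rw [List.take_nil, pos_nil, map_zero]
        linarith
  | succ T ih =>
    rcases le_or_gt a 0 with ha | ha
    · have h1 : 1 ≤ Real.exp (-κ * a) := Real.one_le_exp (by nlinarith)
      have h2 : 0 ≤ EP p (T + 1) (fun w => ind (∀ t ≤ T + 1, -a < L (pos (w.take t)))) :=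
        EP_nonneg p (fun s => (hp s).le) (T + 1) (fun w _ => ind_nonneg _)
      linarith
    · change _ ≤ ∑ s : S d, p s *
        EP p T (fun w => ind (∀ t ≤ T + 1, -a < L (pos ((s :: w).take t))))
      have h3 : ∀ s : S d, p s * (1 - Real.exp (-κ * (a + L (step s)))) ≤ p s *
          EP p T (fun w => ind (∀ t ≤ T + 1, -a < L (pos ((s :: w).take t)))) := by
        intro s
        refine mul_le_mul_of_nonneg_left (le_trans (ih (a + L (step s))) ?_) (hp s).le
        refine EP_mono p (fun s => (hp s).le) T (fun w _ => ind_mono ?_)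
        intro h4 t ht
        cases t with
        | zero =>
          rw [List.take_zero, pos_nil, map_zero]
          linarith
        | succ t =>
          rw [List.take_succ_cons, pos_cons, map_add]
          have := h4 t (by omega)
          linarith
      refine le_trans ?_ (Finset.sum_le_sum (fun s _ => h3 s))
      have h5 : ∀ s : S d, p s * (1 - Real.exp (-κ * (a + L (step s)))) =
          p s - Real.exp (-κ * a) * (p s * Real.exp (-κ * L (step s))) := by
        intro s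
        rw [mul_add, Real.exp_add]
        ring
      rw [Finset.sum_congr rfl (fun s _ => h5 s), Finset.sum_sub_distrib, hs, ← Finset.mul_sum]
      have h6 : Real.exp (-κ * a) * ∑ s, p s * Real.exp (-κ * L (step s)) ≤
          Real.exp (-κ * a) * 1 := mul_le_mul_of_nonneg_left h (Real.exp_pos _).le
      linarith

/-- at all times from `t0` on the walk is above `y` -/
theorem late (p : S d → ℝ) (hp : ∀ s, 0 < p s) (hs : ∑ s, p s = 1) (L : V d →+ ℝ)
    (κ ρ : ℝ) (hκ : 0 < κ) (h : ∑ s, p s * Real.exp (-κ * L (step s)) ≤ ρ) (hρ : ρ < 1)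
    (y : ℝ) (t0 T : ℕ) :
    1 - Real.exp (κ * y) * ρ ^ t0 / (1 - ρ) ≤
      EP p T (fun w => ind (∀ t ≤ T, t0 ≤ t → y ≤ L (pos (w.take t)))) := by
  have h0 : 0 ≤ ∑ s, p s * Real.exp (-κ * L (step s)) :=
    Finset.sum_nonneg (fun s _ => mul_nonneg (hp s).le (Real.exp_pos _).le)
  have hρ0 : 0 ≤ ρ := h0.trans h
  have hpt : ∀ w : List (S d), w.length = T →
      1 - ∑ t ∈ Finset.Ico t0 (T + 1),
        Real.exp (κ * y) * Real.exp (-κ * L (pos (w.take t))) ≤
      ind (∀ t ≤ T, t0 ≤ t → y ≤ L (pos (w.take t))) := by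
    intro w _
    by_cases hev : ∀ t ≤ T, t0 ≤ t → y ≤ L (pos (w.take t))
    · rw [ind_of hev]
      have : 0 ≤ ∑ t ∈ Finset.Ico t0 (T + 1),
          Real.exp (κ * y) * Real.exp (-κ * L (pos (w.take t))) :=
        Finset.sum_nonneg (fun t _ => mul_nonneg (Real.exp_pos _).le (Real.exp_pos _).le)
      linarith
    · rw [ind_of_not hev]
      push Not at hev
      obtain ⟨t, ht1, ht2, ht3⟩ := hev
      have h1 := Finset.single_le_sum
        (f := fun t => Real.exp (κ * y) * Real.exp (-κ * L (pos (w.take t))))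
        (fun t _ => mul_nonneg (Real.exp_pos _).le (Real.exp_pos _).le)
        (Finset.mem_Ico.mpr ⟨ht2, Nat.lt_succ_of_le ht1⟩ : t ∈ Finset.Ico t0 (T + 1))
      have h2 : 1 ≤ Real.exp (κ * y) * Real.exp (-κ * L (pos (w.take t))) := by
        rw [← Real.exp_add]
        refine Real.one_le_exp ?_
        nlinarith
      linarith
  refine le_trans ?_ (EP_mono p (fun s => (hp s).le) T hpt)
  rw [EP_sub, EP_const p hs, EP_sum]
  have hterm : ∀ t ∈ Finset.Ico t0 (T + 1),
      EP p T (fun w => Real.exp (κ * y) * Real.exp (-κ * L (pos (w.take t)))) ≤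
        Real.exp (κ * y) * ρ ^ t := by
    intro t ht
    rw [Finset.mem_Ico] at ht
    rw [EP_mul_left, EP_take p hs t T (by omega) (fun w => Real.exp (-κ * L (pos w))), EP_exp]
    exact mul_le_mul_of_nonneg_left (pow_le_pow_left₀ h0 h t) (Real.exp_pos _).le
  have hsum : ∑ t ∈ Finset.Ico t0 (T + 1), Real.exp (κ * y) * ρ ^ t ≤
      Real.exp (κ * y) * ρ ^ t0 / (1 - ρ) := by
    rw [← Finset.mul_sum, mul_div_assoc]
    refine mul_le_mul_of_nonneg_left ?_ (Real.exp_pos _).le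
    rw [Finset.sum_Ico_eq_sum_range]
    have h3 : ∀ k ∈ Finset.range (T + 1 - t0), ρ ^ (t0 + k) = ρ ^ t0 * ρ ^ k :=
      fun k _ => pow_add _ _ _
    rw [Finset.sum_congr rfl h3, ← Finset.mul_sum, div_eq_mul_inv]
    refine mul_le_mul_of_nonneg_left ?_ (pow_nonneg hρ0 _)
    rw [← tsum_geometric_of_lt_one hρ0 hρ]
    exact (summable_geometric_of_lt_one hρ0 hρ).sum_le_tsum _ (fun k _ => pow_nonneg hρ0 k)
  have := Finset.sum_le_sum hterm
  linarith

/-- a walk with negative exponential rate makes no large ascent -/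
theorem ascent (p : S d → ℝ) (hp : ∀ s, 0 < p s) (hs : ∑ s, p s = 1) (L : V d →+ ℝ)
    (κ : ℝ) (hκ : 0 < κ) (h : ∑ s, p s * Real.exp (κ * L (step s)) ≤ 1) (A : ℝ) (T : ℕ) :
    1 - (T + 1 : ℝ) ^ 2 * Real.exp (-κ * A) ≤
      EP p T (fun w => ind (∀ t t', t ≤ t' → t' ≤ T →
        L (pos (w.take t')) - L (pos (w.take t)) ≤ A)) := by
  have h0 : 0 ≤ ∑ s, p s * Real.exp (κ * L (step s)) :=
    Finset.sum_nonneg (fun s _ => mul_nonneg (hp s).le (Real.exp_pos _).le)
  set f : List (S d) → ℕ × ℕ → ℝ := fun w x =>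
    if x.1 ≤ x.2 then Real.exp (-κ * A) *
      Real.exp (κ * (L (pos (w.take x.2)) - L (pos (w.take x.1)))) else 0 with hf
  have hf0 : ∀ w x, 0 ≤ f w x := by
    intro w x
    simp only [hf]
    split_ifs
    · positivity
    · exact le_rfl
  have hpt : ∀ w : List (S d), w.length = T →
      1 - ∑ x ∈ Finset.range (T + 1) ×ˢ Finset.range (T + 1), f w x ≤
      ind (∀ t t', t ≤ t' → t' ≤ T → L (pos (w.take t')) - L (pos (w.take t)) ≤ A) := by
    intro w _
    by_cases hev : ∀ t t', t ≤ t' → t' ≤ T → L (pos (w.take t')) - L (pos (w.take t)) ≤ A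
    · rw [ind_of hev]
      have : 0 ≤ ∑ x ∈ Finset.range (T + 1) ×ˢ Finset.range (T + 1), f w x :=
        Finset.sum_nonneg (fun x _ => hf0 w x)
      linarith
    · rw [ind_of_not hev]
      push Not at hev
      obtain ⟨t, t', ht1, ht2, ht3⟩ := hev
      have h1 := Finset.single_le_sum (f := f w) (fun x _ => hf0 w x)
        (Finset.mem_product.mpr ⟨Finset.mem_range.mpr (by omega : t < T + 1),
          Finset.mem_range.mpr (by omega : t' < T + 1)⟩ :
          (t, t') ∈ Finset.range (T + 1) ×ˢ Finset.range (T + 1))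
      have h2 : 1 ≤ f w (t, t') := by
        simp only [hf, if_pos ht1]
        rw [← Real.exp_add]
        refine Real.one_le_exp ?_
        nlinarith
      linarith
  refine le_trans ?_ (EP_mono p (fun s => (hp s).le) T hpt)
  rw [EP_sub, EP_const p hs, EP_sum]
  have hterm : ∀ x ∈ Finset.range (T + 1) ×ˢ Finset.range (T + 1),
      EP p T (fun w => f w x) ≤ Real.exp (-κ * A) := by
    intro x hx
    rw [Finset.mem_product, Finset.mem_range, Finset.mem_range] at hx
    by_cases h12 : x.1 ≤ x.2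
    · simp only [hf, if_pos h12]
      rw [EP_mul_left, exp_drop_take p hs L κ T x.1 x.2 h12 (by omega)]
      calc Real.exp (-κ * A) * (∑ s, p s * Real.exp (κ * L (step s))) ^ (x.2 - x.1)
          ≤ Real.exp (-κ * A) * 1 :=
            mul_le_mul_of_nonneg_left (pow_le_one₀ h0 h) (Real.exp_pos _).le
        _ = Real.exp (-κ * A) := mul_one _
    · simp only [hf, if_neg h12]
      rw [EP_const p hs]
      exact (Real.exp_pos _).le
  have hsum := Finset.sum_le_sum hterm
  rw [Finset.sum_const, Finset.card_product, Finset.card_range, nsmul_eq_mul] at hsum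
  push_cast at hsum
  have h7 : ((T : ℝ) + 1) * (T + 1) * Real.exp (-κ * A) =
      (T + 1 : ℝ) ^ 2 * Real.exp (-κ * A) := by ring
  linarith

/-- one common rate for finitely many functionals -/
theorem exp_rate_fin (p : S d → ℝ) (hp : ∀ s, 0 < p s) (hs : ∑ s, p s = 1)
    (Ls : ℕ → V d →+ ℝ) (i : ℕ) (hL : ∀ j, 1 ≤ j → j ≤ i → 0 < mean p (Ls j)) :
    ∃ κ ρ : ℝ, 0 < κ ∧ 0 < ρ ∧ ρ < 1 ∧ ∀ j, 1 ≤ j → j ≤ i →
      ∑ s, p s * Real.exp (-κ * Ls j (step s)) ≤ ρ := by
  obtain ⟨κ, h1, h2⟩ := small_rate_fin p hp hs Ls i hL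
  obtain ⟨ρ, h3, h4, h5⟩ := bound_fin
    (fun j => ∑ s, p s * Real.exp (-κ * Ls j (step s))) i (h2 κ h1 le_rfl)
  exact ⟨κ, ρ, h1, h3, h4, h5⟩

end Pool.Agent.MP_ef0d6f_pr
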