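import Pool.Agent.Lib.MP_ef0d6f_pr.Calc2
import Pool.Agent.Lib.MP_ef0d6f_pr.Rates
import Pool.Agent.Lib.MP_ef0d6f_pr.Tilt

/-! Task 16 (FamN): the family of traps in the non-parallel case. -/

namespace Pool.Agent.MP_ef0d6f_pr

variable {d : ℕ}

namespace FamNAux

/-- a convenient form of the conclusion of an initial segment -/
theorem take_of_prefix {b w : List (S d)} (h : b <+: w) (t : ℕ) (ht : t ≤ b.length) :
    b.take t = w.take t := by
  obtain ⟨v, rfl⟩ := h
  rw [List.take_append_of_le_length ht]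

theorem mean_neg_hom (p : S d → ℝ) (L : V d →+ ℝ) : mean p (-L) = -mean p L := by
  simp [mean, Finset.sum_neg_distrib]

/-- `exp (-κ * a)` is small for large `a` -/
theorem exists_level (κ : ℝ) (hκ : 0 < κ) (ε : ℝ) (hε : 0 < ε) :
    ∃ a : ℝ, 0 < a ∧ Real.exp (-κ * a) ≤ ε := by
  refine ⟨max 1 (-(Real.log ε) / κ), lt_of_lt_of_le one_pos (le_max_left _ _), ?_⟩
  rw [← Real.le_log_iff_exp_le hε]
  have h1 : -(Real.log ε) / κ ≤ max 1 (-(Real.log ε) / κ) := le_max_right _ _
  rw [div_le_iff₀ hκ] at h1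
  linarith

end FamNAux

open FamNAux

theorem BN_free (H Λ : V d →+ ℝ) (N : ℕ) (m0 l0 : ℝ) (T : ℕ) :
    Free (BN H Λ N m0 l0 T) := by
  intro b b' w hb hb' hw hw'
  have key : ∀ b b' : List (S d), BN H Λ N m0 l0 T b → BN H Λ N m0 l0 T b' →
      b <+: w → b' <+: w → b'.length ≤ b.length := by
    intro b b' hb hb' hw hw'
    by_contra hlt
    push Not at hlt
    have h1 := hb'.2.2.1 b.length hlt
    have h2 := hb.2.1
    have h3 : b'.take b.length = b := by
      rw [take_of_prefix hw' b.length hlt.le]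
      obtain ⟨v, rfl⟩ := hw
      simp
    rw [h3] at h1
    linarith
  have hlen : b.length = b'.length := le_antisymm (key b' b hb' hb hw' hw) (key b b' hb hb' hw hw')
  obtain ⟨v, rfl⟩ := hw
  obtain ⟨v', hv'⟩ := hw'
  exact (List.append_inj hv' hlen.symm).1.symm

open Classical in
theorem estBN (q : S d → ℝ) (hq : ∀ s, 0 < q s) (hs : ∑ s, q s = 1) (H Λ : V d →+ ℝ)
    (hH : 0 < mean q H) (hΛ : 0 < mean q Λ) :
    ∃ m0 l0 C0 : ℝ, 0 < m0 ∧ 0 < l0 ∧ 0 < C0 ∧ ∃ N0 : ℕ, ∀ N : ℕ, N0 ≤ N →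
      1 / 4 ≤ ∑ b ∈ (wordsLe d ⌈C0 * N⌉₊).filter
        (fun b => BN H Λ N m0 l0 ⌈C0 * N⌉₊ b), pw q b := by
  obtain ⟨κH, hκH, hH1⟩ := exp_rate q hq hs H hH
  obtain ⟨κ, hκ, hL1⟩ := exp_rate q hq hs Λ hΛ
  obtain ⟨l0, hl0, hl0'⟩ := exists_level κH hκH (1 / 4) (by norm_num)
  obtain ⟨m0, hm0, hm0'⟩ := exists_level κ hκ (1 / 4) (by norm_num)
  set ρ : ℝ := ∑ s, q s * Real.exp (-κ * Λ (step s)) with hρdef
  have hne : (Finset.univ : Finset (S d)).Nonempty := by
    by_contra hemp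
    rw [Finset.not_nonempty_iff_eq_empty] at hemp
    rw [hemp] at hs
    simp at hs
  have hρ0 : 0 < ρ := by
    rw [hρdef]
    exact Finset.sum_pos (fun s _ => mul_pos (hq s) (Real.exp_pos _)) hne
  have hlogρ : Real.log ρ < 0 := Real.log_neg hρ0 hL1
  set C0 : ℝ := (κ + 1) / (-Real.log ρ) with hC0def
  have hC0 : 0 < C0 := div_pos (by linarith) (by linarith)
  obtain ⟨a1, ha1, ha1'⟩ := exists_level 1 one_pos ((1 - ρ) / 4) (by linarith)
  refine ⟨m0, l0, C0, hm0, hl0, hC0, ⌈a1⌉₊, ?_⟩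
  intro N hN
  have hNa : a1 ≤ N := (Nat.le_ceil a1).trans (by exact_mod_cast hN)
  set T : ℕ := ⌈C0 * N⌉₊ with hTdef
  rw [sum_free q hs _ (BN_free H Λ N m0 l0 T) T]
  have e1 := never q hq hs Λ κ hκ hL1.le m0 T
  have e2 := never q hq hs H κH hκH hH1.le l0 T
  have e3 := late q hq hs Λ κ ρ hκ le_rfl hL1 (N : ℝ) T T
  -- the bound of the third error term
  have h3 : Real.exp (κ * N) * ρ ^ T / (1 - ρ) ≤ 1 / 4 := by
    have hT1 : C0 * N ≤ T := Nat.le_ceil _
    have h4 : ρ ^ T = Real.exp (T * Real.log ρ) := by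
      rw [← Real.rpow_natCast, Real.rpow_def_of_pos hρ0]
      ring_nf
    have h5 : (T : ℝ) * Real.log ρ ≤ -(κ + 1) * N := by
      have h6 : (T : ℝ) * Real.log ρ ≤ (C0 * N) * Real.log ρ :=
        mul_le_mul_of_nonpos_right hT1 hlogρ.le
      have h7 : (C0 * N) * Real.log ρ = -(κ + 1) * N := by
        have hne0 : Real.log ρ ≠ 0 := hlogρ.ne
        rw [hC0def]
        field_simp
      linarith
    have h8 : Real.exp (κ * N) * ρ ^ T ≤ Real.exp (-1 * a1) := by
      rw [h4, ← Real.exp_add]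
      apply Real.exp_le_exp.mpr
      nlinarith
    rw [div_le_iff₀ (by linarith)]
    linarith
  have u1 := EP_ind_and_ge q (fun s => (hq s).le) hs T
    (fun w => ∀ t ≤ T, -m0 < Λ (pos (w.take t)))
    (fun w => ∀ t ≤ T, -l0 < H (pos (w.take t)))
  have u2 := EP_ind_and_ge q (fun s => (hq s).le) hs T
    (fun w => (∀ t ≤ T, -m0 < Λ (pos (w.take t))) ∧ (∀ t ≤ T, -l0 < H (pos (w.take t))))
    (fun w => ∀ t ≤ T, T ≤ t → (N : ℝ) ≤ Λ (pos (w.take t)))
  have u3 : EP q T (fun w => ind (((∀ t ≤ T, -m0 < Λ (pos (w.take t))) ∧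
      (∀ t ≤ T, -l0 < H (pos (w.take t)))) ∧
      (∀ t ≤ T, T ≤ t → (N : ℝ) ≤ Λ (pos (w.take t))))) ≤
      EP q T (fun w => ind (∃ b, BN H Λ N m0 l0 T b ∧ b <+: w)) := by
    apply EP_mono q (fun s => (hq s).le)
    intro w hw
    apply ind_mono
    rintro ⟨⟨g1, g2⟩, g3⟩
    have g4 : (N : ℝ) ≤ Λ (pos (w.take T)) := g3 T le_rfl le_rfl
    have hex : ∃ t, (N : ℝ) ≤ Λ (pos (w.take t)) := ⟨T, g4⟩
    have hfT : Nat.find hex ≤ T := Nat.find_min' hex g4
    have hfs := Nat.find_spec hex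
    have hfm : ∀ t < Nat.find hex, Λ (pos (w.take t)) < N := by
      intro t ht
      have := Nat.find_min hex ht
      push Not at this
      exact this
    have hlen : (w.take (Nat.find hex)).length = Nat.find hex := by
      rw [List.length_take, hw]
      exact min_eq_left hfT
    refine ⟨w.take (Nat.find hex), ⟨?_, hfs, ?_, ?_⟩, List.take_prefix _ _⟩
    · rw [hlen]
      exact hfT
    · intro t ht
      rw [hlen] at ht
      rw [List.take_take, min_eq_left ht.le]
      exact hfm t ht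
    · intro t ht
      rw [hlen] at ht
      rw [List.take_take, min_eq_left ht]
      exact ⟨g1 t (ht.trans hfT), g2 t (ht.trans hfT)⟩
  linarith

theorem estJN (q : S d → ℝ) (hq : ∀ s, 0 < q s) (hs : ∑ s, q s = 1) (Λ : V d →+ ℝ)
    (hΛ : 0 < mean q Λ) :
    ∃ c : ℝ, 0 < c ∧ ∀ r : ℕ, c ≤ EP q r (fun w => ind (JN Λ w)) := by
  obtain ⟨κ, hκ, hL1⟩ := exp_rate q hq hs Λ hΛ
  obtain ⟨a0, ha0, ha0'⟩ := exists_level κ hκ (1 / 2) (by norm_num)
  -- a step in the direction of `Λ`
  have hex : ∃ s, 0 < Λ (step s) := by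
    by_contra hno
    push Not at hno
    have : mean q Λ ≤ 0 := by
      apply Finset.sum_nonpos
      intro s _
      exact mul_nonpos_of_nonneg_of_nonpos (hq s).le (hno s)
    linarith
  obtain ⟨s0, hs0⟩ := hex
  have hq1 : q s0 ≤ 1 := by
    rw [← hs]
    exact Finset.single_le_sum (fun s _ => (hq s).le) (Finset.mem_univ s0)
  -- the induction
  have key : ∀ n : ℕ, ∀ a : ℝ, 0 ≤ a → a0 ≤ a + n * Λ (step s0) → ∀ r : ℕ,
      q s0 ^ n / 2 ≤ EP q r (fun w => ind (∀ t ≤ w.length, -a ≤ Λ (pos (w.take t)))) := by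
    intro n
    induction n with
    | zero =>
      intro a ha han r
      have h1 := never q hq hs Λ κ hκ hL1.le a r
      have h2 : Real.exp (-κ * a) ≤ Real.exp (-κ * a0) := by
        apply Real.exp_le_exp.mpr
        have : a0 ≤ a := by simpa using han
        nlinarith
      have h3 : EP q r (fun w => ind (∀ t ≤ r, -a < Λ (pos (w.take t)))) ≤
          EP q r (fun w => ind (∀ t ≤ w.length, -a ≤ Λ (pos (w.take t)))) := by
        apply EP_mono q (fun s => (hq s).le)
        intro w hw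
        apply ind_mono
        intro h t ht
        exact (h t (hw ▸ ht)).le
      rw [pow_zero]
      linarith
    | succ n ih =>
      intro a ha han r
      cases r with
      | zero =>
        have h1 : EP q 0 (fun w => ind (∀ t ≤ w.length, -a ≤ Λ (pos (w.take t)))) = 1 := by
          rw [EP]
          apply ind_of
          intro t ht
          simp [pos_nil, ha]
        rw [h1]
        have : q s0 ^ (n + 1) ≤ 1 := pow_le_one₀ (hq s0).le hq1
        linarith
      | succ r =>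
        rw [EP]
        have h1 := ih (a + Λ (step s0)) (by linarith) (by push_cast at han; linarith) r
        have h2 : EP q r (fun w => ind (∀ t ≤ w.length, -(a + Λ (step s0)) ≤
            Λ (pos (w.take t)))) ≤
            EP q r (fun w => ind (∀ t ≤ (s0 :: w).length, -a ≤
              Λ (pos ((s0 :: w).take t)))) := by
          apply EP_mono q (fun s => (hq s).le)
          intro w hw
          apply ind_mono
          intro h t ht
          cases t with
          | zero => simp [pos_nil, ha]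
          | succ t =>
            rw [List.take_succ_cons, pos_cons, map_add]
            have := h t (by simpa using ht)
            linarith
        have h3 : q s0 * EP q r (fun w => ind (∀ t ≤ (s0 :: w).length, -a ≤
              Λ (pos ((s0 :: w).take t)))) ≤
            ∑ s, q s * EP q r (fun w => ind (∀ t ≤ (s :: w).length, -a ≤
              Λ (pos ((s :: w).take t)))) := by
          apply Finset.single_le_sum (f := fun s => q s * EP q r (fun w =>
            ind (∀ t ≤ (s :: w).length, -a ≤ Λ (pos ((s :: w).take t)))))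
            _ (Finset.mem_univ s0)
          intro s _
          apply mul_nonneg (hq s).le
          apply EP_nonneg q (fun s => (hq s).le)
          intro w _
          exact ind_nonneg _
        refine le_trans ?_ h3
        rw [pow_succ]
        have h4 := mul_le_mul_of_nonneg_left (h1.trans h2) (hq s0).le
        calc q s0 ^ n * q s0 / 2 = q s0 * (q s0 ^ n / 2) := by ring
          _ ≤ _ := h4
  obtain ⟨n, hn⟩ := exists_nat_ge (a0 / Λ (step s0))
  refine ⟨q s0 ^ n / 2, by have := pow_pos (hq s0) n; linarith, ?_⟩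
  intro r
  have h1 := key n 0 le_rfl (by rw [div_le_iff₀ hs0] at hn; linarith) r
  refine h1.trans ?_
  apply EP_mono q (fun s => (hq s).le)
  intro w _
  apply ind_mono
  intro h t ht
  have := h t ht
  linarith

theorem estFN (p0 : S d → ℝ) (hp : ∀ s, 0 < p0 s) (hs : ∑ s, p0 s = 1) (H Λ : V d →+ ℝ)
    (hH : 0 < mean p0 H) (hΛ : mean p0 Λ < 0) :
    ∃ m0 l0 : ℝ, 0 < m0 ∧ 0 < l0 ∧ ∀ r : ℕ,
      1 / 4 ≤ EP p0 r (fun w => ind (FN H Λ m0 l0 w)) := by
  have hΛ' : 0 < mean p0 (-Λ) := by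
    rw [mean_neg_hom]
    linarith
  obtain ⟨κH, hκH, hH1⟩ := exp_rate p0 hp hs H hH
  obtain ⟨κ, hκ, hL1⟩ := exp_rate p0 hp hs (-Λ) hΛ'
  obtain ⟨l0, hl0, hl0'⟩ := exists_level κH hκH (1 / 4) (by norm_num)
  obtain ⟨m0, hm0, hm0'⟩ := exists_level κ hκ (1 / 4) (by norm_num)
  refine ⟨m0, l0, hm0, hl0, ?_⟩
  intro r
  have e1 := never p0 hp hs (-Λ) κ hκ hL1.le m0 r
  have e2 := never p0 hp hs H κH hκH hH1.le l0 r
  have u1 := EP_ind_and_ge p0 (fun s => (hp s).le) hs r
    (fun w => ∀ t ≤ r, -m0 < (-Λ) (pos (w.take t)))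
    (fun w => ∀ t ≤ r, -l0 < H (pos (w.take t)))
  have u2 : EP p0 r (fun w => ind ((∀ t ≤ r, -m0 < (-Λ) (pos (w.take t))) ∧
      (∀ t ≤ r, -l0 < H (pos (w.take t))))) ≤ EP p0 r (fun w => ind (FN H Λ m0 l0 w)) := by
    apply EP_mono p0 (fun s => (hp s).le)
    intro w hw
    apply ind_mono
    rintro ⟨g1, g2⟩ t ht
    have h1 := g1 t (hw ▸ ht)
    rw [AddMonoidHom.neg_apply] at h1
    exact ⟨by linarith, g2 t (hw ▸ ht)⟩
  linarith

theorem geomN (H Λ : V d →+ ℝ) (Hs : ℕ → V d →+ ℝ) (i N : ℕ) (A mB lB mF lF DL Cg : ℝ)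
    (T : ℕ) (g : List (S d)) (hmB : 0 < mB) (hlB : 0 < lB) (hmF : 0 < mF) (hlF : 0 < lF)
    (hDL : ∀ s, |Λ (step s)| ≤ DL) (hCg : ∀ n ≤ g.length, |Λ (pos (g.take n))| ≤ Cg)
    (hgL : Λ (pos g) ≤ -(mB + mF)) (hN : Cg + DL < N)
    (u b : List (S d)) (hJ : JN Λ (rev u)) (hB : BN H Λ N mB lB T b) :
    TrapW (u ++ rev b ++ g) Hs i A u.length (u.length + b.length) u.length ∧
    (∀ v, FN H Λ mF lF v → ∀ m ≤ u.length + b.length,
      pos (u ++ rev b ++ g) + pos v ≠ zat (u ++ rev b ++ g) m) := by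
  obtain ⟨hB1, hB2, hB3, hB4⟩ := hB
  have hCg0 : 0 ≤ Cg := by
    have := hCg 0 (Nat.zero_le _)
    exact (abs_nonneg _).trans this
  -- positions
  have hlenub : (u ++ rev b).length = u.length + b.length := by
    rw [List.length_append, length_rev]
  have htip : zat (u ++ rev b ++ g) u.length = pos u := by
    rw [List.append_assoc, zat_append_left _ _ _ le_rfl, zat_length]
  have hbot : pos (u ++ rev b) = pos u - pos b := by
    rw [pos_append, pos_rev]
    abel
  -- the past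
  have hpast : ∀ m ≤ u.length, Λ (pos u) ≤ Λ (zat (u ++ rev b ++ g) m) := by
    intro m hm
    rw [List.append_assoc, zat_append_left _ _ _ hm]
    have h1 := hJ (u.length - m) (by rw [length_rev]; omega)
    rw [pos_take_rev u _ (by omega)] at h1
    have h2 : u.length - (u.length - m) = m := by omega
    rw [h2, map_sub] at h1
    rw [zat]
    linarith
  -- the path between tip and bottom
  have hmid : ∀ n, u.length ≤ n → n ≤ u.length + b.length →
      zat (u ++ rev b ++ g) n = pos u - pos b + pos (b.take (u.length + b.length - n)) := by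
    intro n h1 h2
    rw [zat_append_left _ _ _ (by rw [hlenub]; exact h2)]
    obtain ⟨e, rfl⟩ := Nat.exists_eq_add_of_le h1
    rw [zat_append_right, zat, pos_take_rev b e (by omega)]
    have h3 : u.length + b.length - (u.length + e) = b.length - e := by omega
    rw [h3]
    abel
  -- the connector
  have hcon : ∀ n, u.length + b.length ≤ n → n ≤ (u ++ rev b ++ g).length →
      ∃ e ≤ g.length, zat (u ++ rev b ++ g) n = pos u - pos b + pos (g.take e) := by
    intro n h1 h2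
    obtain ⟨e, rfl⟩ := Nat.exists_eq_add_of_le h1
    refine ⟨e, ?_, ?_⟩
    · rw [List.length_append, hlenub] at h2
      omega
    · rw [← hlenub, zat_append_right, hbot, zat]
  have hconΛ : ∀ n, u.length + b.length ≤ n → n ≤ (u ++ rev b ++ g).length →
      Λ (zat (u ++ rev b ++ g) n) + DL < Λ (pos u) := by
    intro n h1 h2
    obtain ⟨e, he, hz⟩ := hcon n h1 h2
    rw [hz, map_add, map_sub]
    have := (abs_le.mp (hCg e he)).2
    linarith
  have hDL0 : 0 ≤ DL ∨ (∀ s : S d, False) := by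
    by_cases hne : Nonempty (S d)
    · obtain ⟨s⟩ := hne
      exact Or.inl ((abs_nonneg _).trans (hDL s))
    · exact Or.inr (fun s => hne ⟨s⟩)
  have hb0 : 1 ≤ b.length := by
    by_contra hlt
    have hb : b = [] := by
      apply List.eq_nil_of_length_eq_zero
      omega
    rcases hDL0 with h | h
    · rw [hb, pos_nil, map_zero] at hB2
      linarith
    · -- there are no steps
      have hg : g = [] := by
        cases g with
        | nil => rfl
        | cons s _ => exact (h s).elim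
      rw [hg, pos_nil, map_zero] at hgL
      linarith
  obtain ⟨s0, hs0⟩ : ∃ s0, s0 ∈ b := List.exists_mem_of_length_pos hb0
  have hDLn : 0 ≤ DL := (abs_nonneg _).trans (hDL s0)
  have hmidΛ : ∀ n, u.length < n → n ≤ u.length + b.length →
      Λ (zat (u ++ rev b ++ g) n) < Λ (pos u) := by
    intro n h1 h2
    rw [hmid n h1.le h2, map_add, map_sub]
    have := hB3 (u.length + b.length - n) (by omega)
    linarith
  refine ⟨⟨le_rfl, by omega, ?_, ?_, ?_, ?_, ?_⟩, ?_⟩
  · rw [List.length_append, hlenub]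
    omega
  · intro m n hm hn hn' heq
    have h1 := hpast m hm
    have h2 := hconΛ n hn hn'
    rw [heq] at h1
    linarith
  · intro n hn hn' s heq
    have h2 := hconΛ n hn hn'
    rw [← heq, htip, map_add] at h2
    have := (abs_le.mp (hDL s)).1
    linarith
  · intro m n hm hn hn' heq
    refine ⟨u.length, le_rfl, le_rfl, ?_⟩
    rcases hn.eq_or_lt with h | h
    · rw [heq, ← h]
    · exfalso
      have h1 := hpast m hm
      have h2 := hmidΛ n h hn'
      rw [heq] at h1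
      linarith
  · intro h
    exact absurd h (lt_irrefl _)
  · intro v hv m hm heq
    have hv1 := (hv v.length le_rfl).1
    rw [List.take_length] at hv1
    have h1 : Λ (pos (u ++ rev b ++ g) + pos v) < Λ (pos u) - Λ (pos b) - mB := by
      rw [pos_append, hbot, map_add, map_add, map_sub]
      linarith
    rw [heq] at h1
    rcases le_or_gt m u.length with h | h
    · have h2 := hpast m h
      have h3 : (0 : ℝ) ≤ N := Nat.cast_nonneg N
      linarith
    · rw [hmid m h.le hm, map_add, map_sub] at h1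
      have := (hB4 (u.length + b.length - m) (by omega)).1
      linarith

namespace FamNAux

/-- polynomial times exponential is small -/
theorem small_aux (C0 : ℝ) (hC0 : 0 < C0) (η : ℝ) (hη : 0 < η) :
    ∃ N1 : ℕ, ∀ N : ℕ, N1 ≤ N → (⌈C0 * N⌉₊ : ℝ) * Real.exp (-(N : ℝ)) ≤ η := by
  -- `x ^ 2 / 2 ≤ exp x`
  obtain ⟨N1, hN1⟩ := exists_nat_ge (2 * (C0 + 1) / η)
  refine ⟨max N1 1, ?_⟩
  intro N hN
  have hN' : (1 : ℝ) ≤ N := by exact_mod_cast (le_max_right N1 1).trans hN
  have hN1' : 2 * (C0 + 1) / η ≤ N := hN1.trans (by exact_mod_cast (le_max_left N1 1).trans hN)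
  have h1 : (⌈C0 * N⌉₊ : ℝ) ≤ (C0 + 1) * N := by
    have := Nat.ceil_lt_add_one (a := C0 * N) (by positivity)
    nlinarith
  have h2 : (N : ℝ) ^ 2 / 2 ≤ Real.exp N := by
    have := Real.quadratic_le_exp_of_nonneg (x := (N : ℝ)) (by linarith)
    linarith
  have h3 : Real.exp (-(N : ℝ)) ≤ 2 / (N : ℝ) ^ 2 := by
    rw [Real.exp_neg, inv_eq_one_div, div_le_div_iff₀ (Real.exp_pos _) (by positivity)]
    linarith
  calc (⌈C0 * N⌉₊ : ℝ) * Real.exp (-(N : ℝ))
      ≤ ((C0 + 1) * N) * (2 / (N : ℝ) ^ 2) :=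
        mul_le_mul h1 h3 (Real.exp_pos _).le (by positivity)
    _ = 2 * (C0 + 1) / N := by
        field_simp
    _ ≤ η := by
        rw [div_le_iff₀ (by linarith)]
        rw [div_le_iff₀ hη] at hN1'
        linarith

end FamNAux

theorem famN (p0 : S d → ℝ) (hp : ∀ s, 0 < p0 s) (hs : ∑ s, p0 s = 1)
    (Hs : ℕ → V d →+ ℝ) (i : ℕ) (hi : 1 ≤ i)
    (hHs : ∀ j, 1 ≤ j → j ≤ i → 0 < mean p0 (Hs j))
    (hcrit : ∑ s, p0 s * Real.exp (-(Hs i (step s))) = 1)
    (hsep : ∃ L : V d →+ ℝ, 0 < mean (tilt p0 (Hs i)) L ∧ mean p0 L < 0) :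
    Nonempty (TrapFamily p0 Hs i) := by
  classical
  obtain ⟨Λ, hΛq, hΛp⟩ := hsep
  have hHi : 0 < mean p0 (Hs i) := hHs i hi le_rfl
  have hHq : 0 < mean (tilt p0 (Hs i)) (Hs i) := tilt_mean_pos p0 hp hs (Hs i) hcrit hHi
  have htp : ∀ s, 0 < tilt p0 (Hs i) s := tilt_pos p0 hp (Hs i)
  have hts : ∑ s, tilt p0 (Hs i) s = 1 := tilt_sum p0 (Hs i) hcrit
  obtain ⟨mB, lB, C0, hmB, hlB, hC0, N1, hBsum⟩ :=
    estBN (tilt p0 (Hs i)) htp hts (Hs i) Λ hHq hΛq
  have hpp : ∀ s, 0 < prev p0 s := fun s => hp _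
  have hps : ∑ s, prev p0 s = 1 := by rw [sum_prev, hs]
  obtain ⟨cJ, hcJ, hJ⟩ := estJN (prev p0) hpp hps Λ (by rw [mean_prev]; linarith)
  obtain ⟨mF, lF, hmF, hlF, hF⟩ := estFN p0 hp hs (Hs i) Λ hHi hΛp
  have hΛp' : 0 < mean p0 (-Λ) := by
    rw [mean_neg_hom]
    linarith
  obtain ⟨g, hg1, hg2⟩ := exists_word p0 (fun s => (hp s).le) (-Λ) (Hs i) hΛp' hHi
    (max (mB + mF) (lB + lF))
  have hgL : Λ (pos g) ≤ -(mB + mF) := by
    have := (le_max_left (mB + mF) (lB + lF)).trans hg1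
    rw [AddMonoidHom.neg_apply] at this
    linarith
  have hgH : lB + lF ≤ Hs i (pos g) := (le_max_right (mB + mF) (lB + lF)).trans hg2
  -- bounds
  obtain ⟨DL, hDL0, hDL⟩ : ∃ DL : ℝ, 0 ≤ DL ∧ ∀ s : S d, |Λ (step s)| ≤ DL := by
    refine ⟨∑ s, |Λ (step s)|, Finset.sum_nonneg (fun s _ => abs_nonneg _), ?_⟩
    intro s
    exact Finset.single_le_sum (f := fun s => |Λ (step s)|) (fun s _ => abs_nonneg _)
      (Finset.mem_univ s)
  obtain ⟨Cg, hCg0, hCg⟩ : ∃ Cg : ℝ, 0 ≤ Cg ∧ ∀ n ≤ g.length, |Λ (pos (g.take n))| ≤ Cg := by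
    refine ⟨∑ n ∈ Finset.range (g.length + 1), |Λ (pos (g.take n))|,
      Finset.sum_nonneg (fun s _ => abs_nonneg _), ?_⟩
    intro n hn
    exact Finset.single_le_sum (f := fun n => |Λ (pos (g.take n))|)
      (fun s _ => abs_nonneg _) (Finset.mem_range.mpr (by omega))
  obtain ⟨N2, hN2⟩ := exists_nat_gt (Cg + DL)
  have hN0c : ∀ N : ℕ, max (max N1 N2) 1 ≤ N → N1 ≤ N ∧ (Cg + DL < N) ∧ 1 ≤ N := by
    intro N hN
    refine ⟨((le_max_left _ _).trans (le_max_left _ _)).trans hN, ?_,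
      (le_max_right _ _).trans hN⟩
    refine lt_of_lt_of_le hN2 ?_
    exact_mod_cast ((le_max_right N1 N2).trans (le_max_left _ _)).trans hN
  have hblen : ∀ N : ℕ, (0 : ℝ) < N → ∀ b, BN (Hs i) Λ N mB lB ⌈C0 * N⌉₊ b →
      1 ≤ b.length := by
    intro N hN b hb
    by_contra hlt
    have hb' : b = [] := by
      apply List.eq_nil_of_length_eq_zero
      omega
    have h2 := hb.2.1
    rw [hb', pos_nil, map_zero] at h2
    linarith
  refine ⟨{
    g := g
    Λ := Λ
    l0 := lB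
    Lm := DL + 1
    N0 := max (max N1 N2) 1
    N0_pos := le_max_right _ _
    T := fun N => ⌈C0 * N⌉₊
    A := fun N => N
    B := fun N => BN (Hs i) Λ N mB lB ⌈C0 * N⌉₊
    J := fun _ => JN Λ
    F := fun _ => FN (Hs i) Λ mF lF
    c := 1 / 4 * cJ * (1 / 4)
    c_pos := by positivity
    cB := fun _ => 1 / 4
    cJ := fun _ => cJ
    cF := fun _ => 1 / 4
    cB_nonneg := fun _ => by norm_num
    cJ_nonneg := fun _ => hcJ.le
    cF_nonneg := fun _ => by norm_num
    prod_le := ?_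
    B_len := ?_
    B_free := ?_
    F_closed := ?_
    B_sum := ?_
    J_prob := ?_
    F_prob := ?_
    geom := ?_
    sep := ?_
    m1 := ?_
    m2 := ?_
    m3 := ?_
    small := ?_ }⟩
  · intro N hN
    obtain ⟨_, _, h3⟩ := hN0c N hN
    have h4 : (1 : ℝ) ≤ N := by exact_mod_cast h3
    exact div_le_self (by positivity) h4
  · intro N hN b hb
    obtain ⟨_, h2, _⟩ := hN0c N hN
    exact ⟨hblen N (by linarith) b hb, hb.1⟩
  · intro N _
    exact BN_free (Hs i) Λ N mB lB ⌈C0 * N⌉₊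
  · intro N v v' h t ht
    have := h t (ht.trans (by rw [List.length_append]; omega))
    rw [List.take_append_of_le_length ht] at this
    exact this
  · intro N hN
    obtain ⟨h1, _, _⟩ := hN0c N hN
    convert hBsum N h1 using 2
  · intro N _ r _
    exact hJ r
  · intro N _ r
    exact hF r
  · intro N hN u b _ hJu hBb
    obtain ⟨_, h2, _⟩ := hN0c N hN
    refine ⟨u.length, (geomN (Hs i) Λ Hs i N N mB lB mF lF DL Cg ⌈C0 * N⌉₊ g hmB hlB hmF hlF
      hDL hCg hgL h2 u b hJu hBb).1, ?_⟩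
    simp
  · intro N hN u b v _ hJu hBb hFv
    obtain ⟨_, h2, _⟩ := hN0c N hN
    exact (geomN (Hs i) Λ Hs i N N mB lB mF lF DL Cg ⌈C0 * N⌉₊ g hmB hlB hmF hlF
      hDL hCg hgL h2 u b hJu hBb).2 v hFv
  · intro N _ v hv
    have := (hv v.length le_rfl).2
    rw [List.take_length] at this
    linarith
  · intro N _ b hb n hn
    exact (hb.2.2.2 n hn).2
  · intro N hN b hb
    obtain ⟨_, h2, _⟩ := hN0c N hN
    refine ⟨hb.2.1, ?_⟩
    have hl := hblen N (by linarith) b hb
    have h3 := hb.2.2.1 (b.length - 1) (by omega)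
    obtain ⟨s, hs'⟩ := zat_succ b (b.length - 1) (by omega)
    have h4 : b.length - 1 + 1 = b.length := by omega
    rw [h4, zat_length] at hs'
    rw [hs', map_add]
    have h5 := (abs_le.mp (hDL s)).2
    have h6 : Λ (zat b (b.length - 1)) < N := h3
    linarith
  · intro η hη
    exact small_aux C0 hC0 η hη

end Pool.Agent.MP_ef0d6f_pr
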