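import Pool.Agent.Lib.MP_ef0d6f_pr.Calc1

/-! Task 14 (GeomP): geometry of the traps in the parallel case (deterministic). -/

namespace Pool.Agent.MP_ef0d6f_pr

variable {d : ℕ}

namespace GeomP

/-- the bottom, seen from the end of `u` -/
theorem pos_all (u b g : List (S d)) :
    pos (u ++ rev b ++ g) = (pos u - pos b) + pos g := by
  rw [pos_append, pos_append, pos_rev]
  abel

/-- positions on the connector -/
theorem zat_conn (u b g : List (S d)) (n : ℕ) (hn : u.length + b.length ≤ n) :
    zat (u ++ rev b ++ g) n =
      (pos u - pos b) + pos (g.take (n - (u.length + b.length))) := by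
  obtain ⟨m, rfl⟩ := Nat.exists_eq_add_of_le hn
  have h := zat_append_right (u ++ rev b) g m
  rw [List.length_append, length_rev] at h
  rw [h, pos_append, pos_rev, Nat.add_sub_cancel_left]
  unfold zat
  abel

/-- positions between the tip and the bottom -/
theorem zat_mid (u b g : List (S d)) (n : ℕ) (h1 : u.length ≤ n)
    (h2 : n ≤ u.length + b.length) :
    zat (u ++ rev b ++ g) n =
      (pos u - pos b) + pos (b.take (u.length + b.length - n)) := by
  obtain ⟨m, rfl⟩ := Nat.exists_eq_add_of_le h1
  have hm : m ≤ b.length := by omega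
  rw [List.append_assoc, zat_append_right u (rev b ++ g) m,
    zat_append_left (rev b) g m (by rw [length_rev]; exact hm)]
  unfold zat
  rw [pos_take_rev b m hm]
  have : u.length + b.length - (u.length + m) = b.length - m := by omega
  rw [this]
  abel

/-- positions before the tip -/
theorem zat_past (u b g : List (S d)) (m : ℕ) (h : m ≤ u.length) :
    zat (u ++ rev b ++ g) m =
      (pos u - pos b) + (pos b + pos ((rev u).take (u.length - m))) := by
  rw [List.append_assoc, zat_append_left u (rev b ++ g) m h,
    pos_take_rev u (u.length - m) (by omega)]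
  unfold zat
  have : u.length - (u.length - m) = m := by omega
  rw [this]
  abel

theorem low_bound (U : V d →+ ℝ) (DU : ℝ) (hDU : ∀ s, |U (step s)| ≤ DU) (w : List (S d)) :
    -(w.length * DU) ≤ U (pos w) := by
  induction w with
  | nil => simp [pos_nil]
  | cons s w ih =>
    rw [pos_cons, map_add, List.length_cons]
    push_cast
    have := (abs_le.mp (hDU s)).1
    linarith

end GeomP

open GeomP in
theorem geomP (H U : V d →+ ℝ) (Hs : ℕ → V d →+ ℝ) (i N : ℕ) (hN : 1 ≤ N)
    (mB lB mF lF rB rJ l1 A D2 D3 DU DH Cg : ℝ) (t0 T : ℕ) (g : List (S d))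
    (hmB : 0 < mB) (hlB : 0 < lB) (hmF : 0 < mF) (hlF : 0 < lF) (hl1 : 0 < l1) (hA : 0 < A)
    (hDU : ∀ s, |U (step s)| ≤ DU) (hDH : ∀ s, |H (step s)| ≤ DH)
    (hCg : ∀ n ≤ g.length, |U (pos (g.take n))| ≤ Cg ∧ |H (pos (g.take n))| ≤ Cg)
    (hgU : mB + mF ≤ U (pos g)) (hgH : lB + lF + 1 ≤ H (pos g))
    (h1 : rJ ≤ rB / 2) (h2 : 2 * Cg < rB) (h3 : Cg + DU < rB)
    (h4 : (t0 : ℝ) * DU ≤ rB / 2) (h5 : DH + lB + Cg + 1 ≤ D2)
    (u b : List (S d)) (hu : T ≤ u.length)
    (hJ : JP H U Hs i N rJ l1 D2 A T (rev u))
    (hB : BP H U Hs i N mB lB rB A t0 T b) :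
    (∃ a, TrapW (u ++ rev b ++ g) Hs i A u.length (u.length + b.length) a ∧
      u.length - a ≤ T) ∧
    (DH + l1 ≤ D3 → ∀ v, FP H U N mF lF D3 v → ∀ m ≤ u.length + b.length,
      pos (u ++ rev b ++ g) + pos v ≠ zat (u ++ rev b ++ g) m) := by
  classical
  obtain ⟨σ, hσT, hσu, ha, hb, hc⟩ := hJ
  obtain ⟨hbT, hbN, hbU, hbl, hbm, hbj⟩ := hB
  rw [length_rev] at hσu hb
  have hN' : (1 : ℝ) ≤ N := by exact_mod_cast hN
  have hCg0 : 0 ≤ Cg := by
    have := (hCg 0 (Nat.zero_le _)).1
    exact (abs_nonneg _).trans this
  -- `b` is not empty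
  have hb1 : 1 ≤ b.length := by
    by_contra hcon
    have : b = [] := List.length_eq_zero_iff.mp (by omega)
    rw [this, pos_nil, map_zero] at hbN
    linarith
  have hDU0 : 0 ≤ DU := by
    have hbne : b ≠ [] := by
      intro h
      rw [h] at hb1
      simp at hb1
    obtain ⟨s, hs⟩ := List.exists_mem_of_ne_nil b hbne
    exact (abs_nonneg _).trans (hDU s)
  -- height of the tip
  have htip : H (pos b) < N + DH := by
    have hlt : b.length - 1 < b.length := by omega
    obtain ⟨s, hs⟩ := zat_succ b (b.length - 1) hlt
    have e : b.length - 1 + 1 = b.length := by omega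
    rw [e, zat_length] at hs
    rw [hs, map_add]
    have e1 := hbl _ hlt
    have e2 := (abs_le.mp (hDH s)).2
    unfold zat
    linarith
  have hbt : ∀ t ≤ b.length, H (pos (b.take t)) < N + DH := by
    intro t ht
    have hDH0 : 0 ≤ DH := by
      have hbne : b ≠ [] := by
        intro h
        rw [h] at hb1
        simp at hb1
      obtain ⟨s, hs⟩ := List.exists_mem_of_ne_nil b hbne
      exact (abs_nonneg _).trans (hDH s)
    rcases Nat.lt_or_eq_of_le ht with h | h
    · have := hbl t h
      linarith
    · rw [h, List.take_length]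
      exact htip
  -- the past after `σ`
  have hfar : ∀ s, σ < s → s ≤ u.length →
      H (pos b + pos ((rev u).take s)) < -lB - Cg - 1 := by
    intro s hs1 hs2
    rw [map_add]
    have := hb s hs1 hs2
    linarith
  have hnear : ∀ s ≤ σ, U (pos b + pos ((rev u).take s)) < -(rB / 2) := by
    intro s hs
    rw [map_add]
    have := (ha s hs).1
    linarith
  -- the last contact
  set P : ℕ → Prop := fun s => ∃ t ≤ b.length, pos b + pos ((rev u).take s) = pos (b.take t)
    with hP
  have hP0 : P 0 := ⟨b.length, le_rfl, by simp [pos_nil]⟩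
  set sm := Nat.findGreatest P σ with hsm
  have hPsm : P sm := Nat.findGreatest_spec (P := P) (Nat.zero_le σ) hP0
  have hsmσ : sm ≤ σ := Nat.findGreatest_le σ
  have hsmu : sm ≤ u.length := hsmσ.trans hσu
  refine ⟨⟨u.length - sm, ⟨by omega, by omega, ?_, ?_, ?_, ?_, ?_⟩, by omega⟩, ?_⟩
  · rw [List.length_append, List.length_append, length_rev]
    omega
  · intro m n hm hn hnl heq
    rw [zat_past u b g m hm, zat_conn u b g n hn] at heq
    have heq' := add_left_cancel heq
    have hng : n - (u.length + b.length) ≤ g.length := by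
      rw [List.length_append, List.length_append, length_rev] at hnl
      omega
    obtain ⟨c1, c2⟩ := hCg _ hng
    rw [← heq'] at c1 c2
    have c1' := (abs_le.mp c1).1
    have c2' := (abs_le.mp c2).1
    rcases le_or_gt (u.length - m) σ with h | h
    · have := hnear _ h
      linarith
    · have := hfar _ h (by omega)
      linarith
  · intro n hn hnl s heq
    rw [zat_past u b g u.length le_rfl, zat_conn u b g n hn, add_assoc] at heq
    have heq' := add_left_cancel heq
    have hng : n - (u.length + b.length) ≤ g.length := by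
      rw [List.length_append, List.length_append, length_rev] at hnl
      omega
    obtain ⟨c1, c2⟩ := hCg _ hng
    rw [← heq'] at c1
    have c1' := (abs_le.mp c1).1
    rw [Nat.sub_self, List.take_zero, pos_nil, add_zero, map_add] at c1'
    have := (abs_le.mp (hDU s)).2
    linarith
  · intro m n hm hn1 hn2 heq
    refine ⟨m, ?_, hm, rfl⟩
    rw [zat_past u b g m hm, zat_mid u b g n hn1 hn2] at heq
    have heq' := add_left_cancel heq
    have hle : u.length - m ≤ σ := by
      by_contra hcon
      have c := hfar (u.length - m) (by omega) (by omega)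
      rw [heq'] at c
      have := (hbm (u.length + b.length - n) (by omega)).2
      linarith
    have : u.length - m ≤ sm :=
      Nat.le_findGreatest hle ⟨u.length + b.length - n, by omega, heq'⟩
    omega
  · intro _ b' hb1' hb2' j hj1 hj2
    rw [zat_past u b g b' hb2', zat_conn u b g (u.length + b.length) le_rfl, Nat.sub_self,
      List.take_zero, pos_nil, add_zero, map_add (Hs j) (pos u - pos b)]
    obtain ⟨t, ht, hteq⟩ := hPsm
    have ht0 : t0 ≤ t := by
      by_contra hcon
      push Not at hcon
      have c := hnear sm hsmσ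
      rw [hteq] at c
      have c2 := low_bound U DU hDU (b.take t)
      rw [List.length_take, min_eq_left ht] at c2
      have c3 : (t : ℝ) * DU ≤ t0 * DU := by
        apply mul_le_mul_of_nonneg_right _ hDU0
        exact_mod_cast hcon.le
      linarith
    have c4 := hbj t ht ht0 j hj1 hj2
    rw [← hteq, map_add] at c4
    have c5 := hc (u.length - b') sm (by omega) hsmσ j hj1 hj2
    rw [map_add]
    linarith
  · intro hD3 v hv m hm heq
    rw [pos_all, add_assoc] at heq
    obtain ⟨v1, v2⟩ := hv v.length le_rfl
    rw [List.take_length] at v1 v2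
    have hDHpos : (0 : ℝ) ≤ DH := by
      have hbne : b ≠ [] := by
        intro h
        rw [h] at hb1
        simp at hb1
      obtain ⟨s, hs⟩ := List.exists_mem_of_ne_nil b hbne
      exact (abs_nonneg _).trans (hDH s)
    rcases le_or_gt m u.length with hmu | hmu
    · rw [zat_past u b g m hmu] at heq
      have heq' := add_left_cancel heq
      have eU : U (pos g) + U (pos v) = U (pos b + pos ((rev u).take (u.length - m))) := by
        rw [← heq', map_add]
      have eH : H (pos g) + H (pos v) = H (pos b + pos ((rev u).take (u.length - m))) := by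
        rw [← heq', map_add]
      rcases le_or_gt (u.length - m) σ with h | h
      · have n1 := hnear _ h
        have n2 := (ha _ h).2
        rcases v2 with v2 | v2
        · linarith
        · rw [map_add H (pos b)] at eH
          linarith
      · have n1 := hfar _ h (by omega)
        linarith
    · rw [zat_mid u b g m hmu.le hm] at heq
      have heq' := add_left_cancel heq
      have eU : U (pos g) + U (pos v) = U (pos (b.take (u.length + b.length - m))) := by
        rw [← heq', map_add]
      have eH : H (pos g) + H (pos v) = H (pos (b.take (u.length + b.length - m))) := by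
        rw [← heq', map_add]
      have n1 := (hbm (u.length + b.length - m) (by omega)).1
      have n2 := hbt (u.length + b.length - m) (by omega)
      rcases v2 with v2 | v2
      · linarith
      · linarith

end Pool.Agent.MP_ef0d6f_pr
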