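import Pool.Agent.Lib.MP_ef0d6f_pr.EstB
import Pool.Agent.Lib.MP_ef0d6f_pr.EstJ
import Pool.Agent.Lib.MP_ef0d6f_pr.EstF
import Pool.Agent.Lib.MP_ef0d6f_pr.GeomP
import Pool.Agent.Lib.MP_ef0d6f_pr.Tilt

/-! Task 15 (FamP): the family of traps in the parallel case. -/

namespace Pool.Agent.MP_ef0d6f_pr

variable {d : ℕ}

namespace FamP

open Filter Topology

theorem small_lim (C α : ℝ) (hα : 0 < α) :
    Tendsto (fun N : ℕ => (C * (N : ℝ) + 1) * Real.exp (-(α * Real.sqrt N))) atTop (𝓝 0) := by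
  have h2 : Tendsto (fun x : ℝ => x ^ 2 * Real.exp (-x)) atTop (𝓝 0) :=
    Real.tendsto_pow_mul_exp_neg_atTop_nhds_zero 2
  have h0 : Tendsto (fun x : ℝ => x ^ 0 * Real.exp (-x)) atTop (𝓝 0) :=
    Real.tendsto_pow_mul_exp_neg_atTop_nhds_zero 0
  have hs : Tendsto (fun N : ℕ => α * Real.sqrt (N : ℝ)) atTop atTop := by
    apply Tendsto.const_mul_atTop hα
    exact Real.tendsto_sqrt_atTop.comp tendsto_natCast_atTop_atTop
  have h2' := (h2.comp hs).const_mul (C / α ^ 2)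
  have h0' := h0.comp hs
  have h3 := h2'.add h0'
  simp only [mul_zero, add_zero] at h3
  refine h3.congr ?_
  intro N
  simp only [Function.comp]
  have hN : (0 : ℝ) ≤ (N : ℝ) := Nat.cast_nonneg N
  have hsq : Real.sqrt (N : ℝ) ^ 2 = (N : ℝ) := Real.sq_sqrt hN
  have : C / α ^ 2 * ((α * Real.sqrt (N : ℝ)) ^ 2 * Real.exp (-(α * Real.sqrt (N : ℝ)))) =
      C * (N : ℝ) * Real.exp (-(α * Real.sqrt (N : ℝ))) := by
    rw [mul_pow, hsq]
    field_simp
  rw [this]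
  ring

theorem small_aux (C α : ℝ) (hC : 0 < C) (hα : 0 < α) (η : ℝ) (hη : 0 < η) :
    ∃ N1 : ℕ, ∀ N : ℕ, N1 ≤ N →
      ((⌈C * (N : ℝ)⌉₊ : ℕ) : ℝ) * Real.exp (-(α * Real.sqrt N)) ≤ η := by
  have h := (small_lim C α hα).eventually (gt_mem_nhds hη)
  obtain ⟨N1, hN1⟩ := Filter.eventually_atTop.1 h
  refine ⟨N1, fun N hN => ?_⟩
  have h1 := hN1 N hN
  have h2 : ((⌈C * (N : ℝ)⌉₊ : ℕ) : ℝ) ≤ C * N + 1 :=
    (Nat.ceil_lt_add_one (mul_nonneg hC.le (Nat.cast_nonneg N))).le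
  have h3 := mul_le_mul_of_nonneg_right h2 (Real.exp_pos (-(α * Real.sqrt N))).le
  linarith

theorem large_aux (e K : ℝ) (he : 0 < e) :
    ∃ N1 : ℕ, ∀ N : ℕ, N1 ≤ N → K < e * Real.sqrt N := by
  have hs : Tendsto (fun N : ℕ => e * Real.sqrt (N : ℝ)) atTop atTop := by
    apply Tendsto.const_mul_atTop he
    exact Real.tendsto_sqrt_atTop.comp tendsto_natCast_atTop_atTop
  exact Filter.eventually_atTop.1 (hs.eventually_gt_atTop K)

theorem abs_le_sum (L : V d →+ ℝ) (s : S d) : |L (step s)| ≤ ∑ s', |L (step s')| :=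
  Finset.single_le_sum (f := fun s' => |L (step s')|) (fun _ _ => abs_nonneg _)
    (Finset.mem_univ s)

theorem last_lt (H : V d →+ ℝ) (N DH : ℝ) (hDH : ∀ s, |H (step s)| ≤ DH) (b : List (S d))
    (hb : 1 ≤ b.length) (h : ∀ t < b.length, H (pos (b.take t)) < N) :
    H (pos b) < N + DH := by
  have hne : b ≠ [] := by
    intro h0
    simp [h0] at hb
  have h1 : b = b.dropLast ++ [b.getLast hne] := (List.dropLast_append_getLast hne).symm
  have h2 : b.dropLast = b.take (b.length - 1) := List.dropLast_eq_take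
  have h3 : pos b = pos (b.take (b.length - 1)) + step (b.getLast hne) := by
    conv_lhs => rw [h1]
    rw [pos_append, ← h2, pos_cons, pos_nil, add_zero]
  rw [h3, map_add]
  have h4 := h (b.length - 1) (by omega)
  have h5 := (abs_le.1 (hDH (b.getLast hne))).2
  linarith

end FamP

theorem famP (hd : 2 ≤ d) (p0 : S d → ℝ) (hp : ∀ s, 0 < p0 s) (hs : ∑ s, p0 s = 1)
    (Hs : ℕ → V d →+ ℝ) (i : ℕ) (hi : 1 ≤ i)
    (hHs : ∀ j, 1 ≤ j → j ≤ i → 0 < mean p0 (Hs j))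
    (hcrit : ∑ s, p0 s * Real.exp (-(Hs i (step s))) = 1)
    (hpar : ∃ l : ℝ, 0 < l ∧ ∀ L : V d →+ ℝ, mean (tilt p0 (Hs i)) L = l * mean p0 L) :
    Nonempty (TrapFamily p0 Hs i) := by
  classical
  obtain ⟨l, hl, hl'⟩ := hpar
  have hH : 0 < mean p0 (Hs i) := hHs i hi le_rfl
  obtain ⟨U, hU, hU0⟩ := exists_transverse hd p0
  have hq := tilt_pos p0 hp (Hs i)
  have hqs := tilt_sum p0 (Hs i) hcrit
  have hqH : 0 < mean (tilt p0 (Hs i)) (Hs i) := by
    rw [hl']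
    exact mul_pos hl hH
  have hqU : mean (tilt p0 (Hs i)) U = 0 := by
    rw [hl', hU, mul_zero]
  have hqHs : ∀ j, 1 ≤ j → j ≤ i → 0 < mean (tilt p0 (Hs i)) (Hs j) := by
    intro j h1 h2
    rw [hl']
    exact mul_pos hl (hHs j h1 h2)
  obtain ⟨mB, lB, εB, cB, C0B, hmB, hlB, hεB, hcB, hC0B, hB⟩ :=
    estB (tilt p0 (Hs i)) hq hqs (Hs i) U hqH hqU hU0 Hs i hqHs
  obtain ⟨l1, εJ, C0J, hl1, hεJ, hC0J, hJ⟩ := estJ p0 hp hs (Hs i) U hH hU hU0 Hs i hHs
  obtain ⟨mF, lF, cF, hmF, hlF, hcF, hF⟩ := estF p0 hp hs (Hs i) U hH hU hU0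
  obtain ⟨g, hg1, hg2⟩ :=
    exists_connector p0 hp (Hs i) U hH hU hU0 (max (mB + mF) (lB + lF + 1))
  have hgU : mB + mF ≤ U (pos g) := le_trans (le_max_left _ _) hg1
  have hgH : lB + lF + 1 ≤ Hs i (pos g) := le_trans (le_max_right _ _) hg2
  set DU : ℝ := ∑ s', |U (step s')| with hDUdef
  set DH : ℝ := ∑ s', |Hs i (step s')| with hDHdef
  have hDU : ∀ s, |U (step s)| ≤ DU := FamP.abs_le_sum U
  have hDH : ∀ s, |Hs i (step s)| ≤ DH := FamP.abs_le_sum (Hs i)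
  have hDU0 : 0 ≤ DU := Finset.sum_nonneg fun _ _ => abs_nonneg _
  have hDH0 : 0 ≤ DH := Finset.sum_nonneg fun _ _ => abs_nonneg _
  set Cg : ℝ := ∑ n ∈ Finset.range (g.length + 1),
    (|U (pos (g.take n))| + |Hs i (pos (g.take n))|) with hCgdef
  have hCg : ∀ n ≤ g.length, |U (pos (g.take n))| ≤ Cg ∧ |Hs i (pos (g.take n))| ≤ Cg := by
    intro n hn
    have h1 : |U (pos (g.take n))| + |Hs i (pos (g.take n))| ≤ Cg :=
      Finset.single_le_sum
        (f := fun n => |U (pos (g.take n))| + |Hs i (pos (g.take n))|)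
        (fun _ _ => add_nonneg (abs_nonneg _) (abs_nonneg _))
        (Finset.mem_range.2 (by omega))
    constructor
    · linarith [abs_nonneg (Hs i (pos (g.take n)))]
    · linarith [abs_nonneg (U (pos (g.take n)))]
  have hCg0 : 0 ≤ Cg := Finset.sum_nonneg fun _ _ => add_nonneg (abs_nonneg _) (abs_nonneg _)
  set C : ℝ := max C0B C0J with hCdef
  have hC : 0 < C := lt_of_lt_of_le hC0B (le_max_left _ _)
  set r0 : ℝ := min εJ (εB / 2) with hr0def
  have hr0 : 0 < r0 := lt_min hεJ (by linarith)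
  set τ : ℝ := εB / (2 * DU + 1) with hτdef
  have hτ : 0 < τ := div_pos hεB (by linarith)
  obtain ⟨α, hα, hB1⟩ := hB C (le_max_left _ _) τ hτ
  obtain ⟨NB, hNB⟩ := hB1 α hα le_rfl
  obtain ⟨cJ, hcJ, hJ1⟩ := hJ C (le_max_right _ _) r0 hr0 (min_le_left _ _)
  have hD2 : 0 < DH + lB + Cg + 1 := by linarith
  obtain ⟨NJ, hNJ⟩ := hJ1 (DH + lB + Cg + 1) hD2 α hα
  have hD3 : 0 < DH + l1 := by linarith
  obtain ⟨NF, hNF⟩ := hF (DH + l1) hD3
  obtain ⟨NL, hNL⟩ := FamP.large_aux εB (2 * Cg + DU + 1) hεB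
  have hsqrt : ∀ N : ℕ, Real.sqrt N * Real.sqrt N = N :=
    fun N => Real.mul_self_sqrt (Nat.cast_nonneg N)
  refine ⟨{
    g := g
    Λ := Hs i
    l0 := lB
    Lm := DH
    N0 := 1 + NB + NJ + NF + NL
    N0_pos := by omega
    T := fun N => ⌈C * (N : ℝ)⌉₊
    A := fun N => α * Real.sqrt N
    B := fun N => BP (Hs i) U Hs i N mB lB (εB * Real.sqrt N) (α * Real.sqrt N)
      ⌊τ * Real.sqrt N⌋₊ ⌈C * (N : ℝ)⌉₊
    J := fun N => JP (Hs i) U Hs i N (r0 * Real.sqrt N) l1 (DH + lB + Cg + 1)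
      (α * Real.sqrt N) ⌈C * (N : ℝ)⌉₊
    F := fun N => FP (Hs i) U N mF lF (DH + l1)
    c := cB * cJ * cF
    c_pos := mul_pos (mul_pos hcB hcJ) hcF
    cB := fun N => cB / Real.sqrt N
    cJ := fun _ => cJ
    cF := fun N => cF / Real.sqrt N
    cB_nonneg := fun N => div_nonneg hcB.le (Real.sqrt_nonneg _)
    cJ_nonneg := fun _ => hcJ.le
    cF_nonneg := fun N => div_nonneg hcF.le (Real.sqrt_nonneg _)
    prod_le := ?_
    B_len := ?_
    B_free := ?_
    F_closed := ?_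
    B_sum := ?_
    J_prob := ?_
    F_prob := ?_
    geom := ?_
    sep := ?_
    m1 := ?_
    m2 := ?_
    m3 := ?_
    small := ?_ }⟩
  · -- prod_le
    intro N hN
    have hN1 : (1 : ℝ) ≤ N := by
      have : 1 ≤ N := by omega
      exact_mod_cast this
    have hsp : 0 < Real.sqrt N := Real.sqrt_pos.2 (by linarith)
    apply le_of_eq
    rw [div_mul_eq_mul_div, div_mul_div_comm, hsqrt]
  · -- B_len
    intro N hN b hb
    have hN1 : (1 : ℝ) ≤ N := by
      have : 1 ≤ N := by omega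
      exact_mod_cast this
    refine ⟨?_, hb.1⟩
    by_contra hlt
    have hb0 : b = [] := List.length_eq_zero_iff.1 (by omega)
    have := hb.2.1
    rw [hb0, pos_nil, map_zero] at this
    linarith
  · intro N hN
    exact BP_free _ _ _ _ _ _ _ _ _ _ _
  · intro N v v' h
    exact FP_closed _ _ _ _ _ _ _ _ h
  · intro N hN
    exact hNB N (by omega)
  · intro N hN r hr
    exact hNJ N (by omega) r hr
  · intro N hN r
    exact hNF N (by omega) r
  · -- geom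
    intro N hN u b hu hJu hBb
    have hN1 : 1 ≤ N := by omega
    have hN1' : (1 : ℝ) ≤ N := by exact_mod_cast hN1
    have hsp : 0 < Real.sqrt N := Real.sqrt_pos.2 (by linarith)
    have hL := hNL N (by omega)
    have ht0 : ((⌊τ * Real.sqrt N⌋₊ : ℕ) : ℝ) * DU ≤ εB * Real.sqrt N / 2 := by
      have h1 : ((⌊τ * Real.sqrt N⌋₊ : ℕ) : ℝ) ≤ τ * Real.sqrt N :=
        Nat.floor_le (mul_nonneg hτ.le hsp.le)
      have h2 : τ * DU ≤ εB / 2 := by
        rw [hτdef, div_mul_eq_mul_div, div_le_div_iff₀ (by linarith) (by norm_num)]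
        nlinarith
      calc ((⌊τ * Real.sqrt N⌋₊ : ℕ) : ℝ) * DU ≤ τ * Real.sqrt N * DU :=
            mul_le_mul_of_nonneg_right h1 hDU0
        _ = (τ * DU) * Real.sqrt N := by ring
        _ ≤ εB / 2 * Real.sqrt N := mul_le_mul_of_nonneg_right h2 hsp.le
        _ = εB * Real.sqrt N / 2 := by ring
    have hr : r0 * Real.sqrt N ≤ εB * Real.sqrt N / 2 := by
      have : r0 ≤ εB / 2 := min_le_right _ _
      calc r0 * Real.sqrt N ≤ εB / 2 * Real.sqrt N := mul_le_mul_of_nonneg_right this hsp.le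
        _ = εB * Real.sqrt N / 2 := by ring
    exact (geomP (Hs i) U Hs i N hN1 mB lB mF lF (εB * Real.sqrt N) (r0 * Real.sqrt N) l1
      (α * Real.sqrt N) (DH + lB + Cg + 1) (DH + l1) DU DH Cg _ _ g hmB hlB hmF hlF hl1
      (mul_pos hα hsp) hDU hDH hCg hgU hgH hr (by linarith) (by linarith) ht0 le_rfl
      u b hu hJu hBb).1
  · -- sep
    intro N hN u b v hu hJu hBb hFv
    have hN1 : 1 ≤ N := by omega
    have hN1' : (1 : ℝ) ≤ N := by exact_mod_cast hN1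
    have hsp : 0 < Real.sqrt N := Real.sqrt_pos.2 (by linarith)
    have hL := hNL N (by omega)
    have ht0 : ((⌊τ * Real.sqrt N⌋₊ : ℕ) : ℝ) * DU ≤ εB * Real.sqrt N / 2 := by
      have h1 : ((⌊τ * Real.sqrt N⌋₊ : ℕ) : ℝ) ≤ τ * Real.sqrt N :=
        Nat.floor_le (mul_nonneg hτ.le hsp.le)
      have h2 : τ * DU ≤ εB / 2 := by
        rw [hτdef, div_mul_eq_mul_div, div_le_div_iff₀ (by linarith) (by norm_num)]
        nlinarith
      calc ((⌊τ * Real.sqrt N⌋₊ : ℕ) : ℝ) * DU ≤ τ * Real.sqrt N * DU :=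
            mul_le_mul_of_nonneg_right h1 hDU0
        _ = (τ * DU) * Real.sqrt N := by ring
        _ ≤ εB / 2 * Real.sqrt N := mul_le_mul_of_nonneg_right h2 hsp.le
        _ = εB * Real.sqrt N / 2 := by ring
    have hr : r0 * Real.sqrt N ≤ εB * Real.sqrt N / 2 := by
      have : r0 ≤ εB / 2 := min_le_right _ _
      calc r0 * Real.sqrt N ≤ εB / 2 * Real.sqrt N := mul_le_mul_of_nonneg_right this hsp.le
        _ = εB * Real.sqrt N / 2 := by ring
    exact (geomP (Hs i) U Hs i N hN1 mB lB mF lF (εB * Real.sqrt N) (r0 * Real.sqrt N) l1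
      (α * Real.sqrt N) (DH + lB + Cg + 1) (DH + l1) DU DH Cg _ _ g hmB hlB hmF hlF hl1
      (mul_pos hα hsp) hDU hDH hCg hgU hgH hr (by linarith) (by linarith) ht0 le_rfl
      u b hu hJu hBb).2 le_rfl v hFv
  · -- m1
    intro N hN v hv
    have h1 := (hv v.length le_rfl).1
    rw [List.take_length] at h1
    linarith
  · -- m2
    intro N hN b hb n hn
    exact (hb.2.2.2.2.1 n hn).2
  · -- m3
    intro N hN b hb
    have hN1 : (1 : ℝ) ≤ N := by
      have : 1 ≤ N := by omega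
      exact_mod_cast this
    refine ⟨hb.2.1, ?_⟩
    apply FamP.last_lt (Hs i) N DH hDH b ?_ hb.2.2.2.1
    by_contra hlt
    have hb0 : b = [] := List.length_eq_zero_iff.1 (by omega)
    have := hb.2.1
    rw [hb0, pos_nil, map_zero] at this
    linarith
  · -- small
    intro η hη
    exact FamP.small_aux C α hC hα η hη

end Pool.Agent.MP_ef0d6f_pr
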