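import Pool.Agent.Lib.MP_ef0d6f_pr.Lower
import Pool.Agent.Lib.MP_ef0d6f_pr.SpeedB
import Pool.Agent.Lib.MP_ef0d6f_pr.FamP
import Pool.Agent.Lib.MP_ef0d6f_pr.FamN

/-! Task 20 (Final): the walk at the critical parameter has speed zero. -/

namespace Pool.Agent.MP_ef0d6f_pr

open MeasureTheory Filter Topology

variable {d : ℕ}

namespace Final

theorem abs_step_le (s : S d) (j : Fin d) : |step s j| ≤ (1 : ℤ) := by
  unfold step
  by_cases h : j = s.1
  · subst h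
    rw [Pi.single_eq_same]
    split_ifs <;> simp
  · rw [Pi.single_eq_of_ne h]
    simp

theorem abs_le_of_lattice (x : ℕ → V d) (h0 : x 0 = 0) (h : ∀ n, lattice (x n) (x (n + 1)))
    (n : ℕ) (j : Fin d) : |x n j| ≤ (n : ℤ) := by
  induction n with
  | zero => simp [h0]
  | succ n ih =>
    obtain ⟨s, hs⟩ := h n
    rw [hs, Pi.add_apply]
    calc |x n j + step s j| ≤ |x n j| + |step s j| := abs_add_le _ _
      _ ≤ n + 1 := add_le_add ih (abs_step_le s j)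
      _ = ((n + 1 : ℕ) : ℤ) := by push_cast; ring

theorem harmonic_large (N1 : ℕ) (hN1 : 1 ≤ N1) (B : ℝ) :
    ∃ Nm : ℕ, B ≤ ∑ N ∈ Finset.Icc N1 Nm, (1 : ℝ) / N := by
  have h := Real.tendsto_sum_range_one_div_nat_succ_atTop
  have h2 := (tendsto_atTop.1 h (B + ∑ i ∈ Finset.range N1, (1 : ℝ) / ((i : ℝ) + 1))).exists
  obtain ⟨n, hn⟩ := h2
  refine ⟨n, ?_⟩
  have key : ∑ i ∈ Finset.range n, (1 : ℝ) / ((i : ℝ) + 1) ≤
      (∑ i ∈ Finset.range N1, (1 : ℝ) / ((i : ℝ) + 1)) +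
        ∑ N ∈ Finset.Icc N1 n, (1 : ℝ) / N := by
    have h3 : ∑ N ∈ Finset.Icc (N1) n, (1 : ℝ) / N =
        ∑ i ∈ Finset.Ico (N1 - 1) n, (1 : ℝ) / ((i : ℝ) + 1) := by
      have : Finset.Icc N1 n = (Finset.Ico (N1 - 1) n).image (fun i => i + 1) := by
        ext m
        simp only [Finset.mem_Icc, Finset.mem_image, Finset.mem_Ico]
        constructor
        · intro h
          exact ⟨m - 1, by omega, by omega⟩
        · rintro ⟨a, ha, rfl⟩
          omega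
      rw [this, Finset.sum_image (fun a _ b _ h => by simpa using h)]
      simp
    rw [h3]
    have hsub : Finset.range n ⊆ Finset.range N1 ∪ Finset.Ico (N1 - 1) n := by
      intro m hm
      simp only [Finset.mem_range, Finset.mem_union, Finset.mem_Ico] at *
      omega
    calc ∑ i ∈ Finset.range n, (1 : ℝ) / ((i : ℝ) + 1)
        ≤ ∑ i ∈ Finset.range N1 ∪ Finset.Ico (N1 - 1) n, (1 : ℝ) / ((i : ℝ) + 1) :=
          Finset.sum_le_sum_of_subset_of_nonneg hsub (fun i _ _ => by positivity)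
      _ ≤ _ := by
          rw [← Finset.sum_union_inter]
          have : 0 ≤ ∑ i ∈ Finset.range N1 ∩ Finset.Ico (N1 - 1) n,
            (1 : ℝ) / ((i : ℝ) + 1) := Finset.sum_nonneg (fun i _ => by positivity)
          linarith
  linarith

end Final

/-- At the critical parameter the walk is not eventually at distance at least `c n`. -/
theorem final_low (hd : 2 ≤ d) {Ω : Type*} [MeasurableSpace Ω] (μ : Measure Ω)
    [IsProbabilityMeasure μ] (p : ℕ → S d → ℝ) (X : ℕ → ℕ → Ω → V d)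
    (hp : ∀ i s, 0 < p i s) (hsum : ∀ i, ∑ s, p i s = 1)
    (hc : ∀ i, 1 ≤ i → 0 < ∑ j, drift (p 0) j * ell (p i) j)
    (hX : IteratedWalk p μ X) (i : ℕ) (hi : 1 ≤ i) (t : ℝ) (ht : 0 < t)
    (hroot : phi (p 0) (ell (p i)) t = 1) (hcrit : Real.exp (nrm (p i)) = Real.exp t)
    (c0 : ℝ) (hc0' : 0 < c0) :
    ¬ ∀ᵐ ω ∂μ, ∀ᶠ n : ℕ in atTop, ∃ j, c0 * n ≤ |(X i n ω j : ℝ)| := by
  intro hv
  have hm : ∀ j, 1 ≤ j → 0 < mean (p 0) (lin (p j)) :=
    fun j hj => mean_lin_pos (p 0) (p j) (hc j hj)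
  have hcr : ∑ s, p 0 s * Real.exp (-(lin (p i) (step s))) = 1 :=
    crit_sum (p 0) (p i) (hp i) t ht hroot hcrit.symm
  have hFam : Nonempty (TrapFamily (p 0) (fun j => lin (p j)) i) := by
    rcases dichotomy (p 0) (tilt (p 0) (lin (p i))) (lin (p i)) (hm i hi)
      (tilt_mean_pos (p 0) (hp 0) (hsum 0) (lin (p i)) hcr (hm i hi)) with h | h
    · exact famP hd (p 0) (hp 0) (hsum 0) (fun j => lin (p j)) i hi
        (fun j hj _ => hm j hj) hcr h
    · exact famN (p 0) (hp 0) (hsum 0) (fun j => lin (p j)) i hi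
        (fun j hj _ => hm j hj) hcr h
  obtain ⟨Fam⟩ := hFam
  obtain ⟨c, hc0, N1, hN1, hlow⟩ := lower hp hsum hX i hi Fam
  have hY : ∀ᵐ ω ∂μ, ∀ n j, |X 0 n ω j| ≤ (n : ℤ) := by
    filter_upwards [start_ae hX 0, edge_ae hp hsum hX 0] with ω h0 h1 n j
    exact Final.abs_le_of_lattice (fun n => X 0 n ω) h0 h1 n j
  obtain ⟨C, hC, hup⟩ := speed_of μ (X 0) (X i) (hX.meas 0) (hX.meas i) hY c0 hc0' hv
  obtain ⟨Nm, hNm⟩ := Final.harmonic_large N1 hN1 (2 * (C + 1) / c)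
  obtain ⟨M, km, hlow2⟩ := hlow Nm
  obtain ⟨K0, hup2⟩ := hup M
  set K : ℕ := max (max km K0) (2 * km + 1) with hK
  have hK1 : km ≤ K := le_trans (le_max_left _ _) (le_max_left _ _)
  have hK2 : K0 ≤ K := le_trans (le_max_right _ _) (le_max_left _ _)
  have hK3 : 2 * km + 1 ≤ K := le_max_right _ _
  obtain ⟨T, hT⟩ := hlow2 K hK1
  have hT2 := hup2 K hK2 T
  have h1 : c * ((K : ℝ) - km) * ∑ N ∈ Finset.Icc N1 Nm, (1 : ℝ) / N ≤ C * K :=
    le_trans hT hT2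
  have hKr : (2 : ℝ) * km + 1 ≤ K := by exact_mod_cast hK3
  have hkm : (0 : ℝ) ≤ km := Nat.cast_nonneg km
  have h2 : 2 * (C + 1) ≤ c * ∑ N ∈ Finset.Icc N1 Nm, (1 : ℝ) / N := by
    rw [div_le_iff₀ hc0] at hNm
    linarith
  have h3 : 2 * (C + 1) * ((K : ℝ) - km) ≤ C * K := by
    calc 2 * (C + 1) * ((K : ℝ) - km)
        ≤ (c * ∑ N ∈ Finset.Icc N1 Nm, (1 : ℝ) / N) * ((K : ℝ) - km) :=
          mul_le_mul_of_nonneg_right h2 (by linarith)
      _ = c * ((K : ℝ) - km) * ∑ N ∈ Finset.Icc N1 Nm, (1 : ℝ) / N := by ring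
      _ ≤ C * K := h1
  nlinarith

/-- At the critical parameter the velocity is zero. -/
theorem final (hd : 2 ≤ d) {Ω : Type*} [MeasurableSpace Ω] (μ : Measure Ω)
    [IsProbabilityMeasure μ] (p : ℕ → S d → ℝ) (X : ℕ → ℕ → Ω → V d)
    (hp : ∀ i s, 0 < p i s) (hsum : ∀ i, ∑ s, p i s = 1)
    (hc : ∀ i, 1 ≤ i → 0 < ∑ j, drift (p 0) j * ell (p i) j)
    (hX : IteratedWalk p μ X) (i : ℕ) (hi : 1 ≤ i) (t : ℝ) (ht : 0 < t)
    (hroot : phi (p 0) (ell (p i)) t = 1) (hcrit : Real.exp (nrm (p i)) = Real.exp t)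
    (v : Fin d → ℝ)
    (hv : ∀ᵐ ω ∂μ, ∀ j, Tendsto (fun n : ℕ => (X i n ω j : ℝ) / n) atTop (𝓝 (v j))) :
    v = 0 := by
  by_contra hv0
  obtain ⟨j, hj⟩ : ∃ j, v j ≠ 0 := by
    by_contra hcon
    push Not at hcon
    exact hv0 (funext hcon)
  have hj0 : 0 < |v j| := abs_pos.2 hj
  refine final_low hd μ p X hp hsum hc hX i hi t ht hroot hcrit (|v j| / 2)
    (by linarith) ?_
  filter_upwards [hv] with ω hω
  have h2 : ∀ᶠ n : ℕ in atTop, |v j| / 2 < |(X i n ω j : ℝ) / n| :=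
    (hω j).abs.eventually (lt_mem_nhds (by linarith))
  filter_upwards [h2, eventually_gt_atTop 0] with n hn hn0
  refine ⟨j, ?_⟩
  have hnpos : (0 : ℝ) < n := by exact_mod_cast hn0
  rw [abs_div, Nat.abs_cast, lt_div_iff₀ hnpos] at hn
  exact hn.le

end Pool.Agent.MP_ef0d6f_pr
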