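import Pool.Agent.Lib.MP_ef0d6f_pr.Cycle

/-! Task 8 (Walker): the walk on a graph with a trap crosses the core path and visits the tip
many times. -/

namespace Pool.Agent.MP_ef0d6f_pr

variable {d : ℕ}

namespace Walker

/-! ### Composition of stages -/

/-- from `x` the list of stages is completed with probability at least `1 - c` -/
def Good (κ : V d → S d → ℝ) (Γ : V d → Prop) (L : List (V d → V d → Prop)) (x : V d)
    (c : ℝ) : Prop :=
  ∀ ε : ℝ, 0 < ε → ∃ T : ℕ, 1 - c - ε ≤ cp κ Γ T L x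

/-- the stage: cross the directed edge from `u` to `v` -/
def cross (u v : V d) : V d → V d → Prop := fun x y => x = u ∧ y = v

/-- the stage: hit the point `u` -/
def hitp (u : V d) : V d → V d → Prop := fun _ y => y = u

section good

variable {κ : V d → S d → ℝ} {Γ : V d → Prop}

theorem Good.nil (x : V d) : Good κ Γ [] x 0 := by
  intro ε hε
  exact ⟨0, by rw [cp_nil]; linarith⟩

theorem Good.mono {L : List (V d → V d → Prop)} {x : V d} {c c' : ℝ} (h : Good κ Γ L x c)
    (hc : c ≤ c') : Good κ Γ L x c' := by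
  intro ε hε
  obtain ⟨T, hT⟩ := h ε hε
  exact ⟨T, by linarith⟩

theorem Good.cons (hκ : ∀ x s, 0 ≤ κ x s) (hs : ∀ x, ∑ s, κ x s ≤ 1)
    {P : V d → V d → Prop} {L : List (V d → V d → Prop)} {x : V d} {c c' : ℝ} (hc' : 0 ≤ c')
    (F : Finset (V d)) (h1 : Good κ Γ [P] x c) (hF : ∀ x' y, P x' y → y ∈ F)
    (h2 : ∀ y ∈ F, Good κ Γ L y c') : Good κ Γ (P :: L) x (c + c') := by
  intro ε hε
  obtain ⟨T, hT⟩ := h1 (ε / 2) (half_pos hε)
  choose! f hf using fun y hy => h2 y hy (ε / 2) (half_pos hε)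
  have hr : ∀ x' y, P x' y → max 0 (1 - c' - ε / 2) ≤ cp κ Γ (F.sup f) L y := by
    intro x' y hP
    have hy := hF x' y hP
    exact max_le (cp_nonneg κ Γ hκ _ _ _)
      ((hf y hy).trans (cp_mono κ Γ hκ hs _ _ (Finset.le_sup hy) _ _))
  have h3 := cp_cons κ Γ hκ hs T (F.sup f) P L _ (le_max_left _ _) hr x
  refine ⟨T + F.sup f, le_trans ?_ h3⟩
  have hu := cp_le_one κ Γ hκ hs T [P] x
  have hr1 : max 0 (1 - c' - ε / 2) ≤ 1 := max_le zero_le_one (by linarith)
  have hr2 : 1 - c' - ε / 2 ≤ max 0 (1 - c' - ε / 2) := le_max_right _ _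
  nlinarith [mul_nonneg (sub_nonneg.mpr hu) (sub_nonneg.mpr hr1)]

theorem Good.chain (hκ : ∀ x s, 0 ≤ κ x s) (hs : ∀ x, ∑ s, κ x s ≤ 1)
    {L : List (V d → V d → Prop)} {x b e : V d} {c c' : ℝ}
    (h1 : Good κ Γ [hitp b] x c) (h2 : Good κ Γ (hitp e :: L) b c') :
    Good κ Γ (hitp e :: L) x (c + c') := by
  intro ε hε
  obtain ⟨T, hT⟩ := h1 (ε / 2) (half_pos hε)
  obtain ⟨T', hT'⟩ := h2 (ε / 2) (half_pos hε)
  have h3 : cp κ Γ T [hitp b] x * cp κ Γ T' (hitp e :: L) b ≤
      cp κ Γ (T + T') (hitp e :: L) x := cp_chain κ Γ hκ hs T T' b e x L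
  refine ⟨T + T', le_trans ?_ h3⟩
  have hu := cp_le_one κ Γ hκ hs T [hitp b] x
  have hv := cp_le_one κ Γ hκ hs T' (hitp e :: L) b
  nlinarith [mul_nonneg (sub_nonneg.mpr hu) (sub_nonneg.mpr hv)]

theorem cross_le_hitp (hκ : ∀ x s, 0 ≤ κ x s) (hs : ∀ x, ∑ s, κ x s ≤ 1) (b e : V d) (T : ℕ) :
    ∀ x, x ≠ b → cp κ Γ T [cross b e] x ≤ cp κ Γ T [hitp b] x := by
  induction T with
  | zero => intro x _; rw [cp, cp]
  | succ T ih =>
    intro x hx
    rw [cp, cp]
    apply Finset.sum_le_sum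
    intro s _
    apply mul_le_mul_of_nonneg_left _ (hκ x s)
    have hno : ¬ cross b e x (x + step s) := fun h => hx h.1
    rw [if_neg hno]
    by_cases hΓ : Γ (x + step s)
    · rw [if_pos hΓ, if_pos hΓ]
    · rw [if_neg hΓ, if_neg hΓ]
      by_cases hb : hitp b x (x + step s)
      · rw [if_pos hb, cp_nil]
        exact cp_le_one κ Γ hκ hs _ _ _
      · rw [if_neg hb]
        exact ih _ hb

theorem Good.hit_of_cross (hκ : ∀ x s, 0 ≤ κ x s) (hs : ∀ x, ∑ s, κ x s ≤ 1) {b e x : V d}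
    {c : ℝ} (hx : x ≠ b) (h : Good κ Γ [cross b e] x c) : Good κ Γ [hitp b] x c := by
  intro ε hε
  obtain ⟨T, hT⟩ := h ε hε
  exact ⟨T, hT.trans (cross_le_hitp hκ hs b e T x hx)⟩

theorem Good.hit_end (hκ : ∀ x s, 0 ≤ κ x s) (hs : ∀ x, ∑ s, κ x s ≤ 1) {b e x : V d}
    {c : ℝ} (h : Good κ Γ [cross b e] x c) : Good κ Γ [hitp e] x c := by
  intro ε hε
  obtain ⟨T, hT⟩ := h ε hε
  exact ⟨T, hT.trans (cp_weaken κ Γ hκ hs T _ _ (fun _ _ h => h.2) x)⟩

/-- the stages which cross the core path upwards, and then the list `L` -/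
def asc (w : List (S d)) (L : List (V d → V d → Prop)) : ℕ → ℕ → List (V d → V d → Prop)
  | _, 0 => L
  | r, n + 1 => cross (zat w (r + 1)) (zat w r) :: hitp (zat w (r + 1)) :: asc w L (r + 1) n

theorem Good.asc (hκ : ∀ x s, 0 ≤ κ x s) (hs : ∀ x, ∑ s, κ x s ≤ 1) {w : List (S d)}
    {L : List (V d → V d → Prop)} {a k0 : ℕ} {c cL : ℝ} (hc : 0 ≤ c) (hcL : 0 ≤ cL)
    (hL : Good κ Γ L (zat w k0) cL)
    (h1 : ∀ r, a ≤ r → r < k0 → Good κ Γ [cross (zat w (r + 1)) (zat w r)] (zat w r) c)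
    (h2 : ∀ r, a ≤ r → r < k0 → Good κ Γ [hitp (zat w (r + 1))] (zat w r) c) :
    ∀ n r, a ≤ r → r + n = k0 → Good κ Γ (asc w L r n) (zat w r) (2 * n * c + cL) := by
  intro n
  induction n with
  | zero =>
    intro r _ hr
    have : r = k0 := by omega
    subst this
    unfold Walker.asc
    exact hL.mono (by simp)
  | succ n ih =>
    intro r har hr
    unfold Walker.asc
    have e1 := ih (r + 1) (by omega) (by omega)
    have hn : (0 : ℝ) ≤ 2 * n * c + cL := by positivity
    have e2 := Good.cons hκ hs hn {zat w (r + 1)} (h2 r har (by omega))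
      (fun x' y h => Finset.mem_singleton.mpr h) (fun y hy => by
        rw [Finset.mem_singleton] at hy
        rw [hy]
        exact e1)
    have hn2 : (0 : ℝ) ≤ c + (2 * n * c + cL) := by positivity
    have e3 := Good.cons hκ hs hn2 {zat w r} (h1 r har (by omega))
      (fun x' y h => Finset.mem_singleton.mpr h.2) (fun y hy => by
        rw [Finset.mem_singleton] at hy
        rw [hy]
        exact e2)
    exact e3.mono (by push_cast; linarith)

theorem Good.base (hκ : ∀ x s, 0 ≤ κ x s) (hs : ∀ x, ∑ s, κ x s ≤ 1) {b t : V d} {c : ℝ}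
    (hc : 0 ≤ c) (h : Good κ Γ [cross b t] t c) (n : ℕ) :
    Good κ Γ (List.replicate n (cross b t)) t (n * c) := by
  induction n with
  | zero => exact (Good.nil t).mono (by simp)
  | succ n ih =>
    rw [List.replicate_succ]
    have hn : (0 : ℝ) ≤ n * c := by positivity
    have e := Good.cons hκ hs hn {t} h
      (fun x' y h => Finset.mem_singleton.mpr h.2) (fun y hy => by
        rw [Finset.mem_singleton] at hy
        rw [hy]
        exact ih)
    exact e.mono (by push_cast; linarith)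

end good

/-! ### What a path has done when the stages are completed -/

theorem zat_add (v : List (S d)) (n m : ℕ) : zat v (n + m) = zat v n + zat (v.drop n) m := by
  unfold zat
  rw [List.take_add, pos_append]

/-- the number of visits to `y` -/
noncomputable def cnt (x : V d) (v : List (S d)) (y : V d) : ℕ :=
  ((Finset.range (v.length + 1)).filter (fun t => x + zat v t = y)).card

theorem cnt_drop (x : V d) (v : List (S d)) (y : V d) (n : ℕ) (hn : n ≤ v.length) :
    cnt (x + zat v n) (v.drop n) y ≤ cnt x v y := by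
  unfold cnt
  rw [← Finset.card_image_of_injective _ (add_right_injective n)]
  apply Finset.card_le_card
  intro t ht
  obtain ⟨t', ht', rfl⟩ := Finset.mem_image.mp ht
  rw [Finset.mem_filter, Finset.mem_range, List.length_drop] at ht'
  rw [Finset.mem_filter, Finset.mem_range]
  refine ⟨by omega, ?_⟩
  rw [zat_add, ← add_assoc]
  exact ht'.2

theorem cnt_drop_succ (x : V d) (v : List (S d)) (y : V d) (n : ℕ) (hn : n < v.length)
    (hx : x = y) : cnt (x + zat v (n + 1)) (v.drop (n + 1)) y + 1 ≤ cnt x v y := by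
  unfold cnt
  rw [← Finset.card_image_of_injective _ (add_right_injective (n + 1))]
  have h0 : 0 ∉ ((Finset.range ((v.drop (n + 1)).length + 1)).filter
      (fun t => x + zat v (n + 1) + zat (v.drop (n + 1)) t = y)).image (n + 1 + ·) := by
    intro h
    obtain ⟨t, _, ht⟩ := Finset.mem_image.mp h
    omega
  rw [← Finset.card_insert_of_notMem h0]
  apply Finset.card_le_card
  intro t ht
  rw [Finset.mem_insert] at ht
  rcases ht with rfl | ht
  · rw [Finset.mem_filter, Finset.mem_range]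
    refine ⟨by omega, ?_⟩
    rw [zat_zero, add_zero]
    exact hx
  · obtain ⟨t', ht', rfl⟩ := Finset.mem_image.mp ht
    rw [Finset.mem_filter, Finset.mem_range, List.length_drop] at ht'
    rw [Finset.mem_filter, Finset.mem_range]
    refine ⟨by omega, ?_⟩
    rw [zat_add, ← add_assoc]
    exact ht'.2

theorem cnt_pos (x : V d) (v : List (S d)) (y : V d) (hx : x = y) : 1 ≤ cnt x v y := by
  unfold cnt
  apply Finset.card_pos.mpr
  refine ⟨0, Finset.mem_filter.mpr ⟨Finset.mem_range.mpr (by omega), ?_⟩⟩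
  rw [zat_zero, add_zero]
  exact hx

/-- the path from `x` with steps `v` crosses the edge between `e` and `f` -/
def Cr (x : V d) (v : List (S d)) (e f : V d) : Prop :=
  ∃ t < v.length, (x + zat v t = e ∧ x + zat v (t + 1) = f) ∨
    (x + zat v t = f ∧ x + zat v (t + 1) = e)

theorem Cr.drop {x : V d} {v : List (S d)} {e f : V d} {n : ℕ}
    (h : Cr (x + zat v n) (v.drop n) e f) : Cr x v e f := by
  obtain ⟨t, ht, h⟩ := h
  rw [List.length_drop] at ht
  refine ⟨n + t, by omega, ?_⟩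
  rw [add_assoc n t 1, zat_add, zat_add, ← add_assoc, ← add_assoc]
  exact h

/-- the job, from an arbitrary starting point -/
def Dn (w : List (S d)) (k0 a n : ℕ) (x : V d) (v : List (S d)) : Prop :=
  (∀ r, a ≤ r → r < k0 → Cr x v (zat w r) (zat w (r + 1))) ∧ n ≤ cnt x v (zat w k0)

theorem Dn.drop {w : List (S d)} {k0 a n : ℕ} {x : V d} {v : List (S d)} {m : ℕ}
    (hm : m ≤ v.length) (h : Dn w k0 a n (x + zat v m) (v.drop m)) : Dn w k0 a n x v :=
  ⟨fun r h1 h2 => (h.1 r h1 h2).drop, h.2.trans (cnt_drop x v _ m hm)⟩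

theorem Dn.done {w : List (S d)} {k0 a n : ℕ} {v : List (S d)} (h : Dn w k0 a n 0 v) :
    DoneW w k0 a n v := by
  refine ⟨fun r h1 h2 => ?_, ?_⟩
  · obtain ⟨t, ht, h'⟩ := h.1 r h1 h2
    refine ⟨t, ht, ?_⟩
    simpa only [zero_add] using h'
  · have := h.2
    unfold cnt at this
    simpa only [zero_add] using this

theorem comp_cons {Γ : V d → Prop} {v : List (S d)} {P : V d → V d → Prop}
    {L : List (V d → V d → Prop)} {x : V d} (h : Comp Γ v (P :: L) x) :
    ∃ t < v.length, P (x + zat v t) (x + zat v (t + 1)) ∧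
      Comp Γ (v.drop (t + 1)) L (x + zat v (t + 1)) := by
  obtain ⟨t, ht, h1, _, _, h2⟩ := (comp_cons_iff Γ v P L x).mp h
  exact ⟨t, ht, h1, h2⟩

theorem comp_base {Γ : V d → Prop} {b t : V d} (m : ℕ) : ∀ v : List (S d),
    Comp Γ v (List.replicate m (cross b t)) t → m + 1 ≤ cnt t v t := by
  induction m with
  | zero => intro v _; exact cnt_pos t v t rfl
  | succ m ih =>
    intro v h
    rw [List.replicate_succ] at h
    obtain ⟨n, hn, h1, h2⟩ := comp_cons h
    have h3 : t + zat v (n + 1) = t := h1.2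
    rw [h3] at h2
    have h4 := ih _ h2
    have h5 := cnt_drop_succ t v t n hn rfl
    rw [h3] at h5
    omega

theorem comp_asc {Γ : V d → Prop} {w : List (S d)} {L : List (V d → V d → Prop)} {k0 n : ℕ}
    (hL : ∀ v, Comp Γ v L (zat w k0) → n ≤ cnt (zat w k0) v (zat w k0)) (m : ℕ) :
    ∀ r, r + m = k0 → ∀ v, Comp Γ v (asc w L r m) (zat w r) → Dn w k0 r n (zat w r) v := by
  induction m with
  | zero =>
    intro r hr v h
    have : r = k0 := by omega
    subst this
    refine ⟨fun r' h1 h2 => by omega, ?_⟩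
    exact hL v h
  | succ m ih =>
    intro r hr v h
    unfold asc at h
    obtain ⟨t, ht, h1, h2⟩ := comp_cons h
    have h1' : zat w r + zat v (t + 1) = zat w r := h1.2
    rw [h1'] at h2
    obtain ⟨t', ht', h3, h4⟩ := comp_cons h2
    have h3' : zat w r + zat (v.drop (t + 1)) (t' + 1) = zat w (r + 1) := h3
    rw [h3'] at h4
    have h5 := ih (r + 1) (by omega) _ h4
    rw [← h3'] at h5
    have h6 := h5.drop (by omega)
    rw [← h1'] at h6
    have h7 := h6.drop (by omega)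
    refine ⟨fun r' hr1 hr2 => ?_, h7.2⟩
    rcases Nat.eq_or_lt_of_le hr1 with he | hlt
    · subst he
      exact ⟨t, ht, Or.inr ⟨h1.1, h1.2⟩⟩
    · exact h7.1 r' hlt hr2

end Walker

open Walker

theorem walker (p : S d → ℝ) (hp : ∀ s, 0 < p s) (hs : ∑ s, p s = 1) (pm : ℝ) (hpm0 : 0 < pm)
    (hpm : ∀ s, pm ≤ p s) (w : List (S d)) (Hs : ℕ → V d →+ ℝ) (i : ℕ) (A : ℝ)
    (k0 k a : ℕ) (hT : TrapW w Hs i A k0 k a) (j : ℕ) (hj : 1 ≤ j) (hji : j ≤ i)
    (hH : Hs j = lin p) (Z : V d → V d → Prop) (hZ : LocalGraph w k0 k a Z)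
    (n : ℕ) (hn : 1 ≤ n) (ε : ℝ) (hε : 0 < ε) :
    ∃ T : ℕ, 1 - 4 * ((k0 - a : ℕ) : ℝ) *
        (piG w k (lin p) / (pm * Real.exp (lin p (zat w k) + A))) -
        ((n : ℝ) - 1) * (piG w k (lin p) / (pm * Real.exp (lin p (zat w k0)))) - ε ≤
      EQ (trans p Z) T 0 (fun v => ind (DoneW w k0 a n v)) := by
  classical
  have hκ := trans_nonneg p hp Z
  have hsum := trans_sum_le p hp Z
  have hk0k := hT.k0_lt
  have hkw := hT.k_le
  have hak0 := hT.a_le
  obtain ⟨Γ, hΓdef⟩ : ∃ Γ : Finset (V d), Γ = (Finset.Icc k w.length).image (zat w) :=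
    ⟨_, rfl⟩
  obtain ⟨D, hDdef⟩ : ∃ D : Finset (V d), D = (Finset.range (k + 1)).image (zat w) \ Γ :=
    ⟨_, rfl⟩
  obtain ⟨E, hEdef⟩ : ∃ E : Finset (V d), E = (Finset.range (k0 + 1)).image (zat w) :=
    ⟨_, rfl⟩
  have hmemΓ : ∀ y, y ∈ Γ ↔ ∃ m, k ≤ m ∧ m ≤ w.length ∧ zat w m = y := by
    intro y
    rw [hΓdef, Finset.mem_image]
    constructor
    · rintro ⟨m, hm, h⟩
      rw [Finset.mem_Icc] at hm
      exact ⟨m, hm.1, hm.2, h⟩
    · rintro ⟨m, h1, h2, h⟩
      exact ⟨m, Finset.mem_Icc.mpr ⟨h1, h2⟩, h⟩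
  have hmemD : ∀ y, y ∈ D ↔ (∃ m, m ≤ k ∧ zat w m = y) ∧ y ∉ Γ := by
    intro y
    rw [hDdef, Finset.mem_sdiff, Finset.mem_image]
    constructor
    · rintro ⟨⟨m, hm, h⟩, h2⟩
      rw [Finset.mem_range] at hm
      exact ⟨⟨m, by omega, h⟩, h2⟩
    · rintro ⟨⟨m, hm, h⟩, h2⟩
      exact ⟨⟨m, Finset.mem_range.mpr (by omega), h⟩, h2⟩
  have hmemE : ∀ y, y ∈ E ↔ ∃ m, m ≤ k0 ∧ zat w m = y := by
    intro y
    rw [hEdef, Finset.mem_image]
    constructor
    · rintro ⟨m, hm, h⟩
      rw [Finset.mem_range] at hm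
      exact ⟨m, by omega, h⟩
    · rintro ⟨m, hm, h⟩
      exact ⟨m, Finset.mem_range.mpr (by omega), h⟩
  have hΓsum : ∑ y ∈ Γ, Real.exp (lin p y) ≤ piG w k (lin p) := by
    rw [hΓdef]
    unfold piG
    exact Finset.sum_image_le_of_nonneg (fun y _ => (Real.exp_pos _).le)
  have hdis : ∀ x ∈ D, x ∉ Γ := fun x hx => ((hmemD x).mp hx).2
  have hall : ∀ l, l ≤ w.length → zat w l ∈ D ∨ zat w l ∈ Γ := by
    intro l hl
    by_cases h1 : zat w l ∈ Γ
    · exact Or.inr h1
    · by_cases h2 : l ≤ k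
      · exact Or.inl ((hmemD _).mpr ⟨⟨l, h2, rfl⟩, h1⟩)
      · exact Or.inr ((hmemΓ _).mpr ⟨l, by omega, hl, rfl⟩)
  have hnbrs : ∀ x ∈ D, ∀ y, Z x y → y ∈ D ∨ y ∈ Γ := by
    intro x hx y hxy
    obtain ⟨⟨m, hm, hmx⟩, _⟩ := (hmemD _).mp hx
    rcases hZ.loc _ _ hxy with ⟨n', hn', h | h⟩ | h
    · rw [h.2]
      exact hall _ (by omega)
    · rw [h.2]
      exact hall _ (by omega)
    · exact absurd hmx.symm (h m hm).1
  have hnotΓ : ∀ r, r ≤ k0 → zat w r ∉ Γ := by
    intro r hr h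
    obtain ⟨m, h1, h2, h3⟩ := (hmemΓ _).mp h
    exact hT.avoid r m hr h1 h2 h3.symm
  have hcoreD : ∀ r, r ≤ k0 → zat w r ∈ D := fun r hr =>
    (hmemD _).mpr ⟨⟨r, by omega, rfl⟩, hnotΓ r hr⟩
  have hne : ∀ x y, Z x y → x ≠ y := by
    intro x y hxy he
    obtain ⟨s, hs'⟩ := hZ.nn x y hxy
    rw [← he] at hs'
    exact step_ne_zero s (left_eq_add.mp hs')
  have hpiG : 0 ≤ piG w k (lin p) := Finset.sum_nonneg (fun _ _ => (Real.exp_pos _).le)
  -- one stage
  have hstage : ∀ x ∈ D, ∀ y ∈ D, Z x y → ∀ h, h ≤ lin p x →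
      Good (trans p Z) (fun y => y ∈ Γ) [cross y x] x
        (piG w k (lin p) / (pm * Real.exp h)) := by
    intro x hx y hy hxy h hh ε' hε'
    obtain ⟨s0, hs0⟩ := hZ.nn x y hxy
    obtain ⟨T, hTT⟩ := cycle p hp hs Z hZ.symm D Γ hdis hnbrs x y hx hy hxy s0 hs0 ε' hε'
    refine ⟨T, le_trans ?_ hTT⟩
    have h1 : (∑ y ∈ Γ, Real.exp (lin p y)) / (p s0 * Real.exp (lin p x)) ≤
        piG w k (lin p) / (pm * Real.exp h) := by
      apply div_le_div₀ hpiG hΓsum (mul_pos hpm0 (Real.exp_pos _))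
      exact mul_le_mul (hpm s0) (Real.exp_le_exp.mpr hh) (Real.exp_pos _).le (hp s0).le
    linarith
  obtain ⟨c1, hc1⟩ : ∃ c1, c1 = piG w k (lin p) / (pm * Real.exp (lin p (zat w k) + A)) :=
    ⟨_, rfl⟩
  obtain ⟨c2, hc2⟩ : ∃ c2, c2 = piG w k (lin p) / (pm * Real.exp (lin p (zat w k0))) :=
    ⟨_, rfl⟩
  have hc1n : 0 ≤ c1 := by rw [hc1]; positivity
  have hc2n : 0 ≤ c2 := by rw [hc2]; positivity
  rw [← hc1, ← hc2]
  -- the last stages
  obtain ⟨b', hb'⟩ : ∃ b', Z (zat w k0) b' := by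
    rcases Relation.ReflTransGen.cases_tail hZ.conn with h | ⟨c, _, hc⟩
    · rw [h]
      exact hZ.zero
    · exact ⟨c, hZ.symm _ _ hc⟩
  have hb'D : b' ∈ D := by
    rcases hnbrs _ (hcoreD k0 le_rfl) _ hb' with h | h
    · exact h
    · exfalso
      obtain ⟨m, h1, h2, h3⟩ := (hmemΓ _).mp h
      obtain ⟨s, hs'⟩ := hZ.nn _ _ hb'
      exact hT.nbr m h1 h2 s (by rw [← hs', h3])
  have hbase : Good (trans p Z) (fun y => y ∈ Γ)
      (List.replicate (n - 1) (cross b' (zat w k0))) (zat w k0) (((n : ℝ) - 1) * c2) := by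
    have h1 := hstage _ (hcoreD k0 le_rfl) b' hb'D hb' _ le_rfl
    rw [← hc2] at h1
    have h2 := Good.base hκ hsum hc2n h1 (n - 1)
    rwa [Nat.cast_sub hn, Nat.cast_one] at h2
  have hn1 : (0 : ℝ) ≤ ((n : ℝ) - 1) * c2 := by
    have : (1 : ℝ) ≤ n := by exact_mod_cast hn
    exact mul_nonneg (by linarith) hc2n
  -- the stages on the core path
  obtain ⟨Lr, hLr1, hLr2⟩ : ∃ Lr : List (V d → V d → Prop),
      (∀ b, a ≤ b → b ≤ k0 → Good (trans p Z) (fun y => y ∈ Γ) Lr (zat w b)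
        (4 * ((k0 - a : ℕ) : ℝ) * c1 + ((n : ℝ) - 1) * c2)) ∧
      (∀ b, a ≤ b → b ≤ k0 → ∀ v, Comp (fun y => y ∈ Γ) v Lr (zat w b) →
        Dn w k0 a n (zat w b) v) := by
    rcases Nat.eq_or_lt_of_le hak0 with hak | hak
    · refine ⟨List.replicate (n - 1) (cross b' (zat w k0)), ?_, ?_⟩
      · intro b h1 h2
        have : b = k0 := by omega
        subst this
        apply hbase.mono
        have : (0 : ℝ) ≤ 4 * ((b - a : ℕ) : ℝ) * c1 := by positivity
        linarith
      · intro b h1 h2 v hv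
        have : b = k0 := by omega
        subst this
        refine ⟨fun r h3 h4 => by omega, ?_⟩
        have := comp_base (n - 1) v hv
        omega
    · have hhigh : ∀ b, a ≤ b → b ≤ k0 → lin p (zat w k) + A ≤ lin p (zat w b) := by
        intro b h1 h2
        have := hT.high hak b h1 h2 j hj hji
        rwa [hH] at this
      have hcr : ∀ r, a ≤ r → r < k0 → Good (trans p Z) (fun y => y ∈ Γ)
          [cross (zat w (r + 1)) (zat w r)] (zat w r) c1 := by
        intro r h1 h2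
        rw [hc1]
        exact hstage _ (hcoreD r (by omega)) _ (hcoreD (r + 1) (by omega))
          (hZ.coreE r h1 h2) _ (hhigh r h1 (by omega))
      have hup : ∀ r, a ≤ r → r < k0 → Good (trans p Z) (fun y => y ∈ Γ)
          [hitp (zat w (r + 1))] (zat w r) c1 := by
        intro r h1 h2
        exact (hcr r h1 h2).hit_of_cross hκ hsum (hne _ _ (hZ.coreE r h1 h2))
      have hdown : ∀ r, a ≤ r → r < k0 → Good (trans p Z) (fun y => y ∈ Γ)
          [hitp (zat w r)] (zat w (r + 1)) c1 := by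
        intro r h1 h2
        have hsy := hZ.symm _ _ (hZ.coreE r h1 h2)
        have h3 := hstage _ (hcoreD (r + 1) (by omega)) _ (hcoreD r (by omega)) hsy _
          (hhigh (r + 1) (by omega) (by omega))
        rw [← hc1] at h3
        exact h3.hit_of_cross hκ hsum (hne _ _ hsy)
      have hasc := Good.asc hκ hsum hc1n hn1 hbase hcr hup (k0 - a) a le_rfl (by omega)
      have hascn : (0 : ℝ) ≤ 2 * ((k0 - a : ℕ) : ℝ) * c1 + ((n : ℝ) - 1) * c2 := by
        have : (0 : ℝ) ≤ 2 * ((k0 - a : ℕ) : ℝ) * c1 := by positivity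
        linarith
      refine ⟨hitp (zat w a) :: asc w (List.replicate (n - 1) (cross b' (zat w k0))) a
        (k0 - a), ?_, ?_⟩
      · have key : ∀ t, a + t ≤ k0 → Good (trans p Z) (fun y => y ∈ Γ)
            (hitp (zat w a) :: asc w (List.replicate (n - 1) (cross b' (zat w k0))) a
              (k0 - a)) (zat w (a + t))
            ((t + 1) * c1 + (2 * ((k0 - a : ℕ) : ℝ) * c1 + ((n : ℝ) - 1) * c2)) := by
          intro t
          induction t with
          | zero =>
            intro _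
            have h1 := (hcr a le_rfl hak).hit_end hκ hsum
            have h2 := Good.cons hκ hsum hascn {zat w a} h1
              (fun x' y h => Finset.mem_singleton.mpr h) (fun y hy => by
                rw [Finset.mem_singleton] at hy
                rw [hy]
                exact hasc)
            exact h2.mono (by push_cast; linarith)
          | succ t ih =>
            intro ht
            have h1 := ih (by omega)
            have h2 := (hdown (a + t) (by omega) (by omega)).chain hκ hsum h1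
            exact h2.mono (by push_cast; linarith)
        intro b h1 h2
        have h3 := key (b - a) (by omega)
        rw [show a + (b - a) = b by omega] at h3
        apply h3.mono
        have e1 : ((b - a : ℕ) : ℝ) ≤ ((k0 - a : ℕ) : ℝ) := by
          exact_mod_cast (by omega : b - a ≤ k0 - a)
        have e2 : (1 : ℝ) ≤ ((k0 - a : ℕ) : ℝ) := by
          exact_mod_cast (by omega : 1 ≤ k0 - a)
        nlinarith
      · intro b h1 h2 v hv
        obtain ⟨t, ht, h3, h4⟩ := comp_cons hv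
        have h3' : zat w b + zat v (t + 1) = zat w a := h3
        rw [h3'] at h4
        have h5 := comp_asc (n := n) (fun v hv => by
          have := comp_base (n - 1) v hv
          omega) (k0 - a) a (by omega) _ h4
        rw [← h3'] at h5
        exact h5.drop (by omega)
  -- all the stages
  obtain ⟨L, hL1, hL2⟩ : ∃ L : List (V d → V d → Prop),
      Good (trans p Z) (fun y => y ∈ Γ) L 0
        (4 * ((k0 - a : ℕ) : ℝ) * c1 + ((n : ℝ) - 1) * c2) ∧
      (∀ v, Comp (fun y => y ∈ Γ) v L 0 → Dn w k0 a n 0 v) := by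
    obtain ⟨C, hCdef⟩ : ∃ C : V d → Prop, C = fun y => ∃ m n', m ≤ k0 ∧ k0 ≤ n' ∧ n' ≤ k ∧
        zat w m = y ∧ zat w n' = y := ⟨_, rfl⟩
    have hCb : ∀ y, C y → ∃ b, a ≤ b ∧ b ≤ k0 ∧ y = zat w b := by
      intro y hy
      rw [hCdef] at hy
      obtain ⟨m, n', h1, h2, h3, h4, h5⟩ := hy
      obtain ⟨b, h6, h7, h8⟩ := hT.core m n' h1 h2 h3 (by rw [h4, h5])
      exact ⟨b, h6, h7, by rw [← h8, h4]⟩
    by_cases hC0 : C 0
    · obtain ⟨b, h1, h2, h3⟩ := hCb 0 hC0
      refine ⟨Lr, ?_, ?_⟩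
      · rw [h3]
        exact hLr1 b h1 h2
      · intro v hv
        rw [h3] at hv ⊢
        exact hLr2 b h1 h2 v hv
    · refine ⟨(fun _ y => C y ∧ y ∈ E) :: Lr, ?_, ?_⟩
      · have hex : Good (trans p Z) (fun y => y ∈ Γ) [fun _ y => C y ∧ y ∈ E] 0 0 := by
          intro ε' hε'
          have hlow : ∀ m, m ≤ k0 → ¬ C (zat w m) → ∀ l, l ≤ w.length →
              zat w m = zat w l → l < k0 := by
            intro m hm hC l hl he
            by_contra hcon
            by_cases hlk : l ≤ k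
            · apply hC
              rw [hCdef]
              exact ⟨m, l, hm, by omega, hlk, rfl, he.symm⟩
            · exact hT.avoid m l hm (by omega) hl he
          obtain ⟨T, hTT⟩ := exit p hp hs Z hZ.symm hZ.nn E C (fun y => y ∈ Γ)
            (fun x hx => by
              obtain ⟨m, hm, rfl⟩ := (hmemE x).mp hx
              exact hnotΓ m hm)
            (fun x hx hCx y hxy => by
              obtain ⟨m, hm, rfl⟩ := (hmemE x).mp hx
              rcases hZ.loc _ _ hxy with ⟨n', hn', h | h⟩ | h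
              · have := hlow m hm hCx n' (by omega) h.1
                exact (hmemE y).mpr ⟨n' + 1, by omega, h.2.symm⟩
              · have := hlow m hm hCx (n' + 1) (by omega) h.1
                exact (hmemE y).mpr ⟨n', by omega, h.2.symm⟩
              · exact absurd rfl (h m (by omega)).1)
            ((hmemE 0).mpr ⟨0, by omega, zat_zero w⟩) hC0 (zat w k0)
            (by
              rw [hCdef]
              exact ⟨k0, k0, le_rfl, le_rfl, by omega, rfl, rfl⟩)
            hZ.conn ε' hε'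
          exact ⟨T, by linarith⟩
        have hcost : (0 : ℝ) ≤ 4 * ((k0 - a : ℕ) : ℝ) * c1 + ((n : ℝ) - 1) * c2 := by
          have : (0 : ℝ) ≤ 4 * ((k0 - a : ℕ) : ℝ) * c1 := by positivity
          linarith
        have h1 := Good.cons hκ hsum hcost (E.filter C) hex
          (fun x' y h => Finset.mem_filter.mpr ⟨h.2, h.1⟩) (fun y hy => by
            obtain ⟨b, h1, h2, h3⟩ := hCb y (Finset.mem_filter.mp hy).2
            rw [h3]
            exact hLr1 b h1 h2)
        exact h1.mono (by linarith)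
      · intro v hv
        obtain ⟨t, ht, h3, h4⟩ := comp_cons hv
        obtain ⟨b, h1, h2, h5⟩ := hCb _ h3.1
        rw [h5] at h4
        have h6 := hLr2 b h1 h2 _ h4
        rw [← h5] at h6
        exact h6.drop (by omega)
  obtain ⟨T, hTT⟩ := hL1 ε hε
  refine ⟨T, ?_⟩
  have heq := cp_eq_EQ (trans p Z) (fun y => y ∈ Γ) hκ (fun x => ∃ y, Z x y)
    (fun x hx => by
      obtain ⟨y, hy⟩ := hx
      obtain ⟨s, rfl⟩ := hZ.nn x y hy
      exact trans_sum p hp Z x ⟨s, hy⟩)
    (fun x s _ hne' => ⟨x, hZ.symm _ _ ((trans_ne_zero p hp Z x s).mp hne')⟩)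
    T L 0 hZ.zero
  have hmono : EQ (trans p Z) T 0 (fun v => ind (Comp (fun y => y ∈ Γ) v L 0)) ≤
      EQ (trans p Z) T 0 (fun v => ind (DoneW w k0 a n v)) :=
    EQ_mono _ hκ T 0 (fun v _ => ind_mono (fun h => (hL2 v h).done))
  rw [← heq] at hmono
  linarith

end Pool.Agent.MP_ef0d6f_pr
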