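import Pool.Agent.Lib.MP_ef0d6f_pr.Link
import Pool.Agent.Lib.MP_ef0d6f_pr.Walker

/-! Task 10 (Levels): induction over the levels. -/

namespace Pool.Agent.MP_ef0d6f_pr

open MeasureTheory Filter Topology

variable {d : ℕ} {Ω : Type*} [MeasurableSpace Ω] {p : ℕ → S d → ℝ} {μ : Measure Ω}
  {X : ℕ → ℕ → Ω → V d}

namespace Levels

theorem trace_symm (x : ℕ → V d) (a b : V d) (h : trace x a b) : trace x b a := by
  obtain ⟨n, hn | hn⟩ := h
  · exact ⟨n, Or.inr hn⟩
  · exact ⟨n, Or.inl hn⟩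

theorem trace_step (x : ℕ → V d) (n : ℕ) : trace x (x n) (x (n + 1)) :=
  ⟨n, Or.inl ⟨rfl, rfl⟩⟩

theorem trace_conn (x : ℕ → V d) (n : ℕ) : Relation.ReflTransGen (trace x) (x 0) (x n) := by
  induction n with
  | zero => exact Relation.ReflTransGen.refl
  | succ n ih => exact ih.tail (trace_step x n)

end Levels

/-- the trace of the first walk is a local graph -/
theorem localGraph_one (w : List (S d)) (Hs : ℕ → V d →+ ℝ) (i : ℕ) (A : ℝ) (k0 k a : ℕ)
    (hT : TrapW w Hs i A k0 k a) (F : List (S d) → Prop)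
    (hF : ∀ v, F v → ∀ m ≤ k, pos w + pos v ≠ zat w m)
    (x : ℕ → V d) (hx : TrapEv x w F) : LocalGraph w k0 k a (trace x) := by
  obtain ⟨h0, hx⟩ := hx
  have hw : ∀ n ≤ w.length, x n = zat w n := by
    intro n hn
    obtain ⟨v, hv, -, hfo⟩ := hx 0
    rw [follows_append] at hfo
    rw [follows_zat x w hfo.1 n hn, h0, zero_add]
  have hlate : ∀ t, ∀ m ≤ k, x (w.length + t) ≠ zat w m := by
    intro t m hm
    obtain ⟨v, hv, hFv, hfo⟩ := hx t
    have h1 := follows_zat x (w ++ v) hfo (w.length + t) (by rw [List.length_append, hv])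
    rw [h1, h0, zero_add, zat_append_right, ← hv, zat_length]
    exact hF v hFv m hm
  have hstep : ∀ n, ∃ s : S d, x (n + 1) = x n + step s := by
    intro n
    obtain ⟨v, hv, -, hfo⟩ := hx (n + 1)
    have hlen : n + 1 ≤ (w ++ v).length := by rw [List.length_append, hv]; omega
    obtain ⟨s, hs⟩ := zat_succ (w ++ v) n (by omega)
    refine ⟨s, ?_⟩
    rw [follows_zat x _ hfo (n + 1) hlen, follows_zat x _ hfo n (by omega), hs, add_assoc]
  refine ⟨Levels.trace_symm x, ?_, ?_, ?_, ?_, ?_⟩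
  · rintro b c ⟨n, ⟨h1, h2⟩ | ⟨h1, h2⟩⟩
    · obtain ⟨s, hs⟩ := hstep n
      exact ⟨s, by rw [← h1, ← h2, hs]⟩
    · obtain ⟨s, hs⟩ := hstep n
      exact ⟨neg s, by rw [← h1, ← h2, hs, step_neg, add_neg_cancel_right]⟩
  · rintro b c ⟨n, hn⟩
    by_cases hnw : n < w.length
    · left
      refine ⟨n, hnw, ?_⟩
      rw [hw n hnw.le, hw (n + 1) hnw] at hn
      rcases hn with ⟨h1, h2⟩ | ⟨h1, h2⟩
      · exact Or.inl ⟨h1.symm, h2.symm⟩
      · exact Or.inr ⟨h2.symm, h1.symm⟩
    · right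
      intro m hm
      have e1 := hlate (n - w.length) m hm
      have e2 := hlate (n - w.length + 1) m hm
      have e3 : w.length + (n - w.length) = n := by omega
      have e4 : w.length + (n - w.length + 1) = n + 1 := by omega
      rw [e3] at e1
      rw [e4] at e2
      rcases hn with ⟨h1, h2⟩ | ⟨h1, h2⟩
      · rw [← h1, ← h2]
        exact ⟨e1, e2⟩
      · rw [← h1, ← h2]
        exact ⟨e2, e1⟩
  · intro n _ hn
    have hk := hT.k_le
    have hk0 := hT.k0_lt
    rw [← hw n (by omega), ← hw (n + 1) (by omega)]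
    exact Levels.trace_step x n
  · have hk := hT.k_le
    have hk0 := hT.k0_lt
    rw [← hw k0 (by omega), ← h0]
    exact Levels.trace_conn x k0
  · exact ⟨x 1, by
      have := Levels.trace_step x 0
      rw [h0] at this
      exact this⟩

/-- the trace of a walk on a local graph which has done its job is a local graph -/
theorem localGraph_succ (w : List (S d)) (k0 k a : ℕ) (Z : V d → V d → Prop)
    (hZ : LocalGraph w k0 k a Z) (y : ℕ → V d) (hy0 : y 0 = 0)
    (hy : ∀ n, Z (y n) (y (n + 1))) (v : List (S d)) (hv : Follows y v)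
    (hdone : DoneW w k0 a 1 v) : LocalGraph w k0 k a (trace y) := by
  have hsub : ∀ b c, trace y b c → Z b c := by
    rintro b c ⟨n, ⟨h1, h2⟩ | ⟨h1, h2⟩⟩
    · rw [← h1, ← h2]
      exact hy n
    · rw [← h1, ← h2]
      exact hZ.symm _ _ (hy n)
  have hyz : ∀ t ≤ v.length, y t = zat v t := by
    intro t ht
    rw [follows_zat y v hv t ht, hy0, zero_add]
  refine ⟨Levels.trace_symm y, fun b c h => hZ.nn b c (hsub b c h),
    fun b c h => hZ.loc b c (hsub b c h), ?_, ?_, ?_⟩
  · intro n han hn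
    obtain ⟨t, ht, h | h⟩ := hdone.1 n han hn
    · rw [← hyz t ht.le, ← hyz (t + 1) ht] at h
      exact ⟨t, Or.inl h⟩
    · rw [← hyz t ht.le, ← hyz (t + 1) ht] at h
      exact ⟨t, Or.inr h⟩
  · have h1 := hdone.2
    have h2 : ((Finset.range (v.length + 1)).filter (fun t => zat v t = zat w k0)).Nonempty :=
      Finset.card_pos.1 h1
    obtain ⟨t, ht⟩ := h2
    rw [Finset.mem_filter, Finset.mem_range] at ht
    rw [← ht.2, ← hyz t (by omega), ← hy0]
    exact Levels.trace_conn y t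
  · exact ⟨y 1, by
      have := Levels.trace_step y 0
      rw [hy0] at this
      exact this⟩

namespace Levels

theorem doneW_append (w : List (S d)) (k0 a n : ℕ) (v v' : List (S d))
    (h : DoneW w k0 a n v) : DoneW w k0 a n (v ++ v') := by
  obtain ⟨h1, h2⟩ := h
  refine ⟨?_, ?_⟩
  · intro r har hr
    obtain ⟨t, ht, h⟩ := h1 r har hr
    refine ⟨t, by rw [List.length_append]; omega, ?_⟩
    rw [zat_append_left v v' t ht.le, zat_append_left v v' (t + 1) ht]
    exact h
  · refine h2.trans (Finset.card_le_card ?_)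
    intro t ht
    rw [Finset.mem_filter, Finset.mem_range] at ht ⊢
    refine ⟨by rw [List.length_append]; omega, ?_⟩
    rw [zat_append_left v v' t (by omega)]
    exact ht.2

theorem measurableSet_edges (X : ℕ → ℕ → Ω → V d) (j : ℕ) :
    MeasurableSet[history X (j + 1)]
      {ω | ∀ n, graph X j ω (X j n ω) (X j (n + 1) ω)} := by
  have : {ω | ∀ n, graph X j ω (X j n ω) (X j (n + 1) ω)} =
      ⋂ n : ℕ, ⋃ x : V d, ⋃ y : V d, ({ω | X j n ω = x ∧ X j (n + 1) ω = y} ∩
        {ω | graph X j ω x y}) := by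
    ext ω
    simp only [Set.mem_ofPred_eq, Set.mem_iInter, Set.mem_iUnion, Set.mem_inter_iff]
    constructor
    · intro h n
      exact ⟨_, _, ⟨rfl, rfl⟩, h n⟩
    · intro h n
      obtain ⟨x, y, ⟨rfl, rfl⟩, hg⟩ := h n
      exact hg
  rw [this]
  refine MeasurableSet.iInter fun n => MeasurableSet.iUnion fun x =>
    MeasurableSet.iUnion fun y => ?_
  exact (Link.measurableSet_history₂ X (Nat.lt_succ_self j) n (n + 1)
    (fun b c => b = x ∧ c = y)).inter
    (history_mono X (Nat.le_succ j) _ (measurableSet_graph X j x y))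

theorem measurableSet_word (X : ℕ → ℕ → Ω → V d) (j : ℕ) (P : List (S d) → Prop) :
    MeasurableSet[history X (j + 1)]
      {ω | ∃ v, P v ∧ Follows (fun n => X j n ω) v} := by
  have : {ω | ∃ v, P v ∧ Follows (fun n => X j n ω) v} =
      ⋃ v ∈ {v : List (S d) | P v}, {ω | Follows (fun n => X j n ω) v} := by
    ext ω
    simp only [Set.mem_ofPred_eq, Set.mem_iUnion, exists_prop]
  rw [this]
  exact MeasurableSet.biUnion (Set.to_countable _) fun u _ =>
    measurableSet_follows X (Nat.lt_succ_self j) u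

/-- the events of the induction -/
def Ev (X : ℕ → ℕ → Ω → V d) (w : List (S d)) (F : List (S d) → Prop) (k0 a : ℕ) :
    ℕ → Set Ω
  | 0 => {ω | TrapEv (fun n => X 0 n ω) w F}
  | m + 1 => Ev X w F k0 a m ∩ {ω | (X (m + 1) 0 ω = 0 ∧
      (∃ v, DoneW w k0 a 1 v ∧ Follows (fun n => X (m + 1) n ω) v)) ∧
      ∀ n, graph X (m + 1) ω (X (m + 1) n ω) (X (m + 1) (n + 1) ω)}

theorem measurableSet_ev (X : ℕ → ℕ → Ω → V d) (w : List (S d)) (F : List (S d) → Prop)
    (k0 a m : ℕ) : MeasurableSet[history X (m + 1)] (Ev X w F k0 a m) := by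
  induction m with
  | zero => exact measurableSet_trapEv X Nat.one_pos w F
  | succ m ih =>
    refine (history_mono X (Nat.le_succ (m + 1)) _ ih).inter ?_
    refine MeasurableSet.inter (MeasurableSet.inter ?_ ?_) ?_
    · exact measurableSet_history X (Nat.lt_succ_self (m + 1)) 0 (fun y => y = 0)
    · exact measurableSet_word X (m + 1) (DoneW w k0 a 1)
    · exact measurableSet_edges X (m + 1)

theorem ev_subset (X : ℕ → ℕ → Ω → V d) (w : List (S d)) (F : List (S d) → Prop)
    (k0 a m : ℕ) : Ev X w F k0 a m ⊆ {ω | TrapEv (fun n => X 0 n ω) w F} := by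
  induction m with
  | zero => exact subset_rfl
  | succ m ih => exact Set.inter_subset_left.trans ih

theorem ev_local (X : ℕ → ℕ → Ω → V d) (w : List (S d)) (Hs : ℕ → V d →+ ℝ) (i : ℕ) (A : ℝ)
    (k0 k a : ℕ) (hT : TrapW w Hs i A k0 k a) (F : List (S d) → Prop)
    (hF : ∀ v, F v → ∀ m ≤ k, pos w + pos v ≠ zat w m) (m : ℕ) (ω : Ω)
    (hω : ω ∈ Ev X w F k0 a m) : LocalGraph w k0 k a (graph X (m + 1) ω) := by
  induction m with
  | zero => exact localGraph_one w Hs i A k0 k a hT F hF _ hω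
  | succ m ih =>
    obtain ⟨h1, ⟨h2, v, hv, hfo⟩, h3⟩ := hω
    exact localGraph_succ w k0 k a _ (ih h1) _ h2 h3 v hfo hv

theorem step_prob [IsProbabilityMeasure μ] (hp : ∀ i s, 0 < p i s)
    (hsum : ∀ i, ∑ s, p i s = 1) (hX : IteratedWalk p μ X) (i : ℕ)
    (pm : ℝ) (hpm0 : 0 < pm) (hpm : ∀ j ≤ i, ∀ s, pm ≤ p j s)
    (w : List (S d)) (A : ℝ) (k0 k a : ℕ)
    (hT : TrapW w (fun j => lin (p j)) i A k0 k a) (j : ℕ) (hj : 1 ≤ j) (hji : j ≤ i)
    (E : Set Ω) (hE : MeasurableSet[history X j] E)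
    (hloc : ∀ ω ∈ E, LocalGraph w k0 k a (graph X j ω)) (n : ℕ) (hn : 1 ≤ n) (r : ℝ)
    (hr : r ≤ 1)
    (h : 4 * ((k0 - a : ℕ) : ℝ) *
      (piG w k (lin (p j)) / (pm * Real.exp (lin (p j) (zat w k) + A))) +
      ((n : ℝ) - 1) * (piG w k (lin (p j)) / (pm * Real.exp (lin (p j) (zat w k0)))) ≤ r) :
    (1 - r) * μ.real E ≤ μ.real (E ∩ {ω | X j 0 ω = 0 ∧
      ∃ v, DoneW w k0 a n v ∧ Follows (fun n => X j n ω) v}) := by
  apply law_lower hp hsum hX j E hE (DoneW w k0 a n) (doneW_append w k0 a n) (1 - r)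
    (by linarith)
  · intro ω hω
    exact (hloc ω hω).zero
  · intro ω hω
    exact (hloc ω hω).symm
  · intro ω hω
    exact (hloc ω hω).nn
  · intro ω hω ε hε
    obtain ⟨T, hT'⟩ := walker (p j) (hp j) (hsum j) pm hpm0 (hpm j hji) w
      (fun j => lin (p j)) i A k0 k a hT j hj hji rfl _ (hloc ω hω) n hn ε hε
    exact ⟨T, by linarith⟩

end Levels

theorem levels [IsProbabilityMeasure μ] (hp : ∀ i s, 0 < p i s)
    (hsum : ∀ i, ∑ s, p i s = 1) (hX : IteratedWalk p μ X) (i : ℕ) (hi : 1 ≤ i)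
    (pm : ℝ) (hpm0 : 0 < pm) (hpm : ∀ j ≤ i, ∀ s, pm ≤ p j s)
    (w : List (S d)) (A : ℝ) (k0 k a : ℕ)
    (hT : TrapW w (fun j => lin (p j)) i A k0 k a) (F : List (S d) → Prop)
    (hF : ∀ v, F v → ∀ m ≤ k, pos w + pos v ≠ zat w m)
    (h1 : ∀ j, 1 ≤ j → j ≤ i → 4 * ((k0 - a : ℕ) : ℝ) *
      (piG w k (lin (p j)) / (pm * Real.exp (lin (p j) (zat w k) + A))) ≤ 1 / (8 * i))
    (n : ℕ) (hn : 1 ≤ n)
    (h2 : ((n : ℝ) - 1) * (piG w k (lin (p i)) / (pm * Real.exp (lin (p i) (zat w k0))))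
      ≤ 1 / 4) :
    (1 / 2) * μ.real {ω | TrapEv (fun n => X 0 n ω) w F} ≤
      μ.real ({ω | TrapEv (fun n => X 0 n ω) w F} ∩
        {ω | ∃ T : ℕ, n ≤ NV (fun n => X i n ω) T (zat w k0)}) := by
  have hi0 : (0 : ℝ) < i := by exact_mod_cast hi
  have hi1 : (1 : ℝ) ≤ i := by exact_mod_cast hi
  have h8 : (1 : ℝ) / (8 * i) ≤ 1 / 8 := by
    apply one_div_le_one_div_of_le (by norm_num)
    linarith
  have h80 : (0 : ℝ) < 1 / (8 * i) := by positivity
  set M : ℝ := μ.real {ω | TrapEv (fun n => X 0 n ω) w F} with hM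
  have hM0 : 0 ≤ M := measureReal_nonneg
  have hle : ∀ m, μ.real (Levels.Ev X w F k0 a m) ≤ M := fun m =>
    measureReal_mono (Levels.ev_subset X w F k0 a m)
  -- induction
  have key : ∀ m, m + 1 ≤ i →
      (1 - (m : ℝ) * (1 / (8 * i))) * M ≤ μ.real (Levels.Ev X w F k0 a m) := by
    intro m
    induction m with
    | zero =>
      intro _
      simp only [Nat.cast_zero, zero_mul, sub_zero, one_mul]
      exact le_refl _
    | succ m ih =>
      intro hm
      have hih := ih (by omega)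
      have hstep := Levels.step_prob hp hsum hX i pm hpm0 hpm w A k0 k a hT (m + 1)
        (by omega) (by omega) (Levels.Ev X w F k0 a m) (Levels.measurableSet_ev X w F k0 a m)
        (fun ω hω => Levels.ev_local X w _ i A k0 k a hT F hF m ω hω) 1 le_rfl
        (1 / (8 * i)) (by linarith) (by
          have := h1 (m + 1) (by omega) (by omega)
          simpa using this)
      have heq : μ.real (Levels.Ev X w F k0 a (m + 1)) =
          μ.real (Levels.Ev X w F k0 a m ∩ {ω | X (m + 1) 0 ω = 0 ∧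
            ∃ v, DoneW w k0 a 1 v ∧ Follows (fun n => X (m + 1) n ω) v}) := by
        rw [measureReal_def, measureReal_def]
        congr 1
        apply measure_congr
        filter_upwards [edge_ae hp hsum hX (m + 1)] with ω hω
        apply propext
        constructor
        · rintro ⟨h1, h2, h3⟩
          exact ⟨h1, h2⟩
        · rintro ⟨h1, h2⟩
          exact ⟨h1, h2, hω⟩
      rw [heq]
      refine le_trans ?_ hstep
      have := hle m
      push_cast
      nlinarith
  have hlast := Levels.step_prob hp hsum hX i pm hpm0 hpm w A k0 k a hT i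
        hi le_rfl (Levels.Ev X w F k0 a (i - 1)) (by
          have := Levels.measurableSet_ev X w F k0 a (i - 1)
          rwa [Nat.sub_add_cancel hi] at this)
        (fun ω hω => by
          have := Levels.ev_local X w _ i A k0 k a hT F hF (i - 1) ω hω
          rwa [Nat.sub_add_cancel hi] at this) n hn
        (1 / (8 * i) + 1 / 4) (by linarith) (by
          have := h1 i hi le_rfl
          linarith)
  have hk := key (i - 1) (by omega)
  have hl := hle (i - 1)
  have hci : (((i - 1 : ℕ) : ℝ)) = (i : ℝ) - 1 := by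
    rw [Nat.cast_sub hi, Nat.cast_one]
  rw [hci] at hk
  have hprod : (i : ℝ) * (1 / (8 * i)) = 1 / 8 := by
    field_simp
  have hfin : (1 / 2) * M ≤ (1 - (1 / (8 * i) + 1 / 4)) *
      μ.real (Levels.Ev X w F k0 a (i - 1)) := by
    have e1 : ((i : ℝ) - 1) * (1 / (8 * i)) = 1 / 8 - 1 / (8 * i) := by
      rw [sub_mul, hprod, one_mul]
    rw [e1] at hk
    nlinarith
  refine (hfin.trans hlast).trans ?_
  refine measureReal_mono ?_ (measure_ne_top μ _)
  rintro ω ⟨hω1, h0, v, hv, hfo⟩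
  refine ⟨Levels.ev_subset X w F k0 a _ hω1, v.length + 1, ?_⟩
  refine hv.2.trans (Finset.card_le_card ?_)
  intro t ht
  rw [Finset.mem_filter, Finset.mem_range] at ht ⊢
  refine ⟨ht.1, ?_⟩
  have := follows_zat _ v hfo t (by omega)
  show X i t ω = zat w k0
  rw [this, h0, zero_add]
  exact ht.2

end Pool.Agent.MP_ef0d6f_pr
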