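import Pool.Agent.Lib.MP_ef0d6f_pr.Stage

/-! Task 9 (Link): from the law of the iterated walks to the calculus of `EQ` and `EP`. -/

namespace Pool.Agent.MP_ef0d6f_pr

open MeasureTheory Filter Topology

variable {d : ℕ} {Ω : Type*} [MeasurableSpace Ω] {p : ℕ → S d → ℝ} {μ : Measure Ω}
  {X : ℕ → ℕ → Ω → V d}

theorem history_le (hX : IteratedWalk p μ X) (i : ℕ) :
    history X i ≤ (inferInstance : MeasurableSpace Ω) :=
  iSup_le fun j => iSup_le fun n => (hX.meas j n).comap_le

theorem history_mono (X : ℕ → ℕ → Ω → V d) {i j : ℕ} (h : i ≤ j) :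
    history X i ≤ history X j := by
  refine iSup_le fun a => ?_
  exact le_iSup_of_le (Fin.castLE h a) le_rfl

/-- events about the walk number `j` are in the history of `i` if `j < i` -/
theorem measurableSet_history (X : ℕ → ℕ → Ω → V d) {i j : ℕ} (h : j < i) (n : ℕ)
    (Q : V d → Prop) : MeasurableSet[history X i] {ω | Q (X j n ω)} := by
  have h1 : MeasurableSpace.comap (X j n) inferInstance ≤ history X i :=
    le_iSup_of_le (⟨j, h⟩ : Fin i) (le_iSup_of_le n le_rfl)
  apply h1
  exact ⟨{v | Q v}, (Set.to_countable _).measurableSet, rfl⟩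

namespace Link

/-- two coordinates -/
theorem measurableSet_history₂ (X : ℕ → ℕ → Ω → V d) {i j : ℕ} (h : j < i) (n m : ℕ)
    (Q : V d → V d → Prop) : MeasurableSet[history X i] {ω | Q (X j n ω) (X j m ω)} := by
  have : {ω | Q (X j n ω) (X j m ω)} =
      ⋃ v : V d, ({ω | v = X j n ω} ∩ {ω | Q v (X j m ω)}) := by
    ext ω
    simp only [Set.mem_ofPred_eq, Set.mem_iUnion, Set.mem_inter_iff]
    constructor
    · intro hq
      exact ⟨_, rfl, hq⟩
    · rintro ⟨v, rfl, hq⟩
      exact hq
  rw [this]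
  exact MeasurableSet.iUnion fun v =>
    (measurableSet_history X h n (fun y => v = y)).inter
      (measurableSet_history X h m (fun y => Q v y))

end Link

theorem measurableSet_follows (X : ℕ → ℕ → Ω → V d) {i j : ℕ} (h : j < i)
    (w : List (S d)) :
    MeasurableSet[history X i] {ω | Follows (fun n => X j n ω) w} := by
  have : {ω | Follows (fun n => X j n ω) w} =
      ⋂ n : ℕ, {ω | n ≤ w.length → X j n ω = X j 0 ω + zat w n} := by
    ext ω
    simp only [Set.mem_ofPred_eq, Set.mem_iInter, follows_iff]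
  rw [this]
  refine MeasurableSet.iInter fun n => ?_
  exact Link.measurableSet_history₂ X h n 0 (fun y z => n ≤ w.length → y = z + zat w n)

/-- the edges of the graph number `i` are in the history of `i` -/
theorem measurableSet_graph (X : ℕ → ℕ → Ω → V d) (i : ℕ) (x y : V d) :
    MeasurableSet[history X i] {ω | graph X i ω x y} := by
  cases i with
  | zero => exact MeasurableSet.const _
  | succ i =>
    have : {ω | graph X (i + 1) ω x y} = ⋃ n : ℕ, {ω | (X i n ω = x ∧ X i (n + 1) ω = y) ∨
        (X i n ω = y ∧ X i (n + 1) ω = x)} := by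
      ext ω
      simp only [Set.mem_ofPred_eq, Set.mem_iUnion, graph, trace]
    rw [this]
    refine MeasurableSet.iUnion fun n => ?_
    exact Link.measurableSet_history₂ X (Nat.lt_succ_self i) n (n + 1)
      (fun a b => (a = x ∧ b = y) ∨ (a = y ∧ b = x))

namespace Link

theorem measurable_trans (hX : IteratedWalk p μ X) (i : ℕ) (x : V d) (s : S d) :
    Measurable (fun ω => trans (p i) (graph X i ω) x s) := by
  classical
  unfold trans
  have hm : ∀ s : S d, MeasurableSet {ω | graph X i ω x (x + step s)} := fun s =>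
    history_le hX i _ (measurableSet_graph X i x (x + step s))
  refine Measurable.ite (hm s) ?_ measurable_const
  refine measurable_const.div ?_
  exact Finset.measurable_sum _ fun s' _ => Measurable.ite (hm s') measurable_const
    measurable_const

end Link

theorem measurable_wt (hX : IteratedWalk p μ X) (i : ℕ) (x : V d) (w : List (S d)) :
    Measurable (fun ω => wt (trans (p i) (graph X i ω)) x w) := by
  induction w generalizing x with
  | nil => exact measurable_const
  | cons s w ih => exact (Link.measurable_trans hX i x s).mul (ih _)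

theorem measurable_EQ (hX : IteratedWalk p μ X) (i T : ℕ) (x : V d)
    (F : List (S d) → ℝ) :
    Measurable (fun ω => EQ (trans (p i) (graph X i ω)) T x F) := by
  induction T generalizing x F with
  | zero => exact measurable_const
  | succ T ih =>
    simp only [EQ]
    exact Finset.measurable_sum _ fun s _ => (Link.measurable_trans hX i x s).mul (ih _ _)

namespace Link

theorem wt_nonneg (κ : V d → S d → ℝ) (hκ : ∀ x s, 0 ≤ κ x s) (x : V d) (w : List (S d)) :
    0 ≤ wt κ x w := by
  induction w generalizing x with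
  | nil => exact zero_le_one
  | cons s w ih => exact mul_nonneg (hκ _ _) (ih _)

theorem measurableSet_follows' (hX : IteratedWalk p μ X) (i : ℕ) (w : List (S d)) :
    MeasurableSet {ω | X i 0 ω = 0 ∧ Follows (fun n => X i n ω) w} :=
  (history_le hX (i + 1) _ (measurableSet_history X (Nat.lt_succ_self i) 0 (fun y => y = 0))).inter
    (history_le hX (i + 1) _ (measurableSet_follows X (Nat.lt_succ_self i) w))

end Link

/-- the law of the first `T` steps -/
theorem law_EQ [IsProbabilityMeasure μ] (hp : ∀ i s, 0 < p i s) (hX : IteratedWalk p μ X)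
    (i T : ℕ) (A : Set Ω) (hA : MeasurableSet[history X i] A) (P : List (S d) → Prop) :
    μ (A ∩ {ω | X i 0 ω = 0 ∧ ∃ w, w.length = T ∧ P w ∧ Follows (fun n => X i n ω) w}) =
      ∫⁻ ω in A, ENNReal.ofReal
        (EQ (trans (p i) (graph X i ω)) T 0 (fun w => ind (P w))) ∂μ := by
  classical
  have hset : A ∩ {ω | X i 0 ω = 0 ∧ ∃ w, w.length = T ∧ P w ∧
      Follows (fun n => X i n ω) w} =
      ⋃ w ∈ (words d T).filter (fun w => P w),
        (A ∩ {ω | X i 0 ω = 0 ∧ Follows (fun n => X i n ω) w}) := by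
    ext ω
    simp only [Set.mem_inter_iff, Set.mem_ofPred_eq, Set.mem_iUnion, Finset.mem_filter,
      mem_words]
    constructor
    · rintro ⟨hA, h0, w, hw, hP, hF⟩
      exact ⟨w, ⟨hw, hP⟩, hA, h0, hF⟩
    · rintro ⟨w, ⟨hw, hP⟩, hA, h0, hF⟩
      exact ⟨hA, h0, w, hw, hP, hF⟩
  rw [hset, measure_biUnion_finset]
  · have h1 : ∀ w ∈ (words d T).filter (fun w => P w),
        μ (A ∩ {ω | X i 0 ω = 0 ∧ Follows (fun n => X i n ω) w}) =
        ∫⁻ ω in A, ENNReal.ofReal (wt (trans (p i) (graph X i ω)) 0 w) ∂μ :=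
      fun w _ => hX.law i w A hA
    rw [Finset.sum_congr rfl h1, ← lintegral_finsetSum]
    · apply lintegral_congr
      intro ω
      have hw0 : ∀ w, 0 ≤ wt (trans (p i) (graph X i ω)) 0 w := fun w =>
        Link.wt_nonneg _ (fun x s => trans_nonneg (p i) (hp i) _ x s) 0 w
      rw [EQ_words, ← ENNReal.ofReal_sum_of_nonneg (fun w _ => hw0 w), Finset.sum_filter]
      congr 1
      apply Finset.sum_congr rfl
      intro w _
      by_cases hP : P w
      · rw [if_pos hP, ind_of hP, mul_one]
      · rw [if_neg hP, ind_of_not hP, mul_zero]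
    · intro w _
      exact (measurable_wt hX i 0 w).ennreal_ofReal
  · intro w hw w' hw' hne
    simp only [Finset.coe_filter, Set.mem_ofPred_eq, mem_words] at hw hw'
    rw [Function.onFun, Set.disjoint_left]
    rintro ω ⟨-, -, hF⟩ ⟨-, -, hF'⟩
    apply hne
    have := follows_unique _ w w' hF hF' (by rw [hw.1, hw'.1])
    exact this.eq_of_length (by rw [hw.1, hw'.1])
  · intro w _
    exact (history_le hX i _ hA).inter (Link.measurableSet_follows' hX i w)

/-- the walk starts at the origin -/
theorem start_ae [IsProbabilityMeasure μ] (hX : IteratedWalk p μ X) (i : ℕ) :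
    ∀ᵐ ω ∂μ, X i 0 ω = 0 := by
  have h := hX.law i [] Set.univ MeasurableSet.univ
  simp only [Set.univ_inter, Follows, and_true, wt, ENNReal.ofReal_one, Measure.restrict_univ,
    lintegral_const, measure_univ, mul_one] at h
  have hm : MeasurableSet {ω | X i 0 ω = 0} :=
    history_le hX (i + 1) _ (measurableSet_history X (Nat.lt_succ_self i) 0 (fun y => y = 0))
  rw [ae_iff]
  have : {ω | ¬ X i 0 ω = 0} = {ω | X i 0 ω = 0}ᶜ := rfl
  rw [this, prob_compl_eq_zero_iff hm]
  exact h

namespace Link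

/-- a symmetric nearest neighbour graph in which `x` has a neighbour: the total weight of
the continuations does not change -/
theorem wt_neighbour (p : S d → ℝ) (hp : ∀ s, 0 < p s) (Z : V d → V d → Prop)
    (hsymm : ∀ x y, Z x y → Z y x)
    (x : V d) (hx : ∃ s : S d, Z x (x + step s)) (w : List (S d))
    (hw : wt (trans p Z) x w ≠ 0) : ∃ s : S d, Z (x + pos w) (x + pos w + step s) := by
  induction w generalizing x with
  | nil => simpa [pos_nil] using hx
  | cons s w ih =>
    have h1 : trans p Z x s ≠ 0 := left_ne_zero_of_mul hw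
    have h2 : wt (trans p Z) (x + step s) w ≠ 0 := right_ne_zero_of_mul hw
    rw [trans_ne_zero p hp] at h1
    have h3 := ih (x + step s) ⟨neg s, by
      rw [step_neg, add_neg_cancel_right]
      exact hsymm _ _ h1⟩ h2
    rw [pos_cons, ← add_assoc]
    exact h3

theorem EQ_one_eq (p : S d → ℝ) (hp : ∀ s, 0 < p s) (Z : V d → V d → Prop)
    (hsymm : ∀ x y, Z x y → Z y x)
    (x : V d) (hx : ∃ s : S d, Z x (x + step s)) (T : ℕ) :
    EQ (trans p Z) T x (fun _ => 1) = 1 := by
  induction T generalizing x with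
  | zero => rfl
  | succ T ih =>
    simp only [EQ]
    refine (Finset.sum_congr rfl ?_).trans (trans_sum p hp Z x hx)
    intro s _
    by_cases hs : trans p Z x s = 0
    · rw [hs, zero_mul]
    · rw [← ne_eq, trans_ne_zero p hp] at hs
      rw [ih (x + step s) ⟨neg s, by
        rw [step_neg, add_neg_cancel_right]
        exact hsymm _ _ hs⟩, mul_one]

theorem EQ_mono_T (p : S d → ℝ) (hp : ∀ s, 0 < p s) (Z : V d → V d → Prop)
    (hsymm : ∀ x y, Z x y → Z y x)
    (x : V d) (hx : ∃ s : S d, Z x (x + step s)) (P : List (S d) → Prop)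
    (hP : ∀ w v, P w → P (w ++ v)) (T : ℕ) :
    EQ (trans p Z) T x (fun w => ind (P w)) ≤ EQ (trans p Z) (T + 1) x (fun w => ind (P w)) := by
  rw [EQ_append, EQ_words, EQ_words]
  apply Finset.sum_le_sum
  intro w _
  by_cases hw : wt (trans p Z) x w = 0
  · rw [hw, zero_mul, zero_mul]
  · apply mul_le_mul_of_nonneg_left _
      (wt_nonneg _ (fun x s => trans_nonneg p hp Z x s) x w)
    have h1 := wt_neighbour p hp Z hsymm x hx w hw
    have h2 : ind (P w) = EQ (trans p Z) 1 (x + pos w) (fun _ => ind (P w)) := by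
      have h3 := EQ_one_eq p hp Z hsymm (x + pos w) h1 1
      simp only [EQ, mul_one] at h3 ⊢
      rw [← Finset.sum_mul, h3, one_mul]
    rw [h2]
    apply EQ_mono _ (fun x s => trans_nonneg p hp Z x s)
    intro v _
    exact ind_mono (fun h => hP w v h)

/-- almost surely all steps are unit steps, provided that almost surely the graph is a
symmetric graph and the origin has a neighbour -/
theorem steps_ae [IsProbabilityMeasure μ] (hp : ∀ i s, 0 < p i s)
    (hX : IteratedWalk p μ X) (i : ℕ)
    (hg : ∀ᵐ ω ∂μ, (∀ x y, graph X i ω x y → graph X i ω y x) ∧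
      ∃ s : S d, graph X i ω 0 (0 + step s)) (T : ℕ) :
    ∀ᵐ ω ∂μ, X i 0 ω = 0 ∧ ∃ w : List (S d), w.length = T ∧
      Follows (fun n => X i n ω) w := by
  classical
  have h := law_EQ hp hX i T Set.univ MeasurableSet.univ (fun _ => True)
  have h1 : ∫⁻ ω in Set.univ, ENNReal.ofReal
        (EQ (trans (p i) (graph X i ω)) T 0 (fun w => ind True)) ∂μ = 1 := by
    rw [Measure.restrict_univ]
    have : ∀ᵐ ω ∂μ, ENNReal.ofReal
        (EQ (trans (p i) (graph X i ω)) T 0 (fun w => ind True)) = 1 := by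
      filter_upwards [hg] with ω hω
      have h2 : (fun _ : List (S d) => ind True) = fun _ => 1 := by
        funext _
        exact ind_of trivial
      rw [h2, EQ_one_eq (p i) (hp i) _ hω.1 0 hω.2 T, ENNReal.ofReal_one]
    rw [lintegral_congr_ae this]
    simp
  rw [h1, Set.univ_inter] at h
  have hm : MeasurableSet {ω | X i 0 ω = 0 ∧ ∃ w : List (S d), w.length = T ∧ True ∧
      Follows (fun n => X i n ω) w} := by
    have : {ω | X i 0 ω = 0 ∧ ∃ w : List (S d), w.length = T ∧ True ∧
      Follows (fun n => X i n ω) w} = ⋃ w ∈ words d T,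
        {ω | X i 0 ω = 0 ∧ Follows (fun n => X i n ω) w} := by
      ext ω
      simp only [Set.mem_ofPred_eq, Set.mem_iUnion, mem_words, true_and]
      constructor
      · rintro ⟨h0, w, hw, hF⟩
        exact ⟨w, hw, h0, hF⟩
      · rintro ⟨w, hw, h0, hF⟩
        exact ⟨h0, w, hw, hF⟩
    rw [this]
    exact Finset.measurableSet_biUnion _ fun w _ => measurableSet_follows' hX i w
  have h2 := (prob_compl_eq_zero_iff hm).2 h
  rw [ae_iff]
  convert h2 using 2
  ext ω
  simp

/-- edges, under the same proviso -/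
theorem edge_ae_aux [IsProbabilityMeasure μ] (hp : ∀ i s, 0 < p i s)
    (hX : IteratedWalk p μ X) (i : ℕ)
    (hg : ∀ᵐ ω ∂μ, (∀ x y, graph X i ω x y → graph X i ω y x) ∧
      ∃ s : S d, graph X i ω 0 (0 + step s)) :
    ∀ᵐ ω ∂μ, ∀ n, graph X i ω (X i n ω) (X i (n + 1) ω) := by
  classical
  rw [ae_all_iff]
  intro n
  -- for each word, the bad event has probability zero
  have hbad : ∀ w : List (S d), ∀ s : S d, ∀ᵐ ω ∂μ,
      ¬ (¬ graph X i ω (pos w) (pos w + step s) ∧ X i 0 ω = 0 ∧
        Follows (fun n => X i n ω) (w ++ [s])) := by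
    intro w s
    have hA : MeasurableSet[history X i] {ω | ¬ graph X i ω (pos w) (pos w + step s)} :=
      (measurableSet_graph X i (pos w) (pos w + step s)).compl
    have h := hX.law i (w ++ [s]) _ hA
    have hzero : ∀ (Z : V d → V d → Prop) (x : V d), ¬ Z (x + pos w) (x + pos w + step s) →
        wt (trans (p i) Z) x (w ++ [s]) = 0 := by
      intro Z
      clear h hA
      induction w with
      | nil =>
        intro x hx
        simp only [pos_nil, add_zero] at hx
        simp only [List.nil_append, wt, mul_one]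
        by_contra hne
        exact hx ((trans_ne_zero (p i) (hp i) Z x s).1 hne)
      | cons s' w ih =>
        intro x hx
        simp only [List.cons_append, wt]
        rw [ih (x + step s'), mul_zero]
        rw [pos_cons, ← add_assoc] at hx
        exact hx
    have h0 : ∫⁻ ω in {ω | ¬ graph X i ω (pos w) (pos w + step s)},
        ENNReal.ofReal (wt (trans (p i) (graph X i ω)) 0 (w ++ [s])) ∂μ = 0 := by
      rw [setLIntegral_congr_fun (g := fun _ => 0) (history_le hX i _ hA)]
      · simp
      · intro ω hω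
        simp only [Set.mem_ofPred_eq] at hω
        show ENNReal.ofReal _ = 0
        rw [hzero (graph X i ω) 0 (by rwa [zero_add]), ENNReal.ofReal_zero]
    rw [h0] at h
    rw [ae_iff]
    convert h using 2
    ext ω
    simp only [not_not, Set.mem_ofPred_eq, Set.mem_inter_iff]
  have hbad' : ∀ᵐ ω ∂μ, ∀ w : List (S d), ∀ s : S d, 
      ¬ (¬ graph X i ω (pos w) (pos w + step s) ∧ X i 0 ω = 0 ∧
        Follows (fun n => X i n ω) (w ++ [s])) := by
    rw [ae_all_iff]
    intro w
    rw [ae_all_iff]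
    intro s
    exact hbad w s
  filter_upwards [hbad', steps_ae hp hX i hg (n + 1)] with ω h1 h2
  obtain ⟨h0, u, hu, hF⟩ := h2
  have hune : u ≠ [] := by
    intro h
    rw [h] at hu
    simp at hu
  obtain ⟨w, s, rfl⟩ : ∃ w s, u = w ++ [s] :=
    ⟨u.dropLast, u.getLast hune, (List.dropLast_append_getLast hune).symm⟩
  have hw : w.length = n := by simpa using hu
  by_contra hcon
  apply h1 w s
  refine ⟨?_, h0, hF⟩
  intro hgr
  apply hcon
  have e1 := follows_zat _ _ hF n (by rw [List.length_append]; omega)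
  have e2 := follows_zat _ _ hF (n + 1) (by rw [hu])
  rw [e1, e2, h0, zero_add, zero_add]
  have e3 : zat (w ++ [s]) n = pos w := by
    rw [zat_append_left _ _ _ (by rw [hw]), ← hw, zat_length]
  have e4 : zat (w ++ [s]) (n + 1) = pos w + step s := by
    rw [← hu, zat_length, pos_append, pos_cons, pos_nil, add_zero]
  rw [e3, e4]
  exact hgr

end Link

/-- the walk uses only edges of its graph -/
theorem edge_ae [IsProbabilityMeasure μ] (hp : ∀ i s, 0 < p i s)
    (hsum : ∀ i, ∑ s, p i s = 1)
    (hX : IteratedWalk p μ X) (i : ℕ) :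
    ∀ᵐ ω ∂μ, ∀ n, graph X i ω (X i n ω) (X i (n + 1) ω) := by
  -- there is a step
  have hS : Nonempty (S d) := by
    by_contra hne
    rw [not_nonempty_iff] at hne
    have := hsum 0
    rw [Fintype.sum_empty] at this
    exact zero_ne_one this
  -- the stronger statement: moreover edges are nearest neighbour
  have key : ∀ i, ∀ᵐ ω ∂μ, (∀ x y, graph X i ω x y → graph X i ω y x) ∧
      (∃ s : S d, graph X i ω 0 (0 + step s)) ∧
      (∀ x y, graph X i ω x y → ∃ s : S d, y = x + step s) := by
    intro i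
    induction i with
    | zero =>
      refine Eventually.of_forall fun ω => ⟨?_, ?_, ?_⟩
      · rintro x y ⟨s, rfl⟩
        exact ⟨neg s, by rw [step_neg, add_neg_cancel_right]⟩
      · obtain ⟨s⟩ := hS
        exact ⟨s, s, rfl⟩
      · rintro x y ⟨s, rfl⟩
        exact ⟨s, rfl⟩
    | succ i ih =>
      have hg : ∀ᵐ ω ∂μ, (∀ x y, graph X i ω x y → graph X i ω y x) ∧
          ∃ s : S d, graph X i ω 0 (0 + step s) := by
        filter_upwards [ih] with ω hω
        exact ⟨hω.1, hω.2.1⟩
      filter_upwards [ih, Link.edge_ae_aux hp hX i hg, start_ae hX i] with ω hω he h0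
      refine ⟨?_, ?_, ?_⟩
      · rintro x y ⟨n, hn | hn⟩
        · exact ⟨n, Or.inr hn⟩
        · exact ⟨n, Or.inl hn⟩
      · obtain ⟨s, hs⟩ := hω.2.2 _ _ (he 0)
        refine ⟨s, 0, Or.inl ⟨h0, ?_⟩⟩
        simp only
        rw [hs, h0]
      · rintro x y ⟨n, ⟨h1, h2⟩ | ⟨h1, h2⟩⟩
        · obtain ⟨s, hs⟩ := hω.2.2 _ _ (he n)
          simp only at h1 h2
          exact ⟨s, by rw [← h1, ← h2, hs]⟩
        · obtain ⟨s, hs⟩ := hω.2.2 _ _ (he n)
          simp only at h1 h2
          refine ⟨neg s, ?_⟩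
          rw [← h1, ← h2, hs, step_neg, add_neg_cancel_right]
  apply Link.edge_ae_aux hp hX i
  filter_upwards [key i] with ω hω
  exact ⟨hω.1, hω.2.1⟩

/-- conditional lower bound: if for all `ω` in `A` the quenched probability that `P` holds at
some time is at least `θ`, then so is the probability given `A` -/
theorem law_lower [IsProbabilityMeasure μ] (hp : ∀ i s, 0 < p i s)
    (hsum : ∀ i, ∑ s, p i s = 1) (hX : IteratedWalk p μ X)
    (i : ℕ) (A : Set Ω) (hA : MeasurableSet[history X i] A) (P : List (S d) → Prop)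
    (hP : ∀ w v, P w → P (w ++ v)) (θ : ℝ) (hθ : 0 ≤ θ)
    (h0 : ∀ ω ∈ A, ∃ y, graph X i ω 0 y)
    (hsymm : ∀ ω ∈ A, ∀ x y, graph X i ω x y → graph X i ω y x)
    (hnn : ∀ ω ∈ A, ∀ x y, graph X i ω x y → ∃ s : S d, y = x + step s)
    (h : ∀ ω ∈ A, ∀ ε : ℝ, 0 < ε → ∃ T : ℕ,
      θ - ε ≤ EQ (trans (p i) (graph X i ω)) T 0 (fun w => ind (P w))) :
    θ * μ.real A ≤
      μ.real (A ∩ {ω | X i 0 ω = 0 ∧ ∃ w, P w ∧ Follows (fun n => X i n ω) w}) := by
  have hAm : MeasurableSet A := history_le hX i _ hA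
  set B := A ∩ {ω | X i 0 ω = 0 ∧ ∃ w, P w ∧ Follows (fun n => X i n ω) w} with hB
  set f : ℕ → Ω → ENNReal := fun T ω => ENNReal.ofReal
        (EQ (trans (p i) (graph X i ω)) T 0 (fun w => ind (P w))) with hf
  have hle : ∀ T, ∫⁻ ω in A, f T ω ∂μ ≤ μ B := by
    intro T
    rw [hf]
    simp only
    rw [← law_EQ hp hX i T A hA P]
    apply measure_mono
    rintro ω ⟨h1, h2, w, -, h3, h4⟩
    exact ⟨h1, h2, w, h3, h4⟩
  have hsup : ∫⁻ ω in A, ⨆ T, f T ω ∂μ = ⨆ T, ∫⁻ ω in A, f T ω ∂μ := by
    apply lintegral_iSup'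
    · intro T
      exact (measurable_EQ hX i T 0 _).ennreal_ofReal.aemeasurable
    · apply ae_restrict_of_forall_mem hAm
      intro ω hω
      apply monotone_nat_of_le_succ
      intro T
      apply ENNReal.ofReal_le_ofReal
      apply Link.EQ_mono_T (p i) (hp i) _ (hsymm ω hω) 0 _ P hP
      obtain ⟨y, hy⟩ := h0 ω hω
      obtain ⟨s, rfl⟩ := hnn ω hω _ _ hy
      exact ⟨s, hy⟩
  have h1 : ENNReal.ofReal θ * μ A ≤ ∫⁻ ω in A, ⨆ T, f T ω ∂μ := by
    rw [← setLIntegral_const]
    apply setLIntegral_mono' hAm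
    intro ω hω
    apply ENNReal.le_of_forall_pos_le_add
    intro ε hε _
    obtain ⟨T, hT⟩ := h ω hω ε (by exact_mod_cast hε)
    calc ENNReal.ofReal θ
        ≤ ENNReal.ofReal (EQ (trans (p i) (graph X i ω)) T 0 (fun w => ind (P w)) + ε) :=
          ENNReal.ofReal_le_ofReal (by linarith)
      _ ≤ f T ω + ENNReal.ofReal ε := ENNReal.ofReal_add_le
      _ ≤ (⨆ T, f T ω) + ε := by
          rw [ENNReal.ofReal_coe_nnreal]
          gcongr
          exact le_iSup (fun T => f T ω) T
  have h2 : ENNReal.ofReal θ * μ A ≤ μ B := by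
    rw [hsup] at h1
    exact h1.trans (iSup_le hle)
  have h3 := ENNReal.toReal_mono (measure_ne_top μ B) h2
  rw [ENNReal.toReal_mul, ENNReal.toReal_ofReal hθ] at h3
  exact h3

namespace Link

theorem trans_lattice (p : S d → ℝ) (hsum : ∑ s, p s = 1) :
    trans p lattice = fun (_ : V d) s => p s := by
  classical
  funext x s
  have h : ∀ s : S d, lattice x (x + step s) := fun s => ⟨s, rfl⟩
  unfold trans
  rw [if_pos (h s)]
  have : ∑ s' : S d, (if lattice x (x + step s') then p s' else 0) = 1 := by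
    rw [← hsum]
    exact Finset.sum_congr rfl fun s' _ => if_pos (h s')
  rw [this, div_one]

theorem trapEv_eq (F : List (S d) → Prop) (w : List (S d)) :
    {ω | TrapEv (fun n => X 0 n ω) w F} = ⋂ T : ℕ, {ω | X 0 0 ω = 0 ∧
      ∃ u : List (S d), u.length = w.length + T ∧ (∃ v, v.length = T ∧ F v ∧ u = w ++ v) ∧
        Follows (fun n => X 0 n ω) u} := by
  ext ω
  simp only [TrapEv, Set.mem_ofPred_eq, Set.mem_iInter]
  constructor
  · rintro ⟨h0, h⟩ T
    obtain ⟨v, hv, hF, hfo⟩ := h T
    exact ⟨h0, w ++ v, by rw [List.length_append, hv], ⟨v, hv, hF, rfl⟩, hfo⟩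
  · intro h
    refine ⟨(h 0).1, fun T => ?_⟩
    obtain ⟨-, u, -, ⟨v, hv, hF, rfl⟩, hfo⟩ := h T
    exact ⟨v, hv, hF, hfo⟩

end Link

/-- the probability of a trap event for the walk on the lattice -/
theorem trapEv_prob [IsProbabilityMeasure μ] (hp : ∀ i s, 0 < p i s)
    (hsum : ∀ i, ∑ s, p i s = 1) (hX : IteratedWalk p μ X) (w : List (S d))
    (F : List (S d) → Prop) (hF : ∀ v v', F (v ++ v') → F v) (c : ℝ)
    (hc : ∀ T, c ≤ EP (p 0) T (fun v => ind (F v))) :
    pw (p 0) w * c ≤ μ.real {ω | TrapEv (fun n => X 0 n ω) w F} := by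
  classical
  rw [Link.trapEv_eq]
  set E : ℕ → Set Ω := fun T => {ω | X 0 0 ω = 0 ∧
      ∃ u : List (S d), u.length = w.length + T ∧ (∃ v, v.length = T ∧ F v ∧ u = w ++ v) ∧
        Follows (fun n => X 0 n ω) u} with hE
  have hEm : ∀ T, MeasurableSet (E T) := by
    intro T
    have : E T = ⋃ u ∈ {u : List (S d) | u.length = w.length + T ∧
        (∃ v, v.length = T ∧ F v ∧ u = w ++ v)},
        {ω | X 0 0 ω = 0 ∧ Follows (fun n => X 0 n ω) u} := by
      ext ω
      simp only [hE, Set.mem_ofPred_eq, Set.mem_iUnion, exists_prop]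
      constructor
      · rintro ⟨h0, u, h1, h2, h3⟩
        exact ⟨u, ⟨h1, h2⟩, h0, h3⟩
      · rintro ⟨u, ⟨h1, h2⟩, h0, h3⟩
        exact ⟨h0, u, h1, h2, h3⟩
    rw [this]
    exact MeasurableSet.biUnion (Set.to_countable _) fun u _ =>
      Link.measurableSet_follows' hX 0 u
  have hanti : Antitone E := by
    apply antitone_nat_of_succ_le
    rintro T ω ⟨h0, u, h1, ⟨v, hv, hFv, rfl⟩, hfo⟩
    have hvne : v ≠ [] := by
      intro h
      rw [h] at hv
      simp at hv
    obtain ⟨v', s, rfl⟩ : ∃ v' s, v = v' ++ [s] :=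
      ⟨v.dropLast, v.getLast hvne, (List.dropLast_append_getLast hvne).symm⟩
    have hv' : v'.length = T := by simpa using hv
    refine ⟨h0, w ++ v', by rw [List.length_append, hv'], ⟨v', hv', hF _ _ hFv, rfl⟩, ?_⟩
    rw [← List.append_assoc, follows_append] at hfo
    exact hfo.1
  have hlow : ∀ T, pw (p 0) w * c ≤ μ.real (E T) := by
    intro T
    have h1 := law_EQ hp hX 0 (w.length + T) Set.univ MeasurableSet.univ
      (fun u => ∃ v, v.length = T ∧ F v ∧ u = w ++ v)
    rw [Set.univ_inter] at h1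
    have h2 : ∀ ω, EQ (trans (p 0) (graph X 0 ω)) (w.length + T) 0
        (fun u => ind (∃ v, v.length = T ∧ F v ∧ u = w ++ v)) =
        EP (p 0) (w.length + T) (fun u => ind (∃ v, v.length = T ∧ F v ∧ u = w ++ v)) := by
      intro ω
      rw [EP_eq_EQ _ _ 0]
      show EQ (trans (p 0) lattice) _ _ _ = _
      rw [Link.trans_lattice (p 0) (hsum 0)]
    simp only [h2] at h1
    rw [Measure.restrict_univ, lintegral_const, measure_univ, mul_one] at h1
    have h3 : μ.real (E T) = EP (p 0) (w.length + T)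
        (fun u => ind (∃ v, v.length = T ∧ F v ∧ u = w ++ v)) := by
      rw [measureReal_def, h1, ENNReal.toReal_ofReal]
      exact EP_nonneg (p 0) (fun s => (hp 0 s).le) _ (fun _ _ => ind_nonneg _)
    rw [h3, EP_append, EP_words]
    have h4 : pw (p 0) w * c ≤ pw (p 0) w *
        EP (p 0) T (fun v => ind (∃ v', v'.length = T ∧ F v' ∧ w ++ v = w ++ v')) := by
      apply mul_le_mul_of_nonneg_left _ (pw_nonneg (p 0) (fun s => (hp 0 s).le) w)
      refine (hc T).trans (le_of_eq ?_)
      apply EP_congr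
      intro v hv
      apply ind_congr
      constructor
      · intro h
        exact ⟨v, hv, h, rfl⟩
      · rintro ⟨v', -, h, he⟩
        rw [List.append_cancel_left he]
        exact h
    refine h4.trans ?_
    apply Finset.single_le_sum (f := fun u => pw (p 0) u *
        EP (p 0) T (fun v => ind (∃ v', v'.length = T ∧ F v' ∧ u ++ v = w ++ v')))
    · intro u _
      exact mul_nonneg (pw_nonneg (p 0) (fun s => (hp 0 s).le) u)
        (EP_nonneg (p 0) (fun s => (hp 0 s).le) _ (fun _ _ => ind_nonneg _))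
    · rw [mem_words]
  have hlim : Tendsto (fun T => μ (E T)) atTop (𝓝 (μ (⋂ T, E T))) :=
    tendsto_measure_iInter_atTop (fun T => (hEm T).nullMeasurableSet) hanti
      ⟨0, measure_ne_top _ _⟩
  have hlim' : Tendsto (fun T => μ.real (E T)) atTop (𝓝 (μ.real (⋂ T, E T))) :=
    (ENNReal.tendsto_toReal (measure_ne_top _ _)).comp hlim
  exact ge_of_tendsto' hlim' hlow

/-- trap events are in the history of every positive index -/
theorem measurableSet_trapEv (X : ℕ → ℕ → Ω → V d) {i : ℕ} (h : 0 < i)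
    (w : List (S d)) (F : List (S d) → Prop) :
    MeasurableSet[history X i] {ω | TrapEv (fun n => X 0 n ω) w F} := by
  rw [Link.trapEv_eq]
  refine MeasurableSet.iInter fun T => ?_
  have : {ω | X 0 0 ω = 0 ∧
      ∃ u : List (S d), u.length = w.length + T ∧ (∃ v, v.length = T ∧ F v ∧ u = w ++ v) ∧
        Follows (fun n => X 0 n ω) u} = {ω | X 0 0 ω = 0} ∩
      ⋃ u ∈ {u : List (S d) | u.length = w.length + T ∧
        (∃ v, v.length = T ∧ F v ∧ u = w ++ v)}, {ω | Follows (fun n => X 0 n ω) u} := by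
    ext ω
    simp only [Set.mem_ofPred_eq, Set.mem_iUnion, exists_prop, Set.mem_inter_iff]
    constructor
    · rintro ⟨h0, u, h1, h2, h3⟩
      exact ⟨h0, u, ⟨h1, h2⟩, h3⟩
    · rintro ⟨h0, u, ⟨h1, h2⟩, h3⟩
      exact ⟨h0, u, h1, h2, h3⟩
  rw [this]
  exact (measurableSet_history X h 0 (fun y => y = 0)).inter
    (MeasurableSet.biUnion (Set.to_countable _) fun u _ => measurableSet_follows X h u)

end Pool.Agent.MP_ef0d6f_pr
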