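import Pool.Agent.Lib.MP_ef0d6f_pr.Levels
import Pool.Agent.Lib.MP_ef0d6f_pr.Count
import Pool.Agent.Lib.MP_ef0d6f_pr.Calc2
import Pool.Agent.Lib.MP_ef0d6f_pr.Tilt

/-! Task 19 (Lower): the lower bound for the number of visits to the tips of traps. -/

namespace Pool.Agent.MP_ef0d6f_pr

open MeasureTheory Filter Topology

variable {d : ℕ} {Ω : Type*} [MeasurableSpace Ω] {p : ℕ → S d → ℝ} {μ : Measure Ω}
  {X : ℕ → ℕ → Ω → V d}

namespace Lower

/-! ### positions on the word of a trap -/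

theorem pos_w (u b g : List (S d)) : pos (u ++ rev b ++ g) = pos u - pos b + pos g := by
  rw [pos_append, pos_append, pos_rev, sub_eq_add_neg]

theorem zat_k0 (u b g : List (S d)) : zat (u ++ rev b ++ g) u.length = pos u := by
  rw [List.append_assoc, zat_append_left _ _ _ le_rfl, zat_length]

theorem zat_conn (u b g : List (S d)) (n : ℕ) :
    zat (u ++ rev b ++ g) (u.length + b.length + n) = pos u - pos b + zat g n := by
  have h : u.length + b.length + n = (u ++ rev b).length + n := by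
    rw [List.length_append, length_rev]
  rw [h, zat_append_right, pos_append, pos_rev, sub_eq_add_neg]

theorem zat_k (u b g : List (S d)) :
    zat (u ++ rev b ++ g) (u.length + b.length) = pos u - pos b := by
  have := zat_conn u b g 0
  rw [add_zero, zat_zero, add_zero] at this
  exact this

theorem zat_mid (u b g : List (S d)) (t : ℕ) (ht : t ≤ b.length) :
    zat (u ++ rev b ++ g) (u.length + b.length - t) = pos u - pos b + pos (b.take t) := by
  have h1 : u.length + b.length - t = u.length + (b.length - t) := by omega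
  rw [h1, List.append_assoc, zat_append_right, zat_append_left _ _ _
    (by rw [length_rev]; omega)]
  unfold zat
  rw [pos_take_rev _ _ (by omega)]
  have h2 : b.length - (b.length - t) = t := by omega
  rw [h2]
  abel

theorem piG_eq (u b g : List (S d)) (H : V d →+ ℝ) :
    piG (u ++ rev b ++ g) (u.length + b.length) H =
      Real.exp (H (pos u - pos b)) *
        ∑ n ∈ Finset.range (g.length + 1), Real.exp (H (zat g n)) := by
  unfold piG
  have hlen : (u ++ rev b ++ g).length = u.length + b.length + g.length := by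
    rw [List.length_append, List.length_append, length_rev]
  have himg : Finset.Icc (u.length + b.length) (u ++ rev b ++ g).length =
      (Finset.range (g.length + 1)).image (fun n => u.length + b.length + n) := by
    ext m
    rw [hlen]
    simp only [Finset.mem_Icc, Finset.mem_image, Finset.mem_range]
    constructor
    · intro h
      exact ⟨m - (u.length + b.length), by omega, by omega⟩
    · rintro ⟨a, ha, rfl⟩
      omega
  rw [himg, Finset.sum_image (fun a _ b _ h => by simpa using h), Finset.mul_sum]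
  refine Finset.sum_congr rfl (fun n _ => ?_)
  rw [zat_conn, map_add, Real.exp_add]

/-! ### the path on a trap event -/

theorem path_le {x : ℕ → V d} {w : List (S d)} {F : List (S d) → Prop}
    (hx : TrapEv x w F) (n : ℕ) (hn : n ≤ w.length) : x n = zat w n := by
  obtain ⟨h0, h1⟩ := hx
  obtain ⟨v, _, _, hf⟩ := h1 0
  rw [follows_append] at hf
  rw [follows_zat x w hf.1 n hn, h0, zero_add]

theorem path_ge {x : ℕ → V d} {w : List (S d)} {F : List (S d) → Prop}
    (hx : TrapEv x w F) (n : ℕ) (hn : w.length ≤ n) :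
    ∃ v, F v ∧ x n = pos w + pos v := by
  obtain ⟨h0, h1⟩ := hx
  obtain ⟨v, hv, hF, hf⟩ := h1 (n - w.length)
  refine ⟨v, hF, ?_⟩
  have h2 : n = (w ++ v).length := by
    rw [List.length_append, hv]; omega
  rw [follows_zat x (w ++ v) hf n h2.le, h0, zero_add, h2, zat_length, pos_append]

section Occ

variable {p0 : S d → ℝ} {Hs : ℕ → V d →+ ℝ} {i : ℕ} (Fam : TrapFamily p0 Hs i)

/-- the deterministic facts about an occurring trap -/
theorem occ (N : ℕ) (hN : Fam.N0 ≤ N) (u b : List (S d)) (hu : Fam.T N ≤ u.length)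
    (hJ : Fam.J N (rev u)) (hB : Fam.B N b) (x : ℕ → V d)
    (hx : TrapEv x (u ++ rev b ++ Fam.g) (Fam.F N)) :
    x u.length = pos u ∧
    (∀ r, u.length + b.length + Fam.g.length ≤ r →
      Hs i (x (u.length + b.length)) + Fam.l0 < Hs i (x r)) ∧
    (∀ r, u.length ≤ r → r ≤ u.length + b.length →
      Hs i (x (u.length + b.length)) - Fam.l0 < Hs i (x r)) ∧
    (∀ r, u.length + b.length ≤ r → x r ≠ pos u) ∧
    (N : ℝ) ≤ Fam.Λ (pos u - x (u.length + b.length)) ∧
    Fam.Λ (pos u - x (u.length + b.length)) < N + Fam.Lm := by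
  have hlen : (u ++ rev b ++ Fam.g).length = u.length + b.length + Fam.g.length := by
    rw [List.length_append, List.length_append, length_rev]
  have hk : x (u.length + b.length) = pos u - pos b := by
    rw [path_le hx _ (by rw [hlen]; omega), zat_k]
  have hk0 : x u.length = pos u := by
    rw [path_le hx _ (by rw [hlen]; omega), zat_k0]
  obtain ⟨⟨a, hT, _⟩, hsep⟩ := (⟨Fam.geom N hN u b hu hJ hB, Fam.sep N hN u b⟩ :
    (∃ a, TrapW (u ++ rev b ++ Fam.g) Hs i (Fam.A N) u.length (u.length + b.length) a ∧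
      u.length - a ≤ Fam.T N) ∧ _)
  refine ⟨hk0, ?_, ?_, ?_, ?_, ?_⟩
  · intro r hr
    obtain ⟨v, hF, hv⟩ := path_ge hx r (by rw [hlen]; exact hr)
    have := Fam.m1 N hN v hF
    rw [hv, hk, pos_w, map_add, map_add]
    linarith
  · intro r hr1 hr2
    have hr3 : r = u.length + b.length - (u.length + b.length - r) := by omega
    have h1 : x r = pos u - pos b + pos (b.take (u.length + b.length - r)) := by
      rw [path_le hx r (by rw [hlen]; omega)]
      conv_lhs => rw [hr3]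
      rw [zat_mid _ _ _ _ (by omega)]
    have h2 := Fam.m2 N hN b hB (u.length + b.length - r) (by omega)
    rw [h1, hk, map_add]
    linarith
  · intro r hr
    by_cases hr2 : r ≤ (u ++ rev b ++ Fam.g).length
    · rw [path_le hx r hr2]
      have := hT.avoid u.length r le_rfl hr hr2
      rw [zat_k0] at this
      exact fun h => this h.symm
    · obtain ⟨v, hF, hv⟩ := path_ge hx r (by omega)
      rw [hv]
      have := hsep v hu hJ hB hF u.length (by omega)
      rwa [zat_k0] at this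
  · rw [hk]
    have := (Fam.m3 N hN b hB).1
    have h2 : pos u - (pos u - pos b) = pos b := by abel
    rwa [h2]
  · rw [hk]
    have := (Fam.m3 N hN b hB).2
    have h2 : pos u - (pos u - pos b) = pos b := by abel
    rwa [h2]

/-- the words of an occurring trap are determined by `k` and `N` -/
theorem occ_unique (N : ℕ) (hN : Fam.N0 ≤ N) (u b u' b' : List (S d))
    (hB : Fam.B N b) (hB' : Fam.B N b')
    (hk : u.length + b.length = u'.length + b'.length) (x : ℕ → V d)
    (hx : TrapEv x (u ++ rev b ++ Fam.g) (Fam.F N))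
    (hx' : TrapEv x (u' ++ rev b' ++ Fam.g) (Fam.F N)) : u = u' ∧ b = b' := by
  obtain ⟨h0, h1⟩ := hx
  obtain ⟨v, _, _, hf⟩ := h1 0
  obtain ⟨h0', h1'⟩ := hx'
  obtain ⟨v', _, _, hf'⟩ := h1' 0
  rw [follows_append, follows_append] at hf hf'
  have h2 : u ++ rev b = u' ++ rev b' := by
    have h3 := follows_unique x _ _ hf.1.1 hf'.1.1
      (by rw [List.length_append, List.length_append, length_rev, length_rev]; omega)
    exact h3.eq_of_length
      (by rw [List.length_append, List.length_append, length_rev, length_rev]; omega)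
  have h4 : b ++ rev u = b' ++ rev u' := by
    have h5 := congrArg rev h2
    rwa [rev_append, rev_append, rev_rev, rev_rev] at h5
  have h6 : b = b' := Fam.B_free N hN b b' (b ++ rev u) hB hB' (List.prefix_append _ _)
    (by rw [h4]; exact List.prefix_append _ _)
  refine ⟨?_, h6⟩
  rw [h6] at h2
  exact List.append_cancel_right h2

end Occ

/-- The number of visits required at the tip of a trap with word `b`. -/
noncomputable def nb (H : V d →+ ℝ) (C : ℝ) (b : List (S d)) : ℕ :=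
  ⌊Real.exp (H (pos b)) / C⌋₊ + 1

/-- the multiplicity -/
noncomputable def mlt {p0 : S d → ℝ} {Hs : ℕ → V d →+ ℝ} {i : ℕ}
    (Fam : TrapFamily p0 Hs i) : ℕ := (Fam.g.length + 1) * (⌈Fam.Lm⌉₊ + 1)

section Det

variable {p0 : S d → ℝ} {Hs : ℕ → V d →+ ℝ} {i : ℕ} (Fam : TrapFamily p0 Hs i)

open Classical in
/-- the contribution of `(k, N)` -/
noncomputable def contr (C : ℝ) (x z : ℕ → V d) (T k N : ℕ) : ℝ :=
  ∑ b ∈ (wordsLe d (Fam.T N)).filter (fun b => Fam.B N b),
    ∑ u ∈ (words d (k - b.length)).filter (fun u => Fam.J N (rev u)),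
      (nb (Hs i) C b : ℝ) * ind (TrapEv x (u ++ rev b ++ Fam.g) (Fam.F N) ∧
        nb (Hs i) C b ≤ NV z T (pos u))

theorem contr_cases (C : ℝ) (x z : ℕ → V d) (T k N : ℕ) (hN : Fam.N0 ≤ N)
    (hk : 2 * Fam.T N ≤ k) :
    contr Fam C x z T k N = 0 ∨ ∃ b u, Fam.B N b ∧ Fam.J N (rev u) ∧
      Fam.T N ≤ u.length ∧ u.length + b.length = k ∧
      TrapEv x (u ++ rev b ++ Fam.g) (Fam.F N) ∧ nb (Hs i) C b ≤ NV z T (pos u) ∧
      contr Fam C x z T k N = nb (Hs i) C b := by
  classical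
  by_cases h : ∃ b ∈ (wordsLe d (Fam.T N)).filter (fun b => Fam.B N b),
      ∃ u ∈ (words d (k - b.length)).filter (fun u => Fam.J N (rev u)),
      TrapEv x (u ++ rev b ++ Fam.g) (Fam.F N) ∧ nb (Hs i) C b ≤ NV z T (pos u)
  · right
    obtain ⟨b, hb, u, hu, hE, hNV⟩ := h
    have hb' := hb
    have hu' := hu
    rw [Finset.mem_filter, mem_wordsLe] at hb'
    rw [Finset.mem_filter, mem_words] at hu'
    have hlen : u.length + b.length = k := by rw [hu'.1]; omega
    refine ⟨b, u, hb'.2, hu'.2, by rw [hu'.1]; omega, hlen, hE, hNV, ?_⟩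
    have huniq : ∀ b1 u1, b1 ∈ (wordsLe d (Fam.T N)).filter (fun b => Fam.B N b) →
        u1 ∈ (words d (k - b1.length)).filter (fun u => Fam.J N (rev u)) →
        TrapEv x (u1 ++ rev b1 ++ Fam.g) (Fam.F N) → u1 = u ∧ b1 = b := by
      intro b1 u1 hb1 hu1 hE1
      rw [Finset.mem_filter, mem_wordsLe] at hb1
      rw [Finset.mem_filter, mem_words] at hu1
      exact occ_unique Fam N hN u1 b1 u b hb1.2 hb'.2 (by rw [hu1.1, hlen]; omega) x hE1 hE
    unfold contr
    rw [Finset.sum_eq_single b, Finset.sum_eq_single u]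
    · rw [ind_of ⟨hE, hNV⟩, mul_one]
    · intro u1 hu1 hne
      rw [ind_of_not, mul_zero]
      rintro ⟨hE1, _⟩
      exact hne (huniq b u1 hb hu1 hE1).1
    · intro hn
      exact absurd hu hn
    · intro b1 hb1 hne
      refine Finset.sum_eq_zero (fun u1 hu1 => ?_)
      rw [ind_of_not, mul_zero]
      rintro ⟨hE1, _⟩
      exact hne (huniq b1 u1 hb1 hu1 hE1).2
    · intro hn
      exact absurd hb hn
  · left
    unfold contr
    refine Finset.sum_eq_zero (fun b hb => Finset.sum_eq_zero (fun u hu => ?_))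
    rw [ind_of_not, mul_zero]
    rintro ⟨hE, hNV⟩
    exact h ⟨b, hb, u, hu, hE, hNV⟩

theorem det (C : ℝ) (x z : ℕ → V d) (K km N1 Nm M T : ℕ) (hN1 : Fam.N0 ≤ N1)
    (hkm : ∀ N ∈ Finset.Icc N1 Nm, 2 * Fam.T N ≤ km)
    (hM : ∀ N ∈ Finset.Icc N1 Nm, ∀ b, Fam.B N b → nb (Hs i) C b ≤ M) :
    ∑ q ∈ Finset.Icc km K ×ˢ Finset.Icc N1 Nm, contr Fam C x z T q.1 q.2 ≤
      (mlt Fam : ℝ) * ∑ y ∈ (Finset.range (K + 1)).image x,
        ((min (NV z T y) M : ℕ) : ℝ) := by
  classical
  have hcase : ∀ q : ℕ × ℕ, ∃ t : ℕ × V d, q ∈ Finset.Icc km K ×ˢ Finset.Icc N1 Nm →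
      contr Fam C x z T q.1 q.2 ≠ 0 →
      (t.1 ≤ q.1 ∧ x t.1 = t.2 ∧
      (∀ r, q.1 + Fam.g.length ≤ r → Hs i (x q.1) + Fam.l0 < Hs i (x r)) ∧
      (∀ r, t.1 ≤ r → r ≤ q.1 → Hs i (x q.1) - Fam.l0 < Hs i (x r)) ∧
      (∀ r, q.1 ≤ r → x r ≠ t.2) ∧
      (q.2 : ℝ) ≤ Fam.Λ (t.2 - x q.1) ∧ Fam.Λ (t.2 - x q.1) < q.2 + Fam.Lm) ∧
      contr Fam C x z T q.1 q.2 ≤ ((min (NV z T t.2) M : ℕ) : ℝ) := by
    intro q
    by_cases hq : q ∈ Finset.Icc km K ×ˢ Finset.Icc N1 Nm
    · rw [Finset.mem_product, Finset.mem_Icc] at hq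
      have hNN : Fam.N0 ≤ q.2 := le_trans hN1 (Finset.mem_Icc.1 hq.2).1
      rcases contr_cases Fam C x z T q.1 q.2 hNN
        (le_trans (hkm _ hq.2) hq.1.1) with h0 | ⟨b, u, hB, hJ, hu, hk, hE, hNV, hc⟩
      · exact ⟨(0, 0), fun _ h => absurd h0 h⟩
      · refine ⟨(u.length, pos u), fun _ _ => ?_⟩
        obtain ⟨o1, o2, o3, o4, o5, o6⟩ := occ Fam q.2 hNN u b hu hJ hB x hE
        rw [hk] at o2 o3 o4 o5 o6
        refine ⟨⟨by omega, o1, o2, o3, o4, o5, o6⟩, ?_⟩
        rw [hc]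
        exact_mod_cast le_min hNV (hM _ hq.2 b hB)
    · exact ⟨(0, 0), fun h => absurd h hq⟩
  choose τ hτ using hcase
  set I := Finset.Icc km K ×ˢ Finset.Icc N1 Nm with hI
  set Q := I.filter (fun q => contr Fam C x z T q.1 q.2 ≠ 0) with hQ
  have h1 : ∑ q ∈ I, contr Fam C x z T q.1 q.2 = ∑ q ∈ Q, contr Fam C x z T q.1 q.2 := by
    rw [hQ, Finset.sum_filter_ne_zero]
  have h2 : ∑ q ∈ Q, contr Fam C x z T q.1 q.2 ≤
      ∑ q ∈ Q, ((min (NV z T (τ q).2) M : ℕ) : ℝ) := by
    refine Finset.sum_le_sum (fun q hq => ?_)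
    rw [hQ, Finset.mem_filter] at hq
    exact (hτ q hq.1 hq.2).2
  have hmaps : ∀ q ∈ Q, (τ q).2 ∈ (Finset.range (K + 1)).image x := by
    intro q hq
    rw [hQ, Finset.mem_filter] at hq
    obtain ⟨⟨a1, a2, _⟩, _⟩ := hτ q hq.1 hq.2
    have hq1 := hq.1
    rw [hI, Finset.mem_product, Finset.mem_Icc] at hq1
    rw [Finset.mem_image]
    exact ⟨(τ q).1, by rw [Finset.mem_range]; omega, a2⟩
  have h3 : ∑ q ∈ Q, ((min (NV z T (τ q).2) M : ℕ) : ℝ) =
      ∑ y ∈ (Finset.range (K + 1)).image x, ∑ q ∈ Q.filter (fun q => (τ q).2 = y),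
        ((min (NV z T (τ q).2) M : ℕ) : ℝ) :=
    (Finset.sum_fiberwise_of_maps_to hmaps _).symm
  rw [h1, Finset.mul_sum]
  refine h2.trans (h3.le.trans (Finset.sum_le_sum (fun y _ => ?_)))
  have h4 : ∑ q ∈ Q.filter (fun q => (τ q).2 = y), ((min (NV z T (τ q).2) M : ℕ) : ℝ) =
      ((Q.filter (fun q => (τ q).2 = y)).card : ℝ) * ((min (NV z T y) M : ℕ) : ℝ) := by
    rw [Finset.sum_congr rfl (fun q hq => by rw [(Finset.mem_filter.1 hq).2]),
      Finset.sum_const, nsmul_eq_mul]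
  rw [h4]
  refine mul_le_mul_of_nonneg_right ?_ (Nat.cast_nonneg _)
  have h5 := count_le x (Hs i) Fam.Λ Fam.l0 Fam.Lm Fam.g.length
    (Q.filter (fun q => (τ q).2 = y)) (fun q => (τ q).1) y (by
      intro q hq
      rw [Finset.mem_filter] at hq
      obtain ⟨hq1, hq2⟩ := hq
      rw [hQ, Finset.mem_filter] at hq1
      have := (hτ q hq1.1 hq1.2).1
      rw [hq2] at this
      exact this)
  unfold mlt
  exact_mod_cast h5

end Det

/-! ### measurability and integrals -/

section Meas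

theorem measurable_NV (hX : IteratedWalk p μ X) (i T : ℕ) (y : V d) :
    Measurable (fun ω => NV (fun n => X i n ω) T y) := by
  unfold NV
  simp only [Finset.card_filter]
  refine Finset.measurable_sum _ (fun n _ => ?_)
  exact Measurable.ite (hX.meas i n (measurableSet_singleton y)) measurable_const
    measurable_const

theorem measurableSet_trap (hX : IteratedWalk p μ X) (w : List (S d))
    (F : List (S d) → Prop) : MeasurableSet {ω | TrapEv (fun n => X 0 n ω) w F} :=
  history_le hX 1 _ (measurableSet_trapEv X one_pos w F)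

theorem integral_ind [IsProbabilityMeasure μ] {A : Set Ω} (hA : MeasurableSet A) :
    Integrable (fun ω => ind (ω ∈ A)) μ ∧ ∫ ω, ind (ω ∈ A) ∂μ = μ.real A := by
  classical
  have h : (fun ω => ind (ω ∈ A)) = A.indicator (fun _ => (1 : ℝ)) := by
    funext ω
    by_cases hω : ω ∈ A
    · rw [ind_of hω, Set.indicator_of_mem hω]
    · rw [ind_of_not hω, Set.indicator_of_notMem hω]
  rw [h]
  refine ⟨(integrable_const 1).indicator hA, ?_⟩
  rw [integral_indicator hA, integral_const, smul_eq_mul, mul_one, measureReal_restrict_apply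
    MeasurableSet.univ, Set.univ_inter]

theorem integrable_visits [IsProbabilityMeasure μ] (hX : IteratedWalk p μ X)
    (i K T M : ℕ) :
    Integrable (fun ω => ∑ y ∈ (Finset.range (K + 1)).image (fun k => X 0 k ω),
      ((min (NV (fun n => X i n ω) T y) M : ℕ) : ℝ)) μ := by
  classical
  set Φ : Ω → (Fin (K + 1) → V d) × (Fin T → V d) :=
    fun ω => (fun k => X 0 k ω, fun n => X i n ω) with hΦ
  have hΦm : Measurable Φ :=
    (measurable_pi_lambda _ (fun k : Fin (K + 1) => hX.meas 0 (k : ℕ))).prodMk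
      (measurable_pi_lambda _ (fun n : Fin T => hX.meas i (n : ℕ)))
  set G : (Fin (K + 1) → V d) × (Fin T → V d) → ℝ := fun q =>
    ∑ y ∈ (Finset.range (K + 1)).image (fun k => if h : k < K + 1 then q.1 ⟨k, h⟩ else 0),
      ((min (NV (fun n => if h : n < T then q.2 ⟨n, h⟩ else 0) T y) M : ℕ) : ℝ) with hG
  have hGm : Measurable G := measurable_of_countable G
  have heq : (fun ω => ∑ y ∈ (Finset.range (K + 1)).image (fun k => X 0 k ω),
      ((min (NV (fun n => X i n ω) T y) M : ℕ) : ℝ)) = G ∘ Φ := by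
    funext ω
    simp only [hG, hΦ, Function.comp]
    have h1 : (Finset.range (K + 1)).image (fun k => X 0 k ω) =
        (Finset.range (K + 1)).image (fun k => if h : k < K + 1 then X 0 k ω else 0) := by
      refine Finset.image_congr (fun k hk => ?_)
      have hk' : k < K + 1 := by simpa using hk
      simp only [dif_pos hk']
    rw [h1]
    refine Finset.sum_congr rfl (fun y _ => ?_)
    have h2 : NV (fun n => X i n ω) T y =
        NV (fun n => if h : n < T then X i n ω else 0) T y := by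
      unfold NV
      congr 1
      refine Finset.filter_congr (fun n hn => ?_)
      rw [Finset.mem_range] at hn
      simp only [dif_pos hn]
    rw [h2]
  rw [heq]
  refine Integrable.of_bound (hGm.comp hΦm).aestronglyMeasurable ((K + 1 : ℕ) * M : ℝ) ?_
  refine Filter.Eventually.of_forall (fun ω => ?_)
  rw [← heq]
  simp only
  rw [Real.norm_of_nonneg (Finset.sum_nonneg (fun y _ => Nat.cast_nonneg _))]
  calc ∑ y ∈ (Finset.range (K + 1)).image (fun k => X 0 k ω),
      ((min (NV (fun n => X i n ω) T y) M : ℕ) : ℝ)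
      ≤ ∑ y ∈ (Finset.range (K + 1)).image (fun k => X 0 k ω), (M : ℝ) :=
        Finset.sum_le_sum (fun y _ => by exact_mod_cast min_le_right _ _)
    _ = ((Finset.range (K + 1)).image (fun k => X 0 k ω)).card * (M : ℝ) := by
        rw [Finset.sum_const, nsmul_eq_mul]
    _ ≤ ((K + 1 : ℕ) : ℝ) * M := by
        refine mul_le_mul_of_nonneg_right ?_ (Nat.cast_nonneg _)
        have := Finset.card_image_le (s := Finset.range (K + 1)) (f := fun k => X 0 k ω)
        rw [Finset.card_range] at this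
        exact_mod_cast this

theorem NV_mono (x : ℕ → V d) {T T' : ℕ} (h : T ≤ T') (y : V d) : NV x T y ≤ NV x T' y := by
  unfold NV
  exact Finset.card_le_card (Finset.filter_subset_filter _ (Finset.range_mono h))

/-- from infinite time to finite time -/
theorem exists_time [IsProbabilityMeasure μ] (i : ℕ) (A : Set Ω) (n : ℕ) (y : V d)
    (h : (1 / 2) * μ.real A ≤
      μ.real (A ∩ {ω | ∃ T : ℕ, n ≤ NV (fun n => X i n ω) T y})) :
    ∃ T : ℕ, (1 / 4) * μ.real A ≤ μ.real (A ∩ {ω | n ≤ NV (fun n => X i n ω) T y}) := by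
  by_cases h0 : μ.real A = 0
  · refine ⟨0, ?_⟩
    rw [h0, mul_zero]
    exact measureReal_nonneg
  · have hpos : 0 < μ.real A := lt_of_le_of_ne measureReal_nonneg (Ne.symm h0)
    have hmono : Monotone (fun T : ℕ => A ∩ {ω | n ≤ NV (fun n => X i n ω) T y}) := by
      intro T T' hT ω hω
      exact ⟨hω.1, le_trans hω.2 (NV_mono _ hT y)⟩
    have ht := tendsto_measure_iUnion_atTop (μ := μ) hmono
    have hU : (⋃ T : ℕ, A ∩ {ω | n ≤ NV (fun n => X i n ω) T y}) =
        A ∩ {ω | ∃ T : ℕ, n ≤ NV (fun n => X i n ω) T y} := by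
      ext ω
      simp
    rw [hU] at ht
    have ht2 := (ENNReal.tendsto_toReal (measure_ne_top μ _)).comp ht
    have hlt : (1 / 4) * μ.real A <
        (μ (A ∩ {ω | ∃ T : ℕ, n ≤ NV (fun n => X i n ω) T y})).toReal := by
      have : (1 / 4) * μ.real A < (1 / 2) * μ.real A := by linarith
      exact lt_of_lt_of_le this h
    obtain ⟨T, hT⟩ := (ht2.eventually (lt_mem_nhds hlt)).exists
    exact ⟨T, hT.le⟩

end Meas

/-! ### constants -/

theorem exists_pm (hp : ∀ i s, 0 < p i s) (i : ℕ) :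
    ∃ pm : ℝ, 0 < pm ∧ ∀ j ≤ i, ∀ s, pm ≤ p j s := by
  set Z : ℝ := 1 + ∑ j ∈ Finset.range (i + 1), ∑ s : S d, (p j s)⁻¹ with hZ
  have hZ0 : 0 < Z := by
    have : 0 ≤ ∑ j ∈ Finset.range (i + 1), ∑ s : S d, (p j s)⁻¹ :=
      Finset.sum_nonneg (fun j _ => Finset.sum_nonneg (fun s _ => (inv_pos.2 (hp j s)).le))
    linarith
  refine ⟨Z⁻¹, inv_pos.2 hZ0, fun j hj s => ?_⟩
  have h1 : (p j s)⁻¹ ≤ ∑ s : S d, (p j s)⁻¹ :=
    Finset.single_le_sum (f := fun s => (p j s)⁻¹)
      (fun s _ => (inv_pos.2 (hp j s)).le) (Finset.mem_univ s)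
  have h2 : ∑ s : S d, (p j s)⁻¹ ≤ ∑ j ∈ Finset.range (i + 1), ∑ s : S d, (p j s)⁻¹ :=
    Finset.single_le_sum (f := fun j => ∑ s : S d, (p j s)⁻¹)
      (fun j _ => Finset.sum_nonneg (fun s _ => (inv_pos.2 (hp j s)).le))
      (Finset.mem_range.2 (by omega))
  have h3 : (p j s)⁻¹ ≤ Z := by linarith
  rw [inv_le_comm₀ hZ0 (hp j s)]
  exact h3

/-! ### the contribution of one pair `(k, N)` -/

section Contr

variable {i : ℕ} (Fam : TrapFamily (p 0) (fun j => lin (p j)) i)

theorem contr_integral [IsProbabilityMeasure μ] (hp : ∀ i s, 0 < p i s)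
    (hsum : ∀ i, ∑ s, p i s = 1) (hX : IteratedWalk p μ X) (C : ℝ) (hC : 0 < C)
    (T k N : ℕ) (hN : Fam.N0 ≤ N) (hk : 2 * Fam.T N ≤ k)
    (hT : ∀ b u, Fam.B N b → b.length ≤ Fam.T N → Fam.J N (rev u) →
      u.length = k - b.length →
      (1 / 4) * μ.real {ω | TrapEv (fun n => X 0 n ω) (u ++ rev b ++ Fam.g) (Fam.F N)} ≤
      μ.real ({ω | TrapEv (fun n => X 0 n ω) (u ++ rev b ++ Fam.g) (Fam.F N)} ∩
        {ω | nb (lin (p i)) C b ≤ NV (fun n => X i n ω) T (pos u)})) :
    Integrable (fun ω => contr Fam C (fun n => X 0 n ω) (fun n => X i n ω) T k N) μ ∧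
    pw (p 0) Fam.g * (Fam.c / N) / (4 * C) ≤
      ∫ ω, contr Fam C (fun n => X 0 n ω) (fun n => X i n ω) T k N ∂μ := by
  classical
  have hmeas : ∀ b u : List (S d), MeasurableSet
      ({ω | TrapEv (fun n => X 0 n ω) (u ++ rev b ++ Fam.g) (Fam.F N)} ∩
        {ω | nb (lin (p i)) C b ≤ NV (fun n => X i n ω) T (pos u)}) := fun b u =>
    (measurableSet_trap hX _ _).inter
      (measurableSet_le measurable_const (measurable_NV hX i T (pos u)))
  have hterm : ∀ b u : List (S d), (fun ω => (nb (lin (p i)) C b : ℝ) *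
      ind (TrapEv (fun n => X 0 n ω) (u ++ rev b ++ Fam.g) (Fam.F N) ∧
        nb (lin (p i)) C b ≤ NV (fun n => X i n ω) T (pos u))) =
      fun ω => (nb (lin (p i)) C b : ℝ) * ind (ω ∈
        ({ω | TrapEv (fun n => X 0 n ω) (u ++ rev b ++ Fam.g) (Fam.F N)} ∩
        {ω | nb (lin (p i)) C b ≤ NV (fun n => X i n ω) T (pos u)})) := by
    intro b u
    rfl
  have hint : ∀ b u : List (S d), Integrable (fun ω => (nb (lin (p i)) C b : ℝ) *
      ind (TrapEv (fun n => X 0 n ω) (u ++ rev b ++ Fam.g) (Fam.F N) ∧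
        nb (lin (p i)) C b ≤ NV (fun n => X i n ω) T (pos u))) μ := by
    intro b u
    rw [hterm]
    exact (integral_ind (hmeas b u)).1.const_mul _
  have hval : ∀ b u : List (S d), ∫ ω, (nb (lin (p i)) C b : ℝ) *
      ind (TrapEv (fun n => X 0 n ω) (u ++ rev b ++ Fam.g) (Fam.F N) ∧
        nb (lin (p i)) C b ≤ NV (fun n => X i n ω) T (pos u)) ∂μ =
      (nb (lin (p i)) C b : ℝ) * μ.real
        ({ω | TrapEv (fun n => X 0 n ω) (u ++ rev b ++ Fam.g) (Fam.F N)} ∩
        {ω | nb (lin (p i)) C b ≤ NV (fun n => X i n ω) T (pos u)}) := by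
    intro b u
    rw [hterm, integral_const_mul, (integral_ind (hmeas b u)).2]
  refine ⟨?_, ?_⟩
  · unfold contr
    exact integrable_finsetSum _ (fun b _ => integrable_finsetSum _ (fun u _ => hint b u))
  · unfold contr
    rw [integral_finsetSum _ (fun b _ => integrable_finsetSum _ (fun u _ => hint b u))]
    have h1 : ∀ b ∈ (wordsLe d (Fam.T N)).filter (fun b => Fam.B N b),
        pw (p 0) Fam.g * Fam.cF N * Fam.cJ N / (4 * C) * pw (tilt (p 0) (lin (p i))) b ≤
        ∫ ω, ∑ u ∈ (words d (k - b.length)).filter (fun u => Fam.J N (rev u)),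
          (nb (lin (p i)) C b : ℝ) *
          ind (TrapEv (fun n => X 0 n ω) (u ++ rev b ++ Fam.g) (Fam.F N) ∧
            nb (lin (p i)) C b ≤ NV (fun n => X i n ω) T (pos u)) ∂μ := by
      intro b hb
      rw [Finset.mem_filter, mem_wordsLe] at hb
      rw [integral_finsetSum _ (fun u _ => hint b u)]
      have h2 : ∀ u ∈ (words d (k - b.length)).filter (fun u => Fam.J N (rev u)),
          pw (p 0) Fam.g * Fam.cF N / (4 * C) * pw (tilt (p 0) (lin (p i))) b *
            pw (p 0) u ≤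
          ∫ ω, (nb (lin (p i)) C b : ℝ) *
          ind (TrapEv (fun n => X 0 n ω) (u ++ rev b ++ Fam.g) (Fam.F N) ∧
            nb (lin (p i)) C b ≤ NV (fun n => X i n ω) T (pos u)) ∂μ := by
        intro u hu
        rw [Finset.mem_filter, mem_words] at hu
        rw [hval]
        have h3 := hT b u hb.2 hb.1 hu.2 hu.1
        have h4 := trapEv_prob hp hsum hX (u ++ rev b ++ Fam.g) (Fam.F N)
          (Fam.F_closed N) (Fam.cF N) (Fam.F_prob N hN)
        have h5 : Real.exp (lin (p i) (pos b)) / C ≤ (nb (lin (p i)) C b : ℝ) := by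
          unfold nb
          push_cast
          exact (Nat.lt_floor_add_one _).le
        have h6 : pw (p 0) (u ++ rev b ++ Fam.g) =
            pw (p 0) u * pw (prev (p 0)) b * pw (p 0) Fam.g := by
          rw [pw_append, pw_append, pw_rev]
        have h7 : pw (tilt (p 0) (lin (p i))) b =
            pw (prev (p 0)) b * Real.exp (lin (p i) (pos b)) := pw_tilt _ _ _
        have hpos : 0 ≤ pw (p 0) (u ++ rev b ++ Fam.g) * Fam.cF N :=
          mul_nonneg (pw_nonneg _ (fun s => (hp 0 s).le) _) (Fam.cF_nonneg N)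
        calc pw (p 0) Fam.g * Fam.cF N / (4 * C) * pw (tilt (p 0) (lin (p i))) b *
            pw (p 0) u
            = Real.exp (lin (p i) (pos b)) / C *
              ((1 / 4) * (pw (p 0) (u ++ rev b ++ Fam.g) * Fam.cF N)) := by
              rw [h6, h7]
              field_simp
          _ ≤ (nb (lin (p i)) C b : ℝ) *
              ((1 / 4) * (pw (p 0) (u ++ rev b ++ Fam.g) * Fam.cF N)) :=
              mul_le_mul_of_nonneg_right h5 (by linarith)
          _ ≤ (nb (lin (p i)) C b : ℝ) * μ.real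
              ({ω | TrapEv (fun n => X 0 n ω) (u ++ rev b ++ Fam.g) (Fam.F N)} ∩
              {ω | nb (lin (p i)) C b ≤ NV (fun n => X i n ω) T (pos u)}) := by
              refine mul_le_mul_of_nonneg_left ?_ (Nat.cast_nonneg _)
              linarith
      refine le_trans ?_ (Finset.sum_le_sum h2)
      rw [← Finset.mul_sum]
      have h8 : Fam.cJ N ≤
          ∑ u ∈ (words d (k - b.length)).filter (fun u => Fam.J N (rev u)), pw (p 0) u := by
        have h9 := Fam.J_prob N hN (k - b.length) (by omega)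
        have h10 : EP (prev (p 0)) (k - b.length) (fun w => ind (Fam.J N w)) =
            EP (p 0) (k - b.length) (fun w => ind (Fam.J N (rev w))) := by
          rw [EP_rev (p 0)]
          simp only [rev_rev]
        rw [h10, EP_words] at h9
        rw [Finset.sum_filter]
        refine h9.trans (le_of_eq (Finset.sum_congr rfl (fun u _ => ?_)))
        by_cases hj : Fam.J N (rev u)
        · rw [ind_of hj, mul_one, if_pos hj]
        · rw [ind_of_not hj, mul_zero, if_neg hj]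
      have h11 : 0 ≤ pw (p 0) Fam.g * Fam.cF N / (4 * C) *
          pw (tilt (p 0) (lin (p i))) b := by
        refine mul_nonneg (div_nonneg (mul_nonneg (pw_nonneg _ (fun s => (hp 0 s).le) _)
          (Fam.cF_nonneg N)) (by linarith)) (pw_nonneg _ (fun s => ?_) _)
        exact (tilt_pos (p 0) (hp 0) _ s).le
      calc pw (p 0) Fam.g * Fam.cF N * Fam.cJ N / (4 * C) *
            pw (tilt (p 0) (lin (p i))) b
          = pw (p 0) Fam.g * Fam.cF N / (4 * C) *
            pw (tilt (p 0) (lin (p i))) b * Fam.cJ N := by ring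
        _ ≤ _ := mul_le_mul_of_nonneg_left h8 h11
    refine le_trans ?_ (Finset.sum_le_sum h1)
    rw [← Finset.mul_sum]
    have h12 := Fam.B_sum N hN
    have h13 := Fam.prod_le N hN
    have hg : 0 ≤ pw (p 0) Fam.g := pw_nonneg _ (fun s => (hp 0 s).le) _
    have h14 : 0 ≤ pw (p 0) Fam.g * Fam.cF N * Fam.cJ N / (4 * C) :=
      div_nonneg (mul_nonneg (mul_nonneg hg (Fam.cF_nonneg N)) (Fam.cJ_nonneg N))
        (by linarith)
    calc pw (p 0) Fam.g * (Fam.c / N) / (4 * C)
        ≤ pw (p 0) Fam.g * (Fam.cB N * Fam.cJ N * Fam.cF N) / (4 * C) := by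
          gcongr
      _ = pw (p 0) Fam.g * Fam.cF N * Fam.cJ N / (4 * C) * Fam.cB N := by ring
      _ ≤ _ := mul_le_mul_of_nonneg_left h12 h14

end Contr

end Lower

theorem lower [IsProbabilityMeasure μ] (hp : ∀ i s, 0 < p i s)
    (hsum : ∀ i, ∑ s, p i s = 1) (hX : IteratedWalk p μ X) (i : ℕ) (hi : 1 ≤ i)
    (Fam : TrapFamily (p 0) (fun j => lin (p j)) i) :
    ∃ c : ℝ, 0 < c ∧ ∃ N1 : ℕ, 1 ≤ N1 ∧ ∀ Nm : ℕ, ∃ M km : ℕ, ∀ K : ℕ, km ≤ K → ∃ T : ℕ,
      c * ((K : ℝ) - km) * ∑ N ∈ Finset.Icc N1 Nm, (1 : ℝ) / N ≤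
        ∫ ω, ∑ y ∈ (Finset.range (K + 1)).image (fun k => X 0 k ω),
          ((min (NV (fun n => X i n ω) T y) M : ℕ) : ℝ) ∂μ := by
  classical
  obtain ⟨pm, hpm0, hpm⟩ := Lower.exists_pm hp i
  have hi0 : (0 : ℝ) < i := by exact_mod_cast hi
  set Cg : ℕ → ℝ := fun j => ∑ n ∈ Finset.range (Fam.g.length + 1),
    Real.exp (lin (p j) (zat Fam.g n)) with hCg
  have hCg0 : ∀ j, 0 < Cg j := fun j =>
    Finset.sum_pos (fun n _ => Real.exp_pos _) ⟨0, Finset.mem_range.2 (by omega)⟩
  set Cm : ℝ := ∑ j ∈ Finset.range (i + 1), Cg j with hCm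
  have hCm1 : ∀ j ≤ i, Cg j ≤ Cm := fun j hj =>
    Finset.single_le_sum (f := Cg) (fun j _ => (hCg0 j).le) (Finset.mem_range.2 (by omega))
  have hCm0 : 0 < Cm := lt_of_lt_of_le (hCg0 0) (hCm1 0 (Nat.zero_le _))
  obtain ⟨N1', hN1'⟩ := Fam.small (pm / (32 * i * Cm)) (by positivity)
  set N1 := max Fam.N0 N1' with hN1
  set C : ℝ := 4 * Cm / pm with hC
  have hC0 : 0 < C := by positivity
  have hgw : 0 < pw (p 0) Fam.g := pw_pos _ (hp 0) _
  have hmlt : (0 : ℝ) < Lower.mlt Fam := by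
    unfold Lower.mlt
    positivity
  refine ⟨pw (p 0) Fam.g * Fam.c / (4 * C) / Lower.mlt Fam,
    div_pos (div_pos (mul_pos hgw Fam.c_pos) (by positivity)) hmlt, N1,
    le_trans Fam.N0_pos (le_max_left _ _), fun Nm => ?_⟩
  set Tm : ℕ := ∑ N ∈ Finset.Icc N1 Nm, Fam.T N with hTm
  have hTm1 : ∀ N ∈ Finset.Icc N1 Nm, Fam.T N ≤ Tm := fun N hN =>
    Finset.single_le_sum (f := Fam.T) (fun _ _ => Nat.zero_le _) hN
  set M : ℕ := ∑ b ∈ wordsLe d Tm, Lower.nb (lin (p i)) C b with hM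
  refine ⟨M, 2 * Tm, fun K hK => ?_⟩
  have hN0 : ∀ N ∈ Finset.Icc N1 Nm, Fam.N0 ≤ N := fun N hN =>
    le_trans (le_max_left _ _) (Finset.mem_Icc.1 hN).1
  -- the walks
  have key : ∀ N ∈ Finset.Icc N1 Nm, ∀ b u : List (S d), Fam.B N b →
      Fam.J N (rev u) → Fam.T N ≤ u.length → ∃ T : ℕ,
      (1 / 4) * μ.real {ω | TrapEv (fun n => X 0 n ω) (u ++ rev b ++ Fam.g) (Fam.F N)} ≤
      μ.real ({ω | TrapEv (fun n => X 0 n ω) (u ++ rev b ++ Fam.g) (Fam.F N)} ∩
        {ω | Lower.nb (lin (p i)) C b ≤ NV (fun n => X i n ω) T (pos u)}) := by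
    intro N hN b u hB hJ hu
    obtain ⟨a, hT, ha⟩ := Fam.geom N (hN0 N hN) u b hu hJ hB
    refine Lower.exists_time i _ _ _ ?_
    have h := levels hp hsum hX i hi pm hpm0 hpm (u ++ rev b ++ Fam.g) (Fam.A N) u.length
      (u.length + b.length) a hT (Fam.F N)
      (fun v hv => Fam.sep N (hN0 N hN) u b v hu hJ hB hv) ?_
      (Lower.nb (lin (p i)) C b) (by unfold Lower.nb; omega) ?_
    · rw [Lower.zat_k0] at h
      exact h
    · intro j hj hji
      rw [Lower.piG_eq, Lower.zat_k, Real.exp_add]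
      have h1 := hN1' N (le_trans (le_max_right _ _) (Finset.mem_Icc.1 hN).1)
      have h2 : ((u.length - a : ℕ) : ℝ) ≤ Fam.T N := by exact_mod_cast ha
      have h3 : 0 < Real.exp (lin (p j) (pos u - pos b)) := Real.exp_pos _
      have h4' : Real.exp (lin (p j) (pos u - pos b)) *
          (∑ n ∈ Finset.range (Fam.g.length + 1), Real.exp (lin (p j) (zat Fam.g n))) /
          (pm * (Real.exp (lin (p j) (pos u - pos b)) * Real.exp (Fam.A N))) =
          Cg j / pm * Real.exp (-(Fam.A N)) := by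
        rw [Real.exp_neg]
        field_simp
        ring
      rw [h4']
      have h5 : Cg j ≤ Cm := hCm1 j hji
      have h6 : 0 < Real.exp (-(Fam.A N)) := Real.exp_pos _
      have h7 : 0 ≤ (Fam.T N : ℝ) := Nat.cast_nonneg _
      calc 4 * ((u.length - a : ℕ) : ℝ) * (Cg j / pm * Real.exp (-(Fam.A N)))
          ≤ 4 * (Fam.T N : ℝ) * (Cm / pm * Real.exp (-(Fam.A N))) := by
            gcongr
        _ = 4 * (Cm / pm) * ((Fam.T N : ℝ) * Real.exp (-(Fam.A N))) := by ring
        _ ≤ 4 * (Cm / pm) * (pm / (32 * i * Cm)) := by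
            gcongr
        _ = 1 / (8 * i) := by
            field_simp
            ring
    · rw [Lower.piG_eq, Lower.zat_k0]
      have h1 : ((Lower.nb (lin (p i)) C b : ℕ) : ℝ) - 1 ≤
          Real.exp (lin (p i) (pos b)) / C := by
        unfold Lower.nb
        push_cast
        have := Nat.floor_le (show 0 ≤ Real.exp (lin (p i) (pos b)) / C by positivity)
        linarith
      have h2 : Real.exp (lin (p i) (pos u - pos b)) *
          (∑ n ∈ Finset.range (Fam.g.length + 1), Real.exp (lin (p i) (zat Fam.g n))) /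
          (pm * Real.exp (lin (p i) (pos u))) =
          Cg i / pm * Real.exp (-(lin (p i) (pos b))) := by
        rw [map_sub, Real.exp_sub, Real.exp_neg]
        field_simp
        ring
      rw [h2]
      have h3 : 0 < Real.exp (-(lin (p i) (pos b))) := Real.exp_pos _
      have h4 := hCg0 i
      calc ((Lower.nb (lin (p i)) C b : ℕ) - 1 : ℝ) *
            (Cg i / pm * Real.exp (-(lin (p i) (pos b))))
          ≤ Real.exp (lin (p i) (pos b)) / C *
            (Cg i / pm * Real.exp (-(lin (p i) (pos b)))) :=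
            mul_le_mul_of_nonneg_right h1 (by positivity)
        _ = Cg i / (4 * Cm) := by
            rw [Real.exp_neg, hC]
            field_simp
        _ ≤ 1 / 4 := by
            rw [div_le_div_iff₀ (by positivity) (by norm_num)]
            have := hCm1 i le_rfl
            linarith
  choose! Tf hTf using key
  set T : ℕ := ∑ k ∈ Finset.Icc (2 * Tm) K, ∑ N ∈ Finset.Icc N1 Nm,
    ∑ b ∈ wordsLe d (Fam.T N), ∑ u ∈ words d (k - b.length), Tf N b u with hTdef
  refine ⟨T, ?_⟩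
  have hTle : ∀ k ∈ Finset.Icc (2 * Tm) K, ∀ N ∈ Finset.Icc N1 Nm,
      ∀ b ∈ wordsLe d (Fam.T N), ∀ u ∈ words d (k - b.length), Tf N b u ≤ T := by
    intro k hk N hN b hb u hu
    calc Tf N b u ≤ ∑ u ∈ words d (k - b.length), Tf N b u :=
          Finset.single_le_sum (f := fun u => Tf N b u) (fun _ _ => Nat.zero_le _) hu
      _ ≤ ∑ b ∈ wordsLe d (Fam.T N), ∑ u ∈ words d (k - b.length), Tf N b u :=
          Finset.single_le_sum (f := fun b => ∑ u ∈ words d (k - b.length), Tf N b u)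
            (fun _ _ => Nat.zero_le _) hb
      _ ≤ ∑ N ∈ Finset.Icc N1 Nm, ∑ b ∈ wordsLe d (Fam.T N),
          ∑ u ∈ words d (k - b.length), Tf N b u :=
          Finset.single_le_sum (f := fun N => ∑ b ∈ wordsLe d (Fam.T N),
            ∑ u ∈ words d (k - b.length), Tf N b u) (fun _ _ => Nat.zero_le _) hN
      _ ≤ T := Finset.single_le_sum (f := fun k => ∑ N ∈ Finset.Icc N1 Nm,
            ∑ b ∈ wordsLe d (Fam.T N), ∑ u ∈ words d (k - b.length), Tf N b u)
            (fun _ _ => Nat.zero_le _) hk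
  have hcontr : ∀ q ∈ Finset.Icc (2 * Tm) K ×ˢ Finset.Icc N1 Nm,
      Integrable (fun ω => Lower.contr Fam C (fun n => X 0 n ω) (fun n => X i n ω)
        T q.1 q.2) μ ∧
      pw (p 0) Fam.g * (Fam.c / q.2) / (4 * C) ≤
        ∫ ω, Lower.contr Fam C (fun n => X 0 n ω) (fun n => X i n ω) T q.1 q.2 ∂μ := by
    intro q hq
    rw [Finset.mem_product] at hq
    have hk : 2 * Fam.T q.2 ≤ q.1 :=
      le_trans (Nat.mul_le_mul_left 2 (hTm1 _ hq.2)) (Finset.mem_Icc.1 hq.1).1
    refine Lower.contr_integral Fam hp hsum hX C hC0 T q.1 q.2 (hN0 _ hq.2) hk ?_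
    intro b u hB hb hJ hu
    refine (hTf q.2 hq.2 b u hB hJ (by omega)).trans ?_
    refine measureReal_mono (Set.inter_subset_inter_right _ (fun ω hω => ?_))
    exact le_trans hω (Lower.NV_mono _ (hTle q.1 hq.1 q.2 hq.2 b
      ((mem_wordsLe _ _).2 hb) u ((mem_words _ _).2 hu)) _)
  have hdet : ∀ ω, ∑ q ∈ Finset.Icc (2 * Tm) K ×ˢ Finset.Icc N1 Nm,
      Lower.contr Fam C (fun n => X 0 n ω) (fun n => X i n ω) T q.1 q.2 ≤
      (Lower.mlt Fam : ℝ) * ∑ y ∈ (Finset.range (K + 1)).image (fun k => X 0 k ω),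
        ((min (NV (fun n => X i n ω) T y) M : ℕ) : ℝ) := by
    intro ω
    refine Lower.det Fam C (fun n => X 0 n ω) (fun n => X i n ω) K (2 * Tm) N1 Nm M T
      (le_max_left _ _) (fun N hN => Nat.mul_le_mul_left 2 (hTm1 N hN)) ?_
    intro N hN b hB
    have hb := (Fam.B_len N (hN0 N hN) b hB).2
    exact Finset.single_le_sum (f := fun b => Lower.nb (lin (p i)) C b)
      (fun _ _ => Nat.zero_le _) ((mem_wordsLe _ _).2 (le_trans hb (hTm1 N hN)))
  have hint := integral_mono (μ := μ)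
    (integrable_finsetSum _ (fun q hq => (hcontr q hq).1))
    ((Lower.integrable_visits (μ := μ) hX i K T M).const_mul (Lower.mlt Fam : ℝ)) hdet
  rw [integral_finsetSum _ (fun q hq => (hcontr q hq).1), integral_const_mul] at hint
  have hlow : ∑ q ∈ Finset.Icc (2 * Tm) K ×ˢ Finset.Icc N1 Nm,
      pw (p 0) Fam.g * (Fam.c / q.2) / (4 * C) ≤
      ∑ q ∈ Finset.Icc (2 * Tm) K ×ˢ Finset.Icc N1 Nm,
        ∫ ω, Lower.contr Fam C (fun n => X 0 n ω) (fun n => X i n ω) T q.1 q.2 ∂μ :=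
    Finset.sum_le_sum (fun q hq => (hcontr q hq).2)
  have hsum2 : ((K : ℝ) - (2 * Tm : ℕ)) * ∑ N ∈ Finset.Icc N1 Nm,
      pw (p 0) Fam.g * (Fam.c / N) / (4 * C) ≤
      ∑ q ∈ Finset.Icc (2 * Tm) K ×ˢ Finset.Icc N1 Nm,
        pw (p 0) Fam.g * (Fam.c / q.2) / (4 * C) := by
    rw [Finset.sum_product]
    simp only
    rw [Finset.sum_const, nsmul_eq_mul, Nat.card_Icc]
    have h1 : ((K + 1 - 2 * Tm : ℕ) : ℝ) = (K : ℝ) + 1 - (2 * Tm : ℕ) := by
      rw [Nat.cast_sub (by omega)]
      push_cast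
      ring
    rw [h1]
    have h2 : 0 ≤ ∑ N ∈ Finset.Icc N1 Nm, pw (p 0) Fam.g * (Fam.c / N) / (4 * C) := by
      refine Finset.sum_nonneg (fun N _ => ?_)
      have := Fam.c_pos
      positivity
    exact mul_le_mul_of_nonneg_right (by linarith) h2
  have h9 : pw (p 0) Fam.g * Fam.c / (4 * C) * ((K : ℝ) - (2 * Tm : ℕ)) *
      ∑ N ∈ Finset.Icc N1 Nm, (1 : ℝ) / N =
      ((K : ℝ) - (2 * Tm : ℕ)) * ∑ N ∈ Finset.Icc N1 Nm,
        pw (p 0) Fam.g * (Fam.c / N) / (4 * C) := by
    have h1 : ∀ N : ℕ, pw (p 0) Fam.g * (Fam.c / N) / (4 * C) =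
        pw (p 0) Fam.g * Fam.c / (4 * C) * ((1 : ℝ) / N) := by
      intro N
      ring
    rw [Finset.sum_congr rfl (fun N _ => h1 N), ← Finset.mul_sum]
    ring
  have h10 : pw (p 0) Fam.g * Fam.c / (4 * C) * ((K : ℝ) - (2 * Tm : ℕ)) *
      ∑ N ∈ Finset.Icc N1 Nm, (1 : ℝ) / N ≤ (Lower.mlt Fam : ℝ) *
      ∫ ω, ∑ y ∈ (Finset.range (K + 1)).image (fun k => X 0 k ω),
        ((min (NV (fun n => X i n ω) T y) M : ℕ) : ℝ) ∂μ := by
    rw [h9]
    exact hsum2.trans (hlow.trans hint)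
  calc pw (p 0) Fam.g * Fam.c / (4 * C) / Lower.mlt Fam * ((K : ℝ) - (2 * Tm : ℕ)) *
        ∑ N ∈ Finset.Icc N1 Nm, (1 : ℝ) / N
      = (pw (p 0) Fam.g * Fam.c / (4 * C) * ((K : ℝ) - (2 * Tm : ℕ)) *
        ∑ N ∈ Finset.Icc N1 Nm, (1 : ℝ) / N) / Lower.mlt Fam := by ring
    _ ≤ _ := by
      rw [div_le_iff₀ hmlt, mul_comm _ (Lower.mlt Fam : ℝ)]
      exact h10

end Pool.Agent.MP_ef0d6f_pr
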