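import Pool.Agent.Lib.MP_ef0d6f_pr.Calc2
import Pool.Agent.Lib.MP_ef0d6f_pr.Rates

/-! Task 5a (PlanarPsi): the supermartingale which bounds the probability of survival. -/

namespace Pool.Agent.MP_ef0d6f_pr

variable {d : ℕ}

namespace Planar

theorem sum_lin (p : S d → ℝ) (hs : ∑ s, p s = 1) (L : V d →+ ℝ) (x : V d) :
    ∑ s, p s * L (x + step s) = L x + mean p L := by
  simp only [map_add, mul_add, Finset.sum_add_distrib, ← Finset.sum_mul, hs, one_mul]
  rfl

theorem sum_sq (p : S d → ℝ) (hs : ∑ s, p s = 1) (M : V d →+ ℝ) (hM : mean p M = 0)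
    (x : V d) (m1 : ℝ) :
    ∑ s, p s * (M (x + step s) + m1) ^ 2 =
      (M x + m1) ^ 2 + ∑ s, p s * (M (step s)) ^ 2 := by
  have h1 : ∀ s : S d, p s * (M (x + step s) + m1) ^ 2 =
      p s * (M x + m1) ^ 2 + p s * M (step s) * (2 * (M x + m1)) + p s * (M (step s)) ^ 2 := by
    intro s
    rw [map_add]
    ring
  simp only [h1, Finset.sum_add_distrib, ← Finset.sum_mul, hs, one_mul]
  have h2 : ∑ s, p s * M (step s) = 0 := hM
  rw [h2]
  ring

theorem sum_exp (p : S d → ℝ) (L : V d →+ ℝ) (κ ρ : ℝ)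
    (h : ∑ s, p s * Real.exp (-κ * L (step s)) ≤ ρ) (x : V d) :
    ∑ s, p s * Real.exp (-κ * L (x + step s)) ≤ ρ * Real.exp (-κ * L x) := by
  have h1 : ∀ s : S d, p s * Real.exp (-κ * L (x + step s)) =
      p s * Real.exp (-κ * L (step s)) * Real.exp (-κ * L x) := by
    intro s
    rw [map_add, mul_add, Real.exp_add]
    ring
  simp only [h1, ← Finset.sum_mul]
  exact mul_le_mul_of_nonneg_right h (Real.exp_pos _).le

theorem exists_bound (L : V d →+ ℝ) : ∃ D : ℝ, 0 < D ∧ ∀ s : S d, |L (step s)| ≤ D := by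
  refine ⟨1 + ∑ s : S d, |L (step s)|, ?_, fun s => ?_⟩
  · have : 0 ≤ ∑ s : S d, |L (step s)| := Finset.sum_nonneg fun s _ => abs_nonneg _
    linarith
  · have : |L (step s)| ≤ ∑ s : S d, |L (step s)| :=
      Finset.single_le_sum (f := fun s : S d => |L (step s)|) (fun s _ => abs_nonneg _)
        (Finset.mem_univ s)
    linarith

end Planar

open Planar in
/-- The supermartingale which bounds the probability of survival from above. -/
theorem exists_psi (p : S d → ℝ) (hp : ∀ s, 0 < p s) (hs : ∑ s, p s = 1) (M L : V d →+ ℝ)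
    (hM : mean p M = 0) (hL : 0 < mean p L) (hM0 : ∃ s, M (step s) ≠ 0) :
    ∃ D C ν0 : ℝ, 0 < D ∧ 0 < C ∧ 1 ≤ ν0 ∧ (∀ s, |M (step s)| ≤ D) ∧ ∀ ν : ℝ, ν0 ≤ ν →
      ∀ m1 : ℝ, D ≤ m1 → ∃ Ψ : V d → ℝ,
        (∀ x, -D ≤ M x + m1 → 0 ≤ Ψ x) ∧
        (∀ x, 0 < M x + m1 → ν ≤ L x → 1 ≤ Ψ x) ∧
        (∀ x, 0 < M x + m1 → ∑ s, p s * Ψ (x + step s) ≤ Ψ x) ∧
        Ψ 0 ≤ C * m1 / Real.sqrt ν := by
  obtain ⟨κ, hκ, hκ1⟩ := exp_rate p hp hs L hL
  obtain ⟨D, hD, hDM⟩ := exists_bound M
  set σ2 : ℝ := ∑ s, p s * (M (step s)) ^ 2 with hσ2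
  have hσ : 0 < σ2 := by
    obtain ⟨s0, hs0⟩ := hM0
    have h1 : p s0 * (M (step s0)) ^ 2 ≤ σ2 :=
      Finset.single_le_sum (f := fun s : S d => p s * (M (step s)) ^ 2)
        (fun s _ => mul_nonneg (hp s).le (sq_nonneg _)) (Finset.mem_univ s0)
    have h2 : 0 < p s0 * (M (step s0)) ^ 2 := mul_pos (hp s0) (by positivity)
    linarith
  set v : ℝ := mean p L with hv
  set θ : ℝ := σ2 / v with hθ
  have hθ0 : 0 < θ := div_pos hσ hL
  have hθv : θ * v = σ2 := div_mul_cancel₀ _ hL.ne'
  set c0 : ℝ := Real.sqrt (θ / 2) with hc0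
  have hc0p : 0 < c0 := Real.sqrt_pos.2 (by positivity)
  refine ⟨D, 10 / c0 + 2 / (κ * D) + 1 / c0, 1, hD, by positivity, le_refl _, hDM, ?_⟩
  intro ν hν m1 hm1
  have hν0 : 0 < ν := by linarith
  have hm1p : 0 < m1 := by linarith
  set r : ℝ := c0 * Real.sqrt ν with hr
  have hsν : 0 < Real.sqrt ν := Real.sqrt_pos.2 hν0
  have hsν1 : 1 ≤ Real.sqrt ν := Real.one_le_sqrt.2 hν
  have hrp : 0 < r := mul_pos hc0p hsν
  have hr2 : r ^ 2 = θ * ν / 2 := by
    rw [hr, mul_pow, hc0, Real.sq_sqrt (by positivity), Real.sq_sqrt hν0.le]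
    ring
  set ψ : V d → ℝ := fun x => 5 * (M x + m1 + D) / r +
    (θ * L x - (M x + m1) ^ 2 + θ / κ * Real.exp (-κ * L x) + D ^ 2) / r ^ 2 with hψ
  set Ψ : V d → ℝ := fun x => if M x + m1 < r then min (ψ x) 1 else 1 with hΨ
  have hexp : ∀ x : V d, 0 ≤ θ * L x + θ / κ * Real.exp (-κ * L x) := by
    intro x
    have h1 := Real.add_one_le_exp (-κ * L x)
    have h2 : θ / κ * (-κ * L x) ≤ θ / κ * Real.exp (-κ * L x) :=
      mul_le_mul_of_nonneg_left (by linarith) (by positivity)
    have h3 : θ / κ * (-κ * L x) = -(θ * L x) := by field_simp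
    linarith
  have hlow : ∀ x : V d, (M x + m1 + D) * (5 * r + D - (M x + m1)) / r ^ 2 ≤ ψ x := by
    intro x
    have h1 : (M x + m1 + D) * (5 * r + D - (M x + m1)) / r ^ 2 =
        5 * (M x + m1 + D) / r + (-(M x + m1) ^ 2 + D ^ 2) / r ^ 2 := by
      field_simp
      ring
    rw [h1, hψ]
    have h2 : (-(M x + m1) ^ 2 + D ^ 2) / r ^ 2 ≤
        (θ * L x - (M x + m1) ^ 2 + θ / κ * Real.exp (-κ * L x) + D ^ 2) / r ^ 2 := by
      apply div_le_div_of_nonneg_right _ (by positivity)
      linarith [hexp x]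
    simp only
    linarith
  have hle1 : ∀ x, Ψ x ≤ 1 := by
    intro x
    simp only [hΨ]
    split_ifs
    · exact min_le_right _ _
    · exact le_refl _
  refine ⟨Ψ, ?_, ?_, ?_, ?_⟩
  · intro x hx
    simp only [hΨ]
    split_ifs with h
    · refine le_min (le_trans ?_ (hlow x)) zero_le_one
      apply div_nonneg _ (by positivity)
      apply mul_nonneg
      · linarith
      · linarith
    · exact zero_le_one
  · intro x hx hLx
    simp only [hΨ]
    split_ifs with h
    · refine le_min ?_ (le_refl _)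
      simp only [hψ]
      have h1 : 0 ≤ 5 * (M x + m1 + D) / r := by
        apply div_nonneg _ hrp.le
        linarith
      have h2 : 1 ≤ (θ * L x - (M x + m1) ^ 2 + θ / κ * Real.exp (-κ * L x) + D ^ 2) / r ^ 2 := by
        rw [le_div_iff₀ (by positivity), one_mul]
        have h3 : θ * ν ≤ θ * L x := mul_le_mul_of_nonneg_left hLx hθ0.le
        have h4 : (M x + m1) ^ 2 ≤ r ^ 2 := by
          apply pow_le_pow_left₀ hx.le h.le
        have h5 : 0 ≤ θ / κ * Real.exp (-κ * L x) := by positivity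
        have h6 : 0 ≤ D ^ 2 := sq_nonneg D
        linarith
      linarith
    · exact le_refl _
  · intro x hx
    have hsum1 : ∑ s, p s * Ψ (x + step s) ≤ 1 := by
      calc ∑ s, p s * Ψ (x + step s) ≤ ∑ s, p s * 1 :=
            Finset.sum_le_sum fun s _ => mul_le_mul_of_nonneg_left (hle1 _) (hp s).le
        _ = 1 := by simp [hs]
    by_cases h : M x + m1 < r
    · have hΨx : Ψ x = min (ψ x) 1 := by simp only [hΨ, if_pos h]
      rw [hΨx]
      refine le_min ?_ hsum1
      have hstep : ∀ s : S d, Ψ (x + step s) ≤ ψ (x + step s) := by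
        intro s
        by_cases h' : M (x + step s) + m1 < r
        · have : Ψ (x + step s) = min (ψ (x + step s)) 1 := by simp only [hΨ, if_pos h']
          rw [this]
          exact min_le_left _ _
        · have : Ψ (x + step s) = 1 := by simp only [hΨ, if_neg h']
          rw [this]
          refine le_trans ?_ (hlow _)
          rw [le_div_iff₀ (by positivity), one_mul]
          push Not at h'
          have h1 : M (x + step s) + m1 < r + D := by
            rw [map_add]
            have := (abs_le.1 (hDM s)).2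
            linarith
          have h2 : r ≤ M (x + step s) + m1 + D := by linarith
          have h3 : r ≤ 5 * r + D - (M (x + step s) + m1) := by linarith
          calc r ^ 2 = r * r := sq r
            _ ≤ (M (x + step s) + m1 + D) * (5 * r + D - (M (x + step s) + m1)) :=
              mul_le_mul h2 h3 hrp.le (by linarith)
      calc ∑ s, p s * Ψ (x + step s) ≤ ∑ s, p s * ψ (x + step s) :=
            Finset.sum_le_sum fun s _ => mul_le_mul_of_nonneg_left (hstep s) (hp s).le
        _ ≤ ψ x := by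
          have e1 : ∑ s, p s * ψ (x + step s) =
              5 / r * ∑ s, p s * (M (x + step s)) + 5 / r * (m1 + D) * ∑ s, p s +
              θ / r ^ 2 * ∑ s, p s * L (x + step s) -
              1 / r ^ 2 * ∑ s, p s * (M (x + step s) + m1) ^ 2 +
              θ / κ / r ^ 2 * ∑ s, p s * Real.exp (-κ * L (x + step s)) +
              D ^ 2 / r ^ 2 * ∑ s, p s := by
            simp only [hψ, Finset.mul_sum, ← Finset.sum_add_distrib, ← Finset.sum_sub_distrib]
            refine Finset.sum_congr rfl fun s _ => ?_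
            ring
          rw [e1, sum_lin p hs M x, sum_lin p hs L x, sum_sq p hs M hM x m1, hs, hM]
          have e2 := sum_exp p L κ 1 hκ1.le x
          have e3 : θ / κ / r ^ 2 * ∑ s, p s * Real.exp (-κ * L (x + step s)) ≤
              θ / κ / r ^ 2 * (1 * Real.exp (-κ * L x)) :=
            mul_le_mul_of_nonneg_left e2 (by positivity)
          have e4 : θ / r ^ 2 * (L x + v) = θ / r ^ 2 * L x + σ2 / r ^ 2 := by
            rw [mul_add, ← hθv]
            ring
          rw [← hv, e4, ← hσ2]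
          have e5 : ψ x = 5 / r * (M x + 0) + 5 / r * (m1 + D) * 1 +
              (θ / r ^ 2 * L x + σ2 / r ^ 2) - 1 / r ^ 2 * ((M x + m1) ^ 2 + σ2) +
              θ / κ / r ^ 2 * (1 * Real.exp (-κ * L x)) + D ^ 2 / r ^ 2 * 1 := by
            simp only [hψ]
            ring
          rw [e5]
          linarith
    · have hΨx : Ψ x = 1 := by simp only [hΨ, if_neg h]
      rw [hΨx]
      exact hsum1
  · have hC1 : m1 / r = 1 / c0 * m1 / Real.sqrt ν := by
      rw [hr]
      field_simp
    have hCn : (0 : ℝ) ≤ m1 / Real.sqrt ν := by positivity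
    have hCeq : (10 / c0 + 2 / (κ * D) + 1 / c0) * m1 / Real.sqrt ν =
        10 / c0 * m1 / Real.sqrt ν + 2 / (κ * D) * m1 / Real.sqrt ν +
          1 / c0 * m1 / Real.sqrt ν := by ring
    have hn1 : 0 ≤ 10 / c0 * m1 / Real.sqrt ν := by positivity
    have hn2 : 0 ≤ 2 / (κ * D) * m1 / Real.sqrt ν := by positivity
    have hn3 : 0 ≤ 1 / c0 * m1 / Real.sqrt ν := by positivity
    by_cases h : M 0 + m1 < r
    · have hΨx : Ψ 0 = min (ψ 0) 1 := by simp only [hΨ, if_pos h]
      rw [hΨx]
      refine le_trans (min_le_left _ _) ?_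
      rw [hCeq]
      simp only [hψ, map_zero, mul_zero, Real.exp_zero, zero_add]
      have h1 : 5 * (m1 + D) / r ≤ 10 / c0 * m1 / Real.sqrt ν := by
        have e1 : 10 / c0 * m1 / Real.sqrt ν = 10 * m1 / r := by
          rw [hr]
          field_simp
        rw [e1]
        apply div_le_div_of_nonneg_right _ hrp.le
        linarith
      have h2 : (0 - m1 ^ 2 + θ / κ * 1 + D ^ 2) / r ^ 2 ≤ 2 / (κ * D) * m1 / Real.sqrt ν := by
        have e1 : (0 - m1 ^ 2 + θ / κ * 1 + D ^ 2) / r ^ 2 ≤ (θ / κ) / r ^ 2 := by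
          apply div_le_div_of_nonneg_right _ (by positivity)
          have : D ^ 2 ≤ m1 ^ 2 := pow_le_pow_left₀ hD.le hm1 2
          linarith
        have e2 : (θ / κ) / r ^ 2 = 2 / κ / ν := by
          rw [hr2]
          field_simp
        have e3 : 2 / κ / ν ≤ 2 / κ / Real.sqrt ν := by
          apply div_le_div_of_nonneg_left (by positivity) hsν
          calc Real.sqrt ν ≤ Real.sqrt ν * Real.sqrt ν := by
                nlinarith
            _ = ν := Real.mul_self_sqrt hν0.le
        have e4 : 2 / κ / Real.sqrt ν ≤ 2 / (κ * D) * m1 / Real.sqrt ν := by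
          apply div_le_div_of_nonneg_right _ hsν.le
          have : 2 / (κ * D) * m1 = 2 / κ * (m1 / D) := by field_simp
          rw [this]
          have h5 : 1 ≤ m1 / D := (one_le_div hD).2 hm1
          have h6 : 0 < 2 / κ := by positivity
          nlinarith
        linarith
      linarith
    · have hΨx : Ψ 0 = 1 := by simp only [hΨ, if_neg h]
      rw [hΨx, hCeq]
      push Not at h
      rw [map_zero, zero_add] at h
      have h1 : 1 ≤ m1 / r := (one_le_div hrp).2 h
      rw [hC1] at h1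
      linarith

end Pool.Agent.MP_ef0d6f_pr
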