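import Pool.Agent.Lib.MP_ef0d6f_pr.Calc2
import Pool.Agent.Lib.MP_ef0d6f_pr.Rates
import Pool.Agent.Lib.MP_ef0d6f_pr.PlanarPsi

/-! Task 5 (Planar): a walk with two coordinates, `M` of mean zero and `L` of positive mean,
reaches `L ≥ ν` with `M > -m1` and `L > -l0` all the time, and `M ≥ ε √ν` at the end, with
probability at least `c m1 / √ν`. -/

namespace Pool.Agent.MP_ef0d6f_pr

open Filter Topology

variable {d : ℕ}

namespace Planar

/-- the square of the positive part decreases at most linearly -/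
theorem sq_pos_part_le (z u : ℝ) :
    (max (z - u) 0) ^ 2 ≤ (max z 0) ^ 2 - 2 * (max z 0) * u + u ^ 2 := by
  rcases le_total (z - u) 0 with h | h
  · rw [max_eq_right h]
    nlinarith [sq_nonneg (max z 0 - u)]
  · rw [max_eq_left h]
    rcases le_total z 0 with h' | h'
    · rw [max_eq_right h']
      nlinarith
    · rw [max_eq_left h']
      nlinarith

theorem hit_of_G (p : S d → ℝ) (G D : V d → Prop) (T : ℕ) (x : V d) (h : G x) :
    hit p G D T x = 1 := by
  cases T with
  | zero => simp only [hit, if_pos h]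
  | succ T => simp only [hit, if_pos h]

theorem hit_of_alive (p : S d → ℝ) (G D : V d → Prop) (T : ℕ) (x : V d) (h : ¬ G x)
    (h' : ¬ D x) : hit p G D (T + 1) x = ∑ s : S d, p s * hit p G D T (x + step s) := by
  simp only [hit, if_neg h, if_neg h']

theorem sum_mul_mono (p : S d → ℝ) (hp : ∀ s, 0 < p s) {F G : S d → ℝ}
    (h : ∀ s, F s ≤ G s) : ∑ s, p s * F s ≤ ∑ s, p s * G s :=
  Finset.sum_le_sum fun s _ => mul_le_mul_of_nonneg_left (h s) (hp s).le

end Planar

open Planar in
/-- From `M ≥ K √ν` the walk reaches `L ≥ ν` with `M > ε √ν` all the time, with probability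
at least `3/4` minus the probability of a visit to `L ≤ -l0`. -/
theorem stage_two (p : S d → ℝ) (hp : ∀ s, 0 < p s) (hs : ∑ s, p s = 1) (M L : V d →+ ℝ)
    (hM : mean p M = 0) (hL : 0 < mean p L) (κ ρ : ℝ) (hκ : 0 < κ)
    (hρ : ∑ s, p s * Real.exp (-κ * L (step s)) ≤ ρ) (hρ1 : ρ < 1) :
    ∃ K D : ℝ, 1 ≤ K ∧ 0 < D ∧ ∀ l0 : ℝ, 0 < l0 → ∃ ν0 : ℝ, 1 ≤ ν0 ∧ ∀ ν : ℝ, ν0 ≤ ν →
      ∀ ε m1 : ℝ, 0 < ε → ε ≤ 1 → 0 < m1 → ∀ T : ℕ, ∀ x : V d, K * Real.sqrt ν ≤ M x →
        -l0 < L x → L x < ν + D →
        3 / 4 - Real.exp (-κ * (L x + l0)) - ρ ^ T * Real.exp (κ * (ν + D - L x)) ≤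
          hit p (fun y => ν ≤ L y ∧ ε * Real.sqrt ν ≤ M y)
            (fun y => M y ≤ -m1 ∨ L y ≤ -l0 ∨ ν ≤ L y) T x := by
  obtain ⟨D1, hD1, hDM⟩ := exists_bound M
  obtain ⟨D2, hD2, hDL⟩ := exists_bound L
  set D : ℝ := max D1 D2 with hDdef
  have hD : 0 < D := lt_of_lt_of_le hD1 (le_max_left _ _)
  have hDM' : ∀ s : S d, |M (step s)| ≤ D := fun s => (hDM s).trans (le_max_left _ _)
  have hDL' : ∀ s : S d, |L (step s)| ≤ D := fun s => (hDL s).trans (le_max_right _ _)
  set v : ℝ := mean p L with hv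
  have hρ0 : 0 ≤ ρ := le_trans (Finset.sum_nonneg fun s _ =>
    mul_nonneg (hp s).le (Real.exp_pos _).le) hρ
  set K : ℝ := 2 + 8 * D ^ 2 / v with hK
  have hK2 : 2 ≤ K := by
    have : 0 ≤ 8 * D ^ 2 / v := by positivity
    linarith
  refine ⟨K, D, by linarith, hD, ?_⟩
  intro l0 hl0
  refine ⟨1 + D + l0, by linarith, ?_⟩
  intro ν hν ε m1 hε hε1 hm1 T x hMx hLx1 hLx2
  have hν0 : 0 < ν := by linarith
  have hsν : 0 < Real.sqrt ν := Real.sqrt_pos.2 hν0
  set R : ℝ := K * Real.sqrt ν with hR
  set G : V d → Prop := fun y => ν ≤ L y ∧ ε * Real.sqrt ν ≤ M y with hG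
  set E : V d → Prop := fun y => M y ≤ -m1 ∨ L y ≤ -l0 ∨ ν ≤ L y with hE
  set q : ℝ := R - ε * Real.sqrt ν with hq
  have hεν : ε * Real.sqrt ν ≤ Real.sqrt ν := by
    calc ε * Real.sqrt ν ≤ 1 * Real.sqrt ν := mul_le_mul_of_nonneg_right hε1 hsν.le
      _ = Real.sqrt ν := one_mul _
  have hεν0 : 0 < ε * Real.sqrt ν := mul_pos hε hsν
  have hqK : (K - 1) * Real.sqrt ν ≤ q := by
    rw [hq, hR]
    linarith
  have hqp : 0 < q := lt_of_lt_of_le (mul_pos (by linarith) hsν) hqK
  set φ : V d → ℝ := fun y => 1 - ((max (R - M y) 0) ^ 2 + D ^ 2 / v * (ν + D - L y)) / q ^ 2 -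
    Real.exp (-κ * (L y + l0)) with hφ
  have hφ1 : ∀ y, L y < ν + D → φ y ≤ 1 := by
    intro y hy
    have h1 : 0 ≤ ((max (R - M y) 0) ^ 2 + D ^ 2 / v * (ν + D - L y)) / q ^ 2 := by
      apply div_nonneg _ (by positivity)
      have : 0 ≤ D ^ 2 / v * (ν + D - L y) := mul_nonneg (by positivity) (by linarith)
      positivity
    have h2 : 0 < Real.exp (-κ * (L y + l0)) := Real.exp_pos _
    simp only [hφ]
    linarith
  have hφM : ∀ y, L y < ν + D → M y ≤ ε * Real.sqrt ν → φ y ≤ 0 := by
    intro y hy hMy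
    have h1 : 1 ≤ ((max (R - M y) 0) ^ 2 + D ^ 2 / v * (ν + D - L y)) / q ^ 2 := by
      rw [le_div_iff₀ (by positivity), one_mul]
      have h2 : 0 ≤ D ^ 2 / v * (ν + D - L y) := mul_nonneg (by positivity) (by linarith)
      have h3 : q ≤ max (R - M y) 0 := le_trans (by rw [hq]; linarith) (le_max_left _ _)
      have h4 : q ^ 2 ≤ (max (R - M y) 0) ^ 2 := pow_le_pow_left₀ hqp.le h3 2
      linarith
    have h2 : 0 < Real.exp (-κ * (L y + l0)) := Real.exp_pos _
    simp only [hφ]
    linarith
  have hφE : ∀ y, L y < ν + D → ¬ G y → E y → φ y ≤ 0 := by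
    intro y hy hGy hEy
    rcases hEy with h | h | h
    · exact hφM y hy (by linarith)
    · have h1 : 0 ≤ ((max (R - M y) 0) ^ 2 + D ^ 2 / v * (ν + D - L y)) / q ^ 2 := by
        apply div_nonneg _ (by positivity)
        have : 0 ≤ D ^ 2 / v * (ν + D - L y) := mul_nonneg (by positivity) (by linarith)
        positivity
      have h2 : 1 ≤ Real.exp (-κ * (L y + l0)) := by
        apply Real.one_le_exp
        have h3 : 0 ≤ κ * (-(L y + l0)) := mul_nonneg hκ.le (by linarith)
        linarith
      simp only [hφ]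
      linarith
    · apply hφM y hy
      by_contra hcon
      push Not at hcon
      exact hGy ⟨h, hcon.le⟩
  have hsub : ∀ y, φ y ≤ ∑ s, p s * φ (y + step s) := by
    intro y
    have e1 : ∑ s, p s * φ (y + step s) =
        ∑ s, p s - 1 / q ^ 2 * ∑ s, p s * (max (R - M (y + step s)) 0) ^ 2 -
          D ^ 2 / v / q ^ 2 * (ν + D) * ∑ s, p s +
          D ^ 2 / v / q ^ 2 * ∑ s, p s * L (y + step s) -
          Real.exp (-κ * l0) * ∑ s, p s * Real.exp (-κ * L (y + step s)) := by
      simp only [Finset.mul_sum, ← Finset.sum_add_distrib, ← Finset.sum_sub_distrib]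
      refine Finset.sum_congr rfl fun s _ => ?_
      have e2 : Real.exp (-κ * (L (y + step s) + l0)) =
          Real.exp (-κ * l0) * Real.exp (-κ * L (y + step s)) := by
        rw [← Real.exp_add]
        congr 1
        ring
      simp only [hφ]
      rw [e2]
      ring
    have e3 : ∑ s, p s * (max (R - M (y + step s)) 0) ^ 2 ≤ (max (R - M y) 0) ^ 2 + D ^ 2 := by
      have h1 : ∀ s : S d, (max (R - M (y + step s)) 0) ^ 2 ≤
          (max (R - M y) 0) ^ 2 - 2 * (max (R - M y) 0) * M (step s) + D ^ 2 := by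
        intro s
        rw [map_add]
        have h2 := sq_pos_part_le (R - M y) (M (step s))
        have h3 : R - (M y + M (step s)) = R - M y - M (step s) := by ring
        rw [h3]
        have h4 : M (step s) ^ 2 ≤ D ^ 2 := by
          rw [← sq_abs]
          exact pow_le_pow_left₀ (abs_nonneg _) (hDM' s) 2
        linarith
      refine (sum_mul_mono p hp h1).trans ?_
      have h5 : ∑ s, p s * ((max (R - M y) 0) ^ 2 - 2 * (max (R - M y) 0) * M (step s) + D ^ 2) =
          (max (R - M y) 0) ^ 2 * ∑ s, p s - 2 * (max (R - M y) 0) * ∑ s, p s * M (step s) +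
            D ^ 2 * ∑ s, p s := by
        simp only [Finset.mul_sum, ← Finset.sum_add_distrib, ← Finset.sum_sub_distrib]
        refine Finset.sum_congr rfl fun s _ => ?_
        ring
      have h6 : ∑ s, p s * M (step s) = 0 := hM
      rw [h5, h6, hs]
      linarith
    have e4 := sum_exp p L κ ρ hρ y
    rw [e1, sum_lin p hs L y, hs, ← hv]
    have e5 : Real.exp (-κ * l0) * ∑ s, p s * Real.exp (-κ * L (y + step s)) ≤
        Real.exp (-κ * (L y + l0)) := by
      have h1 : Real.exp (-κ * (L y + l0)) = Real.exp (-κ * l0) * Real.exp (-κ * L y) := by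
        rw [← Real.exp_add]
        congr 1
        ring
      rw [h1]
      apply mul_le_mul_of_nonneg_left _ (Real.exp_pos _).le
      refine e4.trans ?_
      have : 0 < Real.exp (-κ * L y) := Real.exp_pos _
      exact mul_le_of_le_one_left this.le hρ1.le
    have e6 : 1 / q ^ 2 * ∑ s, p s * (max (R - M (y + step s)) 0) ^ 2 ≤
        1 / q ^ 2 * ((max (R - M y) 0) ^ 2 + D ^ 2) :=
      mul_le_mul_of_nonneg_left e3 (by positivity)
    have e7 : D ^ 2 / v / q ^ 2 * (L y + v) = D ^ 2 / v / q ^ 2 * L y + D ^ 2 / q ^ 2 := by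
      have : D ^ 2 / v / q ^ 2 * v = D ^ 2 / q ^ 2 := by
        field_simp
      rw [mul_add, this]
    rw [e7]
    have e8 : φ y = 1 - 1 / q ^ 2 * ((max (R - M y) 0) ^ 2 + D ^ 2) -
        D ^ 2 / v / q ^ 2 * (ν + D) * 1 + (D ^ 2 / v / q ^ 2 * L y + D ^ 2 / q ^ 2) -
        Real.exp (-κ * (L y + l0)) := by
      simp only [hφ]
      ring
    rw [e8]
    linarith
  have hmain : ∀ T : ℕ, ∀ y : V d, L y < ν + D →
      φ y ≤ hit p G E T y + ρ ^ T * Real.exp (κ * (ν + D - L y)) := by
    intro T
    induction T with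
    | zero =>
      intro y hy
      have h1 : 0 ≤ hit p G E 0 y := hit_nonneg p (fun s => (hp s).le) G E 0 y
      have h2 : 1 ≤ Real.exp (κ * (ν + D - L y)) :=
        Real.one_le_exp (mul_nonneg hκ.le (by linarith))
      have h3 := hφ1 y hy
      rw [pow_zero, one_mul]
      linarith
    | succ T ih =>
      intro y hy
      have h0 : 0 ≤ ρ ^ (T + 1) * Real.exp (κ * (ν + D - L y)) := by positivity
      by_cases hGy : G y
      · rw [hit_of_G p G E _ y hGy]
        have := hφ1 y hy
        linarith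
      · by_cases hEy : E y
        · have h1 : 0 ≤ hit p G E (T + 1) y := hit_nonneg p (fun s => (hp s).le) G E _ y
          have h2 := hφE y hy hGy hEy
          linarith
        · rw [hit_of_alive p G E T y hGy hEy]
          have hLy : L y < ν := by
            by_contra hcon
            push Not at hcon
            exact hEy (Or.inr (Or.inr hcon))
          refine (hsub y).trans ?_
          have h1 : ∀ s : S d, φ (y + step s) ≤ hit p G E T (y + step s) +
              ρ ^ T * Real.exp (κ * (ν + D - L (y + step s))) := by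
            intro s
            apply ih
            rw [map_add]
            have := (abs_le.1 (hDL' s)).2
            linarith
          refine (sum_mul_mono p hp h1).trans ?_
          have h2 : ∑ s, p s * (hit p G E T (y + step s) +
              ρ ^ T * Real.exp (κ * (ν + D - L (y + step s)))) =
              ∑ s, p s * hit p G E T (y + step s) +
                ρ ^ T * Real.exp (κ * (ν + D)) * ∑ s, p s * Real.exp (-κ * L (y + step s)) := by
            simp only [Finset.mul_sum, ← Finset.sum_add_distrib]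
            refine Finset.sum_congr rfl fun s _ => ?_
            have e2 : Real.exp (κ * (ν + D - L (y + step s))) =
                Real.exp (κ * (ν + D)) * Real.exp (-κ * L (y + step s)) := by
              rw [← Real.exp_add]
              congr 1
              ring
            rw [e2]
            ring
          rw [h2]
          have h3 := sum_exp p L κ ρ hρ y
          have h4 : ρ ^ T * Real.exp (κ * (ν + D)) * ∑ s, p s * Real.exp (-κ * L (y + step s)) ≤
              ρ ^ T * Real.exp (κ * (ν + D)) * (ρ * Real.exp (-κ * L y)) :=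
            mul_le_mul_of_nonneg_left h3 (by positivity)
          have h5 : ρ ^ T * Real.exp (κ * (ν + D)) * (ρ * Real.exp (-κ * L y)) =
              ρ ^ (T + 1) * Real.exp (κ * (ν + D - L y)) := by
            have e2 : Real.exp (κ * (ν + D - L y)) =
                Real.exp (κ * (ν + D)) * Real.exp (-κ * L y) := by
              rw [← Real.exp_add]
              congr 1
              ring
            rw [e2, pow_succ]
            ring
          linarith
  have hfin := hmain T x hLx2
  have hφx : 3 / 4 - Real.exp (-κ * (L x + l0)) ≤ φ x := by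
    have h1 : max (R - M x) 0 = 0 := max_eq_right (by linarith)
    have h2 : (0 ^ 2 + D ^ 2 / v * (ν + D - L x)) / q ^ 2 ≤ 1 / 4 := by
      rw [div_le_iff₀ (by positivity)]
      have h3 : ν + D - L x ≤ 2 * ν := by linarith
      have h4 : D ^ 2 / v * (ν + D - L x) ≤ D ^ 2 / v * (2 * ν) :=
        mul_le_mul_of_nonneg_left h3 (by positivity)
      have h5 : ((K - 1) * Real.sqrt ν) ^ 2 ≤ q ^ 2 :=
        pow_le_pow_left₀ (mul_nonneg (by linarith) hsν.le) hqK 2
      rw [mul_pow, Real.sq_sqrt hν0.le] at h5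
      have h6 : 8 * D ^ 2 / v ≤ (K - 1) ^ 2 := by
        have e : K - 1 = 1 + 8 * D ^ 2 / v := by rw [hK]; ring
        rw [e]
        have : 0 ≤ 8 * D ^ 2 / v := by positivity
        have h' : (1 + 8 * D ^ 2 / v) ^ 2 = 1 + 2 * (8 * D ^ 2 / v) + (8 * D ^ 2 / v) ^ 2 := by ring
        rw [h']
        have h'' : 0 ≤ (8 * D ^ 2 / v) ^ 2 := sq_nonneg _
        linarith
      have h7 : 8 * D ^ 2 / v * ν ≤ (K - 1) ^ 2 * ν := mul_le_mul_of_nonneg_right h6 hν0.le
      have h8 : D ^ 2 / v * (2 * ν) = 1 / 4 * (8 * D ^ 2 / v * ν) := by ring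
      have h9 : (0 : ℝ) ^ 2 = 0 := by norm_num
      rw [h9, zero_add]
      linarith
    simp only [hφ]
    rw [h1]
    linarith
  linarith

open Planar in
/-- The planar lemma. -/
theorem planar (p : S d → ℝ) (hp : ∀ s, 0 < p s) (hs : ∑ s, p s = 1) (M L : V d →+ ℝ)
    (hM : mean p M = 0) (hL : 0 < mean p L) (hM0 : ∃ s, M (step s) ≠ 0) :
    ∃ m0 l0 ε c C ν0 : ℝ, 0 < m0 ∧ 0 < l0 ∧ 0 < ε ∧ ε ≤ 1 ∧ 0 < c ∧ 0 < C ∧ 1 ≤ ν0 ∧
      ∀ ν : ℝ, ν0 ≤ ν → ∀ m1 : ℝ, m0 ≤ m1 → m1 ≤ ε * Real.sqrt ν → ∀ T : ℕ, C * ν ≤ T →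
        c * m1 / Real.sqrt ν ≤
          hit p (fun y => ν ≤ L y ∧ ε * Real.sqrt ν ≤ M y)
            (fun y => M y ≤ -m1 ∨ L y ≤ -l0 ∨ ν ≤ L y) T 0 := by
  obtain ⟨κ, hκ, hκ1⟩ := exp_rate p hp hs L hL
  set ρ : ℝ := ∑ s, p s * Real.exp (-κ * L (step s)) with hρ
  have hρ0 : 0 < ρ := by
    have hne : Nonempty (S d) := by
      by_contra hcon
      rw [not_nonempty_iff] at hcon
      simp at hs
    exact Finset.sum_pos (fun s _ => mul_pos (hp s) (Real.exp_pos _)) Finset.univ_nonempty
  obtain ⟨D1, C1, ν1, hD1, hC1, hν1, hDM, hpsi⟩ := exists_psi p hp hs M L hM hL hM0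
  obtain ⟨K, D2, hK, hD2, hst⟩ := stage_two p hp hs M L hM hL κ ρ hκ le_rfl hκ1
  obtain ⟨D3, hD3, hDL⟩ := exists_bound L
  set Dm : ℝ := D2 + D3 with hDm
  have h1ρ : 0 < 1 - ρ := by linarith
  set B : ℝ := D1 * Real.exp (κ * D3) / (1 - ρ) with hB
  have hBρ : B * (1 - ρ) = D1 * Real.exp (κ * D3) := div_mul_cancel₀ _ h1ρ.ne'
  have hBD : D1 ≤ B := by
    rw [hB, le_div_iff₀ h1ρ]
    have h1 : 1 ≤ Real.exp (κ * D3) := Real.one_le_exp (by positivity)
    exact mul_le_mul_of_nonneg_left (by linarith) hD1.le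
  have hB0 : 0 < B := lt_of_lt_of_le hD1 hBD
  set l0 : ℝ := Real.log 8 / κ with hl0
  have hl0p : 0 < l0 := div_pos (Real.log_pos (by norm_num)) hκ
  have hl08 : Real.exp (-κ * l0) = 1 / 8 := by
    have : -κ * l0 = -Real.log 8 := by
      rw [hl0]
      field_simp
    rw [this, Real.exp_neg, Real.exp_log (by norm_num)]
    norm_num
  obtain ⟨ν2, hν2, hst2⟩ := hst l0 hl0p
  set ε : ℝ := min 1 (1 / (8 * C1)) with hε
  have hε0 : 0 < ε := lt_min one_pos (by positivity)
  have hε1 : ε ≤ 1 := min_le_left _ _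
  have hεC : ε * C1 ≤ 1 / 8 := by
    have h1 : ε ≤ 1 / (8 * C1) := min_le_right _ _
    have h2 : ε * C1 ≤ 1 / (8 * C1) * C1 := mul_le_mul_of_nonneg_right h1 hC1.le
    have h3 : 1 / (8 * C1) * C1 = 1 / 8 := by field_simp
    linarith
  have hlogρ : 0 < -Real.log ρ := by
    have := Real.log_neg hρ0 hκ1
    linarith
  set C' : ℝ := 2 * κ / (-Real.log ρ) with hC'
  have hC'0 : 0 < C' := div_pos (by positivity) hlogρ
  set W : ℝ := 64 * (K + 2) * Real.exp (κ * (Dm + l0)) / (κ ^ 2 * B) with hW
  have hW0 : 0 < W := by positivity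
  refine ⟨B, l0, ε, 1 / (16 * (K + 2)), 2 * C' + 2, ν1 + ν2 + D1 ^ 2 + W, hB0, hl0p, hε0, hε1,
    by positivity, by positivity, ?_, ?_⟩
  · have : 0 ≤ D1 ^ 2 := sq_nonneg _
    linarith
  intro ν hν m1 hm1 hm1ε T hT
  have hD1sq : 0 ≤ D1 ^ 2 := sq_nonneg _
  have hνν1 : ν1 ≤ ν := by linarith
  have hνν2 : ν2 ≤ ν := by linarith
  have hν1' : 1 ≤ ν := by linarith
  have hνW : W ≤ ν := by linarith
  have hνD : D1 ^ 2 ≤ ν := by linarith
  have hν0 : 0 < ν := by linarith
  have hsν : 0 < Real.sqrt ν := Real.sqrt_pos.2 hν0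
  have hsν1 : 1 ≤ Real.sqrt ν := Real.one_le_sqrt.2 hν1'
  have hsνD : D1 ≤ Real.sqrt ν := Real.le_sqrt_of_sq_le hνD
  have hsνν : Real.sqrt ν ≤ ν := by
    calc Real.sqrt ν ≤ Real.sqrt ν * Real.sqrt ν := le_mul_of_one_le_left hsν.le hsν1
      _ = ν := Real.mul_self_sqrt hν0.le
  have hm1p : 0 < m1 := by linarith
  have hm1s : m1 ≤ Real.sqrt ν := by
    refine hm1ε.trans ?_
    calc ε * Real.sqrt ν ≤ 1 * Real.sqrt ν := mul_le_mul_of_nonneg_right hε1 hsν.le
      _ = Real.sqrt ν := one_mul _
  set n : ℕ := ⌈C' * ν⌉₊ with hn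
  have hn1 : C' * ν ≤ n := Nat.le_ceil _
  have hn2 : (n : ℝ) < C' * ν + 1 := Nat.ceil_lt_add_one (by positivity)
  have hnT : n + n ≤ T := by
    have : ((n + n : ℕ) : ℝ) ≤ T := by
      push_cast
      linarith
    exact_mod_cast this
  have hρn : ρ ^ n ≤ Real.exp (-(2 * κ * ν)) := by
    rw [← Real.exp_log hρ0, ← Real.exp_nat_mul]
    apply Real.exp_le_exp.2
    have h1 : C' * ν * (-Real.log ρ) ≤ n * (-Real.log ρ) :=
      mul_le_mul_of_nonneg_right hn1 hlogρ.le
    have h2 : C' * ν * (-Real.log ρ) = 2 * κ * ν := by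
      have h3 : C' * (-Real.log ρ) = 2 * κ := div_mul_cancel₀ _ hlogρ.ne'
      rw [← h3]
      ring
    linarith
  obtain ⟨Ψ, hΨ1, hΨ2, hΨ3, hΨ4⟩ := hpsi ν hνν1 m1 (hBD.trans hm1)
  set G : V d → Prop := fun y => ν ≤ L y ∧ ε * Real.sqrt ν ≤ M y with hG
  set E : V d → Prop := fun y => M y ≤ -m1 ∨ L y ≤ -l0 ∨ ν ≤ L y with hE
  set a : ℝ := 2 * (K * Real.sqrt ν + m1 + D1) with ha
  have ha0 : 0 < a := by positivity
  have haK : a ≤ 2 * (K + 2) * Real.sqrt ν := by
    rw [ha]
    linarith
  set f : V d → ℝ := fun x => (M x + m1) -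
    2 * (M x + m1 + B) * Real.exp (-κ * (L x + l0)) with hf
  have hfle : ∀ x, -D1 ≤ M x + m1 → f x ≤ M x + m1 := by
    intro x hx
    have h1 : 0 ≤ 2 * (M x + m1 + B) * Real.exp (-κ * (L x + l0)) :=
      mul_nonneg (by linarith) (Real.exp_pos _).le
    simp only [hf]
    linarith
  have hfsub : ∀ x, 0 < M x + m1 → f x ≤ ∑ s, p s * f (x + step s) := by
    intro x hx
    have e1 : ∑ s, p s * f (x + step s) =
        ∑ s, p s * M (x + step s) + m1 * ∑ s, p s -
          2 * Real.exp (-κ * (L x + l0)) * ((M x + m1 + B) * ρ +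
            ∑ s, p s * (M (step s) * Real.exp (-κ * L (step s)))) := by
      rw [hρ]
      simp only [mul_add, Finset.mul_sum, ← Finset.sum_add_distrib, ← Finset.sum_sub_distrib]
      refine Finset.sum_congr rfl fun s _ => ?_
      have e2 : Real.exp (-κ * (L (x + step s) + l0)) =
          Real.exp (-κ * (L x + l0)) * Real.exp (-κ * L (step s)) := by
        rw [← Real.exp_add, map_add]
        congr 1
        ring
      simp only [hf]
      rw [e2, map_add]
      ring_nf
    have e2 : ∑ s, p s * (M (step s) * Real.exp (-κ * L (step s))) ≤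
        D1 * Real.exp (κ * D3) := by
      have h1 : ∀ s : S d, M (step s) * Real.exp (-κ * L (step s)) ≤
          D1 * Real.exp (κ * D3) := by
        intro s
        have h2 : Real.exp (-κ * L (step s)) ≤ Real.exp (κ * D3) := by
          apply Real.exp_le_exp.2
          have := (abs_le.1 (hDL s)).1
          have h3 := mul_le_mul_of_nonneg_left this hκ.le
          linarith
        calc M (step s) * Real.exp (-κ * L (step s)) ≤ D1 * Real.exp (-κ * L (step s)) :=
              mul_le_mul_of_nonneg_right (abs_le.1 (hDM s)).2 (Real.exp_pos _).le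
          _ ≤ D1 * Real.exp (κ * D3) := mul_le_mul_of_nonneg_left h2 hD1.le
      refine (sum_mul_mono p hp h1).trans ?_
      rw [← Finset.sum_mul, hs, one_mul]
    rw [e1, sum_lin p hs M x, hs, hM]
    have e3 : (M x + m1 + B) * ρ + ∑ s, p s * (M (step s) * Real.exp (-κ * L (step s))) ≤
        M x + m1 + B := by
      have h1 : (M x + m1) * ρ ≤ M x + m1 := mul_le_of_le_one_right hx.le hκ1.le
      have h2 : B * ρ + D1 * Real.exp (κ * D3) = B := by rw [← hBρ]; ring
      have h3 : (M x + m1 + B) * ρ = (M x + m1) * ρ + B * ρ := by ring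
      linarith
    have e4 : 2 * Real.exp (-κ * (L x + l0)) * ((M x + m1 + B) * ρ +
        ∑ s, p s * (M (step s) * Real.exp (-κ * L (step s)))) ≤
        2 * Real.exp (-κ * (L x + l0)) * (M x + m1 + B) :=
      mul_le_mul_of_nonneg_left e3 (by positivity)
    simp only [hf]
    linarith
  set g : V d → ℝ := fun x => f x - (ε * Real.sqrt ν + m1) * Ψ x with hg
  have hεm : 0 < ε * Real.sqrt ν + m1 := by positivity
  have hgsub : ∀ x, 0 < M x + m1 → g x ≤ ∑ s, p s * g (x + step s) := by
    intro x hx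
    have e1 : ∑ s, p s * g (x + step s) = ∑ s, p s * f (x + step s) -
        (ε * Real.sqrt ν + m1) * ∑ s, p s * Ψ (x + step s) := by
      simp only [Finset.mul_sum, ← Finset.sum_sub_distrib]
      refine Finset.sum_congr rfl fun s _ => ?_
      simp only [hg]
      ring
    have e2 := hfsub x hx
    have e3 := mul_le_mul_of_nonneg_left (hΨ3 x hx) hεm.le
    rw [e1]
    simp only [hg]
    linarith
  set r1 : ℝ := a * ρ ^ n * Real.exp (κ * (ν + Dm + l0)) with hr1
  have hr10 : 0 ≤ r1 := by positivity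
  have hclaim : ∀ T1 : ℕ, ∀ x : V d, -D1 ≤ M x + m1 → M x ≤ K * Real.sqrt ν + D1 →
      L x < ν + D3 → g x ≤ a * hit p G E (T1 + n) x + r1 +
        a * ρ ^ T1 * Real.exp (κ * (ν + Dm - L x)) := by
    intro T1
    induction T1 with
    | zero =>
      intro x hx1 hx2 hx3
      have h1 : 0 ≤ hit p G E (0 + n) x := hit_nonneg p (fun s => (hp s).le) G E _ x
      have h2 : 1 ≤ Real.exp (κ * (ν + Dm - L x)) :=
        Real.one_le_exp (mul_nonneg hκ.le (by linarith))
      have h3 : g x ≤ a := by
        have h4 := hfle x hx1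
        have h5 : 0 ≤ (ε * Real.sqrt ν + m1) * Ψ x := mul_nonneg hεm.le (hΨ1 x hx1)
        simp only [hg]
        have : 0 ≤ K * Real.sqrt ν := by positivity
        linarith
      have h4 : a ≤ a * ρ ^ 0 * Real.exp (κ * (ν + Dm - L x)) := by
        rw [pow_zero, mul_one]
        exact le_mul_of_one_le_right ha0.le h2
      have h5 : 0 ≤ a * hit p G E (0 + n) x := mul_nonneg ha0.le h1
      linarith
    | succ T1 ih =>
      intro x hx1 hx2 hx3
      have hhit0 : 0 ≤ hit p G E (T1 + 1 + n) x := hit_nonneg p (fun s => (hp s).le) G E _ x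
      have hahit0 : 0 ≤ a * hit p G E (T1 + 1 + n) x := mul_nonneg ha0.le hhit0
      have hlast : 0 ≤ a * ρ ^ (T1 + 1) * Real.exp (κ * (ν + Dm - L x)) := by positivity
      have hΨx : 0 ≤ (ε * Real.sqrt ν + m1) * Ψ x := mul_nonneg hεm.le (hΨ1 x hx1)
      have hKs : 0 ≤ K * Real.sqrt ν := by positivity
      by_cases hGx : G x
      · have h1 := hit_of_G p G E (T1 + 1 + n) x hGx
        have h4 := hfle x hx1
        rw [h1, mul_one]
        simp only [hg]
        linarith
      · by_cases hM' : M x + m1 ≤ 0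
        · have h4 : f x ≤ 0 := (hfle x hx1).trans hM'
          simp only [hg]
          linarith
        push Not at hM'
        by_cases hl' : L x ≤ -l0
        · have h4 : f x ≤ 0 := by
            have h5 : 1 ≤ Real.exp (-κ * (L x + l0)) := by
              apply Real.one_le_exp
              have h5 : 0 ≤ κ * (-(L x + l0)) := mul_nonneg hκ.le (by linarith)
              linarith
            have h6 : 2 * (M x + m1 + B) * 1 ≤ 2 * (M x + m1 + B) *
                Real.exp (-κ * (L x + l0)) := mul_le_mul_of_nonneg_left h5 (by linarith)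
            simp only [hf]
            linarith
          simp only [hg]
          linarith
        push Not at hl'
        by_cases hLν : ν ≤ L x
        · have h4 : M x < ε * Real.sqrt ν := by
            by_contra hcon
            push Not at hcon
            exact hGx ⟨hLν, hcon⟩
          have h5 := hΨ2 x hM' hLν
          have h6 : (ε * Real.sqrt ν + m1) * 1 ≤ (ε * Real.sqrt ν + m1) * Ψ x :=
            mul_le_mul_of_nonneg_left h5 hεm.le
          have h7 := hfle x hx1
          simp only [hg]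
          linarith
        push Not at hLν
        have hEx : ¬ E x := by
          rintro (h | h | h)
          · linarith
          · linarith
          · linarith
        by_cases hKx : K * Real.sqrt ν ≤ M x
        · have h1 := hst2 ν hνν2 ε m1 hε0 hε1 hm1p (T1 + 1 + n) x hKx hl' (by linarith)
          have h2 : ρ ^ (T1 + 1 + n) * Real.exp (κ * (ν + D2 - L x)) ≤
              ρ ^ n * Real.exp (κ * (ν + Dm + l0)) := by
            apply mul_le_mul _ _ (Real.exp_pos _).le (by positivity)
            · exact pow_le_pow_of_le_one hρ0.le hκ1.le (by omega)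
            · apply Real.exp_le_exp.2
              apply mul_le_mul_of_nonneg_left _ hκ.le
              linarith
          have h3 : a * (3 / 4 - Real.exp (-κ * (L x + l0)) -
              ρ ^ (T1 + 1 + n) * Real.exp (κ * (ν + D2 - L x))) ≤
              a * hit p G E (T1 + 1 + n) x := mul_le_mul_of_nonneg_left h1 ha0.le
          have h4 : a * (ρ ^ (T1 + 1 + n) * Real.exp (κ * (ν + D2 - L x))) ≤ r1 := by
            have e : r1 = a * (ρ ^ n * Real.exp (κ * (ν + Dm + l0))) := by
              rw [hr1]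
              ring
            rw [e]
            exact mul_le_mul_of_nonneg_left h2 ha0.le
          set w : ℝ := Real.exp (-κ * (L x + l0)) with hw
          have hw0 : 0 < w := Real.exp_pos _
          have h5 : f x ≤ (M x + m1) * (1 - 2 * w) := by
            simp only [hf]
            rw [← hw]
            have h6 : 0 < B * w := mul_pos hB0 hw0
            linarith
          rcases le_total (1 - 2 * w) 0 with h6 | h6
          · have h7 : f x ≤ 0 := h5.trans (mul_nonpos_of_nonneg_of_nonpos hM'.le h6)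
            simp only [hg]
            linarith
          · have h7 : (M x + m1) * (1 - 2 * w) ≤ a / 2 * (1 - 2 * w) := by
              apply mul_le_mul_of_nonneg_right _ h6
              rw [ha]
              linarith
            simp only [hg]
            linarith
        · push Not at hKx
          have e0 : T1 + 1 + n = (T1 + n) + 1 := by omega
          rw [e0, hit_of_alive p G E (T1 + n) x hGx hEx]
          refine (hgsub x hM').trans ?_
          have h1 : ∀ s : S d, g (x + step s) ≤ a * hit p G E (T1 + n) (x + step s) + r1 +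
              a * ρ ^ T1 * Real.exp (κ * (ν + Dm - L (x + step s))) := by
            intro s
            have hMs := abs_le.1 (hDM s)
            have hLs := abs_le.1 (hDL s)
            apply ih
            · rw [map_add]
              linarith [hMs.1]
            · rw [map_add]
              linarith [hMs.2]
            · rw [map_add]
              linarith [hLs.2]
          refine (sum_mul_mono p hp h1).trans ?_
          have h2 : ∑ s, p s * (a * hit p G E (T1 + n) (x + step s) + r1 +
              a * ρ ^ T1 * Real.exp (κ * (ν + Dm - L (x + step s)))) =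
              a * ∑ s, p s * hit p G E (T1 + n) (x + step s) + r1 * ∑ s, p s +
                a * ρ ^ T1 * Real.exp (κ * (ν + Dm)) *
                  ∑ s, p s * Real.exp (-κ * L (x + step s)) := by
            simp only [Finset.mul_sum, ← Finset.sum_add_distrib]
            refine Finset.sum_congr rfl fun s _ => ?_
            have e2 : Real.exp (κ * (ν + Dm - L (x + step s))) =
                Real.exp (κ * (ν + Dm)) * Real.exp (-κ * L (x + step s)) := by
              rw [← Real.exp_add]
              congr 1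
              ring
            rw [e2]
            ring
          rw [h2, hs, mul_one]
          have h3 := sum_exp p L κ ρ le_rfl x
          have h4 : a * ρ ^ T1 * Real.exp (κ * (ν + Dm)) *
              ∑ s, p s * Real.exp (-κ * L (x + step s)) ≤
              a * ρ ^ T1 * Real.exp (κ * (ν + Dm)) * (ρ * Real.exp (-κ * L x)) :=
            mul_le_mul_of_nonneg_left h3 (by positivity)
          have h5 : a * ρ ^ T1 * Real.exp (κ * (ν + Dm)) * (ρ * Real.exp (-κ * L x)) =
              a * ρ ^ (T1 + 1) * Real.exp (κ * (ν + Dm - L x)) := by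
            have e2 : Real.exp (κ * (ν + Dm - L x)) =
                Real.exp (κ * (ν + Dm)) * Real.exp (-κ * L x) := by
              rw [← Real.exp_add]
              congr 1
              ring
            rw [e2, pow_succ]
            ring
          linarith
  have h0 := hclaim n 0 (by rw [map_zero]; linarith) (by rw [map_zero]; positivity)
    (by rw [map_zero]; linarith)
  -- the value at the origin
  have hf0 : m1 / 2 ≤ f 0 := by
    simp only [hf, map_zero, zero_add]
    rw [hl08]
    linarith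
  have hΨ0 : (ε * Real.sqrt ν + m1) * Ψ 0 ≤ m1 / 4 := by
    have h1 : 0 ≤ Ψ 0 := hΨ1 0 (by rw [map_zero]; linarith)
    have h2 : (ε * Real.sqrt ν + m1) * Ψ 0 ≤ (2 * (ε * Real.sqrt ν)) * Ψ 0 :=
      mul_le_mul_of_nonneg_right (by linarith) h1
    have h3 : (2 * (ε * Real.sqrt ν)) * Ψ 0 ≤ (2 * (ε * Real.sqrt ν)) *
        (C1 * m1 / Real.sqrt ν) := mul_le_mul_of_nonneg_left hΨ4 (by positivity)
    have h4 : (2 * (ε * Real.sqrt ν)) * (C1 * m1 / Real.sqrt ν) = 2 * (ε * C1) * m1 := by
      field_simp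
    have h5 : 2 * (ε * C1) * m1 ≤ 2 * (1 / 8) * m1 := by
      apply mul_le_mul_of_nonneg_right _ hm1p.le
      linarith
    linarith
  have hrem : r1 ≤ m1 / 16 := by
    have h1 : r1 ≤ 2 * (K + 2) * Real.sqrt ν * (Real.exp (-(2 * κ * ν)) *
        Real.exp (κ * (ν + Dm + l0))) := by
      rw [hr1, mul_assoc]
      apply mul_le_mul haK _ (by positivity) (by positivity)
      exact mul_le_mul_of_nonneg_right hρn (Real.exp_pos _).le
    have h2 : Real.exp (-(2 * κ * ν)) * Real.exp (κ * (ν + Dm + l0)) =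
        Real.exp (κ * (Dm + l0)) * Real.exp (-(κ * ν)) := by
      rw [← Real.exp_add, ← Real.exp_add]
      congr 1
      ring
    have h3 : Real.exp (-(κ * ν)) ≤ 2 / (κ ^ 2 * ν ^ 2) := by
      rw [Real.exp_neg, ← one_div, div_le_div_iff₀ (Real.exp_pos _) (by positivity)]
      have := Real.quadratic_le_exp_of_nonneg (x := κ * ν) (by positivity)
      have h4 : 0 < κ * ν := by positivity
      linarith
    have h4 : 2 * (K + 2) * Real.sqrt ν * (Real.exp (κ * (Dm + l0)) * Real.exp (-(κ * ν))) ≤
        2 * (K + 2) * ν * (Real.exp (κ * (Dm + l0)) * (2 / (κ ^ 2 * ν ^ 2))) := by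
      apply mul_le_mul _ _ (by positivity) (by positivity)
      · exact mul_le_mul_of_nonneg_left hsνν (by positivity)
      · exact mul_le_mul_of_nonneg_left h3 (by positivity)
    have h5 : 2 * (K + 2) * ν * (Real.exp (κ * (Dm + l0)) * (2 / (κ ^ 2 * ν ^ 2))) =
        B / 16 * (W / ν) := by
      rw [hW]
      field_simp
      ring
    have h6 : W / ν ≤ 1 := (div_le_one hν0).2 hνW
    have h7 : B / 16 * (W / ν) ≤ B / 16 * 1 := mul_le_mul_of_nonneg_left h6 (by positivity)
    rw [h2] at h1
    linarith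
  have hrem2 : a * ρ ^ n * Real.exp (κ * (ν + Dm - L 0)) ≤ r1 := by
    rw [hr1, map_zero]
    apply mul_le_mul_of_nonneg_left _ (by positivity)
    apply Real.exp_le_exp.2
    apply mul_le_mul_of_nonneg_left _ hκ.le
    linarith
  have hg0 : m1 / 4 ≤ g 0 := by
    simp only [hg]
    linarith
  have hahit : m1 / 8 ≤ a * hit p G E (n + n) 0 := by linarith
  have hhit0 : 0 ≤ hit p G E (n + n) 0 := hit_nonneg p (fun s => (hp s).le) G E _ 0
  have hfin : 1 / (16 * (K + 2)) * m1 / Real.sqrt ν ≤ hit p G E (n + n) 0 := by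
    rw [div_le_iff₀ hsν]
    have h1 : a * hit p G E (n + n) 0 ≤ 2 * (K + 2) * Real.sqrt ν * hit p G E (n + n) 0 :=
      mul_le_mul_of_nonneg_right haK hhit0
    have h2 : 1 / (16 * (K + 2)) * m1 = 1 / (2 * (K + 2)) * (m1 / 8) := by
      field_simp
      ring
    rw [h2]
    have h3 : 1 / (2 * (K + 2)) * (m1 / 8) ≤ 1 / (2 * (K + 2)) *
        (2 * (K + 2) * Real.sqrt ν * hit p G E (n + n) 0) :=
      mul_le_mul_of_nonneg_left (hahit.trans h1) (by positivity)
    have h4 : 1 / (2 * (K + 2)) * (2 * (K + 2) * Real.sqrt ν * hit p G E (n + n) 0) =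
        hit p G E (n + n) 0 * Real.sqrt ν := by
      field_simp
    linarith
  exact hfin.trans (hit_succ_le p (fun s => (hp s).le) hs G E (n + n) T hnT 0)

end Pool.Agent.MP_ef0d6f_pr
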