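import Pool.Agent.Lib.MP_ef0d6f_pr.Defs

/-! Task 18 (Speed): a walk with positive speed spends a bounded time per site. -/

namespace Pool.Agent.MP_ef0d6f_pr

open MeasureTheory Filter Topology

variable {d : ℕ}

namespace Speed

/-- The number of visits to a finite set of sites. -/
theorem sum_NV_le (x : ℕ → V d) (T : ℕ) (I : Finset (V d)) (R : ℕ)
    (hR : ∀ t, x t ∈ I → t < R) (M : ℕ) :
    ∑ y ∈ I, ((min (NV x T y) M : ℕ) : ℝ) ≤ R := by
  have h1 : ∑ y ∈ I, ((min (NV x T y) M : ℕ) : ℝ) ≤ ((∑ y ∈ I, NV x T y : ℕ) : ℝ) := by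
    push_cast
    apply Finset.sum_le_sum
    intro y _
    exact min_le_left _ _
  refine h1.trans ?_
  rw [Nat.cast_le]
  have h2 : ∑ y ∈ I, NV x T y = ((Finset.range T).filter (fun t => x t ∈ I)).card := by
    have := Finset.card_eq_sum_card_fiberwise (f := x)
      (s := (Finset.range T).filter (fun t => x t ∈ I)) (t := I)
      (by intro t ht; simpa using (Finset.mem_filter.mp ht).2)
    rw [this]
    apply Finset.sum_congr rfl
    intro y hy
    unfold NV
    congr 1
    ext t
    simp only [Finset.mem_filter, Finset.mem_range]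
    constructor
    · rintro ⟨ht, rfl⟩
      exact ⟨⟨ht, hy⟩, rfl⟩
    · rintro ⟨⟨ht, _⟩, rfl⟩
      exact ⟨ht, rfl⟩
  rw [h2]
  calc ((Finset.range T).filter (fun t => x t ∈ I)).card ≤ (Finset.range R).card := by
        apply Finset.card_le_card
        intro t ht
        rw [Finset.mem_filter] at ht
        exact Finset.mem_range.mpr (hR t ht.2)
    _ = R := Finset.card_range R

theorem sum_NV_le' (x : ℕ → V d) (T : ℕ) (I : Finset (V d)) (M K : ℕ)
    (hI : I.card ≤ K) :
    ∑ y ∈ I, ((min (NV x T y) M : ℕ) : ℝ) ≤ K * M := by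
  calc ∑ y ∈ I, ((min (NV x T y) M : ℕ) : ℝ) ≤ ∑ y ∈ I, (M : ℝ) := by
        apply Finset.sum_le_sum
        intro y _
        exact_mod_cast min_le_right _ _
    _ = I.card * M := by rw [Finset.sum_const, nsmul_eq_mul]
    _ ≤ K * M := by
        apply mul_le_mul_of_nonneg_right _ (Nat.cast_nonneg M)
        exact_mod_cast hI

end Speed

theorem speed {Ω : Type*} [MeasurableSpace Ω] (μ : Measure Ω) [IsProbabilityMeasure μ]
    (Y X : ℕ → Ω → V d) (hYm : ∀ n, Measurable (Y n)) (hXm : ∀ n, Measurable (X n))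
    (hY : ∀ᵐ ω ∂μ, ∀ n j, |Y n ω j| ≤ (n : ℤ)) (v : Fin d → ℝ) (hv : v ≠ 0)
    (hlim : ∀ᵐ ω ∂μ, ∀ j, Tendsto (fun n : ℕ => (X n ω j : ℝ) / n) atTop (𝓝 (v j))) :
    ∃ C : ℝ, 0 < C ∧ ∀ M : ℕ, ∃ K0 : ℕ, ∀ K : ℕ, K0 ≤ K → ∀ T : ℕ,
      ∫ ω, ∑ y ∈ (Finset.range (K + 1)).image (fun k => Y k ω),
        ((min (NV (fun n => X n ω) T y) M : ℕ) : ℝ) ∂μ ≤ C * K := by
  classical
  obtain ⟨j, hj⟩ : ∃ j, v j ≠ 0 := by
    by_contra hc
    push Not at hc
    exact hv (funext hc)
  have hcpos : 0 < |v j| := abs_pos.mpr hj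
  set c := |v j| with hc
  -- the bad event
  set Bad : ℕ → Set Ω := fun K => {ω | ∃ n, K ≤ n ∧ |(X n ω j : ℝ)| < c / 2 * n} with hBad
  have hBm : ∀ K, MeasurableSet (Bad K) := by
    intro K
    have : Bad K = ⋃ n : ℕ, ⋃ _ : K ≤ n, {ω | |(X n ω j : ℝ)| < c / 2 * n} := by
      ext ω
      simp [hBad]
    rw [this]
    refine MeasurableSet.iUnion fun n => MeasurableSet.iUnion fun _ => ?_
    have hm : Measurable fun ω => |(X n ω j : ℝ)| := by
      have h1 : Measurable fun ω => X n ω j := (measurable_pi_apply j).comp (hXm n)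
      have h2 : Measurable fun z : ℤ => |(z : ℝ)| := measurable_from_top
      exact h2.comp h1
    exact measurableSet_lt hm measurable_const
  have hBanti : Antitone Bad := by
    intro K K' hKK ω hω
    obtain ⟨n, hn, hn'⟩ := hω
    exact ⟨n, hKK.trans hn, hn'⟩
  have hBnull : μ (⋂ K, Bad K) = 0 := by
    have : ∀ᵐ ω ∂μ, ω ∉ ⋂ K, Bad K := by
      filter_upwards [hlim] with ω hω hmem
      have h1 := (hω j).abs
      have h2 : ∀ᶠ n : ℕ in atTop, c / 2 < |(X n ω j : ℝ) / n| :=
        h1.eventually (lt_mem_nhds (by rw [← hc]; linarith))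
      obtain ⟨n0, hn0⟩ := eventually_atTop.mp h2
      have h3 := Set.mem_iInter.mp hmem (max n0 1)
      obtain ⟨n, hn, hn'⟩ := h3
      have hnpos : (0 : ℝ) < n := by
        have : 1 ≤ n := (le_max_right _ _).trans hn
        exact_mod_cast this
      have h4 := hn0 n ((le_max_left _ _).trans hn)
      rw [abs_div, Nat.abs_cast, lt_div_iff₀ hnpos] at h4
      linarith
    rw [ae_iff] at this
    have he : {a | ¬ a ∉ ⋂ K, Bad K} = ⋂ K, Bad K := by
      ext a
      simp
    rwa [he] at this
  have hBlim : Tendsto (fun K => μ.real (Bad K)) atTop (𝓝 0) := by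
    have h1 : Tendsto (fun K => μ (Bad K)) atTop (𝓝 (μ (⋂ K, Bad K))) :=
      tendsto_measure_iInter_atTop (fun K => (hBm K).nullMeasurableSet) hBanti
        ⟨0, measure_ne_top _ _⟩
    rw [hBnull] at h1
    have h2 := (ENNReal.tendsto_toReal (by simp : (0 : ENNReal) ≠ ⊤)).comp h1
    rw [ENNReal.toReal_zero] at h2
    exact h2
  refine ⟨3 + 2 / c + 2, by positivity, ?_⟩
  intro M
  have hev : ∀ᶠ K in atTop, μ.real (Bad K) < 1 / (2 * (M + 1)) :=
    hBlim.eventually (gt_mem_nhds (by positivity))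
  obtain ⟨K1, hK1⟩ := eventually_atTop.mp hev
  refine ⟨max K1 1, ?_⟩
  intro K hK T
  have hK1' := hK1 K ((le_max_left _ _).trans hK)
  have hKpos : (1 : ℝ) ≤ K := by exact_mod_cast (le_max_right _ _).trans hK
  set a : ℝ := K + 2 * K / c + 2 with ha
  have hapos : 0 ≤ a := by positivity
  have hbound : ∀ᵐ ω ∂μ, ∑ y ∈ (Finset.range (K + 1)).image (fun k => Y k ω),
        ((min (NV (fun n => X n ω) T y) M : ℕ) : ℝ) ≤
        a + (Bad K).indicator (fun _ => ((K + 1 : ℕ) : ℝ) * M) ω := by
    filter_upwards [hY] with ω hω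
    by_cases hb : ω ∈ Bad K
    · rw [Set.indicator_of_mem hb]
      have hcard : ((Finset.range (K + 1)).image (fun k => Y k ω)).card ≤ K + 1 := by
        calc _ ≤ (Finset.range (K + 1)).card := Finset.card_image_le
          _ = K + 1 := Finset.card_range _
      have := Speed.sum_NV_le' (fun n => X n ω) T
        ((Finset.range (K + 1)).image (fun k => Y k ω)) M (K + 1) hcard
      linarith
    · rw [Set.indicator_of_notMem hb, add_zero]
      have hgood : ∀ n, K ≤ n → c / 2 * n ≤ |(X n ω j : ℝ)| := by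
        intro n hn
        by_contra hlt
        push Not at hlt
        exact hb ⟨n, hn, hlt⟩
      have hR : ∀ t, (fun n => X n ω) t ∈ (Finset.range (K + 1)).image (fun k => Y k ω) →
          t < K + ⌈2 * K / c⌉₊ + 1 := by
        intro t ht
        by_cases htK : t < K
        · omega
        · push Not at htK
          rw [Finset.mem_image] at ht
          obtain ⟨k, hk, hkt⟩ := ht
          rw [Finset.mem_range] at hk
          have h1 := hgood t htK
          have h2 := hω k j
          rw [hkt] at h2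
          have h3 : |(X t ω j : ℝ)| ≤ K := by
            have h4 : |X t ω j| ≤ (K : ℤ) := h2.trans (by exact_mod_cast Nat.lt_succ_iff.mp hk)
            calc |(X t ω j : ℝ)| = ((|X t ω j| : ℤ) : ℝ) := by push_cast; rfl
              _ ≤ ((K : ℤ) : ℝ) := by exact_mod_cast h4
              _ = K := by push_cast; rfl
          have h5 : (t : ℝ) ≤ 2 * K / c := by
            rw [le_div_iff₀ hcpos]
            nlinarith
          have h6 : (t : ℝ) ≤ (⌈2 * K / c⌉₊ : ℝ) := h5.trans (Nat.le_ceil _)
          have h7 : t ≤ ⌈2 * K / c⌉₊ := by exact_mod_cast h6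
          omega
      have h := Speed.sum_NV_le (fun n => X n ω) T
        ((Finset.range (K + 1)).image (fun k => Y k ω)) _ hR M
      refine h.trans ?_
      push_cast
      have h8 : (⌈2 * K / c⌉₊ : ℝ) < 2 * K / c + 1 := Nat.ceil_lt_add_one (by positivity)
      linarith
  have hint : Integrable (fun ω => a + (Bad K).indicator (fun _ => ((K + 1 : ℕ) : ℝ) * M) ω)
      μ := (integrable_const a).add ((integrable_const _).indicator (hBm K))
  calc ∫ ω, ∑ y ∈ (Finset.range (K + 1)).image (fun k => Y k ω),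
        ((min (NV (fun n => X n ω) T y) M : ℕ) : ℝ) ∂μ
      ≤ ∫ ω, (a + (Bad K).indicator (fun _ => ((K + 1 : ℕ) : ℝ) * M) ω) ∂μ := by
        apply integral_mono_of_nonneg _ hint hbound
        filter_upwards with ω
        exact Finset.sum_nonneg fun y _ => Nat.cast_nonneg _
    _ = a + μ.real (Bad K) * (((K + 1 : ℕ) : ℝ) * M) := by
        rw [integral_add (integrable_const a) ((integrable_const _).indicator (hBm K)),
          integral_const, integral_indicator_const _ (hBm K)]
        simp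
    _ ≤ (3 + 2 / c + 2) * K := by
        have h1 : μ.real (Bad K) * (((K + 1 : ℕ) : ℝ) * M) ≤ K + 1 := by
          have h2 : μ.real (Bad K) * M ≤ 1 / 2 := by
            have hM : (0 : ℝ) < (M : ℝ) + 1 := by positivity
            calc μ.real (Bad K) * M ≤ 1 / (2 * (M + 1)) * M :=
                  mul_le_mul_of_nonneg_right hK1'.le (Nat.cast_nonneg M)
              _ ≤ 1 / 2 := by
                  rw [div_mul_eq_mul_div, div_le_div_iff₀ (by positivity) (by norm_num)]
                  linarith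
          push_cast
          have hKp : (0 : ℝ) ≤ (K : ℝ) + 1 := by positivity
          calc μ.real (Bad K) * (((K : ℝ) + 1) * M) = (μ.real (Bad K) * M) * ((K : ℝ) + 1) := by
                ring
            _ ≤ 1 / 2 * ((K : ℝ) + 1) := mul_le_mul_of_nonneg_right h2 hKp
            _ ≤ K + 1 := by linarith
        have h3 : 2 * (K : ℝ) / c = 2 / c * K := by ring
        rw [ha, h3]
        nlinarith

end Pool.Agent.MP_ef0d6f_pr
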