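import Pool.Agent.Lib.MP_ef0d6f_pr.Calc1

/-! Task 6 (Stage): the probabilities of completing lists of stages. -/

namespace Pool.Agent.MP_ef0d6f_pr

variable {d : ℕ}

section cp
variable (κ : V d → S d → ℝ) (Γ : V d → Prop)

theorem cp_nil (T : ℕ) (x : V d) : cp κ Γ T [] x = 1 := by
  cases T <;> simp [cp]

theorem Stage.cp_zero (P : V d → V d → Prop) (L : List (V d → V d → Prop)) (x : V d) :
    cp κ Γ 0 (P :: L) x = 0 := by
  simp [cp]

open Classical in
theorem Stage.cp_succ (T : ℕ) (P : V d → V d → Prop) (L : List (V d → V d → Prop)) (x : V d) :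
    cp κ Γ (T + 1) (P :: L) x = ∑ s : S d, κ x s *
      (if Γ (x + step s) then 0
        else if P x (x + step s) then cp κ Γ T L (x + step s)
        else cp κ Γ T (P :: L) (x + step s)) := by
  simp only [cp]

theorem cp_nonneg (hκ : ∀ x s, 0 ≤ κ x s) (T : ℕ) (L : List (V d → V d → Prop)) (x : V d) :
    0 ≤ cp κ Γ T L x := by
  induction T generalizing L x with
  | zero => cases L <;> simp [cp]
  | succ T ih =>
    cases L with
    | nil => rw [cp_nil]; norm_num
    | cons P L =>
      rw [Stage.cp_succ]
      refine Finset.sum_nonneg fun s _ => mul_nonneg (hκ _ _) ?_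
      split_ifs
      · exact le_rfl
      · exact ih _ _
      · exact ih _ _

theorem cp_le_one (hκ : ∀ x s, 0 ≤ κ x s) (hs : ∀ x, ∑ s, κ x s ≤ 1) (T : ℕ)
    (L : List (V d → V d → Prop)) (x : V d) : cp κ Γ T L x ≤ 1 := by
  induction T generalizing L x with
  | zero => cases L <;> simp [cp]
  | succ T ih =>
    cases L with
    | nil => rw [cp_nil]
    | cons P L =>
      rw [Stage.cp_succ]
      refine le_trans (Finset.sum_le_sum (g := fun s => κ x s) fun s _ => ?_) (hs x)
      refine mul_le_of_le_one_right (hκ x s) ?_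
      split_ifs
      · norm_num
      · exact ih _ _
      · exact ih _ _

theorem Stage.cp_le_succ (hκ : ∀ x s, 0 ≤ κ x s) (T : ℕ)
    (L : List (V d → V d → Prop)) (x : V d) : cp κ Γ T L x ≤ cp κ Γ (T + 1) L x := by
  induction T generalizing L x with
  | zero =>
    cases L with
    | nil => rw [cp_nil, cp_nil]
    | cons P L => rw [Stage.cp_zero]; exact cp_nonneg κ Γ hκ _ _ _
  | succ T ih =>
    cases L with
    | nil => rw [cp_nil, cp_nil]
    | cons P L =>
      rw [Stage.cp_succ, Stage.cp_succ]
      refine Finset.sum_le_sum fun s _ => mul_le_mul_of_nonneg_left ?_ (hκ x s)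
      split_ifs
      · exact le_rfl
      · exact ih _ _
      · exact ih _ _

theorem cp_mono (hκ : ∀ x s, 0 ≤ κ x s) (hs : ∀ x, ∑ s, κ x s ≤ 1) (T T' : ℕ)
    (h : T ≤ T') (L : List (V d → V d → Prop)) (x : V d) :
    cp κ Γ T L x ≤ cp κ Γ T' L x :=
  monotone_nat_of_le_succ (f := fun T => cp κ Γ T L x)
    (fun T => Stage.cp_le_succ κ Γ hκ T L x) h

/-- fewer stages are easier -/
theorem cp_tail (hκ : ∀ x s, 0 ≤ κ x s) (hs : ∀ x, ∑ s, κ x s ≤ 1) (T : ℕ)
    (P : V d → V d → Prop) (L : List (V d → V d → Prop)) (x : V d) :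
    cp κ Γ T (P :: L) x ≤ cp κ Γ T L x := by
  induction T generalizing P L x with
  | zero => rw [Stage.cp_zero]; exact cp_nonneg κ Γ hκ _ _ _
  | succ T ih =>
    cases L with
    | nil => rw [cp_nil]; exact cp_le_one κ Γ hκ hs _ _ _
    | cons Q L =>
      rw [Stage.cp_succ, Stage.cp_succ]
      refine Finset.sum_le_sum fun s _ => mul_le_mul_of_nonneg_left ?_ (hκ x s)
      split_ifs
      · exact le_rfl
      · exact ih _ _ _
      · exact le_rfl
      · exact (ih _ _ _).trans (ih _ _ _)
      · exact ih _ _ _

/-- complete the stage `P`, then the list `L` -/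
theorem cp_cons (hκ : ∀ x s, 0 ≤ κ x s) (hs : ∀ x, ∑ s, κ x s ≤ 1) (T T' : ℕ)
    (P : V d → V d → Prop) (L : List (V d → V d → Prop)) (r : ℝ) (hr : 0 ≤ r)
    (h : ∀ x y, P x y → r ≤ cp κ Γ T' L y) (x : V d) :
    cp κ Γ T [P] x * r ≤ cp κ Γ (T + T') (P :: L) x := by
  induction T generalizing x with
  | zero => rw [Stage.cp_zero, zero_mul]; exact cp_nonneg κ Γ hκ _ _ _
  | succ T ih =>
    rw [show T + 1 + T' = (T + T') + 1 by ring, Stage.cp_succ, Stage.cp_succ, Finset.sum_mul]
    refine Finset.sum_le_sum fun s _ => ?_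
    rw [mul_assoc]
    refine mul_le_mul_of_nonneg_left ?_ (hκ x s)
    split_ifs with h1 h2
    · simp
    · rw [cp_nil, one_mul]
      exact (h _ _ h2).trans (cp_mono κ Γ hκ hs T' (T + T') (by omega) _ _)
    · exact ih _

/-- hit `b`, then hit `c` -/
theorem cp_chain (hκ : ∀ x s, 0 ≤ κ x s) (hs : ∀ x, ∑ s, κ x s ≤ 1) (T T' : ℕ)
    (b c x : V d) (L : List (V d → V d → Prop)) :
    cp κ Γ T [fun _ y => y = b] x * cp κ Γ T' ((fun _ y => y = c) :: L) b ≤
      cp κ Γ (T + T') ((fun _ y => y = c) :: L) x := by
  induction T generalizing x with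
  | zero => rw [Stage.cp_zero, zero_mul]; exact cp_nonneg κ Γ hκ _ _ _
  | succ T ih =>
    rw [show T + 1 + T' = (T + T') + 1 by ring, Stage.cp_succ κ Γ T, Stage.cp_succ κ Γ (T + T'),
      Finset.sum_mul]
    refine Finset.sum_le_sum fun s _ => ?_
    rw [mul_assoc]
    refine mul_le_mul_of_nonneg_left ?_ (hκ x s)
    have hm : cp κ Γ T' ((fun _ y => y = c) :: L) b ≤
        cp κ Γ (T + T') ((fun _ y => y = c) :: L) b :=
      cp_mono κ Γ hκ hs T' (T + T') (by omega) _ _
    by_cases h1 : Γ (x + step s)
    · simp [h1]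
    · rw [if_neg h1, if_neg h1]
      refine le_trans (b := cp κ Γ (T + T') ((fun _ y => y = c) :: L) (x + step s)) ?_ ?_
      · by_cases h2 : x + step s = b
        · rw [if_pos h2, cp_nil, one_mul, h2]
          exact hm
        · rw [if_neg h2]
          exact ih _
      · by_cases h3 : x + step s = c
        · rw [if_pos h3]
          exact cp_tail κ Γ hκ hs _ _ _ _
        · rw [if_neg h3]

/-- a weaker stage predicate, ending at the same vertex -/
theorem cp_weaken (hκ : ∀ x s, 0 ≤ κ x s) (hs : ∀ x, ∑ s, κ x s ≤ 1) (T : ℕ)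
    (P Q : V d → V d → Prop) (h : ∀ x y, P x y → Q x y) (x : V d) :
    cp κ Γ T [P] x ≤ cp κ Γ T [Q] x := by
  induction T generalizing x with
  | zero => rw [Stage.cp_zero, Stage.cp_zero]
  | succ T ih =>
    rw [Stage.cp_succ, Stage.cp_succ]
    refine Finset.sum_le_sum fun s _ => mul_le_mul_of_nonneg_left ?_ (hκ x s)
    by_cases h1 : Γ (x + step s)
    · simp [h1]
    · rw [if_neg h1, if_neg h1]
      by_cases h2 : P x (x + step s)
      · rw [if_pos h2, if_pos (h _ _ h2)]
      · rw [if_neg h2]
        by_cases h3 : Q x (x + step s)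
        · rw [if_pos h3, cp_nil]
          exact cp_le_one κ Γ hκ hs _ _ _
        · rw [if_neg h3]
          exact ih _

theorem Stage.comp_nil (w : List (S d)) (x : V d) : Comp Γ w [] x ↔ True := by
  cases w <;> simp [Comp]

theorem Stage.comp_nil_cons (P : V d → V d → Prop) (L : List (V d → V d → Prop)) (x : V d) :
    Comp Γ [] (P :: L) x ↔ False := by
  simp [Comp]

theorem Stage.comp_cons (s : S d) (w : List (S d)) (P : V d → V d → Prop)
    (L : List (V d → V d → Prop)) (x : V d) :
    Comp Γ (s :: w) (P :: L) x ↔ ¬ Γ (x + step s) ∧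
      ((P x (x + step s) ∧ Comp Γ w L (x + step s)) ∨
        (¬ P x (x + step s) ∧ Comp Γ w (P :: L) (x + step s))) := by
  simp only [Comp]

theorem Stage.EQ_zero (T : ℕ) (x : V d) : EQ κ T x (fun _ => 0) = 0 := by
  induction T generalizing x with
  | zero => rfl
  | succ T ih => simp [EQ, ih]

theorem Stage.EQ_one (R : V d → Prop) (hR : ∀ x, R x → ∑ s, κ x s = 1)
    (hR' : ∀ x s, R x → κ x s ≠ 0 → R (x + step s)) (T : ℕ) (x : V d) (hx : R x) :
    EQ κ T x (fun _ => 1) = 1 := by
  induction T generalizing x with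
  | zero => rfl
  | succ T ih =>
    simp only [EQ]
    refine Eq.trans (Finset.sum_congr rfl fun s _ => ?_) (hR x hx)
    by_cases h0 : κ x s = 0
    · simp [h0]
    · rw [ih _ (hR' x s hx h0), mul_one]

/-- as an expectation -/
theorem cp_eq_EQ (hκ : ∀ x s, 0 ≤ κ x s) (R : V d → Prop) (hR : ∀ x, R x → ∑ s, κ x s = 1)
    (hR' : ∀ x s, R x → κ x s ≠ 0 → R (x + step s)) (T : ℕ)
    (L : List (V d → V d → Prop)) (x : V d) (hx : R x) :
    cp κ Γ T L x = EQ κ T x (fun w => ind (Comp Γ w L x)) := by
  induction T generalizing L x with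
  | zero =>
    cases L with
    | nil =>
      rw [cp_nil]
      simp only [EQ]
      rw [ind_of ((Stage.comp_nil Γ [] x).2 trivial)]
    | cons P L =>
      rw [Stage.cp_zero]
      simp only [EQ]
      rw [ind_of_not (fun h => (Stage.comp_nil_cons Γ P L x).1 h)]
  | succ T ih =>
    cases L with
    | nil =>
      rw [cp_nil]
      have : (fun w : List (S d) => ind (Comp Γ w [] x)) = fun _ => 1 := by
        funext w
        exact ind_of ((Stage.comp_nil Γ w x).2 trivial)
      rw [this, Stage.EQ_one κ R hR hR' _ _ hx]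
    | cons P L =>
      rw [Stage.cp_succ]
      simp only [EQ]
      refine Finset.sum_congr rfl fun s _ => ?_
      by_cases h0 : κ x s = 0
      · simp [h0]
      congr 1
      have hy := hR' x s hx h0
      by_cases h1 : Γ (x + step s)
      · rw [if_pos h1]
        have : (fun w : List (S d) => ind (Comp Γ (s :: w) (P :: L) x)) = fun _ => 0 := by
          funext w
          refine ind_of_not fun h => ?_
          exact ((Stage.comp_cons Γ s w P L x).1 h).1 h1
        rw [this, Stage.EQ_zero]
      · rw [if_neg h1]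
        by_cases h2 : P x (x + step s)
        · rw [if_pos h2, ih _ _ hy]
          congr 1
          funext w
          refine ind_congr ?_
          rw [Stage.comp_cons]
          tauto
        · rw [if_neg h2, ih _ _ hy]
          congr 1
          funext w
          refine ind_congr ?_
          rw [Stage.comp_cons]
          tauto

theorem comp_append (w v : List (S d)) (L : List (V d → V d → Prop)) (x : V d)
    (h : Comp Γ w L x) : Comp Γ (w ++ v) L x := by
  induction w generalizing L x with
  | nil =>
    cases L with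
    | nil => exact (Stage.comp_nil Γ _ x).2 trivial
    | cons P L => exact ((Stage.comp_nil_cons Γ P L x).1 h).elim
  | cons s w ih =>
    cases L with
    | nil => exact (Stage.comp_nil Γ _ x).2 trivial
    | cons P L =>
      rw [List.cons_append, Stage.comp_cons]
      rw [Stage.comp_cons] at h
      refine ⟨h.1, ?_⟩
      rcases h.2 with h | h
      · exact Or.inl ⟨h.1, ih _ _ h.2⟩
      · exact Or.inr ⟨h.1, ih _ _ h.2⟩

theorem Stage.zat_cons (s : S d) (w : List (S d)) (n : ℕ) :
    zat (s :: w) (n + 1) = step s + zat w n := by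
  simp [zat, pos]

theorem Stage.zat_z (w : List (S d)) : zat w 0 = 0 := by
  simp [zat, pos]

/-- completing a list means completing its first stage at some time, then the others -/
theorem comp_cons_iff (w : List (S d)) (P : V d → V d → Prop)
    (L : List (V d → V d → Prop)) (x : V d) :
    Comp Γ w (P :: L) x ↔ ∃ t < w.length,
      P (x + zat w t) (x + zat w (t + 1)) ∧ (∀ t' ≤ t, ¬ Γ (x + zat w (t' + 1))) ∧
      (∀ t' < t, ¬ P (x + zat w t') (x + zat w (t' + 1))) ∧
      Comp Γ (w.drop (t + 1)) L (x + zat w (t + 1)) := by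
  induction w generalizing x with
  | nil =>
    rw [Stage.comp_nil_cons]
    simp
  | cons s w ih =>
    rw [Stage.comp_cons, ih]
    constructor
    · rintro ⟨h1, ⟨h2, h3⟩ | ⟨h2, t, ht, h3, h4, h5, h6⟩⟩
      · refine ⟨0, by simp, ?_, ?_, ?_, ?_⟩
        · simpa [Stage.zat_z, Stage.zat_cons] using h2
        · intro t' ht'
          obtain rfl : t' = 0 := by omega
          simpa [Stage.zat_z, Stage.zat_cons] using h1
        · intro t' ht'
          omega
        · simpa [Stage.zat_z, Stage.zat_cons] using h3
      · refine ⟨t + 1, by simpa using ht, ?_, ?_, ?_, ?_⟩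
        · rw [Stage.zat_cons, Stage.zat_cons, ← add_assoc, ← add_assoc]
          exact h3
        · intro t' ht'
          rw [Stage.zat_cons, ← add_assoc]
          cases t' with
          | zero => rw [Stage.zat_z, add_zero]; exact h1
          | succ t' => exact h4 t' (by omega)
        · intro t' ht'
          cases t' with
          | zero =>
            rw [Stage.zat_cons, Stage.zat_z, Stage.zat_z, add_zero, add_zero]
            exact h2
          | succ t' =>
            rw [Stage.zat_cons, Stage.zat_cons, ← add_assoc, ← add_assoc]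
            exact h5 t' (by omega)
        · rw [Stage.zat_cons, ← add_assoc]
          simpa using h6
    · rintro ⟨t, ht, h3, h4, h5, h6⟩
      have h40 := h4 0 (by omega)
      rw [Stage.zat_cons, Stage.zat_z, add_zero] at h40
      refine ⟨h40, ?_⟩
      cases t with
      | zero =>
        left
        rw [Stage.zat_cons, Stage.zat_z, Stage.zat_z, add_zero, add_zero] at h3
        rw [Stage.zat_cons, Stage.zat_z, add_zero] at h6
        exact ⟨h3, by simpa using h6⟩
      | succ t =>
        right
        have h50 := h5 0 (by omega)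
        rw [Stage.zat_cons, Stage.zat_z, Stage.zat_z, add_zero, add_zero] at h50
        refine ⟨h50, t, by simpa using ht, ?_, ?_, ?_, ?_⟩
        · rw [Stage.zat_cons, Stage.zat_cons, ← add_assoc, ← add_assoc] at h3
          exact h3
        · intro t' ht'
          have := h4 (t' + 1) (by omega)
          rwa [Stage.zat_cons, ← add_assoc] at this
        · intro t' ht'
          have := h5 (t' + 1) (by omega)
          rwa [Stage.zat_cons, Stage.zat_cons, ← add_assoc, ← add_assoc] at this
        · rw [Stage.zat_cons, ← add_assoc] at h6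
          simpa using h6

end cp

/-- the transition probabilities of the walk on a graph -/
theorem trans_nonneg (p : S d → ℝ) (hp : ∀ s, 0 < p s) (Z : V d → V d → Prop) (x : V d)
    (s : S d) : 0 ≤ trans p Z x s := by
  classical
  unfold trans
  split_ifs with h
  · refine div_nonneg (hp s).le (Finset.sum_nonneg fun s' _ => ?_)
    split_ifs
    · exact (hp s').le
    · exact le_rfl
  · exact le_rfl

theorem Stage.sum_pos (p : S d → ℝ) (hp : ∀ s, 0 < p s) (q : S d → Prop) [DecidablePred q]
    (s : S d) (h : q s) : 0 < ∑ s' : S d, (if q s' then p s' else 0) := by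
  refine Finset.sum_pos' (fun s' _ => ?_) ⟨s, Finset.mem_univ _, ?_⟩
  · split_ifs
    · exact (hp s').le
    · exact le_rfl
  · rw [if_pos h]
    exact hp s

theorem trans_sum (p : S d → ℝ) (hp : ∀ s, 0 < p s) (Z : V d → V d → Prop) (x : V d)
    (h : ∃ s : S d, Z x (x + step s)) : ∑ s, trans p Z x s = 1 := by
  classical
  obtain ⟨s, hs⟩ := h
  have hpos := Stage.sum_pos p hp (fun s' => Z x (x + step s')) s hs
  unfold trans
  have : ∀ s' : S d, (if Z x (x + step s') then
      p s' / ∑ s'' : S d, (if Z x (x + step s'') then p s'' else 0) else 0) =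
      (if Z x (x + step s') then p s' else 0) /
        ∑ s'' : S d, (if Z x (x + step s'') then p s'' else 0) := by
    intro s'
    split_ifs <;> simp
  rw [Finset.sum_congr rfl (fun s' _ => this s'), ← Finset.sum_div]
  exact div_self hpos.ne'

theorem trans_sum_le (p : S d → ℝ) (hp : ∀ s, 0 < p s) (Z : V d → V d → Prop) (x : V d) :
    ∑ s, trans p Z x s ≤ 1 := by
  by_cases h : ∃ s : S d, Z x (x + step s)
  · exact (trans_sum p hp Z x h).le
  · have : ∀ s : S d, trans p Z x s = 0 := by
      intro s
      unfold trans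
      rw [if_neg]
      exact fun hz => h ⟨s, hz⟩
    simp [this]

theorem trans_ne_zero (p : S d → ℝ) (hp : ∀ s, 0 < p s) (Z : V d → V d → Prop) (x : V d)
    (s : S d) : trans p Z x s ≠ 0 ↔ Z x (x + step s) := by
  classical
  unfold trans
  constructor
  · intro h
    by_contra hz
    exact h (if_neg hz)
  · intro h
    rw [if_pos h]
    exact (div_pos (hp s) (Stage.sum_pos p hp (fun s' => Z x (x + step s')) s h)).ne'

end Pool.Agent.MP_ef0d6f_pr
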